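import Pool.Agent.P.MP_6f280c_lc.H5Code
import Pool.Agent.P.MP_6f280c_lc.H7Hit
import Pool.Agent.P.MP_6f280c_lc.H7Class
import Pool.Agent.P.MP_6f280c_lc.H7Adv
import Pool.Agent.P.MP_6f280c_lc.Main

/-! Definitions and toolbox for the colouring with `Δ + 1` colours.
Plan: /team-store/h48_6f280c_w11.md. -/

set_option autoImplicit false

namespace Pool.Agent.P.MP_6f280c_lc.Dc

open Finset

noncomputable section

variable {V I : Type} [Fintype V]

open Classical in
/-- the nodes with a given property -/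
def sel (P : V → Prop) : Finset V := univ.filter P

@[simp] theorem mem_sel {P : V → Prop} {v : V} : v ∈ sel P ↔ P v := by simp [sel]

theorem sel_congr {P Q : V → Prop} (h : ∀ v, P v ↔ Q v) : sel P = sel Q := by
  ext v; simp [h]

theorem sel_mono {P Q : V → Prop} (h : ∀ v, P v → Q v) : sel P ⊆ sel Q := fun v hv => by
  simpa using h v (by simpa using hv)

theorem card_sel_le {P Q : V → Prop} (h : ∀ v, P v → Q v) : (sel P).card ≤ (sel Q).card :=
  card_le_card (sel_mono h)

theorem card_sel_le_add {P Q R : V → Prop} (h : ∀ v, P v → Q v ∨ R v) :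
    (sel P).card ≤ (sel Q).card + (sel R).card := by
  classical
  refine le_trans (card_le_card (t := sel Q ∪ sel R) fun v hv => ?_) (card_union_le _ _)
  simpa using h v (by simpa using hv)

open Classical in
theorem card_sel_eq_sum (P : V → Prop) : ((sel P).card : ℝ) = ∑ v, if P v then (1 : ℝ) else 0 := by
  simp [sel]

open Classical in
theorem sum_sel (P : V → Prop) (f : V → ℝ) : ∑ v ∈ sel P, f v = ∑ v, if P v then f v else 0 := by
  simp [sel, sum_filter]

/-- all degrees are at most `D` -/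
def Deg (gr : I → SimpleGraph V) (D : ℕ) : Prop := ∀ i v, (nbr gr i v).card ≤ D

/-- a valid colouring of some of the nodes with colours `0, ..., D`, computed in `r` rounds -/
def PC (gr : I → SimpleGraph V) (D r : ℕ) (χ : I → V → Option ℕ) : Prop :=
  Loc gr r χ ∧ (∀ i v c, χ i v = some c → c ≤ D) ∧
    ∀ i v u c, (gr i).Adj v u → χ i v = some c → χ i u ≠ some c

/-- `χ'` extends `χ` -/
def Ext (χ χ' : I → V → Option ℕ) : Prop := ∀ i v c, χ i v = some c → χ' i v = some c

open Classical in
/-- the available colours -/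
def lst (G : SimpleGraph V) (D : ℕ) (χ : V → Option ℕ) (v : V) : Finset ℕ :=
  (range (D + 1)).filter (fun c => ∀ u, G.Adj v u → χ u ≠ some c)

/-- the neighbours without colour -/
def unc (G : SimpleGraph V) (χ : V → Option ℕ) (v : V) : Finset V :=
  sel (fun u => G.Adj v u ∧ χ u = none)

/-- the neighbours with a colour -/
def cold (G : SimpleGraph V) (χ : V → Option ℕ) (v : V) : Finset V :=
  sel (fun u => G.Adj v u ∧ χ u ≠ none)

/-- slack at least `s` -/
def Sl (G : SimpleGraph V) (D : ℕ) (χ : V → Option ℕ) (v : V) (s : ℕ) : Prop :=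
  (unc G χ v).card + s ≤ (lst G D χ v).card

/-- members of `U` in the clique of `v` -/
def clq (cl : V → V) (U : V → Prop) (v : V) : Finset V := sel (fun u => U u ∧ cl u = cl v)

/-- external neighbours in `U` -/
def extS (G : SimpleGraph V) (cl : V → V) (U : V → Prop) (v : V) : Finset V :=
  sel (fun u => G.Adj v u ∧ U u ∧ cl u ≠ cl v)

/-- non-neighbours in the clique -/
def antiS (G : SimpleGraph V) (cl : V → V) (U : V → Prop) (v : V) : Finset V :=
  sel (fun u => U u ∧ cl u = cl v ∧ u ≠ v ∧ ¬ G.Adj v u)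

/-- neighbours of `v` that miss many neighbours of `v` -/
def spr (G : SimpleGraph V) (E : ℕ) (v : V) : Finset V :=
  sel (fun u => G.Adj v u ∧ E ≤ 2 * (sel (fun w => G.Adj v w ∧ ¬ G.Adj u w)).card)

open Classical in
/-- colours of the segment `[lo, lo + Q)` that are used at neighbours -/
def rs (G : SimpleGraph V) (χ : V → Option ℕ) (lo Q : ℕ) (v : V) : Finset ℕ :=
  (Ico lo (lo + Q)).filter (fun c => ∃ u, G.Adj v u ∧ χ u = some c)

/-- the number of chances to repeat a colour in the neighbourhood of `v` -/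
def gap (G : SimpleGraph V) (E : ℕ) (χ : V → Option ℕ) (lo Q : ℕ) (v : V) : ℕ :=
  ∑ u ∈ sel (fun u => u ∈ spr G E v ∧ χ u = none), (rs G χ lo Q v \ rs G χ lo Q u).card

/-- locality with a radius that depends on the node -/
def VL (gr : I → SimpleGraph V) (ρ : I → V → ℕ) {α : Type} (f : I → V → α) : Prop :=
  ∀ i i' v, Agree (ρ i v) (gr i) (gr i') v → f i v = f i' v

variable {gr : I → SimpleGraph V} {G : SimpleGraph V} {D r : ℕ}

theorem mem_lst {χ : V → Option ℕ} {v : V} {c : ℕ} :
    c ∈ lst G D χ v ↔ c ≤ D ∧ ∀ u, G.Adj v u → χ u ≠ some c := by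
  simp [lst, Nat.lt_succ_iff]
theorem mem_unc {χ : V → Option ℕ} {v u : V} : u ∈ unc G χ v ↔ G.Adj v u ∧ χ u = none := by
  simp [unc]
theorem mem_cold {χ : V → Option ℕ} {v u : V} : u ∈ cold G χ v ↔ G.Adj v u ∧ χ u ≠ none := by
  simp [cold]
theorem mem_clq {cl : V → V} {U : V → Prop} {v u : V} :
    u ∈ clq cl U v ↔ U u ∧ cl u = cl v := by simp [clq]
theorem mem_extS {cl : V → V} {U : V → Prop} {v u : V} :
    u ∈ extS G cl U v ↔ G.Adj v u ∧ U u ∧ cl u ≠ cl v := by simp [extS]
theorem mem_antiS {cl : V → V} {U : V → Prop} {v u : V} :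
    u ∈ antiS G cl U v ↔ U u ∧ cl u = cl v ∧ u ≠ v ∧ ¬ G.Adj v u := by simp [antiS]
theorem mem_spr {E : ℕ} {v u : V} : u ∈ spr G E v ↔
    G.Adj v u ∧ E ≤ 2 * (sel (fun w => G.Adj v w ∧ ¬ G.Adj u w)).card := by simp [spr]
theorem mem_rs {χ : V → Option ℕ} {lo Q : ℕ} {v : V} {c : ℕ} : c ∈ rs G χ lo Q v ↔
    (lo ≤ c ∧ c < lo + Q) ∧ ∃ u, G.Adj v u ∧ χ u = some c := by simp [rs]

omit [Fintype V] in
theorem Ext.refl (χ : I → V → Option ℕ) : Ext χ χ := fun _ _ _ h => h
omit [Fintype V] in
theorem Ext.trans {χ χ' χ'' : I → V → Option ℕ} (h : Ext χ χ') (h' : Ext χ' χ'') : Ext χ χ'' :=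
  fun i v c e => h' i v c (h i v c e)
omit [Fintype V] in
theorem Ext.none {χ χ' : I → V → Option ℕ} (h : Ext χ χ') {i : I} {v : V} (e : χ' i v = none) :
    χ i v = none := by
  rcases e' : χ i v with _ | c
  · rfl
  · rw [h i v c e'] at e; exact absurd e (by simp)

omit [Fintype V] in
theorem PC.mono {χ : I → V → Option ℕ} {r' : ℕ} (h : PC gr D r χ) (hr : r ≤ r') :
    PC gr D r' χ := ⟨h.1.mono hr, h.2⟩

omit [Fintype V] in
theorem pc_none (gr : I → SimpleGraph V) (D r : ℕ) : PC gr D r (fun _ _ => none) :=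
  ⟨fun _ _ _ _ => rfl, fun _ _ _ h => absurd h (by simp), fun _ _ _ _ _ h => absurd h (by simp)⟩

theorem lst_subset {χ χ' : I → V → Option ℕ} (h : Ext χ χ') (i : I) (v : V) :
    lst (gr i) D (χ' i) v ⊆ lst (gr i) D (χ i) v := fun c hc => by
  obtain ⟨h1, h2⟩ := mem_lst.1 hc
  exact mem_lst.2 ⟨h1, fun u hu e => h2 u hu (h i u c e)⟩

theorem lst_subset_range (χ : V → Option ℕ) (v : V) : lst G D χ v ⊆ range (D + 1) :=
  fun _ hc => mem_range.2 (Nat.lt_succ_of_le (mem_lst.1 hc).1)

theorem unc_add_cold (χ : I → V → Option ℕ) (i : I) (v : V) :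
    (unc (gr i) (χ i) v).card + (cold (gr i) (χ i) v).card = (nbr gr i v).card := by
  classical
  rw [← card_union_of_disjoint]
  · congr 1
    ext u
    simp only [mem_union, mem_unc, mem_cold, mem_nbr]
    tauto
  · rw [disjoint_left]
    intro u h1 h2
    exact (mem_cold.1 h2).2 (mem_unc.1 h1).2

/-- a list loses at most one colour for each neighbour that gets a colour -/
theorem lst_card_ext {χ χ' : I → V → Option ℕ} (h : Ext χ χ') (i : I) (v : V) :
    (lst (gr i) D (χ i) v).card + (unc (gr i) (χ' i) v).card ≤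
      (lst (gr i) D (χ' i) v).card + (unc (gr i) (χ i) v).card := by
  classical
  have h1 : unc (gr i) (χ' i) v ⊆ unc (gr i) (χ i) v := fun u hu =>
    mem_unc.2 ⟨(mem_unc.1 hu).1, h.none (mem_unc.1 hu).2⟩
  have h2 : lst (gr i) D (χ i) v ⊆ lst (gr i) D (χ' i) v ∪
      (unc (gr i) (χ i) v \ unc (gr i) (χ' i) v).image (fun u => (χ' i u).getD 0) := by
    intro c hc
    obtain ⟨a1, a2⟩ := mem_lst.1 hc
    by_cases hc' : c ∈ lst (gr i) D (χ' i) v
    · exact mem_union_left _ hc'
    · refine mem_union_right _ ?_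
      rw [mem_lst] at hc'
      push Not at hc'
      obtain ⟨u, b1, b2⟩ := hc' a1
      refine mem_image.2 ⟨u, mem_sdiff.2 ⟨mem_unc.2 ⟨b1, ?_⟩, fun e => ?_⟩, by simp [b2]⟩
      · rcases e : χ i u with _ | c'
        · rfl
        · have := h i u c' e
          rw [b2] at this
          exact absurd (this ▸ e) (a2 u b1)
      · rw [(mem_unc.1 e).2] at b2
        exact absurd b2 (by simp)
  have h3 := (card_le_card h2).trans ((card_union_le _ _).trans
    (Nat.add_le_add_left card_image_le _))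
  rw [card_sdiff_of_subset h1] at h3
  have := card_le_card h1
  omega

theorem Sl.ext {χ χ' : I → V → Option ℕ} (h : Ext χ χ') {i : I} {v : V} {s : ℕ}
    (hs : Sl (gr i) D (χ i) v s) : Sl (gr i) D (χ' i) v s := by
  have := lst_card_ext (gr := gr) (D := D) h i v
  unfold Sl at *
  omega

theorem Sl.mono {χ : V → Option ℕ} {v : V} {s s' : ℕ} (hs : Sl G D χ v s) (h : s' ≤ s) :
    Sl G D χ v s' := le_trans (Nat.add_le_add_left h _) hs

/-- the slack that comes from a small degree -/
theorem lst_card (χ : I → V → Option ℕ) (i : I) (v : V) :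
    (unc (gr i) (χ i) v).card + (D + 1) ≤ (lst (gr i) D (χ i) v).card + (nbr gr i v).card := by
  have h1 := lst_card_ext (gr := gr) (D := D) (χ := fun _ _ => none) (χ' := χ)
    (fun _ _ _ h => absurd h (by simp)) i v
  have h2 : lst (gr i) D (fun _ => none) v = range (D + 1) := by
    ext c; simp [mem_lst, Nat.lt_succ_iff]
  have h3 : unc (gr i) (fun _ => none) v = nbr gr i v := by
    ext u; simp [mem_unc, mem_nbr]
  rw [h2, h3, card_range] at h1
  omega

theorem sl_one (hD : Deg gr D) (χ : I → V → Option ℕ) (i : I) (v : V) :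
    Sl (gr i) D (χ i) v 1 := by
  have h1 := lst_card (gr := gr) (D := D) χ i v
  have h2 := hD i v
  unfold Sl
  omega

/-- sets of neighbours that are cut out by local data -/
theorem loc_sel_adj {α β : Type} {f : I → V → α} {g : I → V → β} (hf : Loc gr (r + 1) f)
    (hg : Loc gr r g) (P : V → V → α → β → Prop) :
    Loc gr (r + 1) (fun i v => sel (fun u => (gr i).Adj v u ∧ P v u (f i v) (g i u))) := by
  intro i i' v hA
  refine sel_congr fun u => ?_
  rw [← hA.adj_iff (by omega) u, ← hf.here hA le_rfl]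
  exact and_congr_right fun hu => by rw [hg.adj hA hu le_rfl]

/-- sets of nearby nodes that are cut out by local data -/
theorem loc_sel_near {α β : Type} {k : ℕ} {f : I → V → α} {g : I → V → β}
    (hf : Loc gr (r + k) f) (hg : Loc gr r g) (P : V → V → α → β → Prop)
    (h : ∀ i v u, P v u (f i v) (g i u) → Near (gr i) k v u) :
    Loc gr (r + k) (fun i v => sel (fun u => P v u (f i v) (g i u))) := by
  intro i i' v hA
  refine sel_congr fun u => ⟨fun hu => ?_, fun hu => ?_⟩
  · rwa [← hf.here hA le_rfl, ← hg.far hA (h i v u hu) le_rfl]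
  · rwa [hf.here hA le_rfl, hg.far' hA (h i' v u hu) le_rfl]

theorem loc_unc {χ : I → V → Option ℕ} (h : Loc gr r χ) :
    Loc gr (r + 1) (fun i v => unc (gr i) (χ i) v) :=
  loc_sel_adj (f := fun _ _ => ()) (Loc.const fun _ => ()) h (fun _ _ _ b => b = none)

theorem loc_lst {χ : I → V → Option ℕ} (h : Loc gr r χ) :
    Loc gr (r + 1) (fun i v => lst (gr i) D (χ i) v) := by
  intro i i' v hA
  ext c
  simp only [mem_lst]
  refine and_congr_right fun _ => forall_congr' fun u => ?_
  rw [← hA.adj_iff (by omega) u]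
  exact imp_congr_right fun hu => by rw [h.adj hA hu le_rfl]

theorem loc_rs {χ : I → V → Option ℕ} (h : Loc gr r χ) (lo Q : ℕ) :
    Loc gr (r + 1) (fun i v => rs (gr i) (χ i) lo Q v) := by
  intro i i' v hA
  ext c
  simp only [mem_rs]
  refine and_congr_right fun _ => exists_congr fun u => ?_
  rw [← hA.adj_iff (by omega) u]
  exact and_congr_right fun hu => by rw [h.adj hA hu le_rfl]

theorem loc_spr (E : ℕ) : Loc gr 2 (fun i v => spr (gr i) E v) := by
  intro i i' v hA
  refine sel_congr fun u => ?_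
  rw [← hA.adj_iff (by omega) u]
  refine and_congr_right fun hu => ?_
  rw [sel_congr (Q := fun w => (gr i').Adj v w ∧ ¬ (gr i').Adj u w) fun w => by
    rw [hA.adj_iff (by omega) w, (hA.2 u hu).adj_iff le_rfl w]]

omit [Fintype V] in
/-- new colours are written down -/
theorem commit {χ t : I → V → Option ℕ} [Fintype V] (h : PC gr D r χ) (ht : Loc gr r t)
    (h1 : ∀ i v c, t i v = some c → χ i v = none ∧ c ∈ lst (gr i) D (χ i) v)
    (h2 : ∀ i v u c, (gr i).Adj v u → t i v = some c → t i u ≠ some c) :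
    ∃ χ', PC gr D r χ' ∧ Ext χ χ' ∧ (∀ i v c, t i v = some c → χ' i v = some c) ∧
      ∀ i v, t i v = none → χ' i v = χ i v := by
  let χ' : I → V → Option ℕ := fun i v => (t i v).or (χ i v)
  have e1 : ∀ i v c, t i v = some c → χ' i v = some c := fun i v c e => by simp [χ', e]
  have e2 : ∀ i v, t i v = none → χ' i v = χ i v := fun i v e => by simp [χ', e]
  have e3 : ∀ i v c, χ' i v = some c → t i v = some c ∨ χ i v = some c := fun i v c e => by
    rcases e' : t i v with _ | c'
    · exact Or.inr (e2 i v e' ▸ e)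
    · exact Or.inl (e1 i v c' e' ▸ e)
  refine ⟨χ', ⟨(ht.prod h.1).map (fun _ a => a.1.or a.2), fun i v c e => ?_,
    fun i v u c ha e e' => ?_⟩, fun i v c e => ?_, e1, e2⟩
  · rcases e3 i v c e with e | e
    · exact (mem_lst.1 (h1 i v c e).2).1
    · exact h.2.1 i v c e
  · rcases e3 i v c e with a | a <;> rcases e3 i u c e' with b | b
    · exact h2 i v u c ha a b
    · exact (mem_lst.1 (h1 i v c a).2).2 u ha b
    · exact (mem_lst.1 (h1 i u c b).2).2 v ha.symm a
    · exact h.2.2 i v u c ha a b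
  · rcases e' : t i v with _ | c'
    · rw [e2 i v e', e]
    · rw [(h1 i v c' e').1] at e
      exact absurd e (by simp)

omit [Fintype V] in
open Classical in
/-- every centre makes a choice for the nodes that point to it -/
theorem dec_choice {α Ω : Type} {R : ℕ} {lab : I → V → V} {d : I → V → α} (hl : Loc gr r lab)
    (hn : ∀ i u, Near (gr i) R u (lab i u)) (hd : Loc gr r d)
    (Q : V → (V → Option α) → (V → Ω) → Prop)
    (h : ∀ i z, ∃ y, Q z (fun u => if lab i u = z then some (d i u) else none) y) :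
    ∃ x : I → V → Ω, Loc gr (r + 2 * R) x ∧ ∀ i z, ∃ y,
      Q z (fun u => if lab i u = z then some (d i u) else none) y ∧
        ∀ u, lab i u = z → x i u = y u := by
  let g : I → V → V → Option α := fun i z u => if lab i u = z then some (d i u) else none
  have l1 : Loc gr (r + R) g := (hl.prod hd).gather
    (fun z _ a => if a.1 = z then some a.2 else none) none (fun i z u e => by
      by_cases e' : lab i u = z
      · exact (e' ▸ hn i u).symm
      · exact absurd (if_neg e') e)
  let Y : I → V → V → Ω := fun i z => (h i z).choose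
  have l2 : Loc gr (r + R) Y := fun i i' z hA => by
    have e : g i z = g i' z := l1 i i' z hA
    have e' : (fun y => Q z (g i z) y) = fun y => Q z (g i' z) y := by rw [e]
    simp only [Y]
    congr 1
  refine ⟨fun i u => Y i (lab i u) u, fun i i' u hA => ?_,
    fun i z => ⟨Y i z, (h i z).choose_spec, fun u e => by rw [← e]⟩⟩
  show Y i (lab i u) u = Y i' (lab i' u) u
  rw [← hl.here hA (by omega), l2.far hA (hn i u) (by omega)]

omit [Fintype V] in
/-- bounds for the single centres add up -/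
theorem dec_sum [DecidableEq V] {k : ℕ} (S : Finset V) (lab : V → V)
    (hk : (S.image lab).card ≤ k) (f g : V → ℝ) {l : ℝ} (hl : 0 ≤ l)
    (h : ∀ z, ∑ u ∈ S.filter (fun u => lab u = z), f u ≤
      ∑ u ∈ S.filter (fun u => lab u = z), g u + l) :
    ∑ u ∈ S, f u ≤ ∑ u ∈ S, g u + k * l := by
  have hm : ∀ u ∈ S, lab u ∈ S.image lab := fun u hu => mem_image_of_mem _ hu
  rw [← sum_fiberwise_of_maps_to hm f, ← sum_fiberwise_of_maps_to hm g]
  refine (sum_le_sum fun z _ => h z).trans ?_
  rw [sum_add_distrib, sum_const, nsmul_eq_mul]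
  have : ((S.image lab).card : ℝ) ≤ k := by exact_mod_cast hk
  nlinarith

omit [Fintype V] in
theorem VL.mono {α : Type} {ρ ρ' : I → V → ℕ} {f : I → V → α} (h : VL gr ρ f)
    (hr : ∀ i v, ρ i v ≤ ρ' i v) : VL gr ρ' f := fun i i' v hA => h i i' v (hA.mono (hr i v))

omit [Fintype V] in
theorem VL.of_loc {α : Type} {ρ : I → V → ℕ} {f : I → V → α} (h : Loc gr r f)
    (hr : ∀ i v, r ≤ ρ i v) : VL gr ρ f := fun i i' v hA => h i i' v (hA.mono (hr i v))

omit [Fintype V] in
theorem VL.loc {α : Type} {ρ : I → V → ℕ} {f : I → V → α} (h : VL gr ρ f)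
    (hr : ∀ i v, ρ i v ≤ r) : Loc gr r f := fun i i' v hA => h i i' v (hA.mono (hr i v))

omit [Fintype V] in
theorem VL.prod {α β : Type} {ρ : I → V → ℕ} {f : I → V → α} {g : I → V → β} (hf : VL gr ρ f)
    (hg : VL gr ρ g) : VL gr ρ (fun i v => (f i v, g i v)) := fun i i' v hA => by
  show (f i v, g i v) = (f i' v, g i' v)
  rw [hf i i' v hA, hg i i' v hA]

omit [Fintype V] in
theorem VL.map {α β : Type} {ρ : I → V → ℕ} {f : I → V → α} (hf : VL gr ρ f) (F : V → α → β) :
    VL gr ρ (fun i v => F v (f i v)) := fun i i' v hA => by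
  show F v (f i v) = F v (f i' v)
  rw [hf i i' v hA]

omit [Fintype V] in
/-- the data of the nodes that start at time `τ` -/
theorem VL.slice {α : Type} {c : ℕ} {s : I → V → ℕ} {f : I → V → α}
    (h : VL gr (fun i v => r + c * s i v) (fun i v => (s i v, f i v))) (τ : ℕ) :
    Loc gr (r + c * τ) (fun i v => if s i v = τ then some (f i v) else none) := by
  intro i i' v hA
  by_cases e : s i v = τ
  · have := h i i' v (by simpa [e] using hA)
    simp only [Prod.mk.injEq] at this
    simp only [← this.1, ← this.2]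
  · by_cases e' : s i' v = τ
    · have := h i' i v (by simpa [e'] using hA.symm)
      simp only [Prod.mk.injEq] at this
      exact absurd (this.1 ▸ e') e
    · simp [e, e']

omit [Fintype V] in
/-- every node reads the result of the slice it belongs to -/
theorem VL.unslice {α : Type} {c k : ℕ} {s : I → V → ℕ} {g : ℕ → I → V → α}
    (hs : VL gr (fun i v => r + c * s i v) s) (hg : ∀ τ, Loc gr (r + c * τ + k) (g τ)) :
    VL gr (fun i v => r + c * s i v + k) (fun i v => g (s i v) i v) := by
  intro i i' v hA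
  show g (s i v) i v = g (s i' v) i' v
  rw [← hs i i' v (hA.mono (Nat.le_add_right _ _)), hg _ i i' v hA]

/-- counting residues -/
theorem card_mod (b t : ℕ) (ht : t ≤ b) (Y : Finset ℕ) (hY : Y ⊆ range (2 ^ t)) :
    ((range (2 ^ b)).filter (fun y => y % 2 ^ t ∈ Y)).card = Y.card * 2 ^ (b - t) := by
  have hp : 0 < 2 ^ t := by positivity
  have e : 2 ^ b = 2 ^ t * 2 ^ (b - t) := by rw [← pow_add]; congr 1; omega
  rw [← card_range (2 ^ (b - t)), ← card_product]
  symm
  refine card_bij (fun a _ => a.1 + 2 ^ t * a.2) (fun a ha => ?_) (fun a ha a' ha' h => ?_)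
    (fun y hy => ?_)
  · obtain ⟨h1, h2⟩ := mem_product.1 ha
    have h3 := mem_range.1 (hY h1)
    have h4 := mem_range.1 h2
    refine mem_filter.2 ⟨mem_range.2 ?_, by rwa [Nat.add_mul_mod_self_left, Nat.mod_eq_of_lt h3]⟩
    rw [e]
    nlinarith
  · have h3 := mem_range.1 (hY (mem_product.1 ha).1)
    have h4 := mem_range.1 (hY (mem_product.1 ha').1)
    have h5 := congrArg (· % 2 ^ t) h
    simp only [Nat.add_mul_mod_self_left, Nat.mod_eq_of_lt h3, Nat.mod_eq_of_lt h4] at h5
    rw [h5] at h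
    exact Prod.ext h5 (Nat.eq_of_mul_eq_mul_left hp (Nat.add_left_cancel h))
  · obtain ⟨h1, h2⟩ := mem_filter.1 hy
    refine ⟨(y % 2 ^ t, y / 2 ^ t), mem_product.2 ⟨h2, mem_range.2 ?_⟩, Nat.mod_add_div _ _⟩
    rw [Nat.div_lt_iff_lt_mul hp, mul_comm, ← e]
    exact mem_range.1 h1

end

end Pool.Agent.P.MP_6f280c_lc.Dc
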