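import Pool.Agent.P.MP_6f280c_lc.Dc.St

set_option autoImplicit false

namespace Pool.Agent.P.MP_6f280c_lc.Dc

open Finset

variable {V I : Type} [Fintype V] [LinearOrder V]

namespace A1

open Classical in
/-- the weights of the collisions that matter -/
noncomputable def kap (G : SimpleGraph V) (Y : V → Prop) (x z : V) : ℝ :=
  ∑ v, ∑ u, if Y v ∧ G.Adj v x ∧ G.Adj v u then
    ((if z = x then (1 : ℝ) else 0) + (if z = u then 1 else 0) + (if z = v then 1 else 0)) else 0

/-- the neighbours of `z` that try the colour of `x` -/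
noncomputable def cf (G : SimpleGraph V) (act : V → Option ℕ) (x z : V) : Finset V :=
  sel (fun y => G.Adj z y ∧ y ≠ x ∧ act x ≠ none ∧ act y = act x)

theorem kap_nonneg (G : SimpleGraph V) (Y : V → Prop) (x z : V) : 0 ≤ kap G Y x z := by
  unfold kap
  refine sum_nonneg fun v _ => sum_nonneg fun u _ => ?_
  split_ifs <;> norm_num

theorem kap_near (G : SimpleGraph V) (Y : V → Prop) (x z : V) (h : kap G Y x z ≠ 0) :
    Near G 2 x z := by
  unfold kap at h
  obtain ⟨v, _, h⟩ := exists_ne_zero_of_sum_ne_zero h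
  obtain ⟨u, _, h⟩ := exists_ne_zero_of_sum_ne_zero h
  by_cases hc : Y v ∧ G.Adj v x ∧ G.Adj v u
  · rw [if_pos hc] at h
    by_cases h1 : z = x
    · subst h1
      exact Near.refl _ _ _
    · by_cases h2 : z = u
      · subst h2
        exact (Near.of_adj hc.2.1.symm).trans (Near.of_adj hc.2.2)
      · by_cases h3 : z = v
        · subst h3
          exact (Near.of_adj hc.2.1.symm).mono (by omega)
        · simp [h1, h2, h3] at h
  · rw [if_neg hc] at h
    exact absurd rfl h

theorem kap_sum (G : SimpleGraph V) (Y : V → Prop) (f : V → V → ℝ) :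
    ∑ x, ∑ z, kap G Y x z * f x z =
      ∑ v ∈ sel Y, ∑ u ∈ sel (G.Adj v), ∑ x ∈ sel (G.Adj v), (f x x + f x u + f x v) := by
  classical
  have e1 : ∀ x, ∑ z, kap G Y x z * f x z =
      ∑ v, ∑ u, if Y v ∧ G.Adj v x ∧ G.Adj v u then f x x + f x u + f x v else 0 := by
    intro x
    unfold kap
    simp only [sum_mul]
    rw [sum_comm]
    refine sum_congr rfl fun v _ => ?_
    rw [sum_comm]
    refine sum_congr rfl fun u _ => ?_
    by_cases hc : Y v ∧ G.Adj v x ∧ G.Adj v u
    · simp only [if_pos hc, add_mul, sum_add_distrib, ite_mul, one_mul, zero_mul,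
        sum_ite_eq', mem_univ, if_true]
    · simp only [if_neg hc, zero_mul, sum_const_zero]
  simp only [e1, sum_sel]
  rw [sum_comm]
  refine sum_congr rfl fun v _ => ?_
  rw [sum_comm]
  by_cases hv : Y v
  · rw [if_pos hv]
    refine sum_congr rfl fun u _ => ?_
    by_cases hu : G.Adj v u
    · rw [if_pos hu]
      refine sum_congr rfl fun x _ => ?_
      by_cases hx : G.Adj v x
      · rw [if_pos hx, if_pos ⟨hv, hx, hu⟩]
      · rw [if_neg hx, if_neg fun h => hx h.2.1]
    · rw [if_neg hu]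
      exact sum_eq_zero fun x _ => if_neg fun h => hu h.2.2
  · rw [if_neg hv]
    exact sum_eq_zero fun u _ => sum_eq_zero fun x _ => if_neg fun h => hv h.1

theorem kap_tot (G : SimpleGraph V) (Y : V → Prop) (D : ℕ)
    (hD : ∀ v, (sel (G.Adj v)).card ≤ D) :
    ∑ x, ∑ z, kap G Y x z ≤ 3 * (D : ℝ) ^ 2 * (sel Y).card := by
  have h := kap_sum G Y (fun _ _ => 1)
  simp only [mul_one] at h
  rw [h]
  have h2 : ∀ v ∈ sel Y, ∑ _u ∈ sel (G.Adj v), ∑ _x ∈ sel (G.Adj v), ((1 : ℝ) + 1 + 1) ≤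
      3 * (D : ℝ) ^ 2 := by
    intro v _
    simp only [sum_const, nsmul_eq_mul]
    have h3 : ((sel (G.Adj v)).card : ℝ) ≤ D := by exact_mod_cast hD v
    have h4 : (0 : ℝ) ≤ (sel (G.Adj v)).card := by positivity
    nlinarith
  refine (sum_le_sum h2).trans ?_
  rw [sum_const, nsmul_eq_mul, mul_comm]

theorem loc_kap {gr : I → SimpleGraph V} {r : ℕ} {Y : I → V → Prop} (hY : Loc gr r Y) :
    Loc gr (r + 2) (fun i x => kap (gr i) (Y i) x) := by
  intro i i' x hA
  funext z
  unfold kap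
  refine sum_congr rfl fun v _ => sum_congr rfl fun u _ => ?_
  have e : (Y i v ∧ (gr i).Adj v x ∧ (gr i).Adj v u) ↔
      (Y i' v ∧ (gr i').Adj v x ∧ (gr i').Adj v u) := by
    have e1 : (gr i).Adj v x ↔ (gr i').Adj v x := by
      rw [(gr i).adj_comm, (gr i').adj_comm]
      exact hA.adj_iff (by omega) v
    by_cases hv : (gr i).Adj v x
    · have e2 : Y i v = Y i' v := hY.adj hA hv.symm (by omega)
      have e3 : (gr i).Adj v u ↔ (gr i').Adj v u := (hA.2 v hv.symm).adj_iff (by omega) u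
      rw [e2, e1, e3]
    · exact ⟨fun h => absurd h.2.1 hv, fun h => absurd (e1.2 h.2.1) hv⟩
  by_cases hc : Y i v ∧ (gr i).Adj v x ∧ (gr i).Adj v u
  · rw [if_pos hc, if_pos (e.1 hc)]
  · rw [if_neg hc, if_neg fun h => hc (e.2 h)]

omit [LinearOrder V] in
theorem loc_cf {gr : I → SimpleGraph V} {r : ℕ} {act : I → V → Option ℕ} (h : Loc gr r act) :
    Loc gr (r + 1) (fun i x => cf (gr i) (act i) x x) :=
  loc_sel_adj (h.mono (Nat.le_succ r)) h (fun x y a b => y ≠ x ∧ a ≠ none ∧ b = a)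

/-- the hits without a collision give colours that are seen by `v` and not by `u` -/
theorem hits_le (G : SimpleGraph V) (act χ' : V → Option ℕ) (lo Q : ℕ)
    (h1 : ∀ x c, act x = some c → lo ≤ c ∧ c < lo + Q)
    (h2 : ∀ x c, act x = some c → (cf G act x x).card = 0 → χ' x = some c)
    (h3 : ∀ x c, lo ≤ c → χ' x = some c → act x = some c) (v u : V) :
    ((sel (fun x => ∃ c, act x = some c ∧ (G.Adj v x ∧ ¬ G.Adj u x))).card : ℝ) ≤
      ((rs G χ' lo Q v \ rs G χ' lo Q u).card : ℝ) +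
        ∑ x ∈ sel (G.Adj v), (((cf G act x x).card : ℝ) + (cf G act x u).card +
          (cf G act x v).card) := by
  classical
  let K : Finset V := sel (fun x => (∃ c, act x = some c ∧ (G.Adj v x ∧ ¬ G.Adj u x)) ∧
    (cf G act x x).card = 0 ∧ (cf G act x u).card = 0 ∧ (cf G act x v).card = 0)
  let B : Finset V := sel (fun x => G.Adj v x ∧
    ¬ ((cf G act x x).card = 0 ∧ (cf G act x u).card = 0 ∧ (cf G act x v).card = 0))
  have a1 : (sel (fun x => ∃ c, act x = some c ∧ (G.Adj v x ∧ ¬ G.Adj u x))).card ≤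
      K.card + B.card := by
    refine card_sel_le_add fun x hx => ?_
    by_cases hc : (cf G act x x).card = 0 ∧ (cf G act x u).card = 0 ∧ (cf G act x v).card = 0
    · exact Or.inl ⟨hx, hc⟩
    · obtain ⟨c, _, hh, _⟩ := hx
      exact Or.inr ⟨hh, hc⟩
  have a2 : K.card ≤ (rs G χ' lo Q v \ rs G χ' lo Q u).card := by
    refine card_le_card_of_injOn (fun x => (act x).getD 0) (fun x hx => ?_)
      (fun x hx y hy e => ?_)
    · obtain ⟨⟨c, b1, b2, b3⟩, b4, b5, _⟩ := mem_sel.1 (mem_coe.1 hx)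
      simp only [b1, Option.getD_some, coe_sdiff, Set.mem_sdiff, mem_coe]
      refine ⟨mem_rs.2 ⟨h1 x c b1, x, b2, h2 x c b1 b4⟩, fun hh => ?_⟩
      obtain ⟨b6, y, b7, b8⟩ := mem_rs.1 hh
      have b9 := h3 y c b6.1 b8
      have : y ∈ cf G act x u := mem_sel.2 ⟨b7, fun e => b3 (e ▸ b7), by simp [b1], by
        rw [b9, b1]⟩
      rw [card_eq_zero.1 b5] at this
      exact absurd this (notMem_empty _)
    · obtain ⟨⟨c, b1, b2, _⟩, _, _, b6⟩ := mem_sel.1 (mem_coe.1 hx)
      obtain ⟨⟨c', d1, d2, _⟩, _⟩ := mem_sel.1 (mem_coe.1 hy)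
      simp only [b1, d1, Option.getD_some] at e
      by_contra hne
      have : y ∈ cf G act x v := mem_sel.2 ⟨d2, fun e => hne e.symm, by simp [b1], by
        rw [b1, d1, e]⟩
      rw [card_eq_zero.1 b6] at this
      exact absurd this (notMem_empty _)
  have a3 : (B.card : ℝ) ≤ ∑ x ∈ sel (G.Adj v), (((cf G act x x).card : ℝ) +
      (cf G act x u).card + (cf G act x v).card) := by
    have s1 : B ⊆ sel (G.Adj v) := sel_mono fun x hx => hx.1
    refine le_trans ?_ (sum_le_sum_of_subset_of_nonneg s1 fun x _ _ => by positivity)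
    rw [card_eq_sum_ones, Nat.cast_sum]
    refine sum_le_sum fun x hx => ?_
    have hx' := (mem_sel.1 hx).2
    have : 1 ≤ (cf G act x x).card + (cf G act x u).card + (cf G act x v).card := by omega
    exact_mod_cast this
  have a1' : ((sel (fun x => ∃ c, act x = some c ∧ (G.Adj v x ∧ ¬ G.Adj u x))).card : ℝ) ≤
      K.card + B.card := by exact_mod_cast a1
  have a2' : (K.card : ℝ) ≤ (rs G χ' lo Q v \ rs G χ' lo Q u).card := by exact_mod_cast a2
  linarith

/-- a lower bound for the gap of a node -/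
theorem gap_ge (G : SimpleGraph V) (act χ χ' : V → Option ℕ) (lo Q E c0 ρ : ℕ) (h : ℝ)
    (hh : 0 ≤ h)
    (h1 : ∀ x c, act x = some c → lo ≤ c ∧ c < lo + Q)
    (h2 : ∀ x c, act x = some c → (cf G act x x).card = 0 → χ' x = some c)
    (h3 : ∀ x c, lo ≤ c → χ' x = some c → act x = some c)
    (h4 : ∀ x, act x = none → χ' x = χ x) (v : V) (h5 : (cold G χ v).card ≤ c0)
    (h6 : (sel (fun x => G.Adj v x ∧ act x ≠ none)).card ≤ ρ)
    (h7 : E ≤ 2 * (spr G E v).card) (h8 : 8 * (c0 + ρ + 1) ≤ E)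
    (h9 : ∀ u ∈ spr G E v,
      h ≤ (sel (fun x => ∃ c, act x = some c ∧ (G.Adj v x ∧ ¬ G.Adj u x))).card) :
    (E : ℝ) / 4 * h ≤ (gap G E χ' lo Q v : ℝ) +
      ∑ u ∈ sel (G.Adj v), ∑ x ∈ sel (G.Adj v), (((cf G act x x).card : ℝ) +
        (cf G act x u).card + (cf G act x v).card) := by
  classical
  let U : Finset V := sel (fun u => u ∈ spr G E v ∧ χ u = none ∧ act u = none)
  have a1 : (spr G E v).card ≤ U.card + c0 + ρ := by
    have s1 : spr G E v ⊆ (U ∪ cold G χ v) ∪ sel (fun x => G.Adj v x ∧ act x ≠ none) := by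
      intro u hu
      have hadj := (mem_spr.1 hu).1
      by_cases e1 : χ u = none
      · by_cases e2 : act u = none
        · exact mem_union_left _ (mem_union_left _ (mem_sel.2 ⟨hu, e1, e2⟩))
        · exact mem_union_right _ (mem_sel.2 ⟨hadj, e2⟩)
      · exact mem_union_left _ (mem_union_right _ (mem_cold.2 ⟨hadj, e1⟩))
    have s2 := (card_le_card s1).trans (card_union_le _ _)
    have s3 := card_union_le U (cold G χ v)
    omega
  have a2 : (E : ℝ) / 4 ≤ U.card := by
    have : E ≤ 4 * U.card := by omega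
    have : (E : ℝ) ≤ 4 * U.card := by exact_mod_cast this
    linarith
  have a3 : ∑ u ∈ U, ((rs G χ' lo Q v \ rs G χ' lo Q u).card : ℝ) ≤ gap G E χ' lo Q v := by
    unfold gap
    rw [Nat.cast_sum]
    refine sum_le_sum_of_subset_of_nonneg (sel_mono fun u hu => ⟨hu.1, ?_⟩)
      fun x _ _ => by positivity
    rw [h4 u hu.2.2, hu.2.1]
  have a4 : ∑ u ∈ U, ∑ x ∈ sel (G.Adj v), (((cf G act x x).card : ℝ) +
      (cf G act x u).card + (cf G act x v).card) ≤
      ∑ u ∈ sel (G.Adj v), ∑ x ∈ sel (G.Adj v), (((cf G act x x).card : ℝ) +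
        (cf G act x u).card + (cf G act x v).card) :=
    sum_le_sum_of_subset_of_nonneg (sel_mono fun u hu => (mem_spr.1 hu.1).1)
      fun u _ _ => sum_nonneg fun x _ => by positivity
  have a5 : ∑ _u ∈ U, h ≤ ∑ u ∈ U, (((rs G χ' lo Q v \ rs G χ' lo Q u).card : ℝ) +
      ∑ x ∈ sel (G.Adj v), (((cf G act x x).card : ℝ) + (cf G act x u).card +
        (cf G act x v).card)) :=
    sum_le_sum fun u hu => (h9 u (mem_sel.1 hu).1).trans (hits_le G act χ' lo Q h1 h2 h3 v u)
  rw [sum_const, nsmul_eq_mul, sum_add_distrib] at a5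
  have a6 := mul_le_mul_of_nonneg_right a2 hh
  linarith

theorem arith {g f y T X d e p : ℝ} (hp : 0 < p) (he : 0 < e) (hg : 0 ≤ g) (hy : 0 ≤ y)
    (hf : 0 ≤ f) (h1 : f * (3 * e / (128 * p)) ≤ T) (h2 : T ≤ X / p ^ 2 * (3 * d * y))
    (h3 : g * X * (384 * d) ≤ p * e) : g * f ≤ y := by
  have a1 : f * (3 * e / (128 * p)) ≤ X / p ^ 2 * (3 * d * y) := h1.trans h2
  have a2 : f * (3 * e) * p ≤ X * (384 * d) * y := by
    have := mul_le_mul_of_nonneg_right a1 (show 0 ≤ 128 * p ^ 2 by positivity)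
    have e1 : f * (3 * e / (128 * p)) * (128 * p ^ 2) = f * (3 * e) * p := by
      field_simp
    have e2 : X / p ^ 2 * (3 * d * y) * (128 * p ^ 2) = X * (384 * d) * y := by
      field_simp
      ring
    rwa [e1, e2] at this
  have a3 := mul_le_mul_of_nonneg_left a2 hg
  have a4 := mul_le_mul_of_nonneg_right h3 hy
  have a5 : (p * e) * (3 * (g * f)) ≤ (p * e) * y := by nlinarith
  have a6 := le_of_mul_le_mul_left a5 (mul_pos hp he)
  have a7 := mul_nonneg hg hf
  linarith

end A1

open A1 in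
theorem p_a1 (gr : I → SimpleGraph V) : A1St gr := by
  classical
  intro D r0 b a w r E lo Q c0 ρ g Λ χ Y hD hS hr hχ hY hQ hlo hlt hc0 hsp hρ hE ha hΛ hg
  have hD' : ∀ i v, (sel ((gr i).Adj v)).card ≤ D := fun i v =>
    le_trans (card_le_card fun u hu => mem_nbr.2 (mem_sel.1 hu)) (hD i v)
  obtain ⟨act, l1, s1, s2, s3, s4⟩ := hS (r + 2) Q (fun i x => χ i x = none)
    (fun _ _ => Ico lo (lo + Q)) (fun i x v u _ => (gr i).Adj v x ∧ ¬ (gr i).Adj u x)
    (fun i x => kap (gr i) (Y i) x) (by omega) hQ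
    ((hχ.1.mono (by omega)).map (fun _ o => o = none)) (Loc.const fun _ => Ico lo (lo + Q))
    (fun i i' x hA => by
      funext v u c
      have e : ∀ y, (gr i).Adj y x ↔ (gr i').Adj y x := fun y => by
        rw [(gr i).adj_comm, (gr i').adj_comm]
        exact hA.adj_iff (by omega) y
      show ((gr i).Adj v x ∧ ¬ (gr i).Adj u x) = ((gr i').Adj v x ∧ ¬ (gr i').Adj u x)
      rw [e v, e u])
    (loc_kap hY)
    (fun i x _ => ⟨fun c hc => mem_range.2 (by have := (mem_Ico.1 hc).2; omega), by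
      rw [Nat.card_Ico]; omega⟩)
    (fun i x v u c h => h.1) (fun i x z => kap_nonneg _ _ x z) (fun i x z h => kap_near _ _ x z h)
  let t : I → V → Option ℕ := fun i x =>
    if (cf (gr i) (act i) x x).card = 0 then act i x else none
  have lt : Loc gr (r + (w + 4)) t :=
    (((loc_cf l1).mono (by omega)).prod (l1.mono (by omega))).map
      (fun _ o => if o.1.card = 0 then o.2 else none)
  have t1 : ∀ i x c, t i x = some c → act i x = some c ∧ (cf (gr i) (act i) x x).card = 0 := by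
    intro i x c h
    by_cases e : (cf (gr i) (act i) x x).card = 0
    · simp only [t, if_pos e] at h
      exact ⟨h, e⟩
    · simp only [t, if_neg e] at h
      exact absurd h (by simp)
  have hI : ∀ i x c, act i x = some c → lo ≤ c ∧ c < lo + Q := fun i x c h =>
    mem_Ico.1 (s1 i x c h).2
  obtain ⟨χ', p1, p2, p3, p4⟩ := commit (hχ.mono (show r ≤ r + (w + 4) by omega)) lt
    (fun i v c h => by
      have h1 := (t1 i v c h).1
      have h2 := hI i v c h1
      refine ⟨(s1 i v c h1).1, mem_lst.2 ⟨by omega, fun u _ e => ?_⟩⟩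
      have := hlt i u c e
      omega)
    (fun i v u c hadj h h' => by
      obtain ⟨h1, h2⟩ := t1 i v c h
      have h3 := (t1 i u c h').1
      have : u ∈ cf (gr i) (act i) v v := mem_sel.2 ⟨hadj, hadj.ne.symm, by simp [h1], by
        rw [h1, h3]⟩
      rw [card_eq_zero.1 h2] at this
      exact absurd this (notMem_empty _))
  have q1 : ∀ i x c, χ' i x = some c → act i x = some c ∨ χ i x = some c := by
    intro i x c h
    rcases e : t i x with _ | c'
    · exact Or.inr (p4 i x e ▸ h)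
    · have h2 := p3 i x c' e
      rw [h] at h2
      exact Or.inl (h2 ▸ (t1 i x c' e).1)
  have q2 : ∀ i x c, lo ≤ c → χ' i x = some c → act i x = some c := by
    intro i x c hc h
    rcases q1 i x c h with h | h
    · exact h
    · have := hlt i x c h
      omega
  have q3 : ∀ i x, act i x = none → χ' i x = χ i x := fun i x h => p4 i x (by simp [t, h])
  have q4 : ∀ i x c, act i x = some c → (cf (gr i) (act i) x x).card = 0 → χ' i x = some c :=
    fun i x c h e => p3 i x c (by simp only [t, if_pos e, h])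
  have q5 : ∀ i v, (sel (fun x => (gr i).Adj v x ∧ act i x ≠ none)).card ≤ ρ := fun i v =>
    Nat.le_of_mul_le_mul_left ((s2 i v).trans hρ) (by positivity)
  refine ⟨χ', p1, p2, fun i v c h => ?_, fun i v => ?_, fun i v => ?_, fun i => ?_⟩
  · rcases q1 i v c h with h | h
    · exact (hI i v c h).2
    · have := hlt i v c h
      omega
  · refine le_trans (card_sel_le_add (Q := fun u => (gr i).Adj v u ∧ χ i u ≠ none)
      (R := fun x => (gr i).Adj v x ∧ act i x ≠ none) fun u hu => ?_)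
      (Nat.add_le_add (hc0 i v) (q5 i v))
    by_cases e : act i u = none
    · exact Or.inl ⟨hu.1, q3 i u e ▸ hu.2⟩
    · exact Or.inr ⟨hu.1, e⟩
  · refine le_trans (card_le_card (t := (sel (fun x => (gr i).Adj v x ∧ act i x ≠ none)).image
      (fun x => (act i x).getD 0)) fun c hc => ?_) (card_image_le.trans (q5 i v))
    obtain ⟨h1, u, h2, h3⟩ := mem_rs.1 hc
    have h4 := q2 i u c h1.1 h3
    exact mem_image.2 ⟨u, mem_sel.2 ⟨h2, by simp [h4]⟩, by simp [h4]⟩
  · have hp : (0 : ℝ) < 2 ^ b := by positivity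
    have hE0 : (0 : ℝ) < E := by
      have : 0 < E := by omega
      exact_mod_cast this
    -- hits
    have k1 : ∀ v u, u ∈ spr (gr i) E v → (E : ℝ) / (8 * 2 ^ b) ≤
        (sel (fun x => ∃ c, act i x = some c ∧ ((gr i).Adj v x ∧ ¬ (gr i).Adj u x))).card := by
      intro v u hu
      have m1 := s3 i v u
      let C : Finset V := sel (fun x => χ i x = none ∧ (gr i).Adj v x ∧ ¬ (gr i).Adj u x)
      have m2 : (sel (fun w => (gr i).Adj v w ∧ ¬ (gr i).Adj u w)).card ≤ C.card + c0 := by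
        refine le_trans (card_sel_le_add (R := fun u => (gr i).Adj v u ∧ χ i u ≠ none)
          fun x hx => ?_) (Nat.add_le_add_left (hc0 i v) _)
        by_cases e : χ i x = none
        · exact Or.inl ⟨e, hx⟩
        · exact Or.inr ⟨hx.1, e⟩
      have m3 : 3 * E ≤ 8 * C.card := by
        have := (mem_spr.1 hu).2
        omega
      have m3' : 3 * (E : ℝ) ≤ 8 * C.card := by exact_mod_cast m3
      have m5 : (16 : ℝ) * 2 ^ b * a ≤ E := by exact_mod_cast ha
      have m6 : (C.card : ℝ) / (2 * 2 ^ b) ≤ (sel (fun x => ∃ c, act i x = some c ∧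
          ((gr i).Adj v x ∧ ¬ (gr i).Adj u x))).card + a := by
        refine le_trans (div_le_div_of_nonneg_right ?_ (by positivity)) m1
        refine le_trans ?_ (sum_le_sum_of_subset_of_nonneg (s := C) (sel_mono fun x hx => hx.1)
          fun x _ _ => by positivity)
        rw [card_eq_sum_ones, Nat.cast_sum]
        refine sum_le_sum fun x hx => ?_
        have hpos : (0 : ℝ) < (Ico lo (lo + Q)).card := by
          rw [Nat.card_Ico]
          have : 0 < lo + Q - lo := by omega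
          exact_mod_cast this
        rw [le_div_iff₀ hpos, Nat.cast_one, one_mul, Nat.cast_le]
        refine card_le_card fun c hc => ?_
        simp only [mem_filter]
        exact ⟨hc, (mem_sel.1 hx).2⟩
      rw [div_le_iff₀ (by positivity)] at m6 ⊢
      nlinarith
    let bad : V → ℝ := fun v => ∑ u ∈ sel ((gr i).Adj v), ∑ x ∈ sel ((gr i).Adj v),
      (((cf (gr i) (act i) x x).card : ℝ) + (cf (gr i) (act i) x u).card +
        (cf (gr i) (act i) x v).card)
    let Fl : Finset V := sel (fun v => Y i v ∧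
      128 * 2 ^ b * gap (gr i) E (χ' i) lo Q v < E ^ 2)
    have k2 : ∀ v ∈ Fl, 3 * (E : ℝ) ^ 2 / (128 * 2 ^ b) ≤ bad v := by
      intro v hv
      obtain ⟨hv1, hv2⟩ := mem_sel.1 hv
      have m1 := gap_ge (gr i) (act i) (χ i) (χ' i) lo Q E c0 ρ ((E : ℝ) / (8 * 2 ^ b))
        (by positivity) (hI i) (q4 i) (q2 i) (q3 i) v (hc0 i v) (q5 i v) (hsp i v hv1) hE
        (fun u hu => k1 v u hu)
      have m2 : (128 : ℝ) * 2 ^ b * gap (gr i) E (χ' i) lo Q v < (E : ℝ) ^ 2 := by
        exact_mod_cast hv2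
      have m3 : (E : ℝ) / 4 * ((E : ℝ) / (8 * 2 ^ b)) = 4 * (E : ℝ) ^ 2 / (128 * 2 ^ b) := by
        field_simp
        ring
      have m4 : (gap (gr i) E (χ' i) lo Q v : ℝ) ≤ (E : ℝ) ^ 2 / (128 * 2 ^ b) := by
        rw [le_div_iff₀ (by positivity)]
        linarith
      have m5 : 4 * (E : ℝ) ^ 2 / (128 * 2 ^ b) =
          3 * (E : ℝ) ^ 2 / (128 * 2 ^ b) + (E : ℝ) ^ 2 / (128 * 2 ^ b) := by ring
      show _ ≤ ∑ u ∈ sel ((gr i).Adj v), ∑ x ∈ sel ((gr i).Adj v),
        (((cf (gr i) (act i) x x).card : ℝ) + (cf (gr i) (act i) x u).card +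
          (cf (gr i) (act i) x v).card)
      linarith
    have k3 : (Fl.card : ℝ) * (3 * (E : ℝ) ^ 2 / (128 * 2 ^ b)) ≤ ∑ v ∈ sel (Y i), bad v := by
      refine le_trans ?_ (sum_le_sum_of_subset_of_nonneg (s := Fl) (sel_mono fun x hx => hx.1)
        fun v _ _ => sum_nonneg fun u _ => sum_nonneg fun x _ => by positivity)
      rw [← nsmul_eq_mul, ← sum_const]
      exact sum_le_sum k2
    have k4 : ∑ v ∈ sel (Y i), bad v ≤ Λ * (4 * D / Q + a) / ((2 : ℝ) ^ b) ^ 2 *
        (3 * (D : ℝ) ^ 2 * (sel (Y i)).card) := by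
      have m1 := s4 i
      have m2 := kap_sum (gr i) (Y i) (fun x z => ((cf (gr i) (act i) x z).card : ℝ))
      have m3 := kap_tot (gr i) (Y i) D (hD' i)
      have m4 : ((2 : ℝ) ^ b) ^ 2 = 4 ^ b := by
        rw [← pow_mul, mul_comm, pow_mul]
        norm_num
      rw [m4]
      refine le_trans (le_of_eq m2.symm) (le_trans m1 ?_)
      exact mul_le_mul_of_nonneg_left m3 (by positivity)
    have k5 : (g : ℝ) * Fl.card ≤ (sel (Y i)).card :=
      arith (X := Λ * (4 * D / Q + a)) (d := (D : ℝ) ^ 2) hp (pow_pos hE0 2) (by positivity)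
        (by positivity) (by positivity) k3 k4 (by rw [← mul_assoc (g : ℝ)]; exact hg)
    exact_mod_cast k5

end Pool.Agent.P.MP_6f280c_lc.Dc
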