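import Pool.Agent.P.MP_6f280c_lc.Dc.St

/-! Second half of an attempt: colours are repeated. -/

set_option autoImplicit false

namespace Pool.Agent.P.MP_6f280c_lc.Dc

open Finset

variable {V I : Type} [Fintype V] [LinearOrder V]

namespace A2

omit [LinearOrder V] in
/-- neighbours that repeat a colour give slack -/
theorem slack_of {gr : I → SimpleGraph V} {D : ℕ} (hD : Deg gr D) {χ χ' : I → V → Option ℕ}
    (hE : Ext χ χ') (i : I) (v : V) (K : Finset V)
    (hK : ∀ x ∈ K, (gr i).Adj v x ∧ χ i x = none ∧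
      ∃ c, χ' i x = some c ∧ ∃ u, (gr i).Adj v u ∧ χ i u = some c) :
    Sl (gr i) D (χ' i) v (K.card + 1) := by
  classical
  let ψ : V → Option ℕ := fun y => if y ∈ K then χ' i y else χ i y
  have e1 : Ext (I := Unit) (fun _ => ψ) (fun _ => χ' i) := by
    intro _ y c h
    by_cases hy : y ∈ K
    · simpa [ψ, hy] using h
    · exact hE i y c (by simpa [ψ, hy] using h)
  have h1 : lst (gr i) D (χ i) v ⊆ lst (gr i) D ψ v := by
    intro c hc
    obtain ⟨a1, a2⟩ := mem_lst.1 hc
    refine mem_lst.2 ⟨a1, fun u hu h => ?_⟩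
    by_cases hy : u ∈ K
    · obtain ⟨-, -, c', b1, u', b2, b3⟩ := hK u hy
      have : χ' i u = some c := by simpa [ψ, hy] using h
      rw [b1] at this
      exact a2 u' b2 (by rw [b3, this])
    · exact a2 u hu (by simpa [ψ, hy] using h)
  have h2 : (unc (gr i) ψ v).card + K.card ≤ (unc (gr i) (χ i) v).card := by
    rw [← card_union_of_disjoint]
    · refine card_le_card fun u hu => ?_
      rcases mem_union.1 hu with hu | hu
      · obtain ⟨a1, a2⟩ := mem_unc.1 hu
        by_cases hy : u ∈ K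
        · exact mem_unc.2 ⟨a1, (hK u hy).2.1⟩
        · exact mem_unc.2 ⟨a1, by simpa [ψ, hy] using a2⟩
      · exact mem_unc.2 ⟨(hK u hu).1, (hK u hu).2.1⟩
    · rw [disjoint_left]
      intro u hu hy
      obtain ⟨-, -, c', b1, -⟩ := hK u hy
      have : χ' i u = none := by simpa [ψ, hy] using (mem_unc.1 hu).2
      rw [b1] at this
      exact absurd this (by simp)
  have h3 := sl_one hD χ i v
  have h4 : Sl (gr i) D ψ v (K.card + 1) := by
    have := card_le_card h1
    unfold Sl at *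
    omega
  exact Sl.ext (gr := fun _ : Unit => gr i) (i := ()) e1 h4

omit [LinearOrder V] in
theorem swap (G : SimpleGraph V) (Y : V → Prop) (f : V → ℝ) :
    ∑ x, ((sel (fun v => G.Adj x v ∧ Y v)).card : ℝ) * f x =
      ∑ v ∈ sel Y, ∑ x ∈ sel (G.Adj v), f x := by
  classical
  simp only [card_sel_eq_sum, sum_sel, sum_mul]
  rw [sum_comm]
  refine sum_congr rfl fun v _ => ?_
  by_cases hv : Y v
  · rw [if_pos hv]
    refine sum_congr rfl fun x _ => ?_
    by_cases h : G.Adj v x
    · simp [hv, h, h.symm]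
    · have h' : ¬ G.Adj x v := fun e => h e.symm
      simp [h, h']
  · simp [hv]

theorem arith {g F y Z E2 L B D : ℝ} (hZ : 0 < Z) (hB : 0 < B) (hE : 0 < E2) (hg : 0 ≤ g)
    (hy : 0 ≤ y) (h1 : F * (E2 / (Z * B)) ≤ L / B ^ 2 * (D * y))
    (h2 : g * L * (D * Z) ≤ B * E2) : g * F ≤ y := by
  have h3 : F * E2 * B ≤ L * (D * y) * Z := by
    have e1 : F * (E2 / (Z * B)) = F * E2 * B / (Z * B ^ 2) := by field_simp
    have e2 : L / B ^ 2 * (D * y) = L * (D * y) * Z / (Z * B ^ 2) := by field_simp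
    rw [e1, e2] at h1
    exact (div_le_div_iff_of_pos_right (by positivity)).1 h1
  have h4 : g * F * (E2 * B) ≤ y * (E2 * B) := by
    calc g * F * (E2 * B) = g * (F * E2 * B) := by ring
      _ ≤ g * (L * (D * y) * Z) := mul_le_mul_of_nonneg_left h3 hg
      _ = y * (g * L * (D * Z)) := by ring
      _ ≤ y * (B * E2) := mul_le_mul_of_nonneg_left h2 hy
      _ = y * (E2 * B) := by ring
  exact le_of_mul_le_mul_right h4 (by positivity)

theorem arith2 {E2 M B Q a s S gp h cn : ℝ} (hM : 0 < M) (hB : 0 < B) (hQ : 0 < Q)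
    (h1 : gp / Q / (2 * B) ≤ h + a) (h2 : h ≤ s + cn) (h3 : cn ≤ S) (h4 : E2 ≤ 128 * M * gp)
    (h5 : 1024 * M * B * Q * a ≤ E2) (h6 : 512 * M * B * Q * s ≤ E2) :
    E2 / (1024 * M * Q * B) ≤ S := by
  have c11 : gp / Q / (2 * B) ≤ s + S + a := by linarith
  rw [div_div, div_le_iff₀ (by positivity)] at c11
  rw [div_le_iff₀ (by positivity)]
  have c12 := mul_le_mul_of_nonneg_left c11 (by positivity : (0 : ℝ) ≤ 512 * M)
  linarith

end A2

theorem p_a2 (gr : I → SimpleGraph V) : A2St gr := by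
  classical
  intro D r0 b a w r E lo Q c0 ρ ρ0 g M1 s0 Λ χ Y hD hS hr hχ hY hQ hlo hcol hcold hrs hρ0 hgap
    hρ hE hM ha hs0 hΛ hg
  let P : I → V → Finset ℕ := fun i x => Ico lo (lo + Q) \ rs (gr i) (χ i) lo Q x
  let hit : I → V → V → V → ℕ → Prop := fun i x v _ c =>
    (gr i).Adj x v ∧ x ∈ spr (gr i) E v ∧ c ∈ rs (gr i) (χ i) lo Q v
  let ny : I → V → ℕ := fun i x => (sel (fun v => (gr i).Adj x v ∧ Y i v)).card
  let κ : I → V → V → ℝ := fun i x z => if z = x then (ny i x : ℝ) else 0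
  have κ0 : ∀ i x z, z ≠ x → κ i x z = 0 := fun i x z h => if_neg h
  have κ1 : ∀ i x, κ i x x = ny i x := fun i x => if_pos rfl
  have lrs := loc_rs hχ.1 lo Q
  have lP : Loc gr (r + 3) P :=
    (lrs.map (fun _ s => Ico lo (lo + Q) \ s)).mono (by omega)
  have lhit : Loc gr (r + 3) hit := by
    intro i i' x hA
    funext v u c
    apply propext
    simp only [hit]
    rw [← hA.adj_iff (by omega) v]
    refine and_congr_right fun hv => ?_
    have e1 : spr (gr i) E v = spr (gr i') E v := (loc_spr E).adj hA hv (by omega)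
    have e2 : rs (gr i) (χ i) lo Q v = rs (gr i') (χ i') lo Q v := lrs.adj hA hv (by omega)
    rw [e1, e2]
  have lny : Loc gr (r + 1) ny :=
    (loc_sel_adj (f := fun _ _ => ()) (Loc.const fun _ => ()) hY (fun _ _ _ y => y)).map
      (fun _ s => s.card)
  have lκ : Loc gr (r + 3) κ :=
    (lny.map (fun x n z => if z = x then (n : ℝ) else 0)).mono (by omega)
  have hrsub : ∀ i x, rs (gr i) (χ i) lo Q x ⊆ Ico lo (lo + Q) := fun i x c hc =>
    mem_Ico.2 (mem_rs.1 hc).1
  have hPc : ∀ i x, (P i x).card + (rs (gr i) (χ i) lo Q x).card = Q := fun i x => by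
    have := card_sdiff_add_card_eq_card (hrsub i x)
    rw [Nat.card_Ico] at this
    simp only [P]
    omega
  obtain ⟨act, l1, a1, a2, a3, a4⟩ := hS (r + 3) Q (fun i x => χ i x = none) P hit κ (by omega) hQ
    ((hχ.1.map (fun _ o => o = none)).mono (by omega)) lP lhit lκ
    (fun i x _ => ⟨fun c hc => by
        have := mem_Ico.1 (mem_sdiff.1 hc).1
        exact mem_range.2 (by omega), by
        have := hPc i x
        have := hrs i x
        omega⟩)
    (fun i x v u c h => h.1.symm)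
    (fun i x z => by
      by_cases e : z = x
      · rw [e, κ1]; exact Nat.cast_nonneg _
      · rw [κ0 i x z e])
    (fun i x z h => by
      by_cases e : z = x
      · rw [e]; exact Near.refl _ _ _
      · exact absurd (if_neg e) h)
  let cf : I → V → ℕ := fun i x => (sel (fun y => (gr i).Adj x y ∧ y ≠ x ∧ act i x ≠ none ∧
    act i y = act i x)).card
  have lcf : Loc gr (r + 3 + w + 1) cf :=
    (loc_sel_adj (l1.mono (Nat.le_succ _)) l1
      (fun x y o o' => y ≠ x ∧ o ≠ none ∧ o' = o)).map (fun _ s => s.card)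
  let t : I → V → Option ℕ := fun i x => if cf i x = 0 then act i x else none
  have lt : Loc gr (r + (w + 4)) t :=
    (((l1.mono (Nat.le_succ _)).prod lcf).map
      (fun _ p => if p.2 = 0 then p.1 else none)).mono (by omega)
  have ht : ∀ i x c, t i x = some c → cf i x = 0 ∧ act i x = some c := fun i x c h => by
    by_cases e : cf i x = 0
    · exact ⟨e, (if_pos e).symm.trans h⟩
    · exact absurd ((if_neg e).symm.trans h) (Option.some_ne_none c).symm
  obtain ⟨χ', p1, p2, p3, p4⟩ := commit (hχ.mono (r' := r + (w + 4)) (by omega)) lt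
    (fun i v c h => by
      obtain ⟨b1, b2⟩ := a1 i v c (ht i v c h).2
      obtain ⟨b3, b4⟩ := mem_sdiff.1 b2
      have b5 := mem_Ico.1 b3
      exact ⟨b1, mem_lst.2 ⟨by omega, fun u hu e => b4 (mem_rs.2 ⟨b5, u, hu, e⟩)⟩⟩)
    (fun i v u c hu h h' => by
      obtain ⟨b1, b2⟩ := ht i v c h
      obtain ⟨-, b3⟩ := ht i u c h'
      have : u ∈ sel (fun y => (gr i).Adj v y ∧ y ≠ v ∧ act i v ≠ none ∧ act i y = act i v) :=
        mem_sel.2 ⟨hu, hu.ne', by rw [b2]; exact Option.some_ne_none c, by rw [b2, b3]⟩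
      rw [card_eq_zero.1 b1] at this
      exact absurd this (notMem_empty _))
  refine ⟨χ', p1, p2, fun i v c h => ?_, fun i v => ?_, fun i => ?_⟩
  · rcases e : t i v with _ | c'
    · exact hcol i v c (by rw [← p4 i v e, h])
    · have b1 := p3 i v c' e
      rw [h] at b1
      have b2 := mem_Ico.1 (mem_sdiff.1 (a1 i v c' (ht i v c' e).2).2).1
      have : c = c' := Option.some.inj b1
      omega
  · have b1 : (cold (gr i) (χ' i) v).card ≤ (cold (gr i) (χ i) v).card +
        (sel (fun x => (gr i).Adj v x ∧ act i x ≠ none)).card := by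
      refine card_sel_le_add fun x hx => ?_
      rcases e : t i x with _ | c'
      · exact Or.inl ⟨hx.1, by rw [← p4 i x e]; exact hx.2⟩
      · exact Or.inr ⟨hx.1, by rw [(ht i x c' e).2]; exact Option.some_ne_none c'⟩
    have b2 : (sel (fun x => (gr i).Adj v x ∧ act i x ≠ none)).card ≤ ρ :=
      Nat.le_of_mul_le_mul_left ((a2 i v).trans hρ) (by positivity)
    have := hcold i v
    omega
  · have hQ' : (0 : ℝ) < Q := by exact_mod_cast hQ
    have hM' : (0 : ℝ) < M1 := by exact_mod_cast hM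
    have hE' : (0 : ℝ) < E := by exact_mod_cast hE
    have hB : (0 : ℝ) < 2 ^ b := by positivity
    -- a failed node sees many conflicts
    have key : ∀ v, Y i v → ¬ Sl (gr i) D (χ' i) v s0 →
        (E : ℝ) ^ 2 / (1024 * M1 * Q * 2 ^ b) ≤ ∑ x ∈ sel ((gr i).Adj v), (cf i x : ℝ) := by
      intro v hv hn
      -- the expected number of hits
      have c1 : (gap (gr i) E (χ i) lo Q v : ℝ) / Q / (2 * 2 ^ b) ≤
          ((sel (fun x => ∃ c, act i x = some c ∧ hit i x v v c)).card : ℝ) + a := by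
        have e0 : (0 : ℝ) ≤ 2 * 2 ^ b := by positivity
        refine le_trans (div_le_div_of_nonneg_right ?_ e0) (a3 i v v)
        unfold gap
        rw [Nat.cast_sum, sum_div]
        refine le_trans (sum_le_sum fun x hx => ?_) (sum_le_sum_of_subset_of_nonneg
          (sel_mono (P := fun u => u ∈ spr (gr i) E v ∧ χ i u = none) fun u hu => hu.2)
          fun _ _ _ => by positivity)
        obtain ⟨d1, -⟩ := mem_sel.1 hx
        have d4 := hPc i x
        have d5 := hrs i x
        refine div_le_div₀ (Nat.cast_nonneg _) (Nat.cast_le.2 (card_le_card fun c hc => ?_))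
          (Nat.cast_pos.2 (by omega)) (Nat.cast_le.2 (by omega))
        obtain ⟨d3, d4⟩ := mem_sdiff.1 hc
        exact (@mem_filter _ _ (_) _ _).2
          ⟨mem_sdiff.2 ⟨hrsub i v d3, d4⟩, (mem_spr.1 d1).1.symm, d1, d3⟩
      -- the kept hits
      let K : Finset V := sel (fun x => (∃ c, act i x = some c ∧ hit i x v v c) ∧ cf i x = 0)
      have c3 : Sl (gr i) D (χ' i) v (K.card + 1) := by
        refine A2.slack_of hD p2 i v K fun x hx => ?_
        obtain ⟨⟨c, d1, d2, -, d3⟩, d4⟩ := mem_sel.1 hx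
        exact ⟨d2.symm, (a1 i x c d1).1, c, p3 i x c ((if_pos d4).trans d1), (mem_rs.1 d3).2⟩
      have c4 : K.card ≤ s0 := by
        by_contra h
        exact hn (c3.mono (by omega))
      have c5 : (sel (fun x => ∃ c, act i x = some c ∧ hit i x v v c)).card ≤
          K.card + (sel (fun x => (gr i).Adj v x ∧ cf i x ≠ 0)).card := by
        refine card_sel_le_add fun x hx => ?_
        by_cases e : cf i x = 0
        · exact Or.inl ⟨hx, e⟩
        · obtain ⟨c, -, d2, -⟩ := hx
          exact Or.inr ⟨d2.symm, e⟩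
      have c6 : ((sel (fun x => (gr i).Adj v x ∧ cf i x ≠ 0)).card : ℝ) ≤
          ∑ x ∈ sel ((gr i).Adj v), (cf i x : ℝ) := by
        rw [card_eq_sum_ones, Nat.cast_sum]
        refine le_trans (sum_le_sum fun x hx => ?_) (sum_le_sum_of_subset_of_nonneg
          (sel_mono (P := fun x => (gr i).Adj v x ∧ cf i x ≠ 0) fun u hu => hu.1)
          fun _ _ _ => by positivity)
        exact_mod_cast Nat.one_le_iff_ne_zero.2 (mem_sel.1 hx).2
      have c7 : ((sel (fun x => ∃ c, act i x = some c ∧ hit i x v v c)).card : ℝ) ≤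
          s0 + ((sel (fun x => (gr i).Adj v x ∧ cf i x ≠ 0)).card : ℝ) := by
        exact_mod_cast c5.trans (Nat.add_le_add_right c4 _)
      have c8 : (E : ℝ) ^ 2 ≤ 128 * M1 * gap (gr i) E (χ i) lo Q v := by exact_mod_cast hgap i v hv
      have c9 : (1024 : ℝ) * M1 * 2 ^ b * Q * a ≤ E ^ 2 := by exact_mod_cast ha
      have c10 : (512 : ℝ) * M1 * 2 ^ b * Q * s0 ≤ E ^ 2 := by exact_mod_cast hs0
      exact A2.arith2 hM' hB hQ' c1 c7 c6 c8 c9 c10
    have d1 := a4 i
    have d2 : ∑ x, ∑ z, κ i x z * ((sel (fun y => (gr i).Adj z y ∧ y ≠ x ∧ act i x ≠ none ∧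
        act i y = act i x)).card : ℝ) = ∑ v ∈ sel (Y i), ∑ x ∈ sel ((gr i).Adj v), (cf i x : ℝ) := by
      rw [← A2.swap]
      refine sum_congr rfl fun x _ => ?_
      rw [sum_eq_single x (fun z _ hz => by rw [κ0 i x z hz, zero_mul])
        (fun h => absurd (mem_univ _) h), κ1]
    have d3 : ∑ x, ∑ z, κ i x z ≤ D * (sel (Y i)).card := by
      have e : ∑ x, ∑ z, κ i x z = ∑ v ∈ sel (Y i), ∑ x ∈ sel ((gr i).Adj v), (1 : ℝ) := by
        rw [← A2.swap]
        refine sum_congr rfl fun x _ => ?_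
        rw [sum_eq_single x (fun z _ hz => κ0 i x z hz) (fun h => absurd (mem_univ _) h), κ1,
          mul_one]
      rw [e]
      refine (sum_le_card_nsmul _ _ (D : ℝ) fun v _ => ?_).trans (by rw [nsmul_eq_mul, mul_comm])
      have e' : sel ((gr i).Adj v) = nbr gr i v := by
        ext u
        rw [mem_sel, mem_nbr]
      rw [sum_const, nsmul_eq_mul, mul_one, e']
      exact_mod_cast hD i v
    have d4 : ((sel (fun v => Y i v ∧ ¬ Sl (gr i) D (χ' i) v s0)).card : ℝ) *
        ((E : ℝ) ^ 2 / (1024 * M1 * Q * 2 ^ b)) ≤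
          ∑ v ∈ sel (Y i), ∑ x ∈ sel ((gr i).Adj v), (cf i x : ℝ) := by
      rw [← nsmul_eq_mul]
      refine le_trans (card_nsmul_le_sum _ _ _ fun v hv => key v (mem_sel.1 hv).1 (mem_sel.1 hv).2)
        (sum_le_sum_of_subset_of_nonneg (sel_mono fun u hu => hu.1)
          fun _ _ _ => sum_nonneg fun _ _ => Nat.cast_nonneg _)
    have d5 : (0 : ℝ) ≤ Λ * (4 * D / Q + a) / 4 ^ b := by positivity
    rw [d2] at d1
    have d6 := d4.trans (d1.trans (mul_le_mul_of_nonneg_left d3 d5))
    have d7 : (4 : ℝ) ^ b = (2 ^ b) ^ 2 := by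
      rw [← pow_mul, mul_comm, pow_mul]
      norm_num
    rw [d7] at d6
    have d8 := A2.arith (g := g) (by positivity : (0 : ℝ) < 1024 * M1 * Q) hB (by positivity)
      (Nat.cast_nonneg _) (Nat.cast_nonneg _) d6 (le_of_eq_of_le (by ring) hg)
    exact_mod_cast d8

end Pool.Agent.P.MP_6f280c_lc.Dc
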