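import Pool.Agent.P.MP_6f280c_lc.Dc.St

/-! The decomposition into almost-cliques. -/

set_option autoImplicit false

namespace Pool.Agent.P.MP_6f280c_lc.Dc

open Finset

noncomputable section

variable {V I : Type} [Fintype V] [LinearOrder V]

namespace Acd

/-- the number of common neighbours -/
def cm (G : SimpleGraph V) (u v : V) : ℕ := (sel (fun w => G.Adj u w ∧ G.Adj v w)).card

/-- the degree -/
def dg (G : SimpleGraph V) (v : V) : ℕ := (sel (fun w => G.Adj v w)).card

/-- adjacent nodes with many common neighbours -/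
def fr (G : SimpleGraph V) (D E : ℕ) (u v : V) : Prop := G.Adj u v ∧ D ≤ cm G u v + E

/-- the number of neighbours that are not friends -/
def nf (G : SimpleGraph V) (D E : ℕ) (v : V) : ℕ :=
  (sel (fun u => G.Adj v u ∧ ¬ fr G D E v u)).card

/-- dense nodes -/
def dn (G : SimpleGraph V) (D E : ℕ) (v : V) : Prop := D ≤ (sel (fr G D E v)).card + E

/-- dense nodes of the same clique -/
def eqv (G : SimpleGraph V) (D E : ℕ) (u v : V) : Prop :=
  dn G D E u ∧ dn G D E v ∧ D ≤ cm G u v + 2 * E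

open Classical in
/-- the least element of a set, or a default value -/
def lst0 (S : Finset V) (v : V) : V := if h : S.Nonempty then S.min' h else v

/-- the leader -/
def cl (G : SimpleGraph V) (D E : ℕ) (v : V) : V := lst0 (sel (eqv G D E v)) v

variable {G G' : SimpleGraph V} {D E : ℕ}

omit [LinearOrder V] in
theorem card_split (P Q : V → Prop) :
    (sel (fun w => P w ∧ Q w)).card + (sel (fun w => P w ∧ ¬ Q w)).card = (sel P).card := by
  classical
  rw [← card_union_of_disjoint]
  · congr 1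
    ext u
    simp only [mem_union, mem_sel]
    tauto
  · rw [disjoint_left]
    intro u h1 h2
    exact (mem_sel.1 h2).2 (mem_sel.1 h1).2

omit [LinearOrder V] in
theorem cm_comm (u v : V) : cm G u v = cm G v u := by
  unfold cm
  rw [sel_congr (Q := fun w => G.Adj v w ∧ G.Adj u w) fun w => and_comm]

omit [LinearOrder V] in
theorem cm_self (v : V) : cm G v v = dg G v := by
  unfold cm dg
  rw [sel_congr (Q := fun w => G.Adj v w) fun w => and_self_iff]

omit [LinearOrder V] in
theorem cm_tri (u v w : V) : cm G u v + cm G v w ≤ cm G u w + dg G v := by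
  classical
  unfold cm dg
  rw [← card_union_add_card_inter, add_comm]
  refine Nat.add_le_add (card_le_card fun x hx => ?_) (card_le_card fun x hx => ?_)
  · simp only [mem_inter, mem_sel] at hx ⊢
    exact ⟨hx.1.1, hx.2.2⟩
  · simp only [mem_union, mem_sel] at hx ⊢
    rcases hx with hx | hx
    · exact hx.2
    · exact hx.1

omit [LinearOrder V] in
theorem fr_add_nf (v : V) : (sel (fr G D E v)).card + nf G D E v = dg G v := by
  unfold nf dg
  rw [← card_split (fun w => G.Adj v w) (fr G D E v),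
    sel_congr (P := fun w => G.Adj v w ∧ fr G D E v w) (Q := fr G D E v)
      fun w => ⟨fun h => h.2, fun h => ⟨h.1, h⟩⟩]

omit [LinearOrder V] in
theorem nf_le (hD : ∀ v, dg G v ≤ D) {v : V} (h : dn G D E v) : nf G D E v ≤ E := by
  have h1 := fr_add_nf (G := G) (D := D) (E := E) v
  have h2 := hD v
  unfold dn at h
  omega

omit [LinearOrder V] in
theorem dg_ge {v : V} (h : dn G D E v) : D ≤ dg G v + E := by
  have h1 := fr_add_nf (G := G) (D := D) (E := E) v
  unfold dn at h
  omega

omit [LinearOrder V] in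
theorem eqv_refl {v : V} (h : dn G D E v) : eqv G D E v v := by
  refine ⟨h, h, ?_⟩
  have := dg_ge h
  rw [cm_self]
  omega

omit [LinearOrder V] in
theorem eqv_symm {u v : V} (h : eqv G D E u v) : eqv G D E v u :=
  ⟨h.2.1, h.1, by rw [cm_comm]; exact h.2.2⟩

omit [LinearOrder V] in
theorem eqv_trans (hD : ∀ v, dg G v ≤ D) (hE : 6 * E < D) {u v w : V} (h : eqv G D E u v)
    (h' : eqv G D E v w) : eqv G D E u w := by
  refine ⟨h.1, h'.2.1, ?_⟩
  have a1 := cm_tri (G := G) u v w
  have a2 := hD v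
  have a3 := h.2.2
  have a4 := h'.2.2
  have a5 := nf_le hD h.1
  have a6 := nf_le hD h'.2.1
  have a7 : cm G u w ≤ (sel (fun x => fr G D E u x ∧ G.Adj w x)).card + nf G D E u :=
    card_sel_le_add fun x hx => by
      by_cases e : fr G D E u x
      · exact Or.inl ⟨e, hx.2⟩
      · exact Or.inr ⟨hx.1, e⟩
  have a8 : (sel (fun x => fr G D E u x ∧ G.Adj w x)).card ≤
      (sel (fun x => fr G D E u x ∧ fr G D E w x)).card + nf G D E w :=
    card_sel_le_add fun x hx => by
      by_cases e : fr G D E w x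
      · exact Or.inl ⟨hx.1, e⟩
      · exact Or.inr ⟨hx.2, e⟩
  have a9 : 0 < (sel (fun x => fr G D E u x ∧ fr G D E w x)).card := by omega
  obtain ⟨x, hx⟩ := card_pos.1 a9
  obtain ⟨b1, b2⟩ := mem_sel.1 hx
  have b3 := cm_tri (G := G) u x w
  have b4 := hD x
  have b5 := b1.2
  have b6 := b2.2
  rw [cm_comm w x] at b6
  omega

omit [LinearOrder V] in
theorem eqv_near (hE : 6 * E < D) {u v : V} (h : eqv G D E u v) : Near G 2 u v := by
  have a1 := h.2.2
  have a2 : 0 < cm G u v := by omega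
  obtain ⟨x, hx⟩ := card_pos.1 a2
  obtain ⟨b1, b2⟩ := mem_sel.1 hx
  exact (Near.of_adj b1).trans (Near.of_adj b2.symm)

omit [Fintype V] in
theorem lst0_mem {S : Finset V} (h : S.Nonempty) (v : V) : lst0 S v ∈ S := by
  unfold lst0
  rw [dif_pos h]
  exact min'_mem _ _

omit [Fintype V] in
theorem lst0_eq {S : Finset V} (h : S.Nonempty) (u v : V) : lst0 S u = lst0 S v := by
  unfold lst0
  rw [dif_pos h, dif_pos h]

theorem eqv_cl {v : V} (h : dn G D E v) : eqv G D E v (cl G D E v) :=
  mem_sel.1 (lst0_mem ⟨v, mem_sel.2 (eqv_refl h)⟩ v)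

theorem cl_near (hE : 6 * E < D) (v : V) : Near G 2 v (cl G D E v) := by
  by_cases h : dn G D E v
  · exact eqv_near hE (eqv_cl h)
  · have e : cl G D E v = v := by
      unfold cl lst0
      rw [dif_neg]
      rintro ⟨u, hu⟩
      exact h (mem_sel.1 hu).1
    rw [e]
    exact Near.refl _ _ _

theorem cl_eq (hD : ∀ v, dg G v ≤ D) (hE : 6 * E < D) {u v : V} (h : eqv G D E u v) :
    cl G D E u = cl G D E v := by
  unfold cl
  rw [sel_congr (P := eqv G D E u) (Q := eqv G D E v) fun w =>
    ⟨fun a => eqv_trans hD hE (eqv_symm h) a, fun a => eqv_trans hD hE h a⟩]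
  exact lst0_eq ⟨v, mem_sel.2 (eqv_refl h.2.1)⟩ u v

theorem eqv_of_cl (hD : ∀ v, dg G v ≤ D) (hE : 6 * E < D) {u v : V} (hu : dn G D E u)
    (hv : dn G D E v) (h : cl G D E u = cl G D E v) : eqv G D E v u :=
  eqv_trans hD hE (eqv_cl hv) (eqv_symm (h ▸ eqv_cl hu))

omit [LinearOrder V] in
theorem cm_agree {u v : V} (hu : Agree 1 G G' u) (hv : Agree 1 G G' v) :
    cm G u v = cm G' u v := by
  unfold cm
  rw [sel_congr (Q := fun w => G'.Adj u w ∧ G'.Adj v w) fun w => by
    rw [hu.adj_iff le_rfl w, hv.adj_iff le_rfl w]]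

omit [LinearOrder V] in
theorem dn_agree {v : V} (h : Agree 2 G G' v) : dn G D E v = dn G' D E v := by
  unfold dn
  rw [sel_congr (P := fr G D E v) (Q := fr G' D E v) fun u => by
    unfold fr
    rw [← h.adj_iff (by omega) u]
    exact and_congr_right fun hu => by rw [cm_agree (h.mono (by omega)) (h.2 u hu)]]

omit [LinearOrder V] in
theorem eqv_agree (hE : 6 * E < D) {v u : V} (h : Agree 4 G G' v) (a : eqv G D E v u) :
    eqv G' D E v u := by
  have hu : Agree 2 G G' u := Agree.near (r := 2) (k := 2) h (eqv_near hE a)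
  refine ⟨dn_agree (h.mono (by omega)) ▸ a.1, dn_agree hu ▸ a.2.1, ?_⟩
  rw [← cm_agree (h.mono (by omega)) (hu.mono (by omega))]
  exact a.2.2

theorem cl_agree (hE : 6 * E < D) {v : V} (h : Agree 4 G G' v) : cl G D E v = cl G' D E v := by
  unfold cl
  rw [sel_congr (P := eqv G D E v) (Q := eqv G' D E v) fun u =>
    ⟨eqv_agree hE h, eqv_agree hE h.symm⟩]

theorem ext_le (hD : ∀ v, dg G v ≤ D) (hE : 6 * E < D) {v : V} (h : dn G D E v) :
    (extS G (cl G D E) (dn G D E) v).card ≤ E := by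
  refine le_trans (card_sel_le fun u hu => ⟨hu.1, fun e => hu.2.2 ?_⟩) (nf_le hD h)
  have := e.2
  exact (cl_eq hD hE ⟨h, hu.2.1, by omega⟩).symm

theorem anti_le (hD : ∀ v, dg G v ≤ D) (hE : 6 * E < D) {v : V} (h : dn G D E v) :
    (antiS G (cl G D E) (dn G D E) v).card ≤ 3 * E := by
  classical
  set A := antiS G (cl G D E) (dn G D E) v with hA
  have a1 : ∑ _u ∈ A, D ≤ ∑ u ∈ A, (cm G v u + 2 * E) := sum_le_sum fun u hu => by
    obtain ⟨b1, b2, -⟩ := mem_antiS.1 hu
    exact (eqv_of_cl hD hE b1 h b2).2.2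
  have a2 : ∑ u ∈ A, cm G v u =
      ∑ x ∈ sel (fun w => G.Adj v w), (A.filter (fun u => G.Adj u x)).card := by
    simp only [card_filter]
    rw [sum_comm]
    refine sum_congr rfl fun u _ => ?_
    rw [← card_filter]
    unfold cm
    congr 1
    ext w
    simp only [mem_filter, mem_sel]
  have a3 : ∀ x ∈ sel (fun w => G.Adj v w), (A.filter (fun u => G.Adj u x)).card ≤
      E + if fr G D E v x then 0 else D := by
    intro x _
    have b1 : (A.filter (fun u => G.Adj u x)).card ≤
        (sel (fun w => G.Adj x w ∧ ¬ G.Adj v w)).card := card_le_card fun u hu => by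
      obtain ⟨c1, c2⟩ := mem_filter.1 hu
      exact mem_sel.2 ⟨c2.symm, (mem_antiS.1 c1).2.2.2⟩
    have b2 : cm G x v + (sel (fun w => G.Adj x w ∧ ¬ G.Adj v w)).card = dg G x :=
      card_split (fun w => G.Adj x w) (fun w => G.Adj v w)
    have b3 := hD x
    split_ifs with e
    · have b4 := e.2
      rw [cm_comm v x] at b4
      omega
    · omega
  have a4 := sum_le_sum a3
  have a5 : ∑ x ∈ sel (fun w => G.Adj v w), (if fr G D E v x then 0 else D) = nf G D E v * D := by
    rw [sum_ite, sum_const_zero, zero_add, sum_const, smul_eq_mul]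
    unfold nf
    congr 2
    ext w
    simp only [mem_filter, mem_sel]
  rw [sum_add_distrib, a5, sum_const, smul_eq_mul, ← a2] at a4
  rw [sum_add_distrib, sum_const, sum_const, smul_eq_mul, smul_eq_mul] at a1
  have a6 : (sel (fun w => G.Adj v w)).card * E ≤ D * E := Nat.mul_le_mul_right _ (hD v)
  have a7 : nf G D E v * D ≤ E * D := Nat.mul_le_mul_right _ (nf_le hD h)
  by_contra hc
  obtain ⟨a, ha⟩ : ∃ a, A.card = 3 * E + 1 + a := ⟨A.card - (3 * E + 1), by omega⟩
  obtain ⟨d, hd⟩ : ∃ d, D = 6 * E + 1 + d := ⟨D - (6 * E + 1), by omega⟩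
  have a8 : A.card * D ≤ D * E + E * D + A.card * (2 * E) := by omega
  rw [ha, hd] at a8
  nlinarith [Nat.zero_le (a * d), Nat.zero_le (a * E), Nat.zero_le (E * d)]

omit [LinearOrder V] in
theorem spr_ge {v : V} (h : ¬ dn G D E v) (h' : 2 * D < 2 * dg G v + E) :
    E ≤ 2 * (spr G E v).card := by
  have a1 : nf G D E v ≤ (spr G E v).card := card_sel_le fun u hu => ⟨hu.1, by
    have b1 : ¬ D ≤ cm G v u + E := fun e => hu.2 ⟨hu.1, e⟩
    have b2 : cm G v u + (sel (fun w => G.Adj v w ∧ ¬ G.Adj u w)).card = dg G v :=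
      card_split (fun w => G.Adj v w) (fun w => G.Adj u w)
    omega⟩
  have a2 := fr_add_nf (G := G) (D := D) (E := E) v
  unfold dn at h
  omega

omit [LinearOrder V] in
theorem dg_eq (gr : I → SimpleGraph V) (i : I) (v : V) : (nbr gr i v).card = dg (gr i) v :=
  congrArg card (Finset.ext fun _ => mem_nbr.trans (mem_sel (P := fun w => (gr i).Adj v w)).symm)

end Acd

theorem p_acd (gr : I → SimpleGraph V) : AcdSt gr := by
  intro D E hD hE
  have hD' : ∀ i v, Acd.dg (gr i) v ≤ D := fun i v => Acd.dg_eq gr i v ▸ hD i v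
  refine ⟨fun i => Acd.dn (gr i) D E, fun i => Acd.cl (gr i) D E,
    fun i i' v hA => Acd.dn_agree (hA.mono (by omega)),
    ⟨fun i i' v hA => Acd.cl_agree hE hA, fun i v => Acd.cl_near hE v⟩,
    fun i v h => ⟨Acd.ext_le (hD' i) hE h, Acd.anti_le (hD' i) hE h, ?_⟩, fun i v h => ?_⟩
  · rw [Acd.dg_eq]
    exact Acd.dg_ge h
  · rw [Acd.dg_eq]
    by_cases e : 2 * Acd.dg (gr i) v + E ≤ 2 * D
    · exact Or.inl e
    · exact Or.inr (Acd.spr_ge h (by omega))

end

end Pool.Agent.P.MP_6f280c_lc.Dc
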