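import Pool.Agent.P.MP_6f280c_lc.Dc.St

/-! Item 5: simultaneous choices from defective colourings and list halving. -/

set_option autoImplicit false

namespace Pool.Agent.P.MP_6f280c_lc.Dc

open Finset

variable {V I : Type} [Fintype V] [LinearOrder V]

namespace PAnd

theorem split_le (P : Prop) [Decidable P] (b κ : ℕ) {x : ℝ} (hx : 0 ≤ x) :
    (if P then (2 : ℝ) ^ b else 2 ^ κ) * x ≤ 2 ^ κ * x + 2 ^ b * (if P then x else 0) := by
  have h1 : (0 : ℝ) ≤ 2 ^ κ * x := by positivity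
  by_cases h : P
  · simp only [if_pos h]
    linarith
  · simp only [if_neg h]
    linarith

theorem arith {p1 p2 k1 k2 m1 m2 S : ℝ} (h1 : 0 < p1) (h2 : 0 < p2) (a1 : p1 * m1 ≤ k1 * S)
    (a2 : p2 * m2 ≤ p2 * m1 + k2 * S) : m2 ≤ (k1 / p1 + k2 / p2) * S := by
  have b1 : m1 ≤ k1 / p1 * S := by
    rw [div_mul_eq_mul_div, le_div_iff₀ h1]
    linarith
  have b2 : m2 - m1 ≤ k2 / p2 * S := by
    rw [div_mul_eq_mul_div, le_div_iff₀ h2]
    linarith
  linarith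

end PAnd

theorem p_and (gr : I → SimpleGraph V) (hW : WDefSt gr) (hC : AndCoreSt gr) : AndSt gr := by
  intro idn p1 k1 p2 k2 q κ b Λ hinj hp1 hp2 hid hpp hq hcode hΛ r R F W lF lW hW0 hWn
  let w : I → V → V → ℝ := fun i z z' =>
    (∑ a ∈ range (2 ^ b), ∑ a' ∈ range (2 ^ b), W i z z' a a') / 4 ^ b
  have lw : Loc gr r w := lW.map (fun _ (g : V → ℕ → ℕ → ℝ) z' =>
    (∑ a ∈ range (2 ^ b), ∑ a' ∈ range (2 ^ b), g z' a a') / 4 ^ b)
  have w0 : ∀ i z z', 0 ≤ w i z z' := fun i z z' =>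
    div_nonneg (sum_nonneg fun a _ => sum_nonneg fun a' _ => hW0 i z z' a a') (by positivity)
  have wn : ∀ i z z', w i z z' ≠ 0 → Near (gr i) R z z' ∧ z ≠ z' := by
    intro i z z' h
    have h1 : ∑ a ∈ range (2 ^ b), ∑ a' ∈ range (2 ^ b), W i z z' a a' ≠ 0 := fun e => by
      apply h
      simp only [w, e, zero_div]
    obtain ⟨a, _, h2⟩ := exists_ne_zero_of_sum_ne_zero h1
    obtain ⟨a', _, h3⟩ := exists_ne_zero_of_sum_ne_zero h2
    exact hWn i z z' a a' h3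
  obtain ⟨c1, l1, b1, e1⟩ := hW r R p1 k1 w (fun _ v => idn v) hp1 lw (Loc.const idn) w0
    (fun i z z' h => (wn i z z' h).1) (fun _ v => hid v)
  obtain ⟨c2, l2, b2, e2⟩ := hW (r + R) R p2 k2 w c1 hp2 (lw.mono (by omega)) l1 w0
    (fun i z z' h => (wn i z z' h).1) (fun i v => lt_of_lt_of_le (b1 i v) hpp)
  obtain ⟨Mc, m1, m2, m3⟩ := h5_code b q κ (p2 ^ 2) hq hcode
  obtain ⟨x, lx, bx, ex⟩ := hC (r + R + R) R (b * q) b κ (p2 ^ 2) F W c2 Mc
    (lF.mono (by omega)) (lW.mono (by omega)) l2 hW0 hWn b2 m1 m2 m3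
  refine ⟨x, lx.mono (le_of_eq (by ring)), bx, fun i => (ex i).trans ?_⟩
  have z0 : ∑ z, ∑ z', (if idn z = idn z' then w i z z' else 0) = 0 := by
    refine sum_eq_zero fun z _ => sum_eq_zero fun z' _ => ?_
    by_cases h : idn z = idn z'
    · rw [if_pos h]
      by_contra h'
      exact (wn i z z' h').2 (hinj h)
    · rw [if_neg h]
  have a1 := e1 i
  rw [z0, mul_zero, zero_add] at a1
  have q1 : (0 : ℝ) < p1 := by exact_mod_cast hp1.pos
  have q2 : (0 : ℝ) < p2 := by exact_mod_cast hp2.pos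
  have a3 := PAnd.arith q1 q2 a1 (e2 i)
  have S0 : 0 ≤ ∑ z, ∑ z', w i z z' := sum_nonneg fun z _ => sum_nonneg fun z' _ => w0 i z z'
  have eS : (∑ z, ∑ z', ∑ a ∈ range (2 ^ b), ∑ a' ∈ range (2 ^ b), W i z z' a a') / 4 ^ b =
      ∑ z, ∑ z', w i z z' := by
    simp only [w, sum_div]
  rw [eS]
  refine add_le_add le_rfl ?_
  have a4 : ∑ z, ∑ z', (if c2 i z = c2 i z' then (2 : ℝ) ^ b else 2 ^ κ) * w i z z' ≤
      2 ^ κ * ∑ z, ∑ z', w i z z' +
        2 ^ b * ∑ z, ∑ z', (if c2 i z = c2 i z' then w i z z' else 0) := by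
    rw [mul_sum, mul_sum, ← sum_add_distrib]
    refine sum_le_sum fun z _ => ?_
    rw [mul_sum, mul_sum, ← sum_add_distrib]
    exact sum_le_sum fun z' _ => PAnd.split_le _ b κ (w0 i z z')
  refine le_trans a4 ?_
  have a5 : (2 : ℝ) ^ b * ∑ z, ∑ z', (if c2 i z = c2 i z' then w i z z' else 0) ≤
      2 ^ b * (((k1 : ℝ) / p1 + (k2 : ℝ) / p2) * ∑ z, ∑ z', w i z z') :=
    mul_le_mul_of_nonneg_left a3 (by positivity)
  have a6 := mul_le_mul_of_nonneg_right hΛ S0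
  nlinarith

end Pool.Agent.P.MP_6f280c_lc.Dc
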