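import Pool.Agent.P.MP_6f280c_lc.Dc.St
import Pool.Agent.P.MP_6f280c_lc.H5Att

set_option autoImplicit false

namespace Pool.Agent.P.MP_6f280c_lc.Dc

open Finset

variable {V I : Type} [Fintype V] [LinearOrder V]

namespace AndCore

/-- average over a list -/
noncomputable def av (A : Finset ℕ) (f : ℕ → ℝ) : ℝ := (∑ x ∈ A, f x) / A.card

theorem av_add (A : Finset ℕ) (f g : ℕ → ℝ) : av A (fun x => f x + g x) = av A f + av A g := by
  unfold av
  rw [sum_add_distrib, add_div]

theorem av_sum {ι : Type} (s : Finset ι) (A : Finset ℕ) (f : ι → ℕ → ℝ) :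
    av A (fun x => ∑ j ∈ s, f j x) = ∑ j ∈ s, av A (f j) := by
  unfold av
  rw [sum_comm, sum_div]

theorem av_mul (A : Finset ℕ) (c : ℝ) (f : ℕ → ℝ) : av A (fun x => c * f x) = c * av A f := by
  unfold av
  rw [← mul_sum, mul_div_assoc]

theorem av_zero (A : Finset ℕ) {f : ℕ → ℝ} (h : ∀ x, f x = 0) : av A f = 0 := by
  unfold av
  rw [sum_eq_zero (fun x _ => h x), zero_div]

theorem av_mono (A : Finset ℕ) {f g : ℕ → ℝ} (h : ∀ x, f x ≤ g x) : av A f ≤ av A g := by
  unfold av
  exact div_le_div_of_nonneg_right (sum_le_sum fun x _ => h x) (Nat.cast_nonneg _)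

theorem av_nonneg (A : Finset ℕ) {f : ℕ → ℝ} (h : ∀ x, 0 ≤ f x) : 0 ≤ av A f := by
  unfold av
  exact div_nonneg (sum_nonneg fun x _ => h x) (Nat.cast_nonneg _)

theorem av_comm (A B : Finset ℕ) (w : ℕ → ℕ → ℝ) :
    av A (fun a => av B (w a)) = av B (fun b => av A (fun a => w a b)) := by
  unfold av
  rw [← sum_div, ← sum_div, sum_comm, div_div, div_div, mul_comm]

theorem av_half {B B' : Finset ℕ} {f : ℕ → ℝ} (hf : ∀ x, 0 ≤ f x) (h : B' ⊆ B)
    (hc : 2 * B'.card = B.card) : av B' f ≤ 2 * av B f := by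
  unfold av
  have e : (B.card : ℝ) = 2 * B'.card := by exact_mod_cast hc.symm
  have h1 : ∑ x ∈ B', f x ≤ ∑ x ∈ B, f x :=
    sum_le_sum_of_subset_of_nonneg h fun x _ _ => hf x
  rw [e, ← mul_div_assoc, mul_div_mul_left _ _ (two_ne_zero)]
  exact div_le_div_of_nonneg_right h1 (Nat.cast_nonneg _)

theorem av_cheap {B B' : Finset ℕ} {f : ℕ → ℝ} (hc : 2 * B'.card = B.card)
    (h : 2 * ∑ x ∈ B', f x ≤ ∑ x ∈ B, f x) : av B' f ≤ av B f := by
  unfold av
  have e : (B.card : ℝ) = 2 * B'.card := by exact_mod_cast hc.symm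
  rw [e, ← mul_div_mul_left (∑ x ∈ B', f x) (B'.card : ℝ) (two_ne_zero)]
  exact div_le_div_of_nonneg_right h (by positivity)

theorem av_single (y : ℕ) (f : ℕ → ℝ) : av {y} f = f y := by
  unfold av
  simp

/-- the potential -/
noncomputable def Phi (F : V → ℕ → ℝ) (W : V → V → ℕ → ℕ → ℝ) (S M : V → Finset ℕ) : ℝ :=
  ∑ z, av (S z) (F z) +
    ∑ z, ∑ z', 2 ^ (M z ∩ M z').card * av (S z) (fun a => av (S z') (W z z' a))

/-- the price of an element -/
noncomputable def pr (Fz : ℕ → ℝ) (Wz Wt : V → ℕ → ℕ → ℝ) (Mz : Finset ℕ)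
    (S M : V → Finset ℕ) (T x : ℕ) : ℝ :=
  Fz x + ∑ z', 2 ^ (Mz ∩ M z').card * av (S z') (Wz z' x) +
    ∑ z', (if T ∈ M z' then 0 else 2 ^ (M z' ∩ Mz).card) * av (S z') (fun a => Wt z' a x)

/-- the new list -/
noncomputable def nw (Fz : ℕ → ℝ) (Wz Wt : V → ℕ → ℕ → ℝ) (Mz Sz : Finset ℕ)
    (S M : V → Finset ℕ) (T : ℕ) : Finset ℕ :=
  if T ∈ Mz then h5half Sz (pr Fz Wz Wt Mz S M T) else Sz

omit [LinearOrder V] in
theorem step_pure {F : V → ℕ → ℝ} {W : V → V → ℕ → ℕ → ℝ} {S M : V → Finset ℕ} (T : ℕ)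
    (hpos : ∀ z z' a a', 0 ≤ W z z' a a') (hc : ∀ v, (S v).card = 2 ^ (M v).card) :
    (∀ v, nw (F v) (W v) (fun z => W z v) (M v) (S v) S M T ⊆ S v) ∧
    (∀ v, (nw (F v) (W v) (fun z => W z v) (M v) (S v) S M T).card =
      2 ^ ((M v).erase T).card) ∧
    Phi F W (fun v => nw (F v) (W v) (fun z => W z v) (M v) (S v) S M T)
      (fun v => (M v).erase T) ≤ Phi F W S M := by
  set Y : V → Finset ℕ := fun v => nw (F v) (W v) (fun z => W z v) (M v) (S v) S M T with hY
  set p : V → ℕ → ℝ := fun v => pr (F v) (W v) (fun z => W z v) (M v) S M T with hp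
  have hmv : ∀ v, T ∈ M v → (S v).card = 2 * 2 ^ ((M v).erase T).card := by
    intro v hv
    rw [hc v, ← card_erase_add_one hv, pow_succ, mul_comm]
  have y1 : ∀ v, T ∈ M v → Y v ⊆ S v ∧ 2 * (Y v).card = (S v).card ∧
      2 * ∑ x ∈ Y v, p v x ≤ ∑ x ∈ S v, p v x := by
    intro v hv
    simp only [hY, hp, nw, if_pos hv]
    exact h5half_spec _ _ _ (hmv v hv)
  have y2 : ∀ v, T ∉ M v → Y v = S v := by
    intro v hv
    simp only [hY, nw, if_neg hv]
  refine ⟨fun v => ?_, fun v => ?_, ?_⟩
  · by_cases hv : T ∈ M v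
    · exact (y1 v hv).1
    · exact (y2 v hv).le
  · by_cases hv : T ∈ M v
    · have := (y1 v hv).2.1
      rw [hmv v hv] at this
      exact Nat.eq_of_mul_eq_mul_left (by norm_num) this
    · show (Y v).card = _
      rw [y2 v hv, erase_eq_of_notMem hv, hc v]
  set g : V → V → Finset ℕ → Finset ℕ → ℝ := fun v u A B =>
    2 ^ (M v ∩ M u).card * av A (fun a => av B (W v u a)) with hg
  set G : (V → Finset ℕ) → ℝ := fun Z => ∑ v, av (Z v) (F v) + ∑ v, ∑ u,
    (if T ∈ M v then g v u (Z v) (S u) else if T ∈ M u then g v u (S v) (Z u)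
      else g v u (S v) (S u)) with hG
  have f1 : G S = Phi F W S M := by
    simp only [hG, Phi, hg, ite_self]
  have f2 : Phi F W Y (fun v => (M v).erase T) ≤ G Y := by
    refine add_le_add_right (sum_le_sum fun v _ => sum_le_sum fun u _ => ?_) _
    by_cases hv : T ∈ M v <;> by_cases hu' : T ∈ M u
    · rw [if_pos hv]
      simp only [hg]
      have e : (M v ∩ M u).card = ((M v).erase T ∩ (M u).erase T).card + 1 := by
        rw [← card_erase_add_one (mem_inter.2 ⟨hv, hu'⟩), h5_erase_inter]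
      rw [e, pow_succ, mul_assoc, ← av_mul (Y v) 2]
      refine mul_le_mul_of_nonneg_left (av_mono _ fun a => ?_) (by positivity)
      exact av_half (hpos v u a) (y1 u hu').1 (y1 u hu').2.1
    · rw [if_pos hv]
      simp only [hg]
      rw [← h5_erase_inter, erase_eq_of_notMem (fun h => hu' (mem_inter.1 h).2), y2 u hu']
    · rw [if_neg hv, if_pos hu']
      simp only [hg]
      rw [← h5_erase_inter, erase_eq_of_notMem (fun h => hv (mem_inter.1 h).1), y2 v hv]
    · rw [if_neg hv, if_neg hu']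
      simp only [hg]
      rw [← h5_erase_inter, erase_eq_of_notMem (fun h => hv (mem_inter.1 h).1), y2 v hv,
        y2 u hu']
  have f3 : ∀ Z : V → Finset ℕ, G Z =
      ∑ v, (if T ∈ M v then av (Z v) (p v) else av (Z v) (F v)) +
      ∑ v, ∑ u, (if T ∉ M v ∧ T ∉ M u then g v u (S v) (S u) else 0) := by
    intro Z
    have e1 : G Z = ∑ v, av (Z v) (F v) + (∑ v, ∑ u, (if T ∈ M v then g v u (Z v) (S u) else 0) +
        ∑ v, ∑ u, (if T ∈ M u ∧ T ∉ M v then g v u (S v) (Z u) else 0) +
        ∑ v, ∑ u, (if T ∉ M v ∧ T ∉ M u then g v u (S v) (S u) else 0)) := by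
      simp only [hG, ← sum_add_distrib]
      refine sum_congr rfl fun v _ => ?_
      congr 1
      refine sum_congr rfl fun u _ => ?_
      by_cases hv : T ∈ M v <;> by_cases hu' : T ∈ M u <;> simp [hv, hu']
    rw [e1, sum_comm (f := fun v u => if T ∈ M u ∧ T ∉ M v then g v u (S v) (Z u) else 0),
      ← add_assoc, ← add_assoc, ← sum_add_distrib, ← sum_add_distrib]
    congr 1
    refine sum_congr rfl fun v _ => ?_
    by_cases hv : T ∈ M v
    · simp only [hv, if_true, true_and, hp]
      unfold pr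
      rw [av_add, av_add, av_sum, av_sum]
      congr 1
      · congr 1
        refine sum_congr rfl fun u _ => ?_
        simp only [hg]
        rw [av_mul]
      · refine sum_congr rfl fun u _ => ?_
        simp only [hg]
        rw [av_mul, av_comm (S u) (Z v) (W u v)]
        by_cases hu' : T ∈ M u
        · simp [hu']
        · simp [hu']
    · simp [hv]
  rw [← f1]
  refine f2.trans ?_
  rw [f3 Y, f3 S]
  refine add_le_add_left (sum_le_sum fun v _ => ?_) _
  by_cases hv : T ∈ M v
  · rw [if_pos hv, if_pos hv]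
    exact av_cheap (y1 v hv).2.1 (y1 v hv).2.2
  · rw [if_neg hv, if_neg hv, y2 v hv]

omit [LinearOrder V] in
theorem round {gr : I → SimpleGraph V} {F : I → V → ℕ → ℝ} {W : I → V → V → ℕ → ℕ → ℝ}
    {R : ℕ} (hpos : ∀ i z z' a a', 0 ≤ W i z z' a a')
    (hn : ∀ i z z' a a', W i z z' a a' ≠ 0 → Near (gr i) R z z') (T : ℕ) :
    ∀ {r : ℕ} {S M : I → V → Finset ℕ}, Loc gr r F → Loc gr r W →
      Loc gr r (fun i v z => W i z v) → Loc gr r S → Loc gr r M →
      (∀ i v, (S i v).card = 2 ^ (M i v).card) → (∀ i v, M i v ⊆ range T) →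
      ∃ S' : I → V → Finset ℕ, Loc gr (r + T * R) S' ∧ (∀ i v, S' i v ⊆ S i v) ∧
        (∀ i v, (S' i v).card = 1) ∧
        ∀ i, Phi (F i) (W i) (S' i) (fun _ => ∅) ≤ Phi (F i) (W i) (S i) (M i) := by
  induction T with
  | zero =>
    intro r S M _ _ _ hS _ hc hM
    have e : ∀ i v, M i v = ∅ := fun i v => by simpa using hM i v
    refine ⟨S, hS.mono (by omega), fun _ _ => Subset.refl _, fun i v => by rw [hc, e]; simp,
      fun i => ?_⟩
    rw [show M i = fun _ => ∅ from funext (e i)]
  | succ T ih =>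
    intro r S M hF hW hWt hS hM hc hT
    have st := fun i => step_pure (F := F i) (W := W i) (S := S i) (M := M i) T
      (hpos i) (hc i)
    have l1 : Loc gr (r + R) (fun i v =>
        nw (F i v) (W i v) (fun z => W i z v) (M i v) (S i v) (S i) (M i) T) := by
      intro i i' v hA
      show nw _ _ _ _ _ _ _ _ = nw _ _ _ _ _ _ _ _
      have et : (fun z => W i z v) = (fun z => W i' z v) := hWt.here hA (by omega)
      rw [← hF.here hA (by omega), ← hW.here hA (by omega), ← et, ← hS.here hA (by omega),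
        ← hM.here hA (by omega)]
      unfold nw
      congr 2
      funext x
      unfold pr
      congr 1
      · congr 1
        refine sum_congr rfl fun u _ => ?_
        by_cases h0 : ∀ a, W i v u x a = 0
        · rw [av_zero _ h0, av_zero _ h0, mul_zero, mul_zero]
        · obtain ⟨a, ha⟩ := not_forall.1 h0
          have hnr := hn i v u x a ha
          rw [hS.far hA hnr le_rfl, hM.far hA hnr le_rfl]
      · refine sum_congr rfl fun u _ => ?_
        by_cases h0 : ∀ a, W i u v a x = 0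
        · rw [av_zero _ h0, av_zero _ h0, mul_zero, mul_zero]
        · obtain ⟨a, ha⟩ := not_forall.1 h0
          have hnr := (hn i u v a x ha).symm
          rw [hS.far hA hnr le_rfl, hM.far hA hnr le_rfl]
    obtain ⟨S', a1, a2, a3, a4⟩ := ih (r := r + R) (M := fun i v => (M i v).erase T)
      (hF.mono (by omega)) (hW.mono (by omega)) (hWt.mono (by omega)) l1
      ((hM.mono (by omega)).map (fun _ s => s.erase T)) (fun i v => (st i).2.1 v)
      (fun i v x hx => by
        have h1 := mem_range.1 (hT i v (mem_of_mem_erase hx))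
        have h2 := ne_of_mem_erase hx
        exact mem_range.2 (by omega))
    exact ⟨S', a1.mono (by rw [add_mul]; omega), fun i v => (a2 i v).trans ((st i).1 v), a3,
      fun i => (a4 i).trans (st i).2.2⟩

end AndCore

open AndCore in
theorem p_andCore (gr : I → SimpleGraph V) : AndCoreSt gr := by
  intro r R T b κ m F W c Mc hF hW hc hpos hn hm hT hb hκ
  have hWt : Loc gr (r + R) (fun i v z => W i z v) := by
    refine hW.gather (fun v _ (w : V → ℕ → ℕ → ℝ) => w v) (fun _ _ => 0) ?_
    intro i z u h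
    by_contra hne
    apply h
    funext a a'
    by_contra h0
    exact hne (hn i u z a a' h0).1.symm
  obtain ⟨S', a1, a2, a3, a4⟩ := round (gr := gr) (F := F) (W := W) (R := R) hpos
    (fun i z z' a a' h => (hn i z z' a a' h).1) T (r := r + R)
    (S := fun _ _ => range (2 ^ b)) (M := fun i v => Mc (c i v))
    (hF.mono (by omega)) (hW.mono (by omega)) hWt (Loc.const _)
    ((hc.mono (by omega)).map (fun _ a => Mc a)) (fun i v => by rw [card_range, hb])
    (fun i v => hT _)
  have e : ∀ i v, S' i v = {(S' i v).sum id} := by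
    intro i v
    obtain ⟨y, hy⟩ := card_eq_one.1 (a3 i v)
    rw [hy]
    simp
  refine ⟨fun i v => (S' i v).sum id,
    (a1.map (fun _ s => s.sum id)).mono (by rw [add_mul]; omega), fun i v => ?_,
    fun i => le_trans (le_of_eq ?_) ((a4 i).trans ?_)⟩
  · refine mem_range.1 (a2 i v ?_)
    rw [e i v]
    simp
  · unfold Phi
    generalize hx : (fun v => (S' i v).sum id) = x
    have e' : ∀ v, S' i v = {x v} := fun v => by rw [← hx]; exact e i v
    have e'' : ∀ v, (S' i v).sum id = x v := fun v => congrFun hx v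
    simp only [e'']
    simp only [e', av_single, inter_self, card_empty, pow_zero, one_mul]
  · unfold Phi
    refine add_le_add (le_of_eq ?_) (sum_le_sum fun v _ => sum_le_sum fun u _ => ?_)
    · refine sum_congr rfl fun v _ => ?_
      unfold av
      rw [card_range]
      push_cast
      rfl
    · have e1 : av (range (2 ^ b)) (fun a => av (range (2 ^ b)) (W i v u a)) =
          (∑ a ∈ range (2 ^ b), ∑ a' ∈ range (2 ^ b), W i v u a a') / 4 ^ b := by
        unfold av
        rw [card_range, ← sum_div, div_div]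
        push_cast
        rw [← mul_pow]
        norm_num
      rw [← e1]
      refine mul_le_mul_of_nonneg_right ?_
        (av_nonneg _ fun a => av_nonneg _ fun a' => hpos i v u a a')
      by_cases h : c i v = c i u
      · rw [if_pos h]
        show (2 : ℝ) ^ (Mc (c i v) ∩ Mc (c i u)).card ≤ 2 ^ b
        rw [h, inter_self, hb]
      · rw [if_neg h]
        exact pow_le_pow_right₀ (by norm_num) (hκ _ _ (hm i v) (hm i u) h)

end Pool.Agent.P.MP_6f280c_lc.Dc
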