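import Pool.Agent.P.MP_6f280c_lc.Dc.St

/-! Item 6: two choices of parameters for the simultaneous choices. -/

set_option autoImplicit false

namespace Pool.Agent.P.MP_6f280c_lc.Dc

open Finset

variable {V I : Type} [Fintype V] [LinearOrder V]

namespace PAndSv

theorem two_pow_le {p : ℕ} (hp : p.Prime) (k : ℕ) : 2 ^ k ≤ p ^ (k + 1) :=
  le_trans (Nat.pow_le_pow_left hp.two_le k) (Nat.pow_le_pow_right hp.pos (Nat.le_succ k))

theorem frac_le {B e k p : ℕ} (he : 1 ≤ e) (hp : 2 * B * e * k < p) :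
    (B : ℝ) * ((k : ℝ) / p) ≤ 1 / (2 * (e : ℝ)) := by
  have hp0 : (0 : ℝ) < p := by exact_mod_cast lt_of_le_of_lt (Nat.zero_le _) hp
  have he0 : (0 : ℝ) < e := by exact_mod_cast he
  have h1 : (2 : ℝ) * B * e * k ≤ p := by exact_mod_cast hp.le
  rw [← mul_div_assoc, div_le_div_iff₀ hp0 (by positivity)]
  linarith

end PAndSv

theorem p_bigAnd (gr : I → SimpleGraph V) (h : AndSt gr) : BigAndSt gr := by
  intro idn L κ hinj hid hL hLκ
  obtain ⟨p, hp, h1, h2⟩ := Nat.exists_prime_lt_and_le_two_mul (2 ^ (2 * κ + 1) * L)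
    (Nat.mul_ne_zero (by positivity) (by omega))
  have e : 2 ^ 11 * κ + 3 = 2 * κ * 2 ^ 10 + 3 := by ring
  rw [e]
  refine h idn p L p 1 (2 ^ 10) κ (2 * κ) _ hinj hp hp
    (fun v => lt_of_lt_of_le (hid v) (PAndSv.two_pow_le hp L)) le_rfl (by positivity) ?_ ?_
  · have a1 : p ≤ 2 ^ (3 * κ + 2) := by
      calc p ≤ 2 * (2 ^ (2 * κ + 1) * L) := h2
        _ ≤ 2 * (2 ^ (2 * κ + 1) * 2 ^ κ) :=
            Nat.mul_le_mul_left _ (Nat.mul_le_mul_left _ hLκ)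
        _ = 2 ^ (3 * κ + 2) := by ring
    calc p ^ 2 * 2 ^ (2 * κ) ≤ (2 ^ (3 * κ + 2)) ^ 2 * 2 ^ (2 * κ) :=
          Nat.mul_le_mul_right _ (Nat.pow_le_pow_left a1 2)
      _ = 2 ^ (8 * κ + 4) := by ring
      _ < 2 ^ (10 * (κ + 1)) := Nat.pow_lt_pow_right (by norm_num) (by omega)
      _ = (2 ^ 10) ^ (κ + 1) := by rw [pow_mul]
  · have hp0 : (0 : ℝ) < p := by exact_mod_cast hp.pos
    have a1 : 2 ^ (2 * κ) * (L + 1) ≤ p := by
      calc 2 ^ (2 * κ) * (L + 1) ≤ 2 ^ (2 * κ) * (2 * L) := Nat.mul_le_mul_left _ (by omega)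
        _ = 2 ^ (2 * κ + 1) * L := by ring
        _ ≤ p := h1.le
    have a2 : (2 : ℝ) ^ (2 * κ) * ((L : ℝ) + 1) ≤ p := by exact_mod_cast a1
    have a3 : (2 : ℝ) ^ (2 * κ) * ((L : ℝ) / p + ((1 : ℕ) : ℝ) / p) ≤ 1 := by
      rw [← add_div, ← mul_div_assoc, div_le_one hp0, Nat.cast_one]
      exact a2
    linarith

theorem p_smallAnd (gr : I → SimpleGraph V) (h : AndSt gr) : SmallAndSt gr := by
  intro idn L b e kk hinj hid hL he hkk
  have hb : 1 ≤ 2 ^ b := Nat.one_le_two_pow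
  have hk : 1 ≤ kk := by
    rcases Nat.eq_zero_or_pos kk with h0 | h0
    · exfalso
      subst h0
      have a1 : 1 * 1 * 1 ≤ 2 ^ b * e * L := Nat.mul_le_mul (Nat.mul_le_mul hb he) hL
      have a2 : 4 ≤ 4 * 2 ^ b * e * L := by
        calc 4 = 4 * (1 * 1 * 1) := by norm_num
          _ ≤ 4 * (2 ^ b * e * L) := Nat.mul_le_mul_left _ a1
          _ = 4 * 2 ^ b * e * L := by ring
      have a3 := Nat.pow_le_pow_left a2 2
      have a4 : (4 : ℕ) ^ 2 ≤ 2 ^ 0 := le_trans a3 hkk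
      norm_num at a4
    · exact h0
  obtain ⟨p1, hp1, h1, h2⟩ := Nat.exists_prime_lt_and_le_two_mul (2 * 2 ^ b * e * L)
    (Nat.mul_ne_zero (Nat.mul_ne_zero (by positivity) (by omega)) (by omega))
  obtain ⟨p2, hp2, h3, h4⟩ := Nat.exists_prime_lt_and_le_two_mul (2 * 2 ^ b * e * kk)
    (Nat.mul_ne_zero (Nat.mul_ne_zero (by positivity) (by omega)) (by omega))
  refine h idn p1 L p2 kk (2 ^ b * (4 * 2 ^ b * e * kk) ^ 2 + 1) 0 b _ hinj hp1 hp2
    (fun v => lt_of_lt_of_le (hid v) (PAndSv.two_pow_le hp1 L)) ?_ (Nat.succ_pos _) ?_ ?_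
  · have a1 : p1 ≤ 4 * 2 ^ b * e * L := le_of_le_of_eq h2 (by ring)
    exact le_trans (Nat.pow_le_pow_left a1 2) (le_trans hkk (PAndSv.two_pow_le hp2 kk))
  · have a1 : p2 ≤ 4 * 2 ^ b * e * kk := le_of_le_of_eq h4 (by ring)
    have a2 := Nat.mul_le_mul_left (2 ^ b) (Nat.pow_le_pow_left a1 2)
    rw [zero_add, pow_one, mul_comm]
    exact Nat.lt_succ_of_le a2
  · have a1 := PAndSv.frac_le he h1
    have a2 := PAndSv.frac_le he h3
    have he0 : (0 : ℝ) < e := by exact_mod_cast he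
    have a3 : (1 : ℝ) / e = 1 / (2 * (e : ℝ)) + 1 / (2 * (e : ℝ)) := by
      field_simp
      ring
    push_cast at a1 a2
    rw [pow_zero, mul_add, a3]
    linarith

end Pool.Agent.P.MP_6f280c_lc.Dc
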