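import Pool.Agent.P.MP_6f280c_lc.Dc.St

/-! Package PBig: the colouring for large degrees. -/

set_option autoImplicit false

namespace Pool.Agent.P.MP_6f280c_lc.Dc

open Finset

variable {V I : Type} [Fintype V] [LinearOrder V]

namespace Big

theorem card_bound {n L s : ℕ} (hn : n ≤ 2 ^ L) (hL : L + 1 ≤ s ^ 2) :
    (n : ℝ) + (n : ℝ) ^ 2 < 4 ^ (s * s) := by
  have h1 : n + n ^ 2 < 4 ^ (s * s) := by
    have a1 : n ^ 2 ≤ 4 ^ L := by
      calc n ^ 2 ≤ (2 ^ L) ^ 2 := Nat.pow_le_pow_left hn 2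
        _ = 4 ^ L := by rw [← pow_mul, mul_comm, pow_mul]; norm_num
    have a2 : 2 ^ L ≤ 4 ^ L := Nat.pow_le_pow_left (by norm_num) L
    have a3 : 4 ^ (L + 1) ≤ 4 ^ (s * s) := Nat.pow_le_pow_right (by norm_num) (by nlinarith)
    have a4 : 0 < 4 ^ L := by positivity
    rw [pow_succ] at a3
    omega
  exact_mod_cast h1

theorem k_bound {L s : ℕ} (hL : L + 1 ≤ s ^ 2) (hs : 2 ≤ s) :
    (2 * (s * s) + 1) * (s * s * (2 ^ 14) ^ s) * (3 * L + 3) ≤ 2 ^ (22 * s) := by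
  have a1 : s ≤ 2 ^ s := Nat.lt_two_pow_self.le
  have a2 : s ^ 6 ≤ 2 ^ (6 * s) := by
    calc s ^ 6 ≤ (2 ^ s) ^ 6 := Nat.pow_le_pow_left a1 6
      _ = 2 ^ (6 * s) := by rw [← pow_mul, mul_comm]
  have a3 : 9 ≤ 2 ^ (2 * s) :=
    le_trans (by norm_num : 9 ≤ 2 ^ 4) (Nat.pow_le_pow_right (by norm_num) (by omega))
  have a4 : 2 * (s * s) + 1 ≤ 3 * s ^ 2 := by nlinarith
  have a5 : 3 * L + 3 ≤ 3 * s ^ 2 := by omega
  calc (2 * (s * s) + 1) * (s * s * (2 ^ 14) ^ s) * (3 * L + 3)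
      ≤ (3 * s ^ 2) * (s * s * (2 ^ 14) ^ s) * (3 * s ^ 2) :=
        Nat.mul_le_mul (Nat.mul_le_mul_right _ a4) a5
    _ = 9 * s ^ 6 * 2 ^ (14 * s) := by rw [← pow_mul]; ring
    _ ≤ 2 ^ (2 * s) * 2 ^ (6 * s) * 2 ^ (14 * s) :=
        Nat.mul_le_mul_right _ (Nat.mul_le_mul a3 a2)
    _ = 2 ^ (22 * s) := by rw [← pow_add, ← pow_add]; congr 1; omega

theorem slack_bound {u D T A : ℕ} (hu : 32 ≤ u) (hA : A ≤ u) (hT : T * u ^ 415 ≤ 2 * D) :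
    16 * A * T ≤ D / u ^ 412 := by
  have hp : 0 < u ^ 412 := by positivity
  rw [Nat.le_div_iff_mul_le hp]
  have a1 : 32 * A ≤ u ^ 3 := by
    have : u * u ≤ u ^ 3 := by
      calc u * u = u ^ 2 := by ring
        _ ≤ u ^ 3 := Nat.pow_le_pow_right (by omega) (by norm_num)
    nlinarith
  have e : u ^ 415 = u ^ 3 * u ^ 412 := by rw [← pow_add]
  rw [e] at hT
  generalize u ^ 412 = w at *
  generalize u ^ 3 = z at *
  have a2 : 32 * A * (T * w) ≤ z * (T * w) := Nat.mul_le_mul_right _ a1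
  nlinarith

theorem list_bound {u D : ℕ} (hu : 32 ≤ u) (hK : 1 ≤ D / u ^ 412) :
    D + 1 ≤ u ^ 413 * (D / u ^ 412) := by
  have hp : 0 < u ^ 412 := by positivity
  have a1 : D < u ^ 412 * (D / u ^ 412 + 1) := Nat.lt_mul_div_succ D hp
  rw [pow_succ]
  generalize D / u ^ 412 = K at *
  generalize u ^ 412 = w at *
  have a2 : K + 1 ≤ u * K := by nlinarith
  have a3 : w * (K + 1) ≤ w * (u * K) := Nat.mul_le_mul_left _ a2
  nlinarith

theorem time_bound {L s τ w1 w2 ω : ℕ} (hL : L + 1 ≤ s ^ 2) (hs : 2 ≤ s) (h1 : 1 ≤ ω)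
    (hτ : τ ≤ ω) (h2 : w2 ≤ ω) (h3 : w1 ≤ s * ω) :
    2 * 3 + 2 * (s * s) * ((τ + 1) * (2 * 3 * (s + 1)) + 2 * 3) + 2 ^ 32 * s ^ 3 +
      (2 ^ 17 * (L + 1) + (4 * (12390 * s) + 16) * (12390 * s + 3)) *
        (w1 + w2 + (2 * (2 * 3 * s) + 1) + 6 + 1) ≤ 2 ^ 40 * s ^ 3 * ω := by
  have b1 : s ≤ s * ω := Nat.le_mul_of_pos_right _ h1
  have b2 : ω ≤ s * ω := Nat.le_mul_of_pos_left _ (by omega)
  have a1 : w1 + w2 + (2 * (2 * 3 * s) + 1) + 6 + 1 ≤ 32 * (s * ω) := by omega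
  have a2 : (4 * (12390 * s) + 16) * (12390 * s + 3) ≤ (49568 * s) * (12392 * s) :=
    Nat.mul_le_mul (by omega) (by omega)
  have a3 : 2 ^ 17 * (L + 1) + (4 * (12390 * s) + 16) * (12390 * s + 3) ≤ 2 ^ 30 * s ^ 2 := by
    have e : (49568 * s) * (12392 * s) = 614246656 * s ^ 2 := by ring
    rw [e] at a2
    omega
  have a4 : (τ + 1) * (2 * 3 * (s + 1)) ≤ (2 * ω) * (9 * s) :=
    Nat.mul_le_mul (by omega) (by omega)
  have a5 : (τ + 1) * (2 * 3 * (s + 1)) + 2 * 3 ≤ 21 * (s * ω) := by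
    have e : (2 * ω) * (9 * s) = 18 * (s * ω) := by ring
    omega
  have a6 := Nat.mul_le_mul_left (2 * (s * s)) a5
  have a7 := Nat.mul_le_mul a3 a1
  have e1 : 2 * (s * s) * (21 * (s * ω)) = 42 * (s ^ 3 * ω) := by ring
  have e2 : 2 ^ 30 * s ^ 2 * (32 * (s * ω)) = 2 ^ 35 * (s ^ 3 * ω) := by ring
  have e3 : 2 ^ 40 * s ^ 3 * ω = 2 ^ 40 * (s ^ 3 * ω) := by ring
  have a8 : s ^ 3 ≤ s ^ 3 * ω := Nat.le_mul_of_pos_right _ h1
  have a9 : 1 ≤ s ^ 3 := Nat.one_le_pow _ _ (by omega)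
  rw [e1] at a6
  rw [e2] at a7
  rw [e3]
  omega

end Big

theorem p_big (gr : I → SimpleGraph V) (hC : ClusSt gr) (hP : PreSt gr) (hT : TopSt gr)
    (hPh : PhaseSt gr) (hS : SlackColSt gr) : BigSt gr := by
  intro D L s τ b w1 w2 ω hD hn hL hs hbig hDn hH hA1 hA2 hX hb h1 hτ h2 h3
  obtain ⟨lab, hlab⟩ := hC τ s s 3 hH (by omega) (by omega) (by norm_num) (Big.card_bound hn hL)
  have hk := Big.k_bound hL hs
  have hk1 : 1 ≤ (2 * (s * s) + 1) * (s * s * (2 ^ 14) ^ s) :=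
    Nat.succ_le_of_lt (by have : 0 < s := by omega
                          positivity)
  generalize (2 * (s * s) + 1) * (s * s * (2 ^ 14) ^ s) = k at hlab hk hk1
  have htime := Big.time_bound hL hs h1 hτ h2 h3
  generalize 2 * 3 + 2 * (s * s) * ((τ + 1) * (2 * 3 * (s + 1)) + 2 * 3) = r0 at hlab htime
  have hlab' : Clus gr r0 (6 * s) 3 k lab := hlab
  obtain ⟨χ, hχ, hsl⟩ := hP D L s r0 k lab hD hn hL hs hbig hDn hlab' hk1 hk hA1
  have hdec : Dec gr r0 (2 * 3 * s) k lab := by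
    refine ⟨hlab.1, hlab.2.1, fun i v => le_trans (card_le_card (image_subset_image ?_))
      (hlab.2.2 i v)⟩
    intro u hu
    exact mem_sel.2 ((Near.of_adj (mem_nbr.1 hu)).mono (by norm_num))
  -- the number of bits
  have c1 : D + 1 ≤ 2 ^ Nat.clog 2 (D + 1) := Nat.le_pow_clog (by norm_num) _
  have c2 : Nat.clog 2 (D + 1) ≤ L := (Nat.clog_le_iff_le_pow (by norm_num)).2 (by omega)
  have hu : 32 ≤ 2 ^ (30 * s) :=
    le_trans (by norm_num : 32 ≤ 2 ^ 5) (Nat.pow_le_pow_right (by norm_num) (by omega))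
  have hD1 : 1 ≤ D := le_trans (Nat.one_le_pow _ _ (by omega)) hbig
  have c3 : 2 ^ Nat.clog 2 (D + 1) ≤ 2 * D := by
    have a1 := Nat.pow_pred_clog_lt_self (b := 2) (by norm_num) (x := D + 1) (by omega)
    have a2 : 0 < Nat.clog 2 (D + 1) := Nat.clog_pos (by norm_num) (by omega)
    obtain ⟨c, hc⟩ : ∃ c, Nat.clog 2 (D + 1) = c + 1 := ⟨_, (Nat.succ_pred_eq_of_pos a2).symm⟩
    rw [hc] at a1 ⊢
    rw [pow_succ]
    simp only [Nat.pred_eq_sub_one, Nat.add_sub_cancel] at a1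
    omega
  generalize Nat.clog 2 (D + 1) = cg at c1 c2 c3
  have c4 : 12600 * s ≤ cg := by
    have a1 : 2 ^ (12600 * s) < 2 ^ cg := by
      have e : 2 ^ (12600 * s) = (2 ^ (30 * s)) ^ 420 := by rw [← pow_mul]; congr 1; omega
      rw [e]
      exact lt_of_lt_of_le (Nat.lt_succ_of_le hbig) c1
    exact ((Nat.pow_lt_pow_iff_right (by norm_num)).1 a1).le
  obtain ⟨t, ht⟩ : ∃ t, cg = t + 12450 * s := ⟨cg - 12450 * s, by omega⟩
  have c5 : 2 ^ t * (2 ^ (30 * s)) ^ 415 ≤ 2 * D := by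
    have e : 2 ^ t * (2 ^ (30 * s)) ^ 415 = 2 ^ cg := by
      rw [← pow_mul, ← pow_add]; congr 1; omega
    rw [e]; exact c3
  have c6 : 4 * Fintype.card V * 2 ^ t ≤ 2 ^ (3 * L + 3) := by
    have a1 : 2 ^ t ≤ 2 ^ L := Nat.pow_le_pow_right (by norm_num) (by omega)
    calc 4 * Fintype.card V * 2 ^ t ≤ 4 * 2 ^ L * 2 ^ L :=
          Nat.mul_le_mul (Nat.mul_le_mul_left _ hn) a1
      _ = 2 ^ (2 * L + 2) := by ring
      _ ≤ 2 ^ (3 * L + 3) := Nat.pow_le_pow_right (by norm_num) (by omega)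
  have hTop := hT.1 r0 (2 * 3 * s) k (3 * L + 3) t lab hdec c6
  have hPhase := hPh D t b (k * (3 * L + 3)) r0 w1 w2 _ hX hA2 hTop
  have hAu : k * (3 * L + 3) ≤ 2 ^ (30 * s) :=
    hk.trans (Nat.pow_le_pow_right (by norm_num) (by omega))
  have d1 := Big.slack_bound hu hAu c5
  have d2 := Big.slack_bound (A := 1) hu (by omega) c5
  have d3 : 1 ≤ D / (2 ^ (30 * s)) ^ 412 := by
    have : 0 < 2 ^ t := by positivity
    omega
  have d4 : D + 1 ≤ 2 ^ (12390 * s) * (D / (2 ^ (30 * s)) ^ 412) := by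
    have e : 2 ^ (12390 * s) = (2 ^ (30 * s)) ^ 413 := by rw [← pow_mul]; congr 1; omega
    rw [e]; exact Big.list_bound hu d3
  have d5 : D + 1 ≤ 2 ^ (t + b) := c1.trans (Nat.pow_le_pow_right (by norm_num) (by omega))
  obtain ⟨ψ, e1, e2⟩ := hS D t b _ r0 _ L (12390 * s) _ (r0 + 2 ^ 32 * s ^ 3) χ hPhase hn d3 d4
    d1 (Or.inr (by simpa using d2)) d5 (Nat.le_add_right _ _) hχ hsl
  exact ⟨ψ, e1.mono htime, e2⟩

end Pool.Agent.P.MP_6f280c_lc.Dc
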