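import Pool.Agent.P.MP_6f280c_lc.Dc.St
import Pool.Agent.P.MP_6f280c_lc.H7Cls

set_option autoImplicit false

namespace Pool.Agent.P.MP_6f280c_lc.Dc

open Finset

variable {V I : Type} [Fintype V] [LinearOrder V]

namespace ClusP

omit [Fintype V] [LinearOrder V] in
theorem near_of_agree {k : ℕ} {G G' : SimpleGraph V} {v u : V} (hA : Agree k G G' v)
    (h : Near G k v u) : Near G' k v u := by
  induction k generalizing v with
  | zero => exact h
  | succ k ih =>
    rcases h with h | ⟨w, hw, h⟩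
    · exact Or.inl h
    · exact Or.inr ⟨w, (hA.1 w).1 hw, ih (hA.2 w hw) h⟩

omit [LinearOrder V] in
theorem loc_ball {gr : I → SimpleGraph V} {r k : ℕ} {α β : Type} {f : I → V → α} {g : I → V → β}
    (hf : Loc gr (r + k) f) (hg : Loc gr r g) (P : α → β → Prop) :
    Loc gr (r + k) (fun i v => sel (fun u => Near (gr i) k v u ∧ P (f i v) (g i u))) := by
  intro i i' v hA
  refine sel_congr fun u => ⟨fun hu => ⟨near_of_agree (hA.mono (by omega)) hu.1, ?_⟩,
    fun hu => ⟨near_of_agree (hA.mono (by omega)).symm hu.1, ?_⟩⟩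
  · rw [← hf.here hA le_rfl, ← hg.far hA hu.1 le_rfl]
    exact hu.2
  · rw [hf.here hA le_rfl, hg.far' hA hu.1 le_rfl]
    exact hu.2

/-- the diagonal family of sets -/
def dX (X : V → Finset V) (u v : V) : Finset V := if u = v then X u else ∅

/-- the diagonal family of pointers -/
def dP (p : V → ℕ) (u v : V) : ℕ := if u = v then p u else 0

omit [Fintype V] in
theorem dX_self (X : V → Finset V) (u : V) : dX X u u = X u := if_pos rfl

omit [Fintype V] in
theorem dP_self (p : V → ℕ) (u : V) : dP p u u = p u := if_pos rfl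

omit [Fintype V] in
theorem dX_ne (X : V → Finset V) {u v : V} (h : u ≠ v) : dX X u v = ∅ := if_neg h

omit [Fintype V] in
theorem dP_ne (p : V → ℕ) {u v : V} (h : u ≠ v) : dP p u v = 0 := if_neg h

omit [Fintype V] in
theorem dX_eq {X : V → Finset V} {u v : V} (h : dX X u v ≠ ∅) : u = v := by
  by_contra hc
  exact h (dX_ne X hc)

/-- state of the clustering process -/
structure NS (gr : I → SimpleGraph V) (s r Λ P σ μ : ℕ) where
  ptr : I → V → ℕ
  X : I → V → Finset V
  lab : I → V → V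
  locP : Loc gr r ptr
  locX : Loc gr r X
  locL : Loc gr r lab
  lt : ∀ i u, X i u ≠ ∅ → ptr i u < P
  size : ∀ i u, X i u ≠ ∅ →
    ((X i u).card = (2 ^ 14) ^ (Λ - ptr i u % Λ) ∧
      ∀ z ∈ X i u, Near (gr i) (2 * s * (ptr i u / Λ + 1)) u z) ∨
    (ptr i u % Λ = 0 ∧ (X i u).card = 1 ∧
      ∀ z ∈ X i u, Near (gr i) (2 * s * (ptr i u / Λ)) u z)
  nearL : ∀ i u, X i u = ∅ → Near (gr i) (2 * s * (P / Λ)) u (lab i u)
  mult : ∀ i v, ((sel (fun u => Near (gr i) s v u ∧ X i u = ∅)).image (lab i)).card ≤ μ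
  pot : ∀ i, ∃ Q : ℕ → Finset V, (∀ u v, dX (X i) u v ⊆ Q (dP (ptr i) u v)) ∧
    ∑ p ∈ range (P + 1), (16 : ℝ) ^ p * ((Q p).card : ℝ) +
      ∑ u, ∑ v, (if dX (X i) u v ≠ ∅ then (16 : ℝ) ^ σ / 16 ^ dP (ptr i) u v else 0) ≤
    2 ^ σ * ((Fintype.card V : ℝ) + (Fintype.card V : ℝ) ^ 2)

/-- all living nodes carry sets of the full size -/
def NS.Full {gr : I → SimpleGraph V} {s r Λ P σ μ : ℕ} (c : NS gr s r Λ P σ μ) : Prop :=
  ∀ i u, c.X i u ≠ ∅ → (c.X i u).card = (2 ^ 14) ^ (Λ - c.ptr i u % Λ) ∧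
    ∀ z ∈ c.X i u, Near (gr i) (2 * s * (c.ptr i u / Λ + 1)) u z

theorem adv {gr : I → SimpleGraph V} {τ s r Λ P σ μ : ℕ} (c : NS gr s r Λ P σ μ)
    (hH : HitProp gr τ) (hΛ : 0 < Λ) (hF : c.Full)
    (hM : (2 : ℝ) ^ (σ + 1) * ((Fintype.card V : ℝ) + (Fintype.card V : ℝ) ^ 2) < 16 ^ P) :
    Nonempty (NS gr s (r + (τ + 1) * (2 * s * (P / Λ + 1))) Λ P (σ + 1) μ) := by
  let t : ℕ → ℕ := fun p => (2 ^ 14) ^ (Λ - p % Λ - 1)
  have ht : ∀ p, 0 < t p := fun p => by positivity
  have hnear : ∀ i u z, z ∈ c.X i u → Near (gr i) (2 * s * (P / Λ + 1)) u z := fun i u z h =>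
    ((hF i u (ne_empty_of_mem h)).2 z h).mono (Nat.mul_le_mul_left _
      (Nat.add_le_add_right (Nat.div_le_div_right (c.lt i u (ne_empty_of_mem h)).le) 1))
  have key := fun p : ℕ => hH r (2 * s * (P / Λ + 1)) (t p)
    (fun i u v => if dP (c.ptr i) u v = p then dX (c.X i) u v else ∅) ((16 : ℝ) ^ (p + 1))
    ((16 : ℝ) ^ (σ + 1) / 16 ^ p)
    ((c.locP.prod c.locX).map fun u a v =>
      if (if u = v then a.1 else 0) = p then (if u = v then a.2 else ∅) else ∅)
    (fun i u v z h => hnear i u z (by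
      split_ifs at h
      · obtain rfl := dX_eq (ne_empty_of_mem h)
        rwa [dX_self] at h
      · exact absurd h (notMem_empty z))) (ht p)
    (fun i u v h => by
      split_ifs at h ⊢ with k
      · obtain rfl := dX_eq h
        rw [dX_self] at h ⊢
        rw [dP_self] at k
        have h1 := Nat.mod_lt p hΛ
        rw [(hF i u h).1, k, ← pow_succ']
        congr 1
        omega
      · exact absurd rfl h) (by positivity) (by positivity)
  choose S hS hit using key
  let T : I → V → Finset V := fun i u => (c.X i u).filter (fun z => S (c.ptr i u) i z = true)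
  have hr : r ≤ r + (τ + 1) * (2 * s * (P / Λ + 1)) := Nat.le_add_right _ _
  have hT : Loc gr (r + (τ + 1) * (2 * s * (P / Λ + 1))) T := fun i i' u hA => by
    simp only [T]
    rw [← c.locP.here hA hr, ← c.locX.here hA hr]
    refine filter_congr fun z hz => ?_
    rw [(hS _).far hA (hnear i u z hz) (le_of_eq (by ring))]
  have hL := ((c.locP.mono hr).prod (c.locX.mono hr)).prod hT
  let ok : I → V → Prop := fun i u => c.X i u ≠ ∅ ∧ t (c.ptr i u) ≤ (T i u).card
  let ptr' : I → V → ℕ := fun i u => if ok i u then c.ptr i u + 1 else c.ptr i u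
  let X' : I → V → Finset V := fun i u =>
    if ok i u then h7adv_sub (T i u) (t (c.ptr i u)) else c.X i u
  have h1 : ∀ i u, ok i u → ptr' i u = c.ptr i u + 1 ∧ X' i u ⊆ T i u ∧
      (X' i u).card = t (c.ptr i u) := fun i u h => by
    simp only [ptr', X', if_pos h]
    exact ⟨trivial, h7adv_sub_spec h.2⟩
  have h2 : ∀ i u, ¬ok i u → ptr' i u = c.ptr i u ∧ X' i u = c.X i u :=
    fun i u h => ⟨if_neg h, if_neg h⟩
  have hE : ∀ i u, X' i u = ∅ ↔ c.X i u = ∅ := fun i u => by
    by_cases h : ok i u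
    · refine iff_of_false (fun k => ?_) h.1
      have := (h1 i u h).2.2
      rw [k, card_empty] at this
      exact (ht _).ne this
    · rw [(h2 i u h).2]
  have hpot : ∀ i, ∃ Q : ℕ → Finset V, (∀ u v, dX (X' i) u v ⊆ Q (dP (ptr' i) u v)) ∧
      ∑ p ∈ range (P + 1), (16 : ℝ) ^ p * ((Q p).card : ℝ) +
        ∑ u, ∑ v, (if dX (X' i) u v ≠ ∅ then (16 : ℝ) ^ (σ + 1) / 16 ^ dP (ptr' i) u v else 0) ≤
      2 ^ (σ + 1) * ((Fintype.card V : ℝ) + (Fintype.card V : ℝ) ^ 2) := fun i => by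
    obtain ⟨Q, k1, k2⟩ := c.pot i
    rw [pow_succ' (2 : ℝ) σ, mul_assoc]
    refine h7adv_pot (dP (c.ptr i)) (dP (ptr' i)) (dX (c.X i)) (dX (X' i)) (fun p => S p i) t Q
      (fun u v h => ?_) k1 k2 (fun u v => ?_) fun p => hit p i (Q p) fun u v => ?_
    · obtain rfl := dX_eq h
      rw [dX_self] at h
      rw [dP_self]
      exact c.lt i u h
    · by_cases e : u = v
      · subst e
        simp only [dX_self, dP_self]
        by_cases h : ok i u
        · exact Or.inl ⟨h.1, (h1 i u h).1, fun z hz => (mem_filter.mp ((h1 i u h).2.1 hz)).2⟩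
        · exact Or.inr ⟨(h2 i u h).1, (h2 i u h).2, fun k => not_le.mp fun k' => h ⟨k, k'⟩⟩
      · simp only [dX_ne _ e, dP_ne _ e]
        exact Or.inr ⟨trivial, trivial, fun k => absurd rfl k⟩
    · split_ifs with k
      · exact k ▸ k1 u v
      · exact empty_subset _
  refine ⟨{ ptr := ptr'
            X := X'
            lab := c.lab
            locP := hL.map fun _ a =>
              if a.1.2 ≠ ∅ ∧ t a.1.1 ≤ a.2.card then a.1.1 + 1 else a.1.1
            locX := hL.map fun _ a =>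
              if a.1.2 ≠ ∅ ∧ t a.1.1 ≤ a.2.card then h7adv_sub a.2 (t a.1.1) else a.1.2
            locL := c.locL.mono hr
            lt := fun i u h => ?_
            size := fun i u h => ?_
            nearL := fun i u k => c.nearL i u ((hE i u).mp k)
            mult := fun i u => by simp only [hE]; exact c.mult i u
            pot := hpot }⟩
  · have k0 := c.lt i u (mt (hE i u).mpr h)
    have k1 : ptr' i u ≤ P := by
      by_cases k : ok i u
      · rw [(h1 i u k).1]; exact k0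
      · rw [(h2 i u k).1]; exact k0.le
    refine lt_of_le_of_ne k1 fun k2 => ?_
    obtain ⟨Q, k3, k4⟩ := hpot i
    have k9 := k3 u u
    rw [dX_self, dP_self, k2] at k9
    have k5 : (1 : ℝ) ≤ (Q P).card := by
      exact_mod_cast card_pos.mpr ((nonempty_iff_ne_empty.mpr h).mono k9)
    have k6 : (16 : ℝ) ^ P * ((Q P).card : ℝ) ≤
        ∑ p ∈ range (P + 1), (16 : ℝ) ^ p * ((Q p).card : ℝ) :=
      single_le_sum (f := fun p => (16 : ℝ) ^ p * ((Q p).card : ℝ)) (fun p _ => by positivity)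
        (self_mem_range_succ P)
    have k7 : (16 : ℝ) ^ P ≤ 16 ^ P * ((Q P).card : ℝ) :=
      le_mul_of_one_le_right (by positivity) k5
    have k8 : 0 ≤ ∑ u, ∑ v,
        (if dX (X' i) u v ≠ ∅ then (16 : ℝ) ^ (σ + 1) / 16 ^ dP (ptr' i) u v else 0) :=
      sum_nonneg fun u _ => sum_nonneg fun v _ => by positivity
    linarith
  · by_cases k : ok i u
    · obtain ⟨k1, k2, k3⟩ := h1 i u k
      have k4 : ∀ z ∈ X' i u, Near (gr i) (2 * s * (c.ptr i u / Λ + 1)) u z := fun z hz =>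
        (hF i u k.1).2 z (mem_filter.mp (k2 hz)).1
      rw [k1, k3]
      rcases h7adv_arith hΛ (c.ptr i u) with ⟨a1, a2, a3⟩ | ⟨a1, a2⟩
      · refine Or.inr ⟨a1, ?_, by rw [a3]; exact k4⟩
        simp only [t]
        rw [show Λ - c.ptr i u % Λ - 1 = 0 by omega, pow_zero]
      · exact Or.inl ⟨by rw [a1]; rfl, by rw [a2]; exact k4⟩
    · rw [(h2 i u k).1, (h2 i u k).2]
      exact c.size i u (mt (hE i u).mpr h)

theorem cls {gr : I → SimpleGraph V} {s r Λ P σ μ : ℕ} (c : NS gr s r Λ P σ μ) (hΛ : 0 < Λ) :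
    ∃ c' : NS gr s (r + 2 * s) Λ P σ (μ + P * (2 ^ 14) ^ Λ), c'.Full := by
  obtain ⟨D, hD⟩ : ∃ D, D = (2 ^ 14) ^ Λ := ⟨_, rfl⟩
  have hD1 : 1 < D := hD ▸ Nat.one_lt_pow hΛ.ne' (by norm_num)
  let arr : I → V → Prop := fun i u => c.ptr i u % Λ = 0 ∧ (c.X i u).card = 1
  let B : ℕ → I → V → Finset V := fun p i v =>
    sel (fun u => Near (gr i) s v u ∧ (arr i u ∧ c.ptr i u = p))
  let C : I → V → ℕ → Finset V := fun i v p => (B p i v).biUnion (c.X i)
  let W : I → V → Finset V := fun i u =>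
    sel (fun v => Near (gr i) s u v ∧ D ≤ (C i v (c.ptr i u)).card)
  let X' : I → V → Finset V := fun i u =>
    if arr i u then
      (if W i u = ∅ then ∅ else h7adv_sub (C i (h7clsEl (W i u) u) (c.ptr i u)) D)
    else c.X i u
  let lab' : I → V → V := fun i u => if arr i u then h7clsEl (c.X i u) u else c.lab i u
  have hB : ∀ p, Loc gr (r + s) (B p) := fun p =>
    loc_ball (f := fun _ _ => ()) (Loc.const fun _ => ()) (c.locP.prod c.locX)
      (fun _ a => (a.1 % Λ = 0 ∧ a.2.card = 1) ∧ a.1 = p)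
  have hC : Loc gr (r + s) C := fun i i' v hA => by
    funext p
    simp only [C]
    rw [← hB p i i' v hA]
    exact biUnion_congr rfl fun u hu => c.locX.far hA (mem_sel.1 hu).1 le_rfl
  have hW : Loc gr (r + s + s) W :=
    loc_ball (c.locP.mono (by omega)) hC (fun a b => D ≤ (b a).card)
  have memC : ∀ {i v p z}, z ∈ C i v p ↔
      ∃ u, (Near (gr i) s v u ∧ (arr i u ∧ c.ptr i u = p)) ∧ z ∈ c.X i u := by
    intro i v p z
    simp only [C, B, mem_biUnion, mem_sel]
  have ne : ∀ {i u}, arr i u → c.X i u ≠ ∅ := fun h e => by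
    have := h.2
    rw [e, card_empty] at this
    omega
  have near : ∀ {i u}, arr i u → ∀ z ∈ c.X i u, Near (gr i) (2 * s * (c.ptr i u / Λ)) u z :=
    fun {i u} h => by
      rcases c.size i u (ne h) with h1 | h1
      · have := h1.1
        rw [h.1, h.2, Nat.sub_zero, ← hD] at this
        omega
      · exact h1.2.2
  have pos : ∀ {i u}, arr i u → X' i u =
      if W i u = ∅ then ∅ else h7adv_sub (C i (h7clsEl (W i u) u) (c.ptr i u)) D :=
    fun h => if_pos h
  have neg : ∀ {i u}, ¬arr i u → X' i u = c.X i u := fun h => if_neg h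
  have old : ∀ {i u}, X' i u ≠ ∅ → c.X i u ≠ ∅ := fun {i u} h => by
    by_cases ha : arr i u
    · exact ne ha
    · rwa [neg ha] at h
  have new : ∀ {i u}, arr i u → W i u ≠ ∅ → ∃ w, Near (gr i) s u w ∧
      X' i u ⊆ C i w (c.ptr i u) ∧ (X' i u).card = D := fun {i u} ha h => by
    have h1 := mem_sel.1 (h7clsEl_mem h u)
    rw [pos ha, if_neg h]
    exact ⟨_, h1.1, h7adv_sub_spec h1.2⟩
  have live : ∀ {i u}, arr i u → X' i u ≠ ∅ → W i u ≠ ∅ := fun ha h e =>
    h (by rw [pos ha, if_pos e])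
  have full : ∀ i u, X' i u ≠ ∅ → (X' i u).card = (2 ^ 14) ^ (Λ - c.ptr i u % Λ) ∧
      ∀ z ∈ X' i u, Near (gr i) (2 * s * (c.ptr i u / Λ + 1)) u z := fun i u h => by
    by_cases ha : arr i u
    · obtain ⟨w, h1, h2, h3⟩ := new ha (live ha h)
      refine ⟨by rw [ha.1, Nat.sub_zero, ← hD, h3], fun z hz => ?_⟩
      obtain ⟨y, ⟨h4, h5, h6⟩, h7⟩ := memC.1 (h2 hz)
      have h8 := near h5 z h7
      rw [h6] at h8
      exact ((h1.trans h4).trans h8).mono (le_of_eq (by ring))
    · rw [neg ha] at h ⊢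
      exact (c.size i u h).resolve_right fun h1 => ha ⟨h1.1, h1.2.1⟩
  refine ⟨⟨c.ptr, X', lab', c.locP.mono (by omega), ?_, ?_, fun i u h => c.lt i u (old h),
    fun i u h => Or.inl (full i u h), ?_, ?_, ?_⟩, full⟩
  · intro i i' u hA
    have e1 := c.locP.here hA (by omega)
    have e2 := c.locX.here hA (by omega)
    have e3 : arr i u ↔ arr i' u := by simp only [arr, e1, e2]
    have e4 := hW.here hA (by omega)
    by_cases ha : arr i u
    · rw [pos ha, pos (e3.1 ha), ← e4, ← e1]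
      by_cases h : W i u = ∅
      · rw [if_pos h, if_pos h]
      · rw [if_neg h, if_neg h, hC.far hA (mem_sel.1 (h7clsEl_mem h u)).1 (by omega)]
    · rw [neg ha, neg (mt e3.2 ha), e2]
  · exact (((c.locP.prod c.locX).prod c.locL).map fun u a =>
      if a.1.1 % Λ = 0 ∧ a.1.2.card = 1 then h7clsEl a.1.2 u else a.2).mono (by omega)
  · intro i u h
    by_cases ha : arr i u
    · change Near _ _ _ (if arr i u then _ else _)
      rw [if_pos ha]
      exact (near ha _ (h7clsEl_mem (ne ha) u)).mono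
        (Nat.mul_le_mul_left _ (Nat.div_le_div_right (c.lt i u (ne ha)).le))
    · change Near _ _ _ (if arr i u then _ else _)
      rw [if_neg ha]
      exact c.nearL i u (neg ha ▸ h)
  · intro i v
    have hs : (sel (fun u => Near (gr i) s v u ∧ X' i u = ∅)).image (lab' i) ⊆
        (sel (fun u => Near (gr i) s v u ∧ c.X i u = ∅)).image (c.lab i) ∪
          ((range P).filter fun p => (C i v p).card < D).biUnion (C i v) := by
      intro z hz
      obtain ⟨u, hu, rfl⟩ := mem_image.1 hz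
      obtain ⟨h1, h2⟩ := mem_sel.1 hu
      by_cases ha : arr i u
      · refine mem_union_right _ (mem_biUnion.2 ⟨c.ptr i u,
          mem_filter.2 ⟨mem_range.2 (c.lt i u (ne ha)), not_le.1 fun h3 => ?_⟩, ?_⟩)
        · obtain ⟨w, -, -, h4⟩ := new ha (ne_empty_of_mem (a := v) (mem_sel.2 ⟨h1.symm, h3⟩))
          rw [h2, card_empty] at h4
          omega
        · refine memC.2 ⟨u, ⟨h1, ha, rfl⟩, ?_⟩
          change (if arr i u then _ else _) ∈ _
          rw [if_pos ha]
          exact h7clsEl_mem (ne ha) u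
      · exact mem_union_left _ (mem_image.2 ⟨u, mem_sel.2 ⟨h1, neg ha ▸ h2⟩, (if_neg ha).symm⟩)
    refine (card_le_card hs).trans ((card_union_le _ _).trans (add_le_add (c.mult i v) ?_))
    refine card_biUnion_le.trans
      ((sum_le_card_nsmul _ _ D fun p hp => (mem_filter.1 hp).2.le).trans ?_)
    rw [smul_eq_mul, ← hD]
    exact Nat.mul_le_mul_right _ ((card_filter_le _ _).trans (card_range P).le)
  · intro i
    obtain ⟨Q, h1, h2⟩ := c.pot i
    refine ⟨Q, fun u v z hz => ?_, le_trans (add_le_add le_rfl ?_) h2⟩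
    · obtain rfl := dX_eq (ne_empty_of_mem hz)
      rw [dX_self] at hz
      by_cases ha : arr i u
      · obtain ⟨w, -, h3, -⟩ := new ha (live ha (ne_empty_of_mem hz))
        obtain ⟨y, ⟨-, -, h4⟩, h5⟩ := memC.1 (h3 hz)
        have h6 := h1 y y
        rw [dX_self, dP_self, h4] at h6
        rw [dP_self]
        exact h6 h5
      · refine h1 u u ?_
        rw [dX_self]
        exact neg ha ▸ hz
    · refine sum_le_sum fun u _ => sum_le_sum fun v _ => ?_
      by_cases h : dX (X' i) u v ≠ ∅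
      · obtain rfl := dX_eq h
        rw [if_pos h, if_pos (by rw [dX_self] at h ⊢; exact old h)]
      · rw [if_neg h]
        split_ifs <;> positivity

/-- the initial state -/
noncomputable def init (gr : I → SimpleGraph V) (s Λ P : ℕ) (hP : 0 < P) : NS gr s 0 Λ P 0 0 where
  ptr _ _ := 0
  X _ u := {u}
  lab _ u := u
  locP _ _ _ _ := rfl
  locX _ _ _ _ := rfl
  locL _ _ _ _ := rfl
  lt _ _ _ := hP
  size i u _ := Or.inr ⟨Nat.zero_mod _, card_singleton _, fun z hz => by
    rw [mem_singleton.1 hz]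
    exact Near.refl _ _ _⟩
  nearL i u _ := Near.refl _ _ _
  mult i v := by
    rw [eq_empty_of_forall_notMem (s := sel _) fun u hu => singleton_ne_empty u (mem_sel.1 hu).2]
    simp
  pot i := by
    have h0 : ∀ u v : V, dP (fun _ => 0) u v = 0 := fun u v => ite_self 0
    simp only [h0]
    refine ⟨fun p => if p = 0 then univ else ∅, fun u v => subset_univ _, ?_⟩
    rw [sum_eq_single 0 (fun p _ hp => by simp [hp]) (by simp), pow_zero, pow_zero, one_mul,
      one_mul]
    refine add_le_add (by simp) ?_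
    have : ∀ u v : V, (if dX (fun u => ({u} : Finset V)) u v ≠ ∅ then (1 : ℝ) / 1 else 0) ≤ 1 :=
      fun u v => by split_ifs <;> norm_num
    refine (sum_le_sum fun u _ => sum_le_sum fun v _ => this u v).trans ?_
    simp [sq]

end ClusP

open ClusP in
theorem p_clus (gr : I → SimpleGraph V) : ClusSt gr := by
  intro τ Λ α s hτ hΛ hα _ hM
  obtain ⟨P, hP⟩ : ∃ P, P = α * Λ := ⟨_, rfl⟩
  rw [← hP] at hM ⊢
  have hP0 : 0 < P := hP ▸ Nat.mul_pos hα hΛ
  have hd : P / Λ = α := hP ▸ Nat.mul_div_cancel α hΛ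
  generalize hM' : (Fintype.card V : ℝ) + (Fintype.card V : ℝ) ^ 2 = M at hM
  have hM0 : 0 ≤ M := by rw [← hM']; positivity
  have key : ∀ σ, σ ≤ 2 * P → (2 : ℝ) ^ σ * M < 16 ^ P := fun σ hσ => by
    calc (2 : ℝ) ^ σ * M ≤ 2 ^ (2 * P) * M :=
          mul_le_mul_of_nonneg_right (pow_le_pow_right₀ one_le_two hσ) hM0
      _ < 2 ^ (2 * P) * 4 ^ P := mul_lt_mul_of_pos_left hM (by positivity)
      _ = 16 ^ P := by rw [pow_mul, ← mul_pow]; norm_num
  have ind : ∀ σ, σ ≤ 2 * P → ∃ r μ, r = 2 * s + σ * ((τ + 1) * (2 * s * (α + 1)) + 2 * s) ∧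
      μ = (σ + 1) * (P * (2 ^ 14) ^ Λ) ∧ ∃ c : NS gr s r Λ P σ μ, c.Full := fun σ => by
    induction σ with
    | zero => exact fun _ => ⟨_, _, by omega, by omega, cls (init gr s Λ P hP0) hΛ⟩
    | succ σ ih =>
      intro hσ
      obtain ⟨r, μ, e1, e2, c, hc⟩ := ih (by omega)
      obtain ⟨c1⟩ := adv c hτ hΛ hc (hM' ▸ key _ hσ)
      exact ⟨_, _, by rw [e1, hd]; ring, by rw [e2]; ring, cls c1 hΛ⟩
  obtain ⟨r, μ, rfl, rfl, c, -⟩ := ind (2 * P) le_rfl
  have dead : ∀ i u, c.X i u = ∅ := fun i u => by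
    by_contra hne
    obtain ⟨Q, -, h2⟩ := c.pot i
    rw [hM'] at h2
    have t0 : ∀ u v, (0 : ℝ) ≤ if dX (c.X i) u v ≠ ∅ then
        (16 : ℝ) ^ (2 * P) / 16 ^ dP (c.ptr i) u v else 0 := fun u v => by
      split_ifs <;> positivity
    have t1 := (single_le_sum (fun v _ => t0 u v) (mem_univ u)).trans
      (single_le_sum (f := fun u => ∑ v, if dX (c.X i) u v ≠ ∅ then
        (16 : ℝ) ^ (2 * P) / 16 ^ dP (c.ptr i) u v else 0)
        (fun u _ => sum_nonneg fun v _ => t0 u v) (mem_univ u))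
    rw [dX_self, dP_self, if_pos hne] at t1
    have t2 : (16 : ℝ) ^ P ≤ 16 ^ (2 * P) / 16 ^ c.ptr i u := by
      rw [le_div_iff₀ (by positivity), ← pow_add]
      exact pow_le_pow_right₀ (by norm_num) (by have := c.lt i u hne; omega)
    have t3 : (0 : ℝ) ≤ ∑ p ∈ range (P + 1), (16 : ℝ) ^ p * ((Q p).card : ℝ) := by positivity
    have t4 := key _ le_rfl
    linarith
  refine ⟨c.lab, c.locL, fun i u => hd ▸ c.nearL i u (dead i u), fun i v => ?_⟩
  have := c.mult i v
  rwa [sel_congr fun u => and_iff_left (dead i u)] at this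

end Pool.Agent.P.MP_6f280c_lc.Dc
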