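import Pool.Agent.P.MP_6f280c_lc.Dc.St

/-! The dense nodes get colours: nested reserves. -/

set_option autoImplicit false

namespace Pool.Agent.P.MP_6f280c_lc.Dc

open Finset

variable {V I : Type} [Fintype V] [LinearOrder V]

namespace Dense

omit [LinearOrder V] in
theorem ext_mono (G : SimpleGraph V) (cl : V → V) {F U : V → Prop} (h : ∀ u, F u → U u) (v : V) :
    (extS G cl F v).card ≤ (extS G cl U v).card :=
  card_sel_le fun u hu => ⟨hu.1, h u hu.2.1, hu.2.2⟩

omit [LinearOrder V] in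
theorem anti_mono (G : SimpleGraph V) (cl : V → V) {F U : V → Prop} (h : ∀ u, F u → U u) (v : V) :
    (antiS G cl F v).card ≤ (antiS G cl U v).card :=
  card_sel_le fun u hu => ⟨h u hu.1, hu.2⟩

omit [LinearOrder V] in
/-- the part of the clique that is kept back is a reserve -/
theorem reserve (G : SimpleGraph V) (cl : V → V) (χ : V → Option ℕ) {P U : V → Prop}
    (hP : ∀ u, P u → U u) (hU : ∀ u, U u → χ u = none) {v : V} (hv : ¬ P v) :
    (clq cl P v).card ≤ (sel (fun u => G.Adj v u ∧ χ u = none ∧ ¬ (U u ∧ ¬ P u))).card +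
      (antiS G cl U v).card := by
  refine card_sel_le_add fun u hu => ?_
  by_cases ha : G.Adj v u
  · exact Or.inl ⟨ha, hU u (hP u hu.1), fun h => h.2 hu.1⟩
  · exact Or.inr ⟨hP u hu.1, hu.2, fun e => hv (e ▸ hu.1), ha⟩

theorem groups {gr : I → SimpleGraph V} (hG : LgSt gr) {D r : ℕ} {cl : I → V → V} (hD : Deg gr D)
    (hl : Lead gr r cl) {χ : I → V → Option ℕ} (hχ : PC gr D r χ) {idx : I → V → Option ℕ}
    (hi : Loc gr r idx) (h0 : ∀ i v j, idx i v = some j → χ i v = none)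
    (he : ∀ i v u j, (gr i).Adj v u → idx i v = some j → idx i u = some j → cl i v = cl i u)
    (n : ℕ) : ∃ χ', PC gr D (r + 5 * n) χ' ∧ Ext χ χ' ∧
      (∀ i v j, idx i v = some j → j < n → χ' i v ≠ none) ∧
      ∀ i v j, idx i v = some j → n ≤ j → χ' i v = none := by
  induction n with
  | zero => exact ⟨χ, hχ, Ext.refl χ, fun _ _ _ _ h => absurd h (by omega),
      fun i v j h _ => h0 i v j h⟩
  | succ n ih =>
    obtain ⟨χ1, p1, e1, a1, b1⟩ := ih
    obtain ⟨χ2, p2, e2, a2, b2⟩ := hG D (r + 5 * n) cl χ1 (fun i v => idx i v = some n) hD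
      ⟨hl.1.mono (by omega), hl.2⟩ p1
      ((hi.mono (by omega)).map fun _ a => a = some n) (fun i v h => b1 i v n h le_rfl)
      (fun i v u ha h h' => he i v u n ha h h')
    refine ⟨χ2, p2.mono (by omega), e1.trans e2, fun i v j h hj => ?_, fun i v j h hj => ?_⟩
    · by_cases hjn : j = n
      · exact a2 i v (hjn ▸ h)
      · exact fun e => a1 i v j h (by omega) (e2.none e)
    · rw [b2 i v (fun e => by rw [h] at e; have := Option.some.inj e; omega)]
      exact b1 i v j h (by omega)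

end Dense

theorem p_dense (gr : I → SimpleGraph V) (hG : LgSt gr) : DenseSt gr := by
  intro D r0 M M3 J q a wl wp wf Θ ns xf p cl hD hl hLc hPa hFa hΘ h1 h2 h3 h4 m
  induction m with
  | zero =>
    intro xs r χ U Big hx ha hxf hr hχ hU hB hBig hs hb hn
    simp only [pow_zero, one_mul] at hxf hs hb hn
    obtain ⟨idx, li, i1, i2, i3⟩ := hFa r p xf U Big hr hU hB hBig h2
      (fun i v hv => (hs i v hv).2.1.trans hxf) (fun i v hv hv' => h1.trans (hb i v hv hv'))
    have hPU : ∀ i u, idx i u ≠ none → U i u := fun i u h => by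
      obtain ⟨j, hj⟩ := Option.ne_none_iff_exists'.1 h
      exact (i1 i u j hj).1
    obtain ⟨χ1, p1, e1, a1, b1⟩ := hLc (r + wf) xf χ (fun i v => U i v ∧ ¬ idx i v ≠ none)
      (by omega) (hχ.mono (by omega))
      (((hU.mono (by omega)).prod li).map fun _ z => z.1 ∧ ¬ z.2 ≠ none) (fun i v hv => by
        obtain ⟨s1, s2, s3⟩ := hs i v hv.1
        refine ⟨s1, (Dense.ext_mono _ _ (fun u h => h.1) v).trans (s2.trans hxf),
          (Dense.anti_mono _ _ (fun u h => h.1) v).trans (s3.trans hxf), ?_⟩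
        by_cases hv' : Big i v
        · have t1 := Dense.reserve (gr i) (cl i) (χ i) (hPU i) (fun u h => (hs i u h).1) hv.2
          rw [i2 i v hv.1 hv'] at t1
          have t2 : (4 * M + 2) * xf = (4 * M + 1) * xf + xf := by ring
          omega
        · exact (hn i v hv.1 hv').trans
            (card_sel_le fun u hu => ⟨hu.1, hu.2.1, fun h => hu.2.2 h.1⟩))
    obtain ⟨χ2, p2, e2, a2, -⟩ := Dense.groups hG hD (r := r + wf + wl)
      ⟨hl.1.mono (by omega), hl.2⟩ p1 (li.mono (by omega)) (fun i v j h => by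
        rw [b1 i v (fun h' => h'.2 (by simp [h]))]
        exact (hs i v (i1 i v j h).1).1) i3 J
    refine ⟨χ2, p2.mono (by omega), e1.trans e2, fun i v hv => ?_⟩
    rcases hj : idx i v with _ | j
    · exact fun e => a1 i v ⟨hv, by simp [hj]⟩ (e2.none e)
    · exact a2 i v j hj (i1 i v j hj).2.2
  | succ m ih =>
    intro xs r χ U Big hx ha hxf hr hχ hU hB hBig hs hb hn
    have h8 : 1 ≤ 8 ^ (m + 1) := Nat.one_le_pow _ _ (by norm_num)
    have hxs : xs ≤ xf := le_trans (Nat.le_mul_of_pos_left _ h8) hxf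
    have hT : 1 ≤ Θ ^ m := Nat.one_le_pow _ _ (by omega)
    have hns : 0 < ns := lt_of_lt_of_le (Nat.mul_pos (Nat.mul_pos (by omega) (by omega))
      (by omega)) h3
    have hn0 : 0 < Θ ^ (m + 1) * ns := Nat.mul_pos (Nat.pow_pos (by omega)) hns
    obtain ⟨P, lP, q1, q2, q3⟩ := hPa r (Θ ^ (m + 1) * ns) (Θ ^ m * ns) (Θ ^ (m + 1) * xs) U Big
      hr hU hB hBig (by
        calc 2 * (Θ ^ m * ns) ≤ Θ * (Θ ^ m * ns) := Nat.mul_le_mul_right _ hΘ
          _ = _ := by ring) (fun i v hv => (hs i v hv).2) hb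
    have key : ∀ e : ℕ, Θ ^ (m + 1) * ns * e ≤
        4 * (Θ ^ m * ns) * (Θ ^ (m + 1) * xs) + Θ ^ (m + 1) * ns * a → e ≤ Θ ^ m * (8 * xs) := by
      intro e he
      have t1 : 4 * (Θ ^ m * ns) * (Θ ^ (m + 1) * xs) + Θ ^ (m + 1) * ns * a =
          Θ ^ (m + 1) * ns * (4 * (Θ ^ m * xs) + a) := by ring
      rw [t1] at he
      have t2 := Nat.le_of_mul_le_mul_left he hn0
      have t3 : xs ≤ Θ ^ m * xs := Nat.le_mul_of_pos_left _ hT
      have t4 : Θ ^ m * (8 * xs) = 8 * (Θ ^ m * xs) := by ring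
      omega
    have hx' : Θ ^ (m + 1) * xs ≤ Θ ^ (m + 1) * xf := Nat.mul_le_mul_left _ hxs
    obtain ⟨χ1, p1, e1, a1, b1⟩ := hLc (r + wp) (Θ ^ (m + 1) * xf) χ
      (fun i v => U i v ∧ ¬ P i v) (by omega) (hχ.mono (by omega))
      (((hU.mono (by omega)).prod lP).map fun _ z => z.1 ∧ ¬ z.2) (fun i v hv => by
        obtain ⟨s1, s2, s3⟩ := hs i v hv.1
        refine ⟨s1, (Dense.ext_mono _ _ (fun u h => h.1) v).trans (s2.trans hx'),
          (Dense.anti_mono _ _ (fun u h => h.1) v).trans (s3.trans hx'), ?_⟩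
        by_cases hv' : Big i v
        · have t1 := Dense.reserve (gr i) (cl i) (χ i) (fun u h => (q1 i u h).1)
            (fun u h => (hs i u h).1) hv.2
          rw [q2 i v hv.1 hv'] at t1
          have t2 : Θ ^ m * ((4 * M + 2) * xf * Θ) ≤ Θ ^ m * ns := Nat.mul_le_mul_left _ h3
          have t3 : Θ ^ m * ((4 * M + 2) * xf * Θ) =
              (4 * M + 1) * (Θ ^ (m + 1) * xf) + Θ ^ (m + 1) * xf := by ring
          omega
        · exact (hn i v hv.1 hv').trans
            (card_sel_le fun u hu => ⟨hu.1, hu.2.1, fun h => hu.2.2 h.1⟩))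
    obtain ⟨χ2, p2, e2, a2⟩ := ih (8 * xs) (r + wp + wl) χ1 P Big (by omega) (by omega)
      (by
        calc 8 ^ m * (8 * xs) = 8 ^ (m + 1) * xs := by ring
          _ ≤ xf := hxf) (by omega) p1 (lP.mono (by omega)) (hB.mono (by omega)) hBig
      (fun i v hv => by
        have hv1 := (q1 i v hv).1
        refine ⟨?_, key _ (q3 i v hv1).1, key _ (q3 i v hv1).2⟩
        rw [b1 i v (fun h => h.2 hv)]
        exact (hs i v hv1).1)
      (fun i v hv hv' => (q2 i v (q1 i v hv).1 hv').ge)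
      (fun i v hv hv' => absurd (q1 i v hv).2 hv')
    refine ⟨χ2, p2.mono (le_of_eq (by ring)), e1.trans e2, fun i v hv => ?_⟩
    by_cases hp : P i v
    · exact a2 i v hp
    · exact fun e => a1 i v ⟨hv, hp⟩ (e2.none e)

end Pool.Agent.P.MP_6f280c_lc.Dc
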