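import Pool.Agent.P.MP_6f280c_lc.Dc.St

set_option autoImplicit false

namespace Pool.Agent.P.MP_6f280c_lc.Dc

open Finset

variable {V I : Type} [Fintype V] [LinearOrder V]

namespace Fa

omit [Fintype V] in
/-- a large set contains `M` blocks of size `p` -/
theorem blocks (p M : ℕ) (S : Finset V) (h : p * M ≤ S.card) :
    ∃ f : V → ℕ, ∀ y, y < M → (S.filter (fun u => f u = y)).card = p := by
  induction M generalizing S with
  | zero => exact ⟨fun _ => 0, fun y hy => absurd hy (Nat.not_lt_zero y)⟩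
  | succ M ih =>
    rw [Nat.mul_succ] at h
    obtain ⟨T, hT, hc⟩ := exists_subset_card_eq (s := S) (n := p) (by omega)
    obtain ⟨f, hf⟩ := ih (S \ T) (by rw [card_sdiff_of_subset hT]; omega)
    refine ⟨fun u => if u ∈ T then 0 else f u + 1, fun y hy => ?_⟩
    rcases y with _ | y
    · rw [← hc]
      congr 1
      ext u
      simp only [mem_filter]
      by_cases hu : u ∈ T
      · simp [hu, hT hu]
      · simp [hu]
    · rw [← hf y (by omega)]
      congr 1
      ext u
      simp only [mem_filter, mem_sdiff]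
      by_cases hu : u ∈ T
      · simp [hu]
      · simp [hu]

omit [Fintype V] in
theorem blocks_fun (p M : ℕ) : ∃ f : Finset V → V → ℕ, ∀ S : Finset V, p * M ≤ S.card →
    ∀ y, y < M → (S.filter (fun u => f S u = y)).card = p := by
  have h : ∀ S : Finset V, ∃ f : V → ℕ, p * M ≤ S.card →
      ∀ y, y < M → (S.filter (fun u => f u = y)).card = p := by
    intro S
    by_cases e : p * M ≤ S.card
    · obtain ⟨f, hf⟩ := blocks p M S e
      exact ⟨f, fun _ => hf⟩
    · exact ⟨fun _ => 0, fun e' => absurd e' e⟩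
  choose f hf using h
  exact ⟨f, hf⟩

/-- external neighbours in block `y'` of the clique `z'`, for a node `v` of block `y` -/
noncomputable def cfl (G : SimpleGraph V) (cl : V → V) (U B : V → Prop) (k : V → ℕ)
    (v z' : V) (y y' : ℕ) : Finset V :=
  sel (fun u => G.Adj v u ∧ (B v ∧ k v = y ∧ U u ∧ cl u ≠ cl v ∧ cl u = z' ∧ k u = y'))

/-- the number of edges between two blocks -/
noncomputable def wt (G : SimpleGraph V) (cl : V → V) (U B : V → Prop) (k : V → ℕ)
    (z z' : V) (y y' : ℕ) : ℕ :=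
  ∑ v, if cl v = z then (cfl G cl U B k v z' y y').card else 0

section pure

variable {G : SimpleGraph V} {cl : V → V} {U B : V → Prop} {k : V → ℕ}

omit [LinearOrder V] in
theorem mem_cfl {v z' u : V} {y y' : ℕ} : u ∈ cfl G cl U B k v z' y y' ↔
    G.Adj v u ∧ (B v ∧ k v = y ∧ U u ∧ cl u ≠ cl v ∧ cl u = z' ∧ k u = y') := by
  simp only [cfl, mem_sel]

theorem wt_near {z z' : V} {y y' : ℕ} (h : wt G cl U B k z z' y y' ≠ 0) :
    ∃ v u, cl v = z ∧ G.Adj v u ∧ cl u = z' ∧ cl u ≠ cl v := by
  obtain ⟨v, _, hv⟩ := exists_ne_zero_of_sum_ne_zero h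
  by_cases e : cl v = z
  · rw [if_pos e] at hv
    obtain ⟨u, hu⟩ := card_ne_zero.1 hv
    obtain ⟨a1, _, _, _, a2, a3, _⟩ := mem_cfl.1 hu
    exact ⟨v, u, e, a1, a3, a2⟩
  · exact absurd (if_neg e) hv

theorem wt_zero {v u : V} (h : wt G cl U B k (cl v) (cl u) (k v) (k u) = 0) (ha : G.Adj v u)
    (hv : B v) (hu : U u) : cl v = cl u := by
  by_contra hne
  have h1 := (sum_eq_zero_iff.1 h) v (mem_univ v)
  rw [if_pos rfl, card_eq_zero] at h1
  have h2 : u ∈ cfl G cl U B k v (cl u) (k v) (k u) :=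
    mem_cfl.2 ⟨ha, hv, rfl, hu, fun e => hne e.symm, rfl, rfl⟩
  rw [h1] at h2
  exact absurd h2 (notMem_empty u)

open Classical in
theorem cfl_le (M x : ℕ) (v : V) (hx : B v → (extS G cl U v).card ≤ x) :
    ∑ z', ∑ a ∈ range M, ∑ a' ∈ range M, (cfl G cl U B k v z' a a').card ≤
      if B v ∧ k v < M then x else 0 := by
  have e1 := sum_card_fiberwise_eq_card_filter
    (sel (fun u => G.Adj v u ∧ B v ∧ U u ∧ cl u ≠ cl v))
    ((univ : Finset V) ×ˢ (range M ×ˢ range M)) (fun u => (cl u, k v, k u))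
  rw [sum_product] at e1
  simp only [sum_product] at e1
  have e2 : ∑ z', ∑ a ∈ range M, ∑ a' ∈ range M, (cfl G cl U B k v z' a a').card =
      ∑ z', ∑ a ∈ range M, ∑ a' ∈ range M,
        ((sel (fun u => G.Adj v u ∧ B v ∧ U u ∧ cl u ≠ cl v)).filter
          (fun u => (cl u, k v, k u) = (z', a, a'))).card := by
    refine sum_congr rfl fun z' _ => sum_congr rfl fun a _ => sum_congr rfl fun a' _ => ?_
    congr 1
    ext u
    simp only [mem_cfl, mem_filter, mem_sel, Prod.mk.injEq]
    tauto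
  rw [e2, e1]
  by_cases h : B v ∧ k v < M
  · rw [if_pos h]
    refine le_trans (card_le_card fun u hu => ?_) (hx h.1)
    obtain ⟨a1, _, a2, a3⟩ := mem_sel.1 (mem_filter.1 hu).1
    exact mem_extS.2 ⟨a1, a2, a3⟩
  · rw [if_neg h, Nat.le_zero, card_eq_zero, eq_empty_iff_forall_notMem]
    intro u hu
    obtain ⟨a1, a2⟩ := mem_filter.1 hu
    exact h ⟨(mem_sel.1 a1).2.1, mem_range.1 (mem_product.1 (mem_product.1 a2).2).1⟩

theorem wt_le (M x : ℕ) (z : V) (hx : ∀ v, B v → (extS G cl U v).card ≤ x) :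
    ∑ z', ∑ a ∈ range M, ∑ a' ∈ range M, wt G cl U B k z z' a a' ≤
      (sel (fun v => cl v = z ∧ B v ∧ k v < M)).card * x := by
  classical
  have e : ∑ z', ∑ a ∈ range M, ∑ a' ∈ range M, wt G cl U B k z z' a a' =
      ∑ v, if cl v = z then
        ∑ z', ∑ a ∈ range M, ∑ a' ∈ range M, (cfl G cl U B k v z' a a').card else 0 := by
    simp only [wt]
    have e1 : ∀ z' a, ∑ a' ∈ range M,
        ∑ v, (if cl v = z then (cfl G cl U B k v z' a a').card else 0) =
        ∑ v, ∑ a' ∈ range M, (if cl v = z then (cfl G cl U B k v z' a a').card else 0) :=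
      fun z' a => sum_comm
    simp only [e1]
    have e2 : ∀ z', ∑ a ∈ range M, ∑ v, ∑ a' ∈ range M,
        (if cl v = z then (cfl G cl U B k v z' a a').card else 0) =
        ∑ v, ∑ a ∈ range M, ∑ a' ∈ range M,
          (if cl v = z then (cfl G cl U B k v z' a a').card else 0) :=
      fun z' => sum_comm
    simp only [e2]
    rw [sum_comm]
    refine sum_congr rfl fun v _ => ?_
    by_cases h : cl v = z
    · simp only [if_pos h]
    · simp only [if_neg h, sum_const_zero]
  rw [e]
  have e3 : (sel (fun v => cl v = z ∧ B v ∧ k v < M)).card * x =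
      ∑ v ∈ sel (fun v => cl v = z ∧ B v ∧ k v < M), x := by
    rw [sum_const, smul_eq_mul]
  rw [e3, ← sum_subset (subset_univ (sel (fun v => cl v = z ∧ B v ∧ k v < M)))]
  · refine sum_le_sum fun v hv => ?_
    obtain ⟨a1, a2⟩ := mem_sel.1 hv
    rw [if_pos a1]
    have := cfl_le (k := k) M x v (hx v)
    rwa [if_pos a2] at this
  · intro v _ hv
    by_cases h : cl v = z
    · rw [if_pos h]
      have := cfl_le (k := k) M x v (hx v)
      rw [if_neg fun e => hv (mem_sel.2 ⟨h, e⟩)] at this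
      exact Nat.le_zero.1 this
    · exact if_neg h

end pure

variable {gr : I → SimpleGraph V}

theorem loc_wt {r : ℕ} {cl : I → V → V} {U B : I → V → Prop} {k : I → V → ℕ}
    (hcl : Loc gr r cl) (hn : ∀ i v, Near (gr i) 2 v (cl i v)) (hU : Loc gr r U)
    (hB : Loc gr r B) (hk : Loc gr r k) :
    Loc gr (r + 3) (fun i z z' y y' => wt (gr i) (cl i) (U i) (B i) (k i) z z' y y') := by
  have l0 : Loc gr r (fun i v => (U i v, B i v, cl i v, k i v)) :=
    hU.prod (hB.prod (hcl.prod hk))
  have l1 : Loc gr (r + 1)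
      (fun i v z' y y' => (cfl (gr i) (cl i) (U i) (B i) (k i) v z' y y').card) := by
    intro i i' v hA
    funext z' y y'
    exact congrArg Finset.card (loc_sel_adj (l0.mono (Nat.le_succ r)) l0
      (fun _ _ a b => a.2.1 ∧ a.2.2.2 = y ∧ b.1 ∧ b.2.2.1 ≠ a.2.2.1 ∧ b.2.2.1 = z' ∧ b.2.2.2 = y')
      i i' v hA)
  have l2 := ((hcl.mono (Nat.le_succ r)).prod l1).gather (k := 2)
    (fun z _ a => if a.1 = z then a.2 else fun _ _ _ => 0) (fun _ _ _ => 0) (fun i z u e => by
      by_cases e' : cl i u = z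
      · exact (e' ▸ hn i u).symm
      · exact absurd (if_neg e') e)
  have l3 := l2.map (fun _ f z' y y' => (∑ v, f v z' y y' : ℕ))
  intro i i' z hA
  have e := l3 i i' z hA
  have e' : ∀ j, (fun z' y y' => wt (gr j) (cl j) (U j) (B j) (k j) z z' y y') =
      fun z' y y' => (∑ v, (if cl j v = z then
        (fun z' y y' => (cfl (gr j) (cl j) (U j) (B j) (k j) v z' y y').card)
        else fun _ _ _ => 0) z' y y' : ℕ) := by
    intro j
    funext z' y y'
    simp only [wt]
    refine sum_congr rfl fun v _ => ?_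
    by_cases h : cl j v = z
    · simp only [if_pos h]
    · simp only [if_neg h]
  exact (e' i).trans (e.trans (e' i').symm)

theorem arith {g Λ n B S f : ℝ} {b : ℕ} (hg0 : 0 ≤ g) (hΛ : 0 ≤ Λ) (hn : 0 ≤ n)
    (hg : g * Λ * B ≤ 2 ^ b) (h1 : S ≤ n * (2 ^ b * B)) (h2 : f ≤ Λ * (S / 4 ^ b)) :
    g * f ≤ n := by
  have h4 : (4 : ℝ) ^ b = 2 ^ b * 2 ^ b := by rw [← mul_pow]; norm_num
  have hp : (0 : ℝ) < 2 ^ b := by positivity
  have f4 : f ≤ Λ * (n * (2 ^ b * B) / 4 ^ b) :=
    h2.trans (mul_le_mul_of_nonneg_left (div_le_div_of_nonneg_right h1 (by positivity)) hΛ)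
  refine (mul_le_mul_of_nonneg_left f4 hg0).trans ?_
  have e : g * (Λ * (n * (2 ^ b * B) / 4 ^ b)) = n * (g * Λ * B / 2 ^ b) := by
    rw [h4]
    field_simp
  rw [e]
  exact mul_le_of_le_one_right hn ((div_le_one hp).2 hg)

omit [LinearOrder V] in
/-- one round: the leaders that are still active choose a block -/
theorem round {b w g q r : ℕ} {Λ : ℝ} {W : I → V → V → ℕ → ℕ → ℕ} {A : I → V → Prop}
    (hand : AndProp gr b Λ w) (hΛ : 0 ≤ Λ) (hg : (g : ℝ) * Λ * q ≤ 2 ^ b) (lW : Loc gr r W)
    (lA : Loc gr r A) (hn : ∀ i z z' a a', W i z z' a a' ≠ 0 → Near (gr i) 5 z z' ∧ z ≠ z')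
    (hW : ∀ i z, ∑ z', ∑ a ∈ range (2 ^ b), ∑ a' ∈ range (2 ^ b), W i z z' a a' ≤ 2 ^ b * q) :
    ∃ (y : I → V → ℕ) (ok : I → V → Prop), Loc gr (r + (5 * w + 5)) y ∧
      Loc gr (r + (5 * w + 5)) ok ∧ (∀ i z, y i z < 2 ^ b) ∧
      (∀ i z z', ok i z → W i z z' (y i z) (y i z') = 0) ∧
      ∀ i, g * (sel (fun z => A i z ∧ ¬ ok i z)).card ≤ (sel (A i)).card := by
  classical
  obtain ⟨y, ly, y1, y2⟩ := hand r 5 (fun _ _ _ => 0)
    (fun i z z' a a' => if A i z then (W i z z' a a' : ℝ) else 0) (fun _ _ _ _ => rfl)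
    ((lA.prod lW).map (fun _ c z' a a' => if c.1 then (c.2 z' a a' : ℝ) else 0))
    (fun i z z' a a' => by
      by_cases h : A i z
      · simp only [if_pos h]
        exact Nat.cast_nonneg _
      · simp only [if_neg h]
        exact le_rfl)
    (fun i z z' a a' e => by
      by_cases h : A i z
      · simp only [if_pos h] at e
        exact hn i z z' a a' (fun e' => e (by rw [e']; exact Nat.cast_zero))
      · simp only [if_neg h] at e
        exact absurd rfl e)
  refine ⟨y, fun i z => ∀ z', W i z z' (y i z) (y i z') = 0, ly.mono (by omega), ?_, y1,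
    fun i z z' h => h z', fun i => ?_⟩
  · intro i i' z hA
    have e1 : W i z = W i' z := lW.here hA (by omega)
    have e2 : y i z = y i' z := ly.here hA (by omega)
    show (∀ z', W i z z' (y i z) (y i z') = 0) = (∀ z', W i' z z' (y i' z) (y i' z') = 0)
    rw [← e1, ← e2]
    refine propext (forall_congr' fun z' => ⟨fun h => ?_, fun h => ?_⟩)
    · by_contra hne
      have e3 : y i z' = y i' z' := ly.far hA (hn i z z' _ _ hne).1 (by omega)
      rw [← e3] at hne
      exact hne h
    · by_contra hne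
      have e3 : y i z' = y i' z' := ly.far hA (hn i z z' _ _ hne).1 (by omega)
      rw [e3] at hne
      exact hne h
  · have f3 := y2 i
    simp only [sum_const_zero, zero_div, zero_add] at f3
    have f1 : ((sel (fun z => A i z ∧ ¬ ∀ z', W i z z' (y i z) (y i z') = 0)).card : ℝ) ≤
        ∑ z, ∑ z', (if A i z then (W i z z' (y i z) (y i z') : ℝ) else 0) := by
      rw [card_sel_eq_sum]
      refine sum_le_sum fun z _ => ?_
      by_cases h : A i z
      · simp only [if_pos h]
        by_cases h' : ∀ z', W i z z' (y i z) (y i z') = 0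
        · rw [if_neg fun e => e.2 h']
          exact sum_nonneg fun _ _ => Nat.cast_nonneg _
        · rw [if_pos ⟨h, h'⟩]
          obtain ⟨z', hz⟩ := not_forall.1 h'
          refine le_trans ?_ (single_le_sum
            (f := fun z' => (W i z z' (y i z) (y i z') : ℝ))
            (fun _ _ => Nat.cast_nonneg _) (mem_univ z'))
          exact_mod_cast Nat.one_le_iff_ne_zero.2 hz
      · rw [if_neg fun e => h e.1]
        simp only [if_neg h, sum_const_zero, le_refl]
    have f2 : ∑ z, ∑ z', ∑ a ∈ range (2 ^ b), ∑ a' ∈ range (2 ^ b),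
        (if A i z then (W i z z' a a' : ℝ) else 0) ≤
        ((sel (A i)).card : ℝ) * (2 ^ b * q) := by
      rw [card_sel_eq_sum, sum_mul]
      refine sum_le_sum fun z _ => ?_
      by_cases h : A i z
      · simp only [if_pos h, one_mul]
        exact_mod_cast hW i z
      · simp only [if_neg h, sum_const_zero, zero_mul, le_refl]
    have f5 := arith (Nat.cast_nonneg g) hΛ (Nat.cast_nonneg _) hg f2 (f1.trans f3)
    exact_mod_cast f5

omit [LinearOrder V] in
/-- all rounds -/
theorem rounds {b w g q r : ℕ} {Λ : ℝ} {W : I → V → V → ℕ → ℕ → ℕ}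
    (hand : AndProp gr b Λ w) (hΛ : 0 ≤ Λ) (hg : (g : ℝ) * Λ * q ≤ 2 ^ b)
    (lW : Loc gr (r + 3) W)
    (hn : ∀ i z z' a a', W i z z' a a' ≠ 0 → Near (gr i) 5 z z' ∧ z ≠ z')
    (hW : ∀ i z, ∑ z', ∑ a ∈ range (2 ^ b), ∑ a' ∈ range (2 ^ b), W i z z' a a' ≤ 2 ^ b * q)
    (j : ℕ) :
    ∃ s : I → V → Option (ℕ × ℕ), Loc gr (r + j * (5 * w + 10)) s ∧
      (∀ i z c, s i z = some c → c.1 < j ∧ c.2 < 2 ^ b) ∧
      (∀ i z z' c c', s i z = some c → s i z' = some c' → c.1 = c'.1 →
        W i z z' c.2 c'.2 = 0) ∧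
      ∀ i, g ^ j * (sel (fun z => s i z = none)).card ≤ Fintype.card V := by
  classical
  induction j with
  | zero =>
    refine ⟨fun _ _ => none, fun _ _ _ _ => rfl, fun _ _ _ h => absurd h (by simp),
      fun _ _ _ _ _ h => absurd h (by simp), fun i => ?_⟩
    rw [pow_zero, one_mul]
    exact card_le_univ _
  | succ j ih =>
    obtain ⟨s, ls, s1, s2, s3⟩ := ih
    obtain ⟨y, ok, ly, lok, y1, y2, y3⟩ := round (r := r + j * (5 * w + 10) + 3)
      (A := fun i z => s i z = none) hand hΛ hg (lW.mono (by omega))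
      ((ls.mono (Nat.le_add_right _ 3)).map (fun _ a => a = none)) hn hW
    let s' : I → V → Option (ℕ × ℕ) := fun i z =>
      if s i z = none ∧ ok i z then some (j, y i z) else s i z
    have e1 : ∀ i z c, s' i z = some c → (ok i z ∧ c = (j, y i z)) ∨ s i z = some c := by
      intro i z c e
      by_cases h : s i z = none ∧ ok i z
      · have e' : s' i z = some (j, y i z) := if_pos h
        rw [e'] at e
        exact Or.inl ⟨h.2, (Option.some.inj e).symm⟩
      · have e' : s' i z = s i z := if_neg h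
        exact Or.inr (e' ▸ e)
    have hr : r + j * (5 * w + 10) + 3 + (5 * w + 5) ≤ r + (j + 1) * (5 * w + 10) := by
      rw [add_mul j 1, one_mul]
      omega
    refine ⟨s', ?_, fun i z c e => ?_, fun i z z' c c' e e' h => ?_, fun i => ?_⟩
    · exact (((ls.mono (by omega)).prod (lok.prod ly)).map
        (fun _ a => if a.1 = none ∧ a.2.1 then some (j, a.2.2) else a.1)).mono hr
    · rcases e1 i z c e with ⟨_, h⟩ | h
      · rw [h]
        exact ⟨Nat.lt_succ_self j, y1 i z⟩
      · exact ⟨Nat.lt_succ_of_lt (s1 i z c h).1, (s1 i z c h).2⟩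
    · rcases e1 i z c e with ⟨a1, a2⟩ | a <;> rcases e1 i z' c' e' with ⟨b1, b2⟩ | b
      · rw [a2, b2]
        exact y2 i z z' a1
      · have := (s1 i z' c' b).1
        rw [a2] at h
        exact absurd h (by simp only []; omega)
      · have := (s1 i z c a).1
        rw [b2] at h
        exact absurd h (by simp only []; omega)
      · exact s2 i z z' c c' a b h
    · have e2 : (sel (fun z => s' i z = none)).card ≤
          (sel (fun z => s i z = none ∧ ¬ ok i z)).card := by
        refine card_sel_le fun z hz => ?_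
        by_cases h : s i z = none ∧ ok i z
        · have e' : s' i z = some (j, y i z) := if_pos h
          rw [e'] at hz
          exact absurd hz (by simp)
        · have e' : s' i z = s i z := if_neg h
          have e'' : s i z = none := e' ▸ hz
          exact ⟨e'', fun e => h ⟨e'', e⟩⟩
      calc g ^ (j + 1) * (sel (fun z => s' i z = none)).card
          = g ^ j * (g * (sel (fun z => s' i z = none)).card) := by ring
        _ ≤ g ^ j * (sel (fun z => s i z = none)).card :=
          Nat.mul_le_mul_left _ ((Nat.mul_le_mul_left _ e2).trans (y3 i))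
        _ ≤ Fintype.card V := s3 i

end Fa

theorem p_fa (gr : I → SimpleGraph V) : FaSt gr := by
  classical
  intro r0 b w g J q Λ cl hl hand hΛ hg hn r p x U Big hr lU lBig hBig hq hx hM
  have lcl : Loc gr r cl := hl.1.mono hr
  obtain ⟨f, hf⟩ := Fa.blocks_fun (V := V) p (2 ^ b)
  have lq : Loc gr (r + 4) (fun i v => clq (cl i) (U i) v) :=
    loc_sel_near (k := 4) (lcl.mono (Nat.le_add_right r 4)) (lU.prod lcl)
      (fun _ _ a c => c.1 ∧ c.2 = a) (fun i v u h => by
        have h1 := hl.2 i v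
        have h2 := (hl.2 i u).symm
        have h3 : cl i u = cl i v := h.2
        rw [h3] at h2
        exact h1.trans h2)
  let k : I → V → ℕ := fun i v => f (clq (cl i) (U i) v) v
  let B : I → V → Prop := fun i v => U i v ∧ Big i v
  have lk : Loc gr (r + 4) k := lq.map (fun v S => f S v)
  have lB : Loc gr r B := (lU.prod lBig).map (fun _ a => a.1 ∧ a.2)
  have hclq : ∀ i v u, cl i u = cl i v → clq (cl i) (U i) u = clq (cl i) (U i) v :=
    fun i v u e => sel_congr fun t => by rw [e]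
  have hblk : ∀ i v y, B i v → y < 2 ^ b →
      (sel (fun u => cl i u = cl i v ∧ B i u ∧ k i u = y)).card = p := by
    intro i v y hv hy
    rw [← hf (clq (cl i) (U i) v) (hM i v hv.1 hv.2) y hy]
    congr 1
    ext u
    simp only [mem_sel, mem_filter, mem_clq]
    constructor
    · rintro ⟨a1, a2, a3⟩
      exact ⟨⟨a2.1, a1⟩, by rw [← hclq i v u a1]; exact a3⟩
    · rintro ⟨⟨a1, a2⟩, a3⟩
      refine ⟨a2, ⟨a1, hBig i v u a2.symm hv.2⟩, ?_⟩
      show f (clq (cl i) (U i) u) u = y
      rw [hclq i v u a2]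
      exact a3
  have hcnt : ∀ i z, (sel (fun v => cl i v = z ∧ B i v ∧ k i v < 2 ^ b)).card ≤ 2 ^ b * p := by
    intro i z
    rcases (sel (fun v => cl i v = z ∧ B i v ∧ k i v < 2 ^ b)).eq_empty_or_nonempty with
      h | ⟨v, hv⟩
    · rw [h, card_empty]
      exact Nat.zero_le _
    · obtain ⟨a1, a2, _⟩ := mem_sel.1 hv
      rw [card_eq_sum_card_fiberwise (f := k i) (t := range (2 ^ b))
        (fun u hu => mem_coe.2 (mem_range.2 (mem_sel.1 (mem_coe.1 hu)).2.2))]
      refine le_trans (sum_le_sum (g := fun _ => p) fun y hy => ?_) (by simp)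
      rw [← hblk i v y a2 (mem_range.1 hy)]
      refine card_le_card fun u hu => ?_
      obtain ⟨b1, b2⟩ := mem_filter.1 hu
      obtain ⟨b3, b4, _⟩ := mem_sel.1 b1
      exact mem_sel.2 ⟨b3.trans a1.symm, b4, b2⟩
  obtain ⟨s, ls, s1, s2, s3⟩ := Fa.rounds (r := r + 4) (q := q)
    (W := fun i z z' y y' => Fa.wt (gr i) (cl i) (U i) (B i) (k i) z z' y y') hand hΛ hg
    (Fa.loc_wt (lcl.mono (Nat.le_add_right r 4)) hl.2 (lU.mono (Nat.le_add_right r 4))
      (lB.mono (Nat.le_add_right r 4)) lk)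
    (fun i z z' a a' e => by
      obtain ⟨v, u, a1, a2, a3, a4⟩ := Fa.wt_near e
      refine ⟨?_, fun e' => a4 (by rw [a1, a3, e'])⟩
      rw [← a1, ← a3]
      exact ((hl.2 i v).symm.trans (Near.of_adj a2)).trans (hl.2 i u))
    (fun i z => by
      refine (Fa.wt_le (2 ^ b) x z (fun v hv => hx i v hv.1)).trans ?_
      refine (Nat.mul_le_mul_right x (hcnt i z)).trans ?_
      rw [mul_assoc]
      exact Nat.mul_le_mul_left _ hq) J
  have hs : ∀ i z, ∃ c, s i z = some c := by
    intro i z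
    rcases e : s i z with _ | c
    · have h1 : 1 ≤ (sel (fun z => s i z = none)).card := card_pos.2 ⟨z, mem_sel.2 e⟩
      have h2 := s3 i
      have h3 : g ^ J * 1 ≤ g ^ J * (sel (fun z => s i z = none)).card :=
        Nat.mul_le_mul_left _ h1
      omega
    · exact ⟨c, rfl⟩
  let idx : I → V → Option ℕ := fun i v =>
    (s i (cl i v)).bind (fun c => if B i v ∧ k i v = c.2 then some c.1 else none)
  have i1 : ∀ i v c, s i (cl i v) = some c →
      idx i v = if B i v ∧ k i v = c.2 then some c.1 else none := by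
    intro i v c e
    show (s i (cl i v)).bind _ = _
    rw [e]
    rfl
  have i2 : ∀ i v j, idx i v = some j → B i v ∧ s i (cl i v) = some (j, k i v) := by
    intro i v j e
    obtain ⟨c, hc⟩ := hs i (cl i v)
    rw [i1 i v c hc] at e
    by_cases h : B i v ∧ k i v = c.2
    · rw [if_pos h] at e
      refine ⟨h.1, ?_⟩
      rw [hc, h.2, ← Option.some.inj e]
    · rw [if_neg h] at e
      exact absurd e (by simp)
  refine ⟨idx, ?_, fun i v j e => ?_, fun i v hU hB => ?_, fun i v u j ha e e' => ?_⟩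
  · intro i i' v hA
    show (s i (cl i v)).bind (fun c => if B i v ∧ k i v = c.2 then some c.1 else none) =
      (s i' (cl i' v)).bind (fun c => if B i' v ∧ k i' v = c.2 then some c.1 else none)
    have e1 : B i v = B i' v := lB.here hA (by omega)
    have e2 : k i v = k i' v := lk.here hA (by omega)
    have e3 : s i (cl i v) = s i' (cl i' v) := by
      rw [← lcl.here hA (by omega), ls.far hA (hl.2 i v) (by omega)]
    rw [e3]
    refine congrArg _ (funext fun c => ?_)
    exact if_congr (by rw [e1, e2]) rfl rfl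
  · obtain ⟨a1, a2⟩ := i2 i v j e
    exact ⟨a1.1, a1.2, (s1 i _ _ a2).1⟩
  · obtain ⟨c, hc⟩ := hs i (cl i v)
    rw [← hblk i v c.2 ⟨hU, hB⟩ (s1 i _ c hc).2]
    refine congrArg Finset.card (sel_congr fun u => ⟨fun h => ?_, fun h => ?_⟩)
    · have e := i1 i u c (by rw [h.2]; exact hc)
      by_cases h' : B i u ∧ k i u = c.2
      · exact ⟨h.2, h'⟩
      · rw [if_neg h'] at e
        exact absurd e h.1
    · have e := i1 i u c (by rw [h.1]; exact hc)
      rw [if_pos h.2] at e
      exact ⟨fun e' => Option.some_ne_none _ (e.symm.trans e'), h.1⟩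
  · obtain ⟨a1, a2⟩ := i2 i v j e
    obtain ⟨b1, b2⟩ := i2 i u j e'
    exact Fa.wt_zero (s2 i _ _ _ _ a2 b2 rfl) ha a1 b1.1

end Pool.Agent.P.MP_6f280c_lc.Dc
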