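import Pool.Agent.P.MP_6f280c_lc.Dc.St

set_option autoImplicit false

namespace Pool.Agent.P.MP_6f280c_lc.Dc
open Finset

namespace Hash

/-- a box in a product has small density -/
theorem box {ι α : Type} [Fintype ι] [DecidableEq ι] (A B : Finset α) (J : Finset ι) (δ : ℝ)
    (hB : (B.card : ℝ) ≤ δ * A.card) (X : Finset (ι → α))
    (hX : ∀ h ∈ X, (∀ j, h j ∈ A) ∧ ∀ j ∈ J, h j ∈ B) :
    (X.card : ℝ) ≤ δ ^ J.card * (A.card : ℝ) ^ Fintype.card ι := by
  classical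
  have h1 : X ⊆ Fintype.piFinset (fun j : ι => if j ∈ J then B else A) := by
    intro h hh
    rw [Fintype.mem_piFinset]
    intro j
    split_ifs with hj
    · exact (hX h hh).2 j hj
    · exact (hX h hh).1 j
  have h2 : (X.card : ℝ) ≤ ∏ j : ι, ((if j ∈ J then B else A).card : ℝ) := by
    have := card_le_card h1
    rw [Fintype.card_piFinset] at this
    exact_mod_cast this
  refine h2.trans ?_
  have h3 : ∏ j : ι, ((if j ∈ J then B else A).card : ℝ) ≤
      ∏ j : ι, ((if j ∈ J then δ else 1) * (A.card : ℝ)) := by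
    refine prod_le_prod (fun j _ => by positivity) (fun j _ => ?_)
    split_ifs
    · exact hB
    · simp
  refine h3.trans (le_of_eq ?_)
  rw [prod_mul_distrib, prod_const, card_univ, prod_ite, prod_const, prod_const_one, mul_one]
  congr 2
  simp

/-- extension by zero -/
def ext {Q : ℕ} (g : Fin Q → ℕ) (c : ℕ) : ℕ := if h : c < Q then g ⟨c, h⟩ else 0

/-- all single functions -/
def Om1 (Q : ℕ) : Finset (Fin Q → ℕ) := Fintype.piFinset (fun _ : Fin Q => range (2 ^ Q))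

theorem card_Om1 (Q : ℕ) : ((Om1 Q).card : ℝ) = ((2 : ℝ) ^ Q) ^ Q := by
  simp [Om1, Fintype.card_piFinset]

/-- single functions with a small image -/
def Bad1 (Q b : ℕ) (S : Finset ℕ) : Finset (Fin Q → ℕ) :=
  (Om1 Q).filter (fun g => 2 * (S.image (fun c => ext g c % 2 ^ b)).card < 2 ^ b)

theorem card_Bad1 (Q b : ℕ) (hb : b ≤ Q) (S : Finset ℕ) (hS : S ⊆ range Q)
    (hc : S.card = 2 ^ (b + 3)) :
    ((Bad1 Q b S).card : ℝ) ≤ (1 / 2) ^ (7 * 2 ^ b) * (Om1 Q).card := by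
  classical
  set J : Finset (Fin Q) := univ.filter (fun c => c.1 ∈ S) with hJ
  have hJc : J.card = S.card := by
    refine card_bij (fun c _ => c.1) (fun c hc => (mem_filter.1 hc).2)
      (fun a _ a' _ h => Fin.ext h) (fun c hc => ⟨⟨c, mem_range.1 (hS hc)⟩, ?_, rfl⟩)
    exact mem_filter.2 ⟨mem_univ _, hc⟩
  set TT : Finset (Finset ℕ) := (range (2 ^ b)).powerset.filter (fun T => 2 * T.card ≤ 2 ^ b)
    with hTT
  set X : Finset ℕ → Finset (Fin Q → ℕ) := fun T =>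
    (Om1 Q).filter (fun g => ∀ c ∈ J, g c % 2 ^ b ∈ T) with hXd
  have hsub : Bad1 Q b S ⊆ TT.biUnion X := by
    intro g hg
    obtain ⟨hg1, hg2⟩ := mem_filter.1 hg
    refine mem_biUnion.2 ⟨S.image (fun c => ext g c % 2 ^ b), mem_filter.2 ⟨mem_powerset.2 ?_,
      hg2.le⟩, mem_filter.2 ⟨hg1, fun c hc => ?_⟩⟩
    · intro y hy
      obtain ⟨c, _, rfl⟩ := mem_image.1 hy
      exact mem_range.2 (Nat.mod_lt _ (by positivity))
    · refine mem_image.2 ⟨c.1, (mem_filter.1 hc).2, ?_⟩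
      simp [ext, c.2]
  have hX : ∀ T ∈ TT, ((X T).card : ℝ) ≤ (1 / 2) ^ (8 * 2 ^ b) * (Om1 Q).card := by
    intro T hT
    obtain ⟨hT1, hT2⟩ := mem_filter.1 hT
    have hB : (((range (2 ^ Q)).filter (fun y => y % 2 ^ b ∈ T)).card : ℝ) ≤
        1 / 2 * ((range (2 ^ Q)).card : ℝ) := by
      rw [card_mod Q b hb T (mem_powerset.1 hT1), card_range]
      have e : 2 ^ Q = 2 ^ b * 2 ^ (Q - b) := by rw [← pow_add]; congr 1; omega
      have h2 : 2 * (T.card * 2 ^ (Q - b)) ≤ 2 ^ Q := by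
        rw [e, ← mul_assoc]
        exact Nat.mul_le_mul_right _ hT2
      have h3 : (2 : ℝ) * ((T.card * 2 ^ (Q - b) : ℕ) : ℝ) ≤ ((2 ^ Q : ℕ) : ℝ) := by
        exact_mod_cast h2
      linarith
    have := box (range (2 ^ Q)) _ J (1 / 2) hB (X T) (fun g hg => by
      obtain ⟨hg1, hg2⟩ := mem_filter.1 hg
      have h0 := Fintype.mem_piFinset.1 hg1
      exact ⟨h0, fun j hj => mem_filter.2 ⟨h0 j, hg2 j hj⟩⟩)
    rw [hJc, hc, card_range, Fintype.card_fin] at this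
    rw [card_Om1]
    have e : 2 ^ (b + 3) = 8 * 2 ^ b := by ring
    rw [e] at this
    exact_mod_cast this
  have hTc : (TT.card : ℝ) ≤ 2 ^ (2 ^ b) := by
    have : TT.card ≤ 2 ^ (2 ^ b) := by
      refine (card_filter_le _ _).trans ?_
      rw [card_powerset, card_range]
    exact_mod_cast this
  have h1 : ((Bad1 Q b S).card : ℝ) ≤ ∑ T ∈ TT, ((X T).card : ℝ) := by
    have := (card_le_card hsub).trans card_biUnion_le
    exact_mod_cast this
  have h2 := sum_le_card_nsmul TT _ _ hX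
  rw [nsmul_eq_mul] at h2
  refine h1.trans (h2.trans ?_)
  have h3 : (0 : ℝ) ≤ (1 / 2) ^ (8 * 2 ^ b) * (Om1 Q).card := by positivity
  refine (mul_le_mul_of_nonneg_right hTc h3).trans (le_of_eq ?_)
  have e : 8 * 2 ^ b = 2 ^ b + 7 * 2 ^ b := by ring
  rw [e, pow_add, ← mul_assoc, ← mul_assoc, ← mul_pow]
  norm_num

/-- all tuples -/
def Om (Q n : ℕ) : Finset (Fin n → Fin Q → ℕ) := Fintype.piFinset (fun _ : Fin n => Om1 Q)

theorem card_Om (Q n : ℕ) : ((Om Q n).card : ℝ) = ((Om1 Q).card : ℝ) ^ n := by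
  simp [Om, Fintype.card_piFinset]

/-- tuples with many bad members -/
def Bad (Q r b : ℕ) (S : Finset ℕ) : Finset (Fin (2 * r) → Fin Q → ℕ) :=
  (Om Q (2 * r)).filter (fun H => r ≤ (univ.filter (fun j => H j ∈ Bad1 Q b S)).card)

theorem card_Bad (Q r b : ℕ) (hb : b ≤ Q) (S : Finset ℕ) (hS : S ⊆ range Q)
    (hc : S.card = 2 ^ (b + 3)) :
    ((Bad Q r b S).card : ℝ) ≤
      2 ^ (2 * r) * (((1 / 2) ^ (7 * 2 ^ b)) ^ r * (Om Q (2 * r)).card) := by
  classical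
  set JJ : Finset (Finset (Fin (2 * r))) := powersetCard r univ with hJJ
  set X : Finset (Fin (2 * r)) → Finset (Fin (2 * r) → Fin Q → ℕ) := fun J =>
    (Om Q (2 * r)).filter (fun H => ∀ j ∈ J, H j ∈ Bad1 Q b S) with hXd
  have hsub : Bad Q r b S ⊆ JJ.biUnion X := by
    intro H hH
    obtain ⟨h1, h2⟩ := mem_filter.1 hH
    obtain ⟨J, hJ1, hJ2⟩ := exists_subset_card_eq h2
    exact mem_biUnion.2 ⟨J, mem_powersetCard.2 ⟨subset_univ _, hJ2⟩,
      mem_filter.2 ⟨h1, fun j hj => (mem_filter.1 (hJ1 hj)).2⟩⟩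
  have hX : ∀ J ∈ JJ, ((X J).card : ℝ) ≤ ((1 / 2) ^ (7 * 2 ^ b)) ^ r * (Om Q (2 * r)).card := by
    intro J hJ
    have := box (Om1 Q) _ J _ (card_Bad1 Q b hb S hS hc) (X J) (fun H hH => by
      obtain ⟨h1, h2⟩ := mem_filter.1 hH
      exact ⟨Fintype.mem_piFinset.1 h1, h2⟩)
    rw [(mem_powersetCard.1 hJ).2, Fintype.card_fin] at this
    rw [card_Om]
    exact this
  have hJc : (JJ.card : ℝ) ≤ 2 ^ (2 * r) := by
    have : JJ.card ≤ 2 ^ (2 * r) := by
      rw [hJJ, card_powersetCard, card_univ, Fintype.card_fin]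
      exact Nat.choose_le_two_pow _ _
    exact_mod_cast this
  have h1 : ((Bad Q r b S).card : ℝ) ≤ ∑ J ∈ JJ, ((X J).card : ℝ) := by
    have := (card_le_card hsub).trans card_biUnion_le
    exact_mod_cast this
  have h2 := sum_le_card_nsmul JJ _ _ hX
  rw [nsmul_eq_mul] at h2
  exact h1.trans (h2.trans (mul_le_mul_of_nonneg_right hJc (by positivity)))

theorem choose_le (Q σ K : ℕ) (h : Q ≤ 2 ^ σ * K) :
    (Q.choose K : ℝ) ≤ 2 ^ ((σ + 2) * K) := by
  have h1 : (Q.choose K : ℝ) ≤ (Q : ℝ) ^ K / (K.factorial : ℝ) := Nat.choose_le_pow_div K Q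
  have h2 : (K : ℝ) ^ K / (K.factorial : ℝ) ≤ Real.exp K :=
    Real.pow_div_factorial_le_exp _ (by positivity) K
  have h3 : Real.exp K ≤ 4 ^ K := by
    have e : Real.exp K = Real.exp 1 ^ K := by rw [← Real.exp_nat_mul, mul_one]
    rw [e]
    exact pow_le_pow_left₀ (Real.exp_pos 1).le (by linarith [Real.exp_one_lt_d9]) K
  have h4 : (Q : ℝ) ^ K ≤ (2 ^ σ * (K : ℝ)) ^ K :=
    pow_le_pow_left₀ (by positivity) (by exact_mod_cast h) K
  have hf : (0 : ℝ) < K.factorial := by exact_mod_cast K.factorial_pos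
  calc (Q.choose K : ℝ) ≤ (2 ^ σ * (K : ℝ)) ^ K / (K.factorial : ℝ) :=
        h1.trans (div_le_div_of_nonneg_right h4 hf.le)
    _ = (2 ^ σ) ^ K * ((K : ℝ) ^ K / (K.factorial : ℝ)) := by rw [mul_pow]; ring
    _ ≤ (2 ^ σ) ^ K * 4 ^ K := mul_le_mul_of_nonneg_left (h2.trans h3) (by positivity)
    _ = 2 ^ ((σ + 2) * K) := by
        rw [← mul_pow, pow_mul]
        congr 1
        rw [pow_add]; norm_num

theorem expo (σ b : ℕ) (hb : 1 ≤ b) :
    (2 : ℝ) ^ ((σ + 2) * 2 ^ (b + 3)) * (2 ^ (2 * (2 * σ + 6)) *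
      ((1 / 2) ^ (7 * 2 ^ b)) ^ (2 * σ + 6)) ≤ (1 / 2) ^ (b + 1) := by
  have hm : b + 1 ≤ 2 ^ b := Nat.lt_two_pow_self
  have hm2 : 2 ≤ 2 ^ b := by omega
  have e : 2 ^ (b + 3) = 8 * 2 ^ b := by ring
  rw [e]
  generalize 2 ^ b = m at hm hm2
  have key : (σ + 2) * (8 * m) + 2 * (2 * σ + 6) + (b + 1) ≤ 7 * m * (2 * σ + 6) := by
    nlinarith [Nat.zero_le σ, Nat.mul_le_mul_left σ hm2]
  rw [← pow_mul, ← mul_assoc, ← pow_add, one_div, inv_pow, inv_pow, ← div_eq_mul_inv, ← one_div,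
    div_le_div_iff₀ (by positivity) (by positivity), ← pow_add, one_mul]
  exact pow_le_pow_right₀ (by norm_num) key

theorem geo (n : ℕ) : ∑ b ∈ range n, ((1 : ℝ) / 2) ^ (b + 1) ≤ 1 - (1 / 2) ^ n := by
  induction n with
  | zero => simp
  | succ n ih => rw [sum_range_succ, pow_succ]; linarith

end Hash

open Hash in
theorem p_hash : HashSt := by
  classical
  intro Q σ
  set r := 2 * σ + 6 with hr
  set BB : Finset ℕ := (range (Q + 1)).filter (fun b => 1 ≤ b ∧ Q ≤ 2 ^ (σ + b + 3)) with hBB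
  set U : ℕ → Finset (Fin (2 * r) → Fin Q → ℕ) := fun b =>
    (powersetCard (2 ^ (b + 3)) (range Q)).biUnion (Bad Q r b) with hU
  have hpos : (0 : ℝ) < (Om Q (2 * r)).card := by
    rw [card_Om, card_Om1]; positivity
  have hUc : ∀ b ∈ BB, ((U b).card : ℝ) ≤ (1 / 2) ^ (b + 1) * (Om Q (2 * r)).card := by
    intro b hb
    obtain ⟨hb1, hb2, hb3⟩ := mem_filter.1 hb
    have hbQ : b ≤ Q := by have := mem_range.1 hb1; omega
    have h1 : ((U b).card : ℝ) ≤
        ∑ S ∈ powersetCard (2 ^ (b + 3)) (range Q), ((Bad Q r b S).card : ℝ) := by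
      have : (U b).card ≤ _ := card_biUnion_le
      exact_mod_cast this
    have h2 := sum_le_card_nsmul (powersetCard (2 ^ (b + 3)) (range Q))
      (fun S => ((Bad Q r b S).card : ℝ)) _ (fun S hS =>
        card_Bad Q r b hbQ S (mem_powersetCard.1 hS).1 (mem_powersetCard.1 hS).2)
    rw [nsmul_eq_mul, card_powersetCard, card_range] at h2
    have h3 := choose_le Q σ (2 ^ (b + 3)) (by rw [← pow_add]; exact hb3)
    refine h1.trans (h2.trans ((mul_le_mul_of_nonneg_right h3 (by positivity)).trans ?_))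
    have h4 := mul_le_mul_of_nonneg_right (expo σ b hb2) hpos.le
    refine le_trans (le_of_eq ?_) h4
    rw [hr]; ring
  have hlt : (BB.biUnion U).card < (Om Q (2 * r)).card := by
    have h1 : ((BB.biUnion U).card : ℝ) ≤ ∑ b ∈ BB, ((U b).card : ℝ) := by
      have : (BB.biUnion U).card ≤ _ := card_biUnion_le
      exact_mod_cast this
    have h2 := sum_le_sum hUc
    rw [← sum_mul] at h2
    have h3 : ∑ b ∈ BB, ((1 : ℝ) / 2) ^ (b + 1) ≤ ∑ b ∈ range (Q + 1), ((1 : ℝ) / 2) ^ (b + 1) :=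
      sum_le_sum_of_subset_of_nonneg (filter_subset _ _) (fun _ _ _ => by positivity)
    have h4 := geo (Q + 1)
    have h5 : (0 : ℝ) < (1 / 2) ^ (Q + 1) := by positivity
    have h6 : ((BB.biUnion U).card : ℝ) < (Om Q (2 * r)).card := by
      refine (h1.trans h2).trans_lt ?_
      nlinarith
    exact_mod_cast h6
  obtain ⟨H, hH1, hH2⟩ := exists_mem_notMem_of_card_lt_card hlt
  refine ⟨fun j c => if hj : j < 2 * r then ext (H ⟨j, hj⟩) c else 0, fun S b hS hb hc hQ => ?_⟩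
  by_contra hcon
  rw [not_lt] at hcon
  apply hH2
  have hbQ : b ≤ Q := by
    have h1 := card_le_card hS
    rw [hc, card_range] at h1
    have h2 : b + 3 < 2 ^ (b + 3) := Nat.lt_two_pow_self
    omega
  refine mem_biUnion.2 ⟨b, mem_filter.2 ⟨mem_range.2 (by omega), hb, hQ⟩, mem_biUnion.2
    ⟨S, mem_powersetCard.2 ⟨hS, hc⟩, mem_filter.2 ⟨hH1, hcon.trans ?_⟩⟩⟩
  refine le_trans (card_le_card ?_) (card_image_le (f := Fin.val))
  intro j hj
  obtain ⟨hj1, hj2⟩ := mem_filter.1 hj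
  have hj3 := mem_range.1 hj1
  refine mem_image.2 ⟨⟨j, hj3⟩, mem_filter.2 ⟨mem_univ _, mem_filter.2
    ⟨Fintype.mem_piFinset.1 hH1 _, ?_⟩⟩, rfl⟩
  simpa [hj3] using hj2

end Pool.Agent.P.MP_6f280c_lc.Dc
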