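import Pool.Agent.P.MP_6f280c_lc.Dc.St

set_option autoImplicit false

namespace Pool.Agent.P.MP_6f280c_lc.Dc

open Finset

variable {V I : Type} [Fintype V] [LinearOrder V]

namespace Lc

/-- external neighbours in the clique `z'` whose candidate `y'` equals the candidate `y` of `v` -/
noncomputable def cfl (G : SimpleGraph V) (cl : V → V) (F : V → Prop) (c : V → ℕ → ℕ)
    (v z' : V) (y y' : ℕ) : Finset V :=
  sel (fun u => G.Adj v u ∧ (F v ∧ F u ∧ cl u ≠ cl v ∧ cl u = z' ∧ c v y = c u y'))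

/-- the number of conflicts between two cliques -/
noncomputable def wt (G : SimpleGraph V) (cl : V → V) (F : V → Prop) (c : V → ℕ → ℕ)
    (z z' : V) (y y' : ℕ) : ℕ :=
  ∑ v, if cl v = z then (cfl G cl F c v z' y y').card else 0

variable {G : SimpleGraph V} {cl : V → V} {F : V → Prop} {c : V → ℕ → ℕ}

omit [LinearOrder V] in
theorem mem_cfl {v z' u : V} {y y' : ℕ} : u ∈ cfl G cl F c v z' y y' ↔
    G.Adj v u ∧ (F v ∧ F u ∧ cl u ≠ cl v ∧ cl u = z' ∧ c v y = c u y') := by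
  simp only [cfl, mem_sel]

theorem wt_near {z z' : V} {y y' : ℕ} (h : wt G cl F c z z' y y' ≠ 0) :
    ∃ v u, cl v = z ∧ G.Adj v u ∧ cl u = z' ∧ cl u ≠ cl v := by
  obtain ⟨v, _, hv⟩ := exists_ne_zero_of_sum_ne_zero h
  by_cases e : cl v = z
  · rw [if_pos e] at hv
    obtain ⟨u, hu⟩ := card_ne_zero.1 hv
    obtain ⟨a1, _, _, a2, a3, _⟩ := mem_cfl.1 hu
    exact ⟨v, u, e, a1, a3, a2⟩
  · exact absurd (if_neg e) hv

theorem sum_wt (T : V → Finset ℕ) (T' : V → Finset ℕ) :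
    ∑ z, ∑ z', ∑ a ∈ T z, ∑ a' ∈ T' z', wt G cl F c z z' a a' =
      ∑ v, ∑ z', ∑ a ∈ T (cl v), ∑ a' ∈ T' z', (cfl G cl F c v z' a a').card := by
  have e : ∀ z, ∑ z', ∑ a ∈ T z, ∑ a' ∈ T' z', wt G cl F c z z' a a' =
      ∑ v, if cl v = z then
        ∑ z', ∑ a ∈ T z, ∑ a' ∈ T' z', (cfl G cl F c v z' a a').card else 0 := by
    intro z
    simp only [wt]
    have e1 : ∀ z' a, ∑ a' ∈ T' z', ∑ v, (if cl v = z then (cfl G cl F c v z' a a').card else 0) =
        ∑ v, ∑ a' ∈ T' z', (if cl v = z then (cfl G cl F c v z' a a').card else 0) :=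
      fun z' a => sum_comm
    simp only [e1]
    have e2 : ∀ z', ∑ a ∈ T z, ∑ v, ∑ a' ∈ T' z',
        (if cl v = z then (cfl G cl F c v z' a a').card else 0) =
        ∑ v, ∑ a ∈ T z, ∑ a' ∈ T' z', (if cl v = z then (cfl G cl F c v z' a a').card else 0) :=
      fun z' => sum_comm
    simp only [e2]
    rw [sum_comm]
    refine sum_congr rfl fun v _ => ?_
    by_cases h : cl v = z
    · simp only [if_pos h]
    · simp only [if_neg h, sum_const_zero]
  simp only [e]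
  rw [sum_comm]
  refine sum_congr rfl fun v _ => ?_
  rw [sum_ite_eq]
  simp only [mem_univ, if_true]

theorem fail_le (x : V → ℕ) :
    (sel (fun v => F v ∧ ∃ u, u ∈ extS G cl F v ∧ c u (x (cl u)) = c v (x (cl v)))).card ≤
      ∑ z, ∑ z', wt G cl F c z z' (x z) (x z') := by
  have h := sum_wt (G := G) (cl := cl) (F := F) (c := c) (fun z => {x z})
    (fun z => {x z})
  simp only [sum_singleton] at h
  rw [h, card_eq_sum_ones]
  refine le_trans (sum_le_sum fun v hv => ?_) (sum_le_sum_of_subset (subset_univ _))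
  obtain ⟨h1, u, h2, h3⟩ := mem_sel.1 hv
  obtain ⟨a1, a2, a3⟩ := mem_extS.1 h2
  refine le_trans ?_ (single_le_sum (f := fun z' => (cfl G cl F c v z' (x (cl v)) (x z')).card)
    (fun _ _ => Nat.zero_le _) (mem_univ (cl u)))
  exact card_pos.2 ⟨u, mem_cfl.2 ⟨a1, h1, a2, a3, rfl, h3.symm⟩⟩

theorem tot_le (M B : ℕ) (h : ∀ v col, F v → ∑ u ∈ extS G cl F v,
      ((range M).filter (fun y => c u y = col)).card ≤ B) :
    ∑ z, ∑ z', ∑ a ∈ range M, ∑ a' ∈ range M, wt G cl F c z z' a a' ≤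
      (sel F).card * (M * B) := by
  rw [sum_wt (fun _ => range M) (fun _ => range M)]
  have key : ∀ v, F v → ∑ z', ∑ a ∈ range M, ∑ a' ∈ range M, (cfl G cl F c v z' a a').card ≤
      M * B := by
    intro v hv
    rw [sum_comm]
    refine le_trans (sum_le_sum (g := fun _ => B) fun a _ => ?_) (by simp)
    refine le_trans (le_of_eq ?_) (h v (c v a) hv)
    rw [sum_comm]
    have e1 : ∀ a', ∑ z', (cfl G cl F c v z' a a').card =
        ((extS G cl F v).filter (fun u => c u a' = c v a)).card := by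
      intro a'
      rw [card_eq_sum_card_fiberwise (f := cl) (t := univ) (fun _ _ => mem_univ _)]
      refine sum_congr rfl fun z' _ => ?_
      congr 1
      ext u
      simp only [mem_cfl, mem_filter, mem_extS]
      constructor
      · rintro ⟨a1, _, a2, a3, a4, a5⟩
        exact ⟨⟨⟨a1, a2, a3⟩, a5.symm⟩, a4⟩
      · rintro ⟨⟨⟨a1, a2, a3⟩, a5⟩, a4⟩
        exact ⟨a1, hv, a2, a3, a4, a5.symm⟩
    simp only [e1, card_filter]
    exact sum_comm
  have key' : ∀ v, ¬ F v →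
      ∑ z', ∑ a ∈ range M, ∑ a' ∈ range M, (cfl G cl F c v z' a a').card = 0 := by
    intro v hv
    refine sum_eq_zero fun z' _ => sum_eq_zero fun a _ => sum_eq_zero fun a' _ => ?_
    rw [card_eq_zero, eq_empty_iff_forall_notMem]
    intro u hu
    exact hv (mem_cfl.1 hu).2.1
  rw [← sum_subset (subset_univ (sel F)) (fun v _ hv => key' v (fun e => hv (mem_sel.2 e)))]
  refine le_trans (sum_le_sum (g := fun _ => M * B) fun v hv => key v (mem_sel.1 hv)) ?_
  simp

variable {gr : I → SimpleGraph V}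

theorem loc_wt {r : ℕ} {cl : I → V → V} {F : I → V → Prop} {c : I → V → ℕ → ℕ}
    (hcl : Loc gr r cl) (hn : ∀ i v, Near (gr i) 2 v (cl i v)) (hF : Loc gr r F)
    (hc : Loc gr r c) :
    Loc gr (r + 3) (fun i z z' y y' => (wt (gr i) (cl i) (F i) (c i) z z' y y' : ℝ)) := by
  have l0 : Loc gr r (fun i v => (F i v, cl i v, c i v)) := hF.prod (hcl.prod hc)
  have l1 : Loc gr (r + 1)
      (fun i v z' y y' => (cfl (gr i) (cl i) (F i) (c i) v z' y y').card) := by
    intro i i' v hA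
    funext z' y y'
    exact congrArg Finset.card (loc_sel_adj (l0.mono (Nat.le_succ r)) l0
      (fun _ _ a b => a.1 ∧ b.1 ∧ b.2.1 ≠ a.2.1 ∧ b.2.1 = z' ∧ a.2.2 y = b.2.2 y') i i' v hA)
  have l2 := ((hcl.mono (Nat.le_succ r)).prod l1).gather (k := 2)
    (fun z _ a => if a.1 = z then a.2 else fun _ _ _ => 0) (fun _ _ _ => 0) (fun i z u e => by
      by_cases e' : cl i u = z
      · exact (e' ▸ hn i u).symm
      · exact absurd (if_neg e') e)
  have l3 := l2.map (fun _ f z' y y' => ((∑ v, f v z' y y' : ℕ) : ℝ))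
  intro i i' z hA
  have e := l3 i i' z hA
  have e' : ∀ j, (fun z' y y' => (wt (gr j) (cl j) (F j) (c j) z z' y y' : ℝ)) =
      fun z' y y' => ((∑ v, (if cl j v = z then
        (fun z' y y' => (cfl (gr j) (cl j) (F j) (c j) v z' y y').card)
        else fun _ _ _ => 0) z' y y' : ℕ) : ℝ) := by
    intro j
    funext z' y y'
    simp only [wt]
    congr 1
    refine sum_congr rfl fun v _ => ?_
    by_cases h : cl j v = z
    · simp only [if_pos h]
    · simp only [if_neg h]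
  exact (e' i).trans (e.trans (e' i').symm)

theorem arith {g Λ n B S f : ℝ} {b : ℕ} (hg0 : 0 ≤ g) (hΛ : 0 ≤ Λ) (hn : 0 ≤ n)
    (hg : g * Λ * B ≤ 2 ^ b) (h1 : S ≤ n * (2 ^ b * B)) (h2 : f ≤ Λ * (S / 4 ^ b)) :
    g * f ≤ n := by
  have h4 : (4 : ℝ) ^ b = 2 ^ b * 2 ^ b := by rw [← mul_pow]; norm_num
  have hp : (0 : ℝ) < 2 ^ b := by positivity
  have f4 : f ≤ Λ * (n * (2 ^ b * B) / 4 ^ b) :=
    h2.trans (mul_le_mul_of_nonneg_left (div_le_div_of_nonneg_right h1 (by positivity)) hΛ)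
  refine (mul_le_mul_of_nonneg_left f4 hg0).trans ?_
  have e : g * (Λ * (n * (2 ^ b * B) / 4 ^ b)) = n * (g * Λ * B / 2 ^ b) := by
    rw [h4]
    field_simp
  rw [e]
  exact mul_le_of_le_one_right hn ((div_le_one hp).2 hg)

/-- one attempt -/
theorem attempt (hA : LcASt gr) {D r0 R k lam b w g : ℕ} {Λ : ℝ} {lab cl : I → V → V}
    (hD : Deg gr D) (hdec : Dec gr r0 R k lab) (hl : Lead gr r0 cl)
    (hcl : ∀ i u v, cl i u = cl i v → lab i u = lab i v) (hand : AndProp gr b Λ w)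
    (hΛ : 0 ≤ Λ) (hg : (g : ℝ) * Λ * (1 + k * lam) ≤ 2 ^ b)
    (hlam : 4 * Fintype.card V * (D + 1) ≤ 2 ^ lam)
    {r x : ℕ} {χ : I → V → Option ℕ} {F : I → V → Prop} (hr : r0 ≤ r) (hχ : PC gr D r χ)
    (hF : Loc gr r F)
    (hyp : ∀ i v, F i v → χ i v = none ∧ (extS (gr i) (cl i) (F i) v).card ≤ x ∧
      (antiS (gr i) (cl i) (F i) v).card ≤ x ∧
      (4 * 2 ^ b + 1) * x ≤ (sel (fun u => (gr i).Adj v u ∧ χ i u = none ∧ ¬ F i u)).card) :
    ∃ χ', PC gr D (r + (2 * R + 5 * w + 12)) χ' ∧ Ext χ χ' ∧ (∀ i v, ¬ F i v → χ' i v = χ i v) ∧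
      ∀ i, g * (sel (fun v => F i v ∧ χ' i v = none)).card ≤ (sel (F i)).card := by
  classical
  have hclr : Loc gr r cl := hl.1.mono hr
  obtain ⟨c, lc, c1, c2, c3⟩ := hA D r R k lam (2 ^ b) x lab cl χ F hD
    ⟨hdec.1.mono hr, hdec.2⟩ hclr hcl hlam hχ.1 hF hyp
  have lW := loc_wt (hclr.mono (Nat.le_add_right r (2 * R + 1))) hl.2
    (hF.mono (Nat.le_add_right r (2 * R + 1))) lc
  obtain ⟨y, ly, y1, y2⟩ := hand (r + (2 * R + 1) + 3) 5 (fun _ _ _ => 0)
    (fun i z z' y y' => (wt (gr i) (cl i) (F i) (c i) z z' y y' : ℝ)) (fun _ _ _ _ => rfl) lW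
    (fun _ _ _ _ _ => Nat.cast_nonneg _) (fun i z z' a a' e => by
      obtain ⟨v, u, a1, a2, a3, a4⟩ := wt_near (fun e' => e (by rw [e']; exact Nat.cast_zero))
      refine ⟨?_, fun e' => a4 (by rw [a1, a3, e'])⟩
      rw [← a1, ← a3]
      exact ((hl.2 i v).symm.trans (Near.of_adj a2)).trans (hl.2 i u))
  let tr : I → V → ℕ := fun i v => c i v (y i (cl i v))
  have ltr : Loc gr (r + (2 * R + 1) + 3 + w * 5 + 2) tr := by
    intro i i' v hA'
    show c i v (y i (cl i v)) = c i' v (y i' (cl i' v))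
    rw [← hclr.here hA' (by omega), ← lc.here hA' (by omega), ly.far hA' (hl.2 i v) le_rfl]
  have l0 : Loc gr (r + (2 * R + 1) + 3 + w * 5 + 2) (fun i v => (F i v, cl i v, tr i v)) :=
    (hF.mono (by omega)).prod ((hclr.mono (by omega)).prod ltr)
  have lb := loc_sel_adj (l0.mono (Nat.le_succ _)) l0
    (fun _ _ a b => b.1 ∧ b.2.1 ≠ a.2.1 ∧ b.2.2 = a.2.2)
  let bad : I → V → Finset V := fun i v =>
    sel (fun u => (gr i).Adj v u ∧ F i u ∧ cl i u ≠ cl i v ∧ tr i u = tr i v)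
  let t : I → V → Option ℕ := fun i v => if F i v ∧ bad i v = ∅ then some (tr i v) else none
  have lt : Loc gr (r + (2 * R + 1) + 3 + w * 5 + 2 + 1) t :=
    ((l0.mono (Nat.le_succ _)).prod lb).map
      (fun _ a => if a.1.1 ∧ a.2 = ∅ then some a.1.2.2 else none)
  have t1 : ∀ i v a, t i v = some a → F i v ∧ bad i v = ∅ ∧ a = tr i v := by
    intro i v a e
    by_cases h : F i v ∧ bad i v = ∅
    · have e' : t i v = some (tr i v) := if_pos h
      rw [e'] at e
      exact ⟨h.1, h.2, (Option.some.inj e).symm⟩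
    · have e' : t i v = none := if_neg h
      rw [e'] at e
      exact absurd e (by simp)
  obtain ⟨χ', p1, p2, p3, p4⟩ := commit (t := t)
    (hχ.mono (r' := r + (2 * R + 5 * w + 12)) (by omega)) (lt.mono (by omega))
    (fun i v a e => by
      obtain ⟨a1, _, a3⟩ := t1 i v a e
      exact ⟨(hyp i v a1).1, a3 ▸ c1 i v _ a1 (y1 i _)⟩)
    (fun i v u a ha e e' => by
      obtain ⟨a1, a2, a3⟩ := t1 i v a e
      obtain ⟨b1, _, b3⟩ := t1 i u a e'
      by_cases h : cl i v = cl i u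
      · refine c2 i v u (y i (cl i v)) a1 b1 h ha.ne (y1 i _) ?_
        have e1 : c i v (y i (cl i v)) = c i u (y i (cl i u)) := a3.symm.trans b3
        rw [e1, h]
      · have hu : u ∈ bad i v := mem_sel.2 ⟨ha, b1, fun e1 => h e1.symm, b3.symm.trans a3⟩
        rw [a2] at hu
        exact absurd hu (notMem_empty u))
  refine ⟨χ', p1, p2, fun i v h => p4 i v (if_neg fun e => h e.1), fun i => ?_⟩
  have f1 : (sel (fun v => F i v ∧ χ' i v = none)).card ≤
      ∑ z, ∑ z', wt (gr i) (cl i) (F i) (c i) z z' (y i z) (y i z') := by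
    refine le_trans (card_sel_le fun v hv => ⟨hv.1, ?_⟩) (fail_le (y i))
    by_contra hne
    have hb : bad i v = ∅ := by
      rw [eq_empty_iff_forall_notMem]
      intro u hu
      obtain ⟨a1, a2, a3, a4⟩ := mem_sel.1 hu
      exact hne ⟨u, mem_extS.2 ⟨a1, a2, a3⟩, a4⟩
    have e := p3 i v (tr i v) (if_pos ⟨hv.1, hb⟩)
    rw [hv.2] at e
    exact absurd e (by simp)
  have f2 := tot_le (G := gr i) (cl := cl i) (F := F i) (c := c i) (2 ^ b) (1 + k * lam)
    (fun v col hv => c3 i v col hv)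
  have f3 := y2 i
  simp only [sum_const_zero, zero_div, zero_add] at f3
  have f1' : ((sel (fun v => F i v ∧ χ' i v = none)).card : ℝ) ≤
      ∑ z, ∑ z', (wt (gr i) (cl i) (F i) (c i) z z' (y i z) (y i z') : ℝ) := by
    exact_mod_cast f1
  have f2' : ∑ z, ∑ z', ∑ a ∈ range (2 ^ b), ∑ a' ∈ range (2 ^ b),
      (wt (gr i) (cl i) (F i) (c i) z z' a a' : ℝ) ≤
      ((sel (F i)).card : ℝ) * (2 ^ b * (1 + k * lam)) := by
    exact_mod_cast f2
  have f5 : (g : ℝ) * (sel (fun v => F i v ∧ χ' i v = none)).card ≤ (sel (F i)).card :=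
    arith (Nat.cast_nonneg g) hΛ (Nat.cast_nonneg _) hg f2' (f1'.trans f3)
  exact_mod_cast f5

end Lc

theorem p_lc (gr : I → SimpleGraph V) (hA : LcASt gr) : LcSt gr := by
  intro D r0 R k lam b w g J Λ lab cl hD hdec hl hcl hand hΛ hg hn hlam r x χ F hr hχ hF hyp
  have main : ∀ j, ∃ χ', PC gr D (r + j * (2 * R + 5 * w + 12)) χ' ∧ Ext χ χ' ∧
      (∀ i v, ¬ F i v → χ' i v = χ i v) ∧
      ∀ i, g ^ j * (sel (fun v => F i v ∧ χ' i v = none)).card ≤ Fintype.card V := by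
    intro j
    induction j with
    | zero =>
      refine ⟨χ, hχ.mono (by omega), Ext.refl χ, fun _ _ _ => rfl, fun i => ?_⟩
      rw [pow_zero, one_mul]
      exact card_le_univ _
    | succ j ih =>
      obtain ⟨χ1, p1, p2, p3, p4⟩ := ih
      have lF : Loc gr (r + j * (2 * R + 5 * w + 12)) (fun i v => F i v ∧ χ1 i v = none) :=
        ((hF.mono (Nat.le_add_right _ _)).prod p1.1).map (fun _ a => a.1 ∧ a.2 = none)
      obtain ⟨χ2, q1, q2, q3, q4⟩ := Lc.attempt (x := x) hA hD hdec hl hcl hand hΛ hg hlam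
        (hr.trans (Nat.le_add_right _ _)) p1 lF (fun i v hv => by
          obtain ⟨_, a2, a3, a4⟩ := hyp i v hv.1
          refine ⟨hv.2, le_trans (card_le_card fun u hu => ?_) a2,
            le_trans (card_le_card fun u hu => ?_) a3, a4.trans (card_sel_le fun u hu => ?_)⟩
          · obtain ⟨b1, b2, b3⟩ := mem_extS.1 hu
            exact mem_extS.2 ⟨b1, b2.1, b3⟩
          · obtain ⟨b1, b2⟩ := mem_antiS.1 hu
            exact mem_antiS.2 ⟨b1.1, b2⟩
          · exact ⟨hu.1, (p3 i u hu.2.2).trans hu.2.1, fun e => hu.2.2 e.1⟩)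
      refine ⟨χ2, q1.mono (le_of_eq (by ring)), p2.trans q2,
        fun i v h => (q3 i v fun e => h e.1).trans (p3 i v h), fun i => ?_⟩
      have e1 : (sel (fun v => F i v ∧ χ2 i v = none)).card ≤
          (sel (fun v => (F i v ∧ χ1 i v = none) ∧ χ2 i v = none)).card :=
        card_sel_le fun v hv => ⟨⟨hv.1, q2.none hv.2⟩, hv.2⟩
      calc g ^ (j + 1) * (sel (fun v => F i v ∧ χ2 i v = none)).card
          = g ^ j * (g * (sel (fun v => F i v ∧ χ2 i v = none)).card) := by ring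
        _ ≤ g ^ j * (sel (fun v => F i v ∧ χ1 i v = none)).card :=
          Nat.mul_le_mul_left _ ((Nat.mul_le_mul_left _ e1).trans (q4 i))
        _ ≤ Fintype.card V := p4 i
  obtain ⟨χ', p1, p2, p3, p4⟩ := main J
  refine ⟨χ', p1, p2, fun i v hv e => ?_, p3⟩
  have h1 : 1 ≤ (sel (fun v => F i v ∧ χ' i v = none)).card :=
    card_pos.2 ⟨v, mem_sel.2 ⟨hv, e⟩⟩
  have h2 := p4 i
  have h3 : g ^ J * 1 ≤ g ^ J * (sel (fun v => F i v ∧ χ' i v = none)).card :=
    Nat.mul_le_mul_left _ h1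
  omega

end Pool.Agent.P.MP_6f280c_lc.Dc
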