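import Pool.Agent.P.MP_6f280c_lc.Dc.St

set_option autoImplicit false

namespace Pool.Agent.P.MP_6f280c_lc.Dc

open Finset

variable {V I : Type} [Fintype V] [LinearOrder V]

namespace LcA

theorem pure (hS : SeqSt) (A : Finset V) (cl : V → V) (Ls : V → Finset ℕ) (ex : V → Finset V)
    (D M τ lam : ℕ) (hτ : 0 < τ)
    (hc : ∀ u ∈ A, (A.filter (fun u' => cl u' = cl u)).card + τ ≤ (Ls u).card + 1)
    (hl : 4 * Fintype.card V * (D + 1) ≤ 2 ^ lam) :
    ∃ y : V → ℕ → ℕ, (∀ u ∈ A, ∀ j < M, y u j ∈ Ls u) ∧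
      (∀ u ∈ A, ∀ u' ∈ A, cl u = cl u' → u ≠ u' → ∀ j < M, y u j ≠ y u' j) ∧
      ∀ v col, col ≤ D → ∑ u ∈ A.filter (fun u => v ∈ ex u),
        ((((range M).filter (fun j => y u j = col)).card : ℕ) : ℝ) ≤
        ∑ _u ∈ A.filter (fun u => v ∈ ex u), (2 * M / τ : ℝ) + lam := by
  have hτ' : (0 : ℝ) < τ := by exact_mod_cast hτ
  obtain ⟨f, ⟨g1, g2⟩, g3, -, -⟩ := hS (V × ℕ) ℕ (V × Fin (D + 1)) (A ×ˢ range M)
    (fun S f => (∀ p ∈ S, f p ∈ Ls p.1) ∧
      ∀ p ∈ S, ∀ p' ∈ S, p.2 = p'.2 → cl p.1 = cl p'.1 → p.1 ≠ p'.1 → f p ≠ f p')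
    (fun _ => 0) (fun t p w => w = t.2.val ∧ t.1 ∈ ex p.1) (fun _ _ _ => False)
    (fun t p => if t.1 ∈ ex p.1 then 1 / τ else 0) (fun _ _ => 0) (fun _ _ => 0) lam
    ⟨by simp, by simp⟩ (fun t p => by split_ifs <;> positivity) (fun _ _ => le_rfl)
    (by simpa [mul_assoc] using hl) (by
      rintro S f ⟨u, j⟩ hSJ hj hjS ⟨k1, k2⟩
      have hu : u ∈ A := (mem_product.1 hj).1
      set B := (S.filter (fun p => p.2 = j ∧ cl p.1 = cl u)).image f with hB
      have b1 : B.card + 1 ≤ (A.filter (fun u' => cl u' = cl u)).card := by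
        have h1 : (S.filter (fun p => p.2 = j ∧ cl p.1 = cl u)).card ≤
            ((A.filter (fun u' => cl u' = cl u)).erase u).card := by
          refine card_le_card_of_injOn Prod.fst (fun p hp => ?_) (fun p hp p' hp' e => ?_)
          · obtain ⟨p1, p2, p3⟩ := mem_filter.1 (mem_coe.1 hp)
            refine mem_coe.2 (mem_erase.2 ⟨fun e => hjS ?_,
              mem_filter.2 ⟨(mem_product.1 (hSJ p1)).1, p3⟩⟩)
            rwa [← e, ← p2]
          · exact Prod.ext e ((mem_filter.1 (mem_coe.1 hp)).2.1.trans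
              (mem_filter.1 (mem_coe.1 hp')).2.1.symm)
        have h2 := card_erase_add_one (mem_filter.2 ⟨hu, rfl⟩ :
          u ∈ A.filter (fun u' => cl u' = cl u))
        have h3 : B.card ≤ _ := card_image_le
        omega
      have b2 : τ ≤ (Ls u \ B).card := by
        have h1 := le_card_sdiff B (Ls u)
        have h2 := hc u hu
        omega
      have b3 : (τ : ℝ) ≤ (Ls u \ B).card := by exact_mod_cast b2
      have up : ∀ (w : ℕ) p, p ∈ S → Function.update f (u, j) w p = f p := fun w p hp =>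
        Function.update_of_ne (fun e => hjS (by rwa [e] at hp)) _ _
      refine ⟨Ls u \ B, card_pos.1 (by omega), fun w hw => ⟨fun p hp => ?_,
        fun p hp p' hp' e1 e2 e3 => ?_⟩, fun t => ?_, fun t => by simp, by simp⟩
      · rcases mem_insert.1 hp with rfl | hp
        · rw [Function.update_self]
          exact (mem_sdiff.1 hw).1
        · rw [up w p hp]
          exact k1 p hp
      · rcases mem_insert.1 hp with rfl | hp <;> rcases mem_insert.1 hp' with rfl | hp'
        · exact absurd rfl e3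
        · rw [Function.update_self, up w p' hp']
          exact fun e => (mem_sdiff.1 hw).2
            (mem_image.2 ⟨p', mem_filter.2 ⟨hp', e1.symm, e2.symm⟩, e.symm⟩)
        · rw [Function.update_self, up w p hp]
          exact fun e => (mem_sdiff.1 hw).2 (mem_image.2 ⟨p, mem_filter.2 ⟨hp, e1, e2⟩, e⟩)
        · rw [up w p hp, up w p' hp']
          exact k2 p hp p' hp' e1 e2 e3
      · by_cases h : t.1 ∈ ex u
        · simp only [h, and_true, if_true]
          have h1 : ((Ls u \ B).filter (fun w => w = t.2.val)).card ≤ 1 :=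
            card_le_one.2 fun a ha b hb => (mem_filter.1 ha).2.trans (mem_filter.1 hb).2.symm
          have h2 : (((Ls u \ B).filter (fun w => w = t.2.val)).card : ℝ) ≤ 1 := by
            exact_mod_cast h1
          refine h2.trans ?_
          rw [one_div, inv_mul_eq_div, le_div_iff₀ hτ', one_mul]
          exact b3
        · simp [h])
  refine ⟨fun u j => f (u, j), fun u hu j hj => g1 (u, j) (mem_product.2 ⟨hu, mem_range.2 hj⟩),
    fun u hu u' hu' e1 e2 j hj => g2 (u, j) (mem_product.2 ⟨hu, mem_range.2 hj⟩) (u', j)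
      (mem_product.2 ⟨hu', mem_range.2 hj⟩) rfl e1 e2, fun v col hcol => ?_⟩
  have h := g3 (v, ⟨col, Nat.lt_succ_of_le hcol⟩)
  refine le_trans (le_of_eq ?_) (h.trans (le_of_eq ?_))
  · rw [card_filter, sum_product, sum_filter]
    push_cast
    refine sum_congr rfl fun u _ => ?_
    by_cases h1 : v ∈ ex u
    · simp [h1]
    · simp [h1]
  · congr 1
    rw [sum_product, sum_filter, mul_sum]
    refine sum_congr rfl fun u _ => ?_
    by_cases h1 : v ∈ ex u
    · simp only [h1, if_true, sum_const, card_range, nsmul_eq_mul]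
      ring
    · simp [h1]

end LcA

theorem p_lcA (hS : SeqSt) (gr : I → SimpleGraph V) : LcASt gr := by
  classical
  intro D r R k lam M x lab cl χ F hD hdec hcl hcomp hl hχ hF hyp
  let d : I → V → Prop × V × Finset ℕ × Finset V := fun i u =>
    (F i u, cl i u, lst (gr i) D (χ i) u, extS (gr i) (cl i) (F i) u)
  have hd : Loc gr (r + 1) d := (hF.mono (by omega)).prod ((hcl.mono (by omega)).prod
    ((loc_lst hχ).prod (loc_sel_adj (hcl.mono (by omega)) (hF.prod hcl)
      (fun _ _ a b => b.1 ∧ b.2 ≠ a))))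
  let Q : V → (V → Option (Prop × V × Finset ℕ × Finset V)) → (V → ℕ → ℕ) → Prop :=
    fun _ g y => (∀ u a, g u = some a → a.1 → ∀ j < M, y u j ∈ a.2.2.1) ∧
      (∀ u u' a a', g u = some a → g u' = some a' → a.1 → a'.1 → a.2.1 = a'.2.1 → u ≠ u' →
        ∀ j < M, y u j ≠ y u' j) ∧
      ∀ v col, col ≤ D → ∑ u ∈ sel (fun u => ∃ a, g u = some a ∧ a.1 ∧ v ∈ a.2.2.2),
        ((((range M).filter (fun j => y u j = col)).card : ℕ) : ℝ) ≤
        ∑ _u ∈ sel (fun u => ∃ a, g u = some a ∧ a.1 ∧ v ∈ a.2.2.2),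
          (2 * M / (4 * M * x + 1 : ℕ) : ℝ) + lam
  have hg : ∀ i z u a, (@ite _ (lab i u = z) (Classical.propDecidable _) (some (d i u)) none) =
      some a ↔
      lab i u = z ∧ d i u = a := fun i z u a => by
    by_cases e : lab i u = z <;> simp [e]
  obtain ⟨c, c1, c2⟩ := dec_choice (hdec.1.mono (Nat.le_succ r)) hdec.2.1 hd Q (fun i z => by
    obtain ⟨y, y1, y2, y3⟩ := LcA.pure hS (sel (fun u => lab i u = z ∧ F i u)) (cl i)
      (lst (gr i) D (χ i)) (extS (gr i) (cl i) (F i)) D M (4 * M * x + 1) lam (by omega)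
      (fun u hu => by
        obtain ⟨-, hu⟩ := mem_sel.1 hu
        obtain ⟨-, -, h3, h4⟩ := hyp i u hu
        have h5 : (unc (gr i) (χ i) u).card + 1 ≤ _ := sl_one hD χ i u
        have h6 : ((sel (fun u => lab i u = z ∧ F i u)).filter (fun u' => cl i u' = cl i u)).card
            ≤ (insert u (antiS (gr i) (cl i) (F i) u ∪
              sel (fun w => (gr i).Adj u w ∧ F i w))).card := card_le_card fun w hw => by
          obtain ⟨w1, w2⟩ := mem_filter.1 hw
          obtain ⟨-, w1⟩ := mem_sel.1 w1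
          by_cases e : w = u
          · exact mem_insert.2 (Or.inl e)
          · by_cases e' : (gr i).Adj u w
            · exact mem_insert_of_mem (mem_union_right _ (mem_sel.2 ⟨e', w1⟩))
            · exact mem_insert_of_mem (mem_union_left _ (mem_antiS.2 ⟨w1, w2, e, e'⟩))
        have h7 := h6.trans ((card_insert_le _ _).trans
          (Nat.add_le_add_right (card_union_le _ _) 1))
        have h8 : (sel (fun w => (gr i).Adj u w ∧ F i w)).card +
            (sel (fun w => (gr i).Adj u w ∧ χ i w = none ∧ ¬ F i w)).card ≤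
            (unc (gr i) (χ i) u).card := by
          rw [← card_union_of_disjoint (disjoint_left.2 fun w h1 h2 =>
            (mem_sel.1 h2).2.2 (mem_sel.1 h1).2)]
          refine card_le_card fun w hw => ?_
          rcases mem_union.1 hw with h | h
          · exact mem_unc.2 ⟨(mem_sel.1 h).1, (hyp i w (mem_sel.1 h).2).1⟩
          · exact mem_unc.2 ⟨(mem_sel.1 h).1, (mem_sel.1 h).2.1⟩
        have h9 : (4 * M + 1) * x = 4 * M * x + x := by ring
        omega) hl
    refine ⟨y, fun u a e h1 j hj => ?_, fun u u' a a' e e' h1 h2 h3 h4 j hj => ?_,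
      fun v col hcol => ?_⟩
    · obtain ⟨e1, rfl⟩ := (hg i z u a).1 e
      exact y1 u (mem_sel.2 ⟨e1, h1⟩) j hj
    · obtain ⟨e1, rfl⟩ := (hg i z u a).1 e
      obtain ⟨e2, rfl⟩ := (hg i z u' a').1 e'
      exact y2 u (mem_sel.2 ⟨e1, h1⟩) u' (mem_sel.2 ⟨e2, h2⟩) h3 h4 j hj
    · have e : sel (fun u => ∃ a, (@ite _ (lab i u = z) (Classical.propDecidable _) (some (d i u))
          none) = some a ∧ a.1 ∧ v ∈ a.2.2.2) = (sel (fun u => lab i u = z ∧ F i u)).filter
            (fun u => v ∈ extS (gr i) (cl i) (F i) u) := by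
        ext u
        simp only [mem_sel, mem_filter, hg]
        exact ⟨fun ⟨a, ⟨e1, e2⟩, e3, e4⟩ => by subst e2; exact ⟨⟨e1, e3⟩, e4⟩,
          fun ⟨⟨e1, e3⟩, e4⟩ => ⟨_, ⟨e1, rfl⟩, e3, e4⟩⟩
      beta_reduce
      rw [e]
      exact y3 v col hcol)
  have m1 : ∀ i v y, F i v → y < M → c i v y ∈ lst (gr i) D (χ i) v := fun i v j hv hj => by
    obtain ⟨y, ⟨y1, -, -⟩, y4⟩ := c2 i (lab i v)
    rw [y4 v rfl]
    exact y1 v (d i v) ((hg i _ v _).2 ⟨rfl, rfl⟩) hv j hj
  refine ⟨c, c1.mono (by omega), m1, fun i v u j hv hu e1 e2 hj => ?_, fun i v col hv => ?_⟩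
  · obtain ⟨y, ⟨-, y2, -⟩, y4⟩ := c2 i (lab i v)
    have e3 := hcomp i u v e1.symm
    rw [y4 v rfl, y4 u e3]
    exact y2 v u (d i v) (d i u) ((hg i _ v _).2 ⟨rfl, rfl⟩) ((hg i _ u _).2 ⟨e3, rfl⟩) hv hu e1
      e2 j hj
  by_cases hcol : col ≤ D
  swap
  · refine le_trans (le_of_eq (sum_eq_zero fun u hu => ?_)) (Nat.zero_le _)
    rw [card_eq_zero, filter_eq_empty_iff]
    intro j hj e
    exact hcol (e ▸ (mem_lst.1 (m1 i u j (mem_extS.1 hu).2.1 (mem_range.1 hj))).1)
  have s1 : extS (gr i) (cl i) (F i) v ⊆ nbr gr i v := fun u hu =>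
    mem_nbr.2 (mem_extS.1 hu).1
  have s2 := dec_sum (k := k) (extS (gr i) (cl i) (F i) v) (lab i)
    ((card_le_card (image_subset_image s1)).trans (hdec.2.2 i v))
    (fun u => ((((range M).filter (fun j => c i u j = col)).card : ℕ) : ℝ))
    (fun _ => (2 * M / (4 * M * x + 1 : ℕ) : ℝ)) (l := lam) (Nat.cast_nonneg _) (fun z => by
      obtain ⟨y, ⟨-, -, y3⟩, y4⟩ := c2 i z
      have e : sel (fun u => ∃ a, (@ite _ (lab i u = z) (Classical.propDecidable _) (some (d i u))
          none) = some a ∧ a.1 ∧ v ∈ a.2.2.2) = (extS (gr i) (cl i) (F i) v).filter (fun u => lab i u = z) := by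
        ext u
        simp only [mem_sel, mem_filter, hg]
        refine ⟨fun ⟨a, ⟨e1, e2⟩, e3, e4⟩ => ?_, fun ⟨e1, e2⟩ => ⟨_, ⟨e2, rfl⟩,
          (mem_extS.1 e1).2.1, ?_⟩⟩
        · subst e2
          exact ⟨mem_extS.2 ⟨(mem_extS.1 e4).1.symm, e3, (mem_extS.1 e4).2.2.symm⟩, e1⟩
        · exact mem_extS.2 ⟨(mem_extS.1 e1).1.symm, hv, (mem_extS.1 e1).2.2.symm⟩
      have h := y3 v col hcol
      beta_reduce at h
      rw [e] at h
      refine le_trans (le_of_eq (sum_congr rfl fun u hu => ?_)) h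
      rw [y4 u (mem_filter.1 hu).2])
  have s3 : ((extS (gr i) (cl i) (F i) v).card : ℝ) ≤ x := by exact_mod_cast (hyp i v hv).2.1
  rw [sum_const, nsmul_eq_mul] at s2
  have s4 : ((extS (gr i) (cl i) (F i) v).card : ℝ) * (2 * M / (4 * M * x + 1 : ℕ)) ≤ 1 := by
    refine (mul_le_mul_of_nonneg_right s3 (by positivity)).trans ?_
    rw [← mul_div_assoc, div_le_one (by positivity)]
    push_cast
    nlinarith [mul_nonneg (Nat.cast_nonneg (α := ℝ) M) (Nat.cast_nonneg (α := ℝ) x)]
  have s5 : ((∑ u ∈ extS (gr i) (cl i) (F i) v,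
      ((range M).filter (fun y => c i u y = col)).card : ℕ) : ℝ) ≤ (1 + k * lam : ℕ) := by
    push_cast
    linarith
  exact_mod_cast s5

end Pool.Agent.P.MP_6f280c_lc.Dc
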