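import Pool.Agent.P.MP_6f280c_lc.Dc.St

set_option autoImplicit false

namespace Pool.Agent.P.MP_6f280c_lc.Dc

open Finset

variable {V I : Type} [Fintype V] [LinearOrder V]

namespace Lg

omit [Fintype V] in
/-- greedy list colouring -/
theorem greedy (N : V → Finset V) (L : V → Finset ℕ) (S : Finset V)
    (hs : ∀ v ∈ S, ∀ u ∈ S, u ∈ N v → v ∈ N u) (hi : ∀ v ∈ S, v ∉ N v)
    (hc : ∀ v ∈ S, (S.filter fun u => u ∈ N v).card < (L v).card) :
    ∃ y : V → ℕ, (∀ v ∈ S, y v ∈ L v) ∧ ∀ v ∈ S, ∀ u ∈ S, u ∈ N v → y v ≠ y u := by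
  induction S using Finset.induction_on with
  | empty => exact ⟨fun _ => 0, by simp, by simp⟩
  | insert a S ha ih =>
    obtain ⟨y, h1, h2⟩ := ih
      (fun v hv u hu => hs v (mem_insert_of_mem hv) u (mem_insert_of_mem hu))
      (fun v hv => hi v (mem_insert_of_mem hv))
      (fun v hv => lt_of_le_of_lt (card_le_card (filter_subset_filter _ (subset_insert a S)))
        (hc v (mem_insert_of_mem hv)))
    have h3 : ((S.filter fun u => u ∈ N a).image y).card < (L a).card :=
      lt_of_le_of_lt (card_image_le.trans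
        (card_le_card (filter_subset_filter _ (subset_insert a S)))) (hc a (mem_insert_self a S))
    obtain ⟨c, hc1, hc2⟩ := exists_mem_notMem_of_card_lt_card h3
    have h4 : ∀ u ∈ S, u ∈ N a → c ≠ y u := fun u hu hn e =>
      hc2 (mem_image.2 ⟨u, mem_filter.2 ⟨hu, hn⟩, e.symm⟩)
    have h5 : ∀ u ∈ S, Function.update y a c u = y u := fun u hu =>
      Function.update_of_ne (fun e : u = a => ha (e ▸ hu)) _ _
    refine ⟨Function.update y a c, fun v hv => ?_, fun v hv u hu hn => ?_⟩
    · rcases mem_insert.1 hv with rfl | hv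
      · rwa [Function.update_self]
      · rw [h5 v hv]
        exact h1 v hv
    · rcases mem_insert.1 hv with e | hv'
      · rcases mem_insert.1 hu with e' | hu'
        · exact absurd (e'.trans e.symm ▸ hn) (hi v hv)
        · rw [e, Function.update_self, h5 u hu']
          exact h4 u hu' (e ▸ hn)
      · rcases mem_insert.1 hu with e' | hu'
        · rw [e', Function.update_self, h5 v hv']
          exact (h4 v hv' (e' ▸ hs v hv u hu hn)).symm
        · rw [h5 v hv', h5 u hu']
          exact h2 v hv' u hu' hn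

end Lg

theorem p_lg (gr : I → SimpleGraph V) : LgSt gr := by
  classical
  intro D r cl χ F hD hL hP hF h0 h1
  have hd : Loc gr (r + 1) (fun i u => (F i u, lst (gr i) D (χ i) u, nbr gr i u)) :=
    (hF.mono (by omega)).prod ((loc_lst hP.1).prod (Loc.mono loc_nbr (by omega)))
  obtain ⟨x, hx, hy⟩ := dec_choice (Ω := ℕ) (hL.1.mono (Nat.le_succ r)) hL.2 hd
    (fun _ g y => (∀ v L N, g v = some (True, L, N) → y v ∈ L) ∧
      ∀ v L N u L' N', g v = some (True, L, N) → g u = some (True, L', N') → u ∈ N → y v ≠ y u)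
    (fun i z => by
      obtain ⟨y, a1, a2⟩ := Lg.greedy (nbr gr i) (lst (gr i) D (χ i))
        (sel fun u => cl i u = z ∧ F i u)
        (fun v _ u _ h => mem_nbr.2 (mem_nbr.1 h).symm)
        (fun v _ h => (gr i).irrefl (mem_nbr.1 h))
        (fun v _ => by
          have b1 := sl_one hD χ i v
          unfold Sl at b1
          refine lt_of_le_of_lt (card_le_card fun u hu => ?_) (Nat.lt_of_succ_le b1)
          obtain ⟨c1, c2⟩ := mem_filter.1 hu
          exact mem_unc.2 ⟨mem_nbr.1 c2, h0 i u (mem_sel.1 c1).2⟩)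
      have key : ∀ v L N, @ite _ (cl i v = z) (Classical.propDecidable _)
          (some (F i v, lst (gr i) D (χ i) v, nbr gr i v)) none = some (True, L, N) →
          v ∈ sel (fun u => cl i u = z ∧ F i u) ∧ L = lst (gr i) D (χ i) v ∧ N = nbr gr i v := by
        intro v L N h
        by_cases e : cl i v = z
        · rw [if_pos e] at h
          simp only [Option.some.injEq, Prod.mk.injEq] at h
          exact ⟨mem_sel.2 ⟨e, of_eq_true h.1⟩, h.2.1.symm, h.2.2.symm⟩
        · rw [if_neg e] at h
          exact absurd h (by simp)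
      refine ⟨y, fun v L N h => ?_, fun v L N u L' N' h h' hn => ?_⟩
      · obtain ⟨b1, b2, -⟩ := key v L N h
        exact b2 ▸ a1 v b1
      · obtain ⟨b1, -, b3⟩ := key v L N h
        exact a2 v b1 u (key u L' N' h').1 (b3 ▸ hn))
  have ht : Loc gr (r + 5) (fun i v => if F i v then some (x i v) else none) :=
    ((hF.mono (by omega)).prod (hx.mono (by omega))).map
      (fun _ a => if a.1 then some a.2 else none)
  have hk : ∀ i v c, (if F i v then some (x i v) else none) = some c → F i v ∧ x i v = c := by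
    intro i v c h
    by_cases e : F i v
    · rw [if_pos e] at h
      exact ⟨e, Option.some.inj h⟩
    · rw [if_neg e] at h
      exact absurd h (by simp)
  obtain ⟨χ', b1, b2, b3, b4⟩ := commit (hP.mono (by omega : r ≤ r + 5)) ht
    (fun i v c h => by
      obtain ⟨e1, e2⟩ := hk i v c h
      obtain ⟨y, ⟨q1, -⟩, q3⟩ := hy i (cl i v)
      refine ⟨h0 i v e1, ?_⟩
      rw [← e2, q3 v rfl]
      exact q1 v _ (nbr gr i v) ((if_pos rfl).trans (by rw [eq_true e1])))
    (fun i v u c ha h h' => by
      obtain ⟨e1, e2⟩ := hk i v c h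
      obtain ⟨e3, e4⟩ := hk i u c h'
      have e5 := h1 i v u ha e1 e3
      obtain ⟨y, ⟨-, q2⟩, q3⟩ := hy i (cl i v)
      refine q2 v (lst (gr i) D (χ i) v) (nbr gr i v) u (lst (gr i) D (χ i) u) (nbr gr i u)
        ((if_pos rfl).trans (by rw [eq_true e1])) ((if_pos e5.symm).trans (by rw [eq_true e3]))
        (mem_nbr.2 ha) ?_
      rw [← q3 v rfl, ← q3 u e5.symm, e2, e4])
  refine ⟨χ', b1, b2, fun i v h => ?_, fun i v h => b4 i v (if_neg h)⟩
  rw [b3 i v (x i v) (if_pos h)]
  simp

end Pool.Agent.P.MP_6f280c_lc.Dc
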