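import Pool.Agent.P.MP_6f280c_lc.Dc.St

/-! Package 30: the choice of the parameters. -/

set_option autoImplicit false

namespace Pool.Agent.P.MP_6f280c_lc.Dc

open Finset

variable {V I : Type} [Fintype V] [LinearOrder V]

namespace LocP

omit [Fintype V] [LinearOrder V] in
theorem col_mono {gr : I → SimpleGraph V} {D T T' : ℕ} (h : ColProp gr D T) (e : T ≤ T') :
    ColProp gr D T' := by
  obtain ⟨χ, a, b, c⟩ := h
  exact ⟨χ, a.mono e, b, c⟩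

theorem pow_clog_le {n : ℕ} (h : 1 ≤ n) : 2 ^ Nat.clog 2 n ≤ 2 * n := by
  rcases Nat.eq_or_lt_of_le h with rfl | h1
  · simp
  · have h2 := Nat.pow_pred_clog_lt_self (b := 2) (by norm_num) h1
    have h3 := Nat.clog_pos (b := 2) (by norm_num) h1
    obtain ⟨c, hc⟩ : ∃ c, Nat.clog 2 n = c + 1 := ⟨Nat.clog 2 n - 1, by omega⟩
    rw [hc] at h2 ⊢
    simp only [Nat.pred_eq_sub_one, Nat.add_sub_cancel] at h2
    rw [pow_succ]
    omega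

/-- the bit fixing procedure for `b0` bits -/
theorem xor_part {N : ℕ} (gr : I → SimpleGraph (Fin N)) (h2 : SmallAndSt gr) (hX : XorSt gr)
    {L kk b0 : ℕ} (hid : ∀ v : Fin N, v.val < 2 ^ L) (hL1 : 1 ≤ L) (hL : L ≤ 2 ^ kk)
    (hk : 1 ≤ kk) (hb : 1 ≤ b0) (hb' : b0 ≤ 2 ^ 15 * L) :
    ∃ b w, b0 ≤ b ∧ XorProp gr b w ∧ w ≤ 2 ^ 55 * (b0 * kk ^ 8) := by
  set I0 := Nat.clog 2 b0 with hI0
  have a1 : b0 ≤ 2 ^ I0 := Nat.le_pow_clog (by norm_num) _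
  have a2 : 2 ^ I0 ≤ 2 * b0 := pow_clog_le hb
  have a3 : I0 ≤ kk + 15 := by
    refine Nat.clog_le_of_le_pow (hb'.trans ?_)
    rw [pow_add, mul_comm]
    exact Nat.mul_le_mul_right _ hL
  set e := 4 * I0 + 4 with he
  have a4 : e ≤ 68 * kk := by omega
  set c := Nat.clog 2 e with hc
  have a5 : e ≤ 2 ^ c := Nat.le_pow_clog (by norm_num) _
  have a6 : 2 ^ c ≤ 2 * e := pow_clog_le (by omega)
  have a7 : e * 3 ^ (3 * c) ≤ 4 ^ (3 * c) := by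
    rw [pow_mul, pow_mul]
    calc e * (3 ^ 3) ^ c ≤ 2 ^ c * (3 ^ 3) ^ c := Nat.mul_le_mul_right _ a5
      _ = (2 * 3 ^ 3) ^ c := (mul_pow _ _ _).symm
      _ ≤ (4 ^ 3) ^ c := Nat.pow_le_pow_left (by norm_num) c
  have a8 : kk ≤ 2 ^ kk := Nat.lt_two_pow_self.le
  have a9 : (4 * 2 ^ 1 * e * L) ^ 2 ≤ 2 ^ (20 + 4 * kk) := by
    have h1 : 4 * 2 ^ 1 * e * L ≤ 2 ^ 10 * 2 ^ kk * 2 ^ kk :=
      Nat.mul_le_mul (by omega) hL
    calc _ ≤ (2 ^ 10 * 2 ^ kk * 2 ^ kk) ^ 2 := Nat.pow_le_pow_left h1 2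
      _ = 2 ^ (20 + 4 * kk) := by ring
  have hA := h2 (fun v => v.val) L 1 e (20 + 4 * kk) Fin.val_injective hid hL1 (by omega) a9
  refine ⟨_, _, a1, hX I0 (3 * c) _ hA a7, ?_⟩
  have b0' : 1 ≤ kk ^ 4 := Nat.one_le_pow _ _ hk
  have b1 : 1 * (2 ^ 1 * (4 * 2 ^ 1 * e * (20 + 4 * kk)) ^ 2 + 1) + 3 + 1 ≤
      340918277 * kk ^ 4 := by
    have h1 : 4 * 2 ^ 1 * e * (20 + 4 * kk) ≤ 544 * kk * (24 * kk) :=
      Nat.mul_le_mul (by omega) (by omega)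
    have h2 := Nat.pow_le_pow_left h1 2
    have h3 : (544 * kk * (24 * kk)) ^ 2 = 170459136 * kk ^ 4 := by ring
    omega
  have b2 : 2 ^ (I0 + 3 * c) ≤ 2 * b0 * (136 * kk) ^ 3 := by
    rw [pow_add, mul_comm 3 c, pow_mul]
    exact Nat.mul_le_mul a2 (Nat.pow_le_pow_left (by omega) 3)
  have b3 : I0 + 3 ≤ 19 * kk := by omega
  calc _ ≤ 340918277 * kk ^ 4 * (2 * b0 * (136 * kk) ^ 3) * (19 * kk) :=
        Nat.mul_le_mul (Nat.mul_le_mul b1 b2) b3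
    _ = 340918277 * 2 * 136 ^ 3 * 19 * (b0 * kk ^ 8) := by ring
    _ ≤ _ := Nat.mul_le_mul_right _ (by norm_num)

/-- thirteen bits with loss two -/
theorem and_part {N : ℕ} (gr : I → SimpleGraph (Fin N)) (h2 : SmallAndSt gr)
    {L kk : ℕ} (hid : ∀ v : Fin N, v.val < 2 ^ L) (hL1 : 1 ≤ L) (hL : L ≤ 2 ^ kk)
    (hk : 1 ≤ kk) : ∃ w, AndProp gr 13 2 w ∧ w ≤ 2 ^ 57 * kk ^ 8 := by
  have a1 : (4 * 2 ^ 13 * 1 * L) ^ 2 ≤ 2 ^ (30 + 2 * kk) := by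
    calc _ ≤ (4 * 2 ^ 13 * 1 * 2 ^ kk) ^ 2 := Nat.pow_le_pow_left (Nat.mul_le_mul_left _ hL) 2
      _ = 2 ^ (30 + 2 * kk) := by ring
  have hA := h2 (fun v => v.val) L 13 1 (30 + 2 * kk) Fin.val_injective hid hL1 le_rfl a1
  rw [show (1 : ℝ) + 1 / ((1 : ℕ) : ℝ) = 2 by norm_num] at hA
  refine ⟨_, hA, ?_⟩
  have h1 : 4 * 2 ^ 13 * 1 * (30 + 2 * kk) ≤ 2 ^ 20 * kk := by omega
  have h2 := Nat.pow_le_pow_left h1 2
  have h3 : (2 ^ 20 * kk) ^ 2 = 2 ^ 40 * kk ^ 2 := by ring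
  have h4 : kk ^ 2 ≤ kk ^ 8 := Nat.pow_le_pow_right hk (by norm_num)
  have h5 : 1 ≤ kk ^ 8 := Nat.one_le_pow _ _ hk
  omega

/-- the hitting set procedure -/
theorem hit_part {N : ℕ} (gr : I → SimpleGraph (Fin N)) {L kk : ℕ}
    (hid : ∀ v : Fin N, v.val < 2 ^ L) (hL1 : 1 ≤ L) (hL : L ≤ 2 ^ kk) (hk : 1 ≤ kk) :
    ∃ τ, HitProp gr τ ∧ τ ≤ 2 ^ 46 * kk ^ 8 := by
  obtain ⟨p1, q1, q2, q3⟩ := Nat.exists_prime_lt_and_le_two_mul (2 ^ 15 * L) (by positivity)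
  obtain ⟨p2, r1, r2, r3⟩ :=
    Nat.exists_prime_lt_and_le_two_mul (2 ^ 15 * (32 + 2 * kk)) (by positivity)
  have hH := hit_of gr (defect_st gr) (class_st gr) (fun v => v.val) Fin.val_injective (k1 := L)
    (k2 := 32 + 2 * kk) q1 r1
    (fun v => by
      have h1 : 2 ^ L ≤ p1 ^ L := Nat.pow_le_pow_left q1.two_le L
      have h2 : p1 ^ L ≤ p1 ^ (L + 1) := Nat.pow_le_pow_right q1.pos (by omega)
      have := hid v
      omega)
    (by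
      have h1 : 2 ^ (32 + 2 * kk) ≤ p2 ^ (32 + 2 * kk) := Nat.pow_le_pow_left r1.two_le _
      have h2 : p2 ^ (32 + 2 * kk) ≤ p2 ^ (32 + 2 * kk + 1) :=
        Nat.pow_le_pow_right r1.pos (by omega)
      have h3 : p1 ^ 2 ≤ (2 ^ 16 * 2 ^ kk) ^ 2 := Nat.pow_le_pow_left (by omega) 2
      have h4 : (2 ^ 16 * 2 ^ kk) ^ 2 = 2 ^ (32 + 2 * kk) := by ring
      omega) q2.le r2.le
  refine ⟨_, hH, ?_⟩
  have h1 : p2 ^ 2 ≤ (2 ^ 22 * kk) ^ 2 := Nat.pow_le_pow_left (by omega) 2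
  have h3 : (2 ^ 22 * kk) ^ 2 = 2 ^ 44 * kk ^ 2 := by ring
  have h4 : kk ^ 2 ≤ kk ^ 8 := Nat.pow_le_pow_right hk (by norm_num)
  have h5 : 1 ≤ kk ^ 8 := Nat.one_le_pow _ _ hk
  omega

end LocP

open LocP in
theorem p_loc {N : ℕ} (gr : I → SimpleGraph (Fin N)) (hB : BigSt gr) (h1 : BigAndSt gr)
    (h2 : SmallAndSt gr) (hX : XorSt gr) (hT : TopSt gr) (hPh : PhaseSt gr)
    (hS : SlackColSt gr) : LocSt gr := by
  intro D L s kk σ hD hN hL1 hs1 hs2 hs hD1 hDN hσ1 hσ2 hL hk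
  have hid : ∀ v : Fin N, v.val < 2 ^ L := fun v => v.isLt.trans_le hN
  have hcard : Fintype.card (Fin N) ≤ 2 ^ L := by rwa [Fintype.card_fin]
  have hsL : s ≤ 2 * L := by nlinarith
  have hk8 : 1 ≤ kk ^ 8 := Nat.one_le_pow _ _ hk
  obtain ⟨w2, hA, hw2⟩ := and_part gr h2 hid hL1 hL hk
  rcases le_or_gt (2 ^ (12600 * s)) D with hbig | hsmall
  · obtain ⟨b, w1, hb, hXo, hw1⟩ := xor_part gr h2 hX (b0 := 12600 * s) hid hL1 hL hk (by omega)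
      (by omega)
    obtain ⟨τ, hH, hτ⟩ := hit_part gr hid hL1 hL hk
    have hσ : s ≤ σ := by
      have : 2 ^ (12600 * s) < 2 ^ σ := by omega
      have := (Nat.pow_lt_pow_iff_right (by norm_num)).mp this
      omega
    have hC := hB D L s τ b w1 w2 (2 ^ 70 * kk ^ 8) hD hcard hs1 hs
      (by rw [← pow_mul, show 30 * s * 420 = 12600 * s by ring]; exact hbig)
      (by rwa [Fintype.card_fin]) hH
      (fun κ hκ => h1 (fun v => v.val) L κ Fin.val_injective hid hL1 (by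
        have e1 : s ^ 2 ≤ (2 ^ s) ^ 2 := Nat.pow_le_pow_left Nat.lt_two_pow_self.le 2
        have e2 : (2 ^ s) ^ 2 ≤ 2 ^ κ := by
          rw [← pow_mul]
          exact Nat.pow_le_pow_right (by norm_num) (by omega)
        omega))
      hA hXo hb (by omega) (by omega) (by omega)
      (hw1.trans (by
        calc 2 ^ 55 * (12600 * s * kk ^ 8) = 2 ^ 55 * 12600 * (s * kk ^ 8) := by ring
          _ ≤ 2 ^ 70 * (s * kk ^ 8) := Nat.mul_le_mul_right _ (by norm_num)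
          _ = _ := by ring))
    refine col_mono hC ?_
    rw [min_eq_right hσ]
    calc 2 ^ 40 * s ^ 3 * (2 ^ 70 * kk ^ 8) = 2 ^ 110 * (s ^ 2 * (s * kk ^ 8)) := by ring
      _ ≤ 2 ^ 110 * (4 * L * (s * kk ^ 8)) :=
        Nat.mul_le_mul_left _ (Nat.mul_le_mul_right _ hs2)
      _ = _ := by ring
  · have hσ : σ ≤ 12600 * s := by
      have : 2 ^ σ < 2 ^ (12600 * s + 1) := by
        rw [pow_succ]
        omega
      have := (Nat.pow_lt_pow_iff_right (by norm_num)).mp this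
      omega
    have hσ0 : 1 ≤ σ := by
      rcases Nat.eq_zero_or_pos σ with rfl | h
      · omega
      · exact h
    obtain ⟨b, w1, hb, hXo, hw1⟩ := xor_part gr h2 hX (b0 := σ) hid hL1 hL hk hσ0 (by omega)
    have hP := hPh D 0 b 0 0 w1 w2 0 hXo hA hT.2
    have hC := hS D 0 b 0 0 _ L σ 1 0 (fun _ _ => none) hP hcard le_rfl (by omega) (by omega)
      (Or.inl rfl) (hσ1.trans (Nat.pow_le_pow_right (by norm_num) (by omega))) le_rfl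
      (pc_none gr D 0) (fun i v _ => sl_one hD (fun _ _ => none) i v)
    refine col_mono hC ?_
    have e1 : (4 * σ + 16) * (σ + 3) ≤ 50408 * s * (12602 * s) :=
      Nat.mul_le_mul (by omega) (by omega)
    have e2 : 50408 * s * (12602 * s) = 635241616 * s ^ 2 := by ring
    have e3 : 2 ^ 17 * (L + 1) + (4 * σ + 16) * (σ + 3) ≤ 2 ^ 32 * L := by omega
    have e4 : kk ^ 8 ≤ σ * kk ^ 8 := Nat.le_mul_of_pos_left _ hσ0
    have e5 : w1 + w2 + 0 + 6 + 1 ≤ 2 ^ 58 * (σ * kk ^ 8) := by omega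
    have e6 : σ ≤ 12600 * min σ s := by
      rcases le_total σ s with h | h
      · rw [min_eq_left h]
        omega
      · rwa [min_eq_right h]
    calc _ = (2 ^ 17 * (L + 1) + (4 * σ + 16) * (σ + 3)) * (w1 + w2 + 0 + 6 + 1) := zero_add _
      _ ≤ 2 ^ 32 * L * (2 ^ 58 * (σ * kk ^ 8)) := Nat.mul_le_mul e3 e5
      _ ≤ 2 ^ 32 * L * (2 ^ 58 * (12600 * min σ s * kk ^ 8)) :=
        Nat.mul_le_mul_left _ (Nat.mul_le_mul_left _ (Nat.mul_le_mul_right _ e6))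
      _ = 2 ^ 90 * 12600 * (L * min σ s * kk ^ 8) := by ring
      _ ≤ _ := Nat.mul_le_mul_right _ (by norm_num)

end Pool.Agent.P.MP_6f280c_lc.Dc
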