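import Pool.Agent.P.MP_6f280c_lc.Dc.St

/-! A well spread subset of given size in every big clique. -/

set_option autoImplicit false

namespace Pool.Agent.P.MP_6f280c_lc.Dc

open Finset

variable {V I : Type} [Fintype V] [LinearOrder V]

namespace Pa

/-- the choice of one centre -/
theorem core (hS : SeqSt) (M : Finset V) (c : V → V) (E : Bool → V → Finset V)
    (n0 n' lam : ℕ) (h2 : 2 * n' ≤ n0) (hl : 8 * Fintype.card V ≤ 2 ^ lam)
    (hM : ∀ u ∈ M, n0 ≤ (M.filter (fun w => c w = c u)).card) :
    ∃ P : Finset V, P ⊆ M ∧ (∀ u ∈ M, (P.filter (fun w => c w = c u)).card = n') ∧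
      ∀ b v, n0 * (P.filter (fun w => v ∈ E b w)).card ≤
        4 * n' * (M.filter (fun w => v ∈ E b w)).card + n0 * lam := by
  rcases Nat.eq_zero_or_pos n0 with h0 | h0
  · refine ⟨∅, empty_subset _, fun u _ => ?_, fun b v => by simp⟩
    simp only [filter_empty, card_empty]
    omega
  have hn : (0 : ℝ) < n0 := by exact_mod_cast h0
  let J : Finset (V × ℕ) := M.image c ×ˢ range n'
  let Good : Finset (V × ℕ) → (V × ℕ → V) → Prop := fun S f =>
    (∀ j ∈ S, f j ∈ M ∧ c (f j) = j.1) ∧ ∀ j ∈ S, ∀ j' ∈ S, f j = f j' → j = j'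
  let β : V × Bool → V × ℕ → ℝ := fun t j =>
    2 * ((M.filter (fun w => t.1 ∈ E t.2 w)).filter (fun w => c w = j.1)).card / n0
  have hcard : 4 * Fintype.card (V × Bool) ≤ 2 ^ lam := by
    rw [Fintype.card_prod, Fintype.card_bool]
    omega
  obtain ⟨x, ⟨g1, g2⟩, g3, -, -⟩ := hS (V × ℕ) V (V × Bool) J Good (fun j => j.1)
    (fun t _ w => t.1 ∈ E t.2 w) (fun _ _ _ => False) β (fun _ _ => 0) (fun _ _ => 0) lam
    ⟨fun j hj => absurd hj (by simp), fun j hj => absurd hj (by simp)⟩
    (fun t j => by positivity) (fun _ _ => le_rfl) hcard (by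
      intro S x j hSJ hj hjS hG
      obtain ⟨u, hu, huj⟩ := mem_image.1 (mem_product.1 hj).1
      let O := M.filter (fun w => c w = j.1) \ (S.filter (fun j' => j'.1 = j.1)).image x
      have c1 : (S.filter (fun j' => j'.1 = j.1)).card ≤ n' := by
        rw [← card_range n']
        refine card_le_card_of_injOn (fun j' => j'.2) (fun j' hj' => ?_) fun a ha b hb e => ?_
        · exact mem_coe.2 (mem_product.1 (hSJ (mem_filter.1 (mem_coe.1 hj')).1)).2
        · exact Prod.ext ((mem_filter.1 (mem_coe.1 ha)).2.trans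
            (mem_filter.1 (mem_coe.1 hb)).2.symm) e
      have c2 : n0 ≤ 2 * O.card := by
        have a1 := hM u hu
        rw [huj] at a1
        have a2 := le_card_sdiff ((S.filter (fun j' => j'.1 = j.1)).image x)
          (M.filter (fun w => c w = j.1))
        have a3 := card_image_le (s := S.filter (fun j' => j'.1 = j.1)) (f := x)
        show n0 ≤ 2 * (M.filter (fun w => c w = j.1) \
          (S.filter (fun j' => j'.1 = j.1)).image x).card
        omega
      refine ⟨O, card_pos.1 (by omega), fun ω hω => ?_, fun t => ?_, fun t => by simp, by simp⟩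
      · obtain ⟨b1, b2⟩ := mem_sdiff.1 hω
        have b3 : ∀ j' ∈ S, Function.update x j ω j' = x j' := fun j' hj' =>
          Function.update_of_ne (fun (e : j' = j) => hjS (e ▸ hj')) _ _
        have b4 : ∀ j' ∈ S, x j' ≠ ω := fun j' hj' e => b2 (mem_image.2 ⟨j',
          mem_filter.2 ⟨hj', by rw [← (hG.1 j' hj').2, e, (mem_filter.1 b1).2]⟩, e⟩)
        refine ⟨fun j' hj' => ?_, fun a ha b hb e => ?_⟩
        · rcases mem_insert.1 hj' with e | e
          · rw [e, Function.update_self]
            exact mem_filter.1 b1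
          · rw [b3 j' e]
            exact hG.1 j' e
        · rcases mem_insert.1 ha with ea | ea <;> rcases mem_insert.1 hb with eb | eb
          · rw [ea, eb]
          · rw [ea, Function.update_self, b3 b eb] at e
            exact absurd e.symm (b4 b eb)
          · rw [eb, Function.update_self, b3 a ea] at e
            exact absurd e (b4 a ea)
          · rw [b3 a ea, b3 b eb] at e
            exact hG.2 a ea b eb e
      · have d1 : (O.filter (fun ω => t.1 ∈ E t.2 ω)).card ≤
            ((M.filter (fun w => t.1 ∈ E t.2 w)).filter (fun w => c w = j.1)).card := by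
          refine card_le_card fun w hw => ?_
          obtain ⟨e1, e2⟩ := mem_filter.1 hw
          obtain ⟨e3, e4⟩ := mem_filter.1 (mem_sdiff.1 e1).1
          exact mem_filter.2 ⟨mem_filter.2 ⟨e3, e2⟩, e4⟩
        have d2 : ((O.filter (fun ω => t.1 ∈ E t.2 ω)).card : ℝ) ≤
            ((M.filter (fun w => t.1 ∈ E t.2 w)).filter (fun w => c w = j.1)).card := by
          exact_mod_cast d1
        have d3 : (n0 : ℝ) ≤ 2 * O.card := by exact_mod_cast c2
        refine d2.trans ?_
        simp only [β]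
        rw [div_mul_eq_mul_div, le_div_iff₀ hn]
        have d4 : (0 : ℝ) ≤
            ((M.filter (fun w => t.1 ∈ E t.2 w)).filter (fun w => c w = j.1)).card := by
          positivity
        nlinarith)
  refine ⟨J.image x, fun w hw => ?_, fun u hu => ?_, fun b v => ?_⟩
  · obtain ⟨j, hj, e⟩ := mem_image.1 hw
    exact e ▸ (g1 j hj).1
  · have e1 : (J.image x).filter (fun w => c w = c u) = ({c u} ×ˢ range n').image x := by
      ext w
      simp only [mem_filter, mem_image]
      constructor
      · rintro ⟨⟨j, hj, e⟩, e'⟩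
        refine ⟨j, mem_product.2 ⟨mem_singleton.2 ?_, (mem_product.1 hj).2⟩, e⟩
        rw [← (g1 j hj).2, e, e']
      · rintro ⟨j, hj, e⟩
        have e2 := mem_singleton.1 (mem_product.1 hj).1
        have hj' : j ∈ J := mem_product.2 ⟨e2 ▸ mem_image_of_mem c hu, (mem_product.1 hj).2⟩
        exact ⟨⟨j, hj', e⟩, by rw [← e, (g1 j hj').2, e2]⟩
    have e3 : ∀ j ∈ ({c u} ×ˢ range n' : Finset (V × ℕ)), j ∈ J := fun j hj =>
      mem_product.2 ⟨mem_singleton.1 (mem_product.1 hj).1 ▸ mem_image_of_mem c hu,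
        (mem_product.1 hj).2⟩
    rw [e1, card_image_of_injOn fun a ha b hb e => g2 a (e3 a ha) b (e3 b hb) e]
    simp
  · have e1 : ((J.image x).filter (fun w => v ∈ E b w)).card ≤
        (J.filter (fun j => v ∈ E b (x j))).card := by
      rw [filter_image]
      exact card_image_le
    have e2 : ∑ j ∈ J, β (v, b) j =
        2 * n' * (M.filter (fun w => v ∈ E b w)).card / n0 := by
      have e3 : (M.filter (fun w => v ∈ E b w)).card = ∑ l ∈ M.image c,
          ((M.filter (fun w => v ∈ E b w)).filter (fun w => c w = l)).card :=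
        card_eq_sum_card_fiberwise fun w hw =>
          mem_coe.2 (mem_image_of_mem c (mem_filter.1 (mem_coe.1 hw)).1)
      rw [sum_product, e3]
      simp only [β, sum_const, card_range, nsmul_eq_mul]
      push_cast
      rw [mul_sum, sum_div]
      exact sum_congr rfl fun l _ => by ring
    have e4 := g3 (v, b)
    rw [e2] at e4
    have e5 : (((J.image x).filter (fun w => v ∈ E b w)).card : ℝ) ≤
        (J.filter (fun j => v ∈ E b (x j))).card := by exact_mod_cast e1
    have e6 : (n0 : ℝ) * ((J.image x).filter (fun w => v ∈ E b w)).card ≤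
        4 * n' * (M.filter (fun w => v ∈ E b w)).card + n0 * lam := by
      have e7 := mul_le_mul_of_nonneg_left (e5.trans e4) hn.le
      have e8 : (n0 : ℝ) * (2 * (2 * n' * (M.filter (fun w => v ∈ E b w)).card / n0) + lam) =
          4 * n' * (M.filter (fun w => v ∈ E b w)).card + n0 * lam := by
        field_simp
        ring
      rwa [e8] at e7
    exact_mod_cast e6

omit [LinearOrder V] in
theorem loc_ext {gr : I → SimpleGraph V} {r : ℕ} {cl : I → V → V} {U : I → V → Prop}
    (hc : Loc gr r cl) (hU : Loc gr r U) :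
    Loc gr (r + 1) (fun i v => extS (gr i) (cl i) (U i) v) :=
  loc_sel_adj (hc.mono (Nat.le_succ r)) (hU.prod hc) (fun _ _ a b => b.1 ∧ b.2 ≠ a)

omit [LinearOrder V] in
theorem loc_anti {gr : I → SimpleGraph V} {r : ℕ} {cl : I → V → V} {U : I → V → Prop}
    (hc : Loc gr r cl) (hn : ∀ i v, Near (gr i) 2 v (cl i v)) (hU : Loc gr r U) :
    Loc gr (r + 4) (fun i v => antiS (gr i) (cl i) (U i) v) := by
  have h := loc_sel_near (k := 4) ((hc.mono (Nat.le_add_right r 4)).prod
    ((loc_nbr (gr := gr)).mono (by omega : 1 ≤ r + 4))) (hU.prod hc)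
    (fun v u a b => b.1 ∧ b.2 = a.1 ∧ u ≠ v ∧ u ∉ a.2) (fun i v u h => by
      have h1 := hn i v
      have h2 := (hn i u).symm
      have e : cl i u = cl i v := h.2.1
      rw [e] at h2
      exact h1.trans h2)
  intro i i' v hA
  have := h i i' v hA
  simp only [mem_nbr] at this
  exact this

omit [Fintype V] in
/-- counting over the centres -/
theorem fib (T T' Z : Finset V) (lab : V → V) (a b l k : ℕ) (hT : ∀ w ∈ T, lab w ∈ Z)
    (hT' : ∀ w ∈ T', lab w ∈ Z) (hk : Z.card ≤ k)
    (h : ∀ z, a * (T.filter (fun w => lab w = z)).card ≤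
      b * (T'.filter (fun w => lab w = z)).card + l) :
    a * T.card ≤ b * T'.card + k * l := by
  rw [card_eq_sum_card_fiberwise (f := lab) (s := T) (t := Z) fun w hw => hT w hw,
    card_eq_sum_card_fiberwise (f := lab) (s := T') (t := Z) fun w hw => hT' w hw,
    mul_sum, mul_sum]
  refine (sum_le_sum fun z _ => h z).trans ?_
  rw [sum_add_distrib, sum_const, smul_eq_mul]
  exact Nat.add_le_add_left (Nat.mul_le_mul_right l hk) _

/-- the data that a centre sees -/
abbrev Dat (V : Type) : Type := Prop × V × (Bool → Finset V)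

/-- members -/
noncomputable def dM (D : V → Option (Dat V)) : Finset V := sel (fun u => ∃ a, D u = some a ∧ a.1)

/-- leaders -/
def dC (D : V → Option (Dat V)) (u : V) : V := (D u).elim u (fun a => a.2.1)

/-- test sets -/
def dE (D : V → Option (Dat V)) (b : Bool) (u : V) : Finset V := (D u).elim ∅ (fun a => a.2.2 b)

end Pa

open Pa in
theorem p_pa (hS : SeqSt) (gr : I → SimpleGraph V) : PaSt gr := by
  intro r0 R k lam lab cl hD hL hcl hk hl r n0 n' x U Big hr hU hB hBig h2 hx hn
  classical
  let E : I → Bool → V → Finset V := fun i b u =>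
    if b = true then extS (gr i) (cl i) (U i) u else antiS (gr i) (cl i) (U i) u
  let d : I → V → Dat V := fun i u => (U i u ∧ Big i u, cl i u, fun b => E i b u)
  have hc : Loc gr r cl := hL.1.mono hr
  have hd : Loc gr (r + 4) d := fun i i' v hA => by
    have e1 := (loc_ext hc hU).here hA (by omega)
    have e2 := (loc_anti hc hL.2 hU).here hA le_rfl
    simp only [d, E]
    rw [hU.here hA (by omega), hB.here hA (by omega), e1, e2, hc.here hA (by omega)]
  let Q : V → (V → Option (Dat V)) → (V → Prop) → Prop := fun _ D y =>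
    ∃ P : Finset V, (∀ u, y u ↔ u ∈ P) ∧ P ⊆ dM D ∧
      (∀ u ∈ dM D, (P.filter (fun w => dC D w = dC D u)).card = n') ∧
      ∀ b v, n0 * (P.filter (fun w => v ∈ dE D b w)).card ≤
        4 * n' * ((dM D).filter (fun w => v ∈ dE D b w)).card + n0 * lam
  let g : I → V → V → Option (Dat V) := fun i z u =>
    @ite _ (lab i u = z) (Classical.propDecidable _) (some (d i u)) none
  have m1 : ∀ i z u, u ∈ dM (g i z) ↔
      lab i u = z ∧ U i u ∧ Big i u := fun i z u => by
    rw [dM, mem_sel]
    constructor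
    · rintro ⟨a, h1, h2⟩
      by_cases e : lab i u = z
      · simp only [g, if_pos e, Option.some.injEq] at h1
        subst h1
        exact ⟨e, h2⟩
      · simp [g, e] at h1
    · rintro ⟨e, h⟩
      exact ⟨d i u, by simp only [g, if_pos e], h⟩
  have m2 : ∀ i z u, lab i u = z →
      dC (g i z) u = cl i u := fun i z u e => by
    simp [dC, g, e, d]
  have m3 : ∀ i z b u, lab i u = z →
      dE (g i z) b u = E i b u :=
    fun i z b u e => by simp [dE, g, e, d]
  obtain ⟨P, hP, hQ⟩ := dec_choice (r := r + 4) (hD.1.mono (by omega)) hD.2.1 hd Q (fun i z => by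
    obtain ⟨P, h⟩ := core hS (dM (g i z))
      (dC (g i z))
      (dE (g i z)) n0 n' lam h2 hl (fun u hu => by
        obtain ⟨a1, a2, a3⟩ := (m1 i z u).1 hu
        refine (hn i u a2 a3).trans (card_le_card fun w hw => ?_)
        obtain ⟨b1, b2⟩ := mem_clq.1 hw
        have b3 : lab i w = z := (hcl i w u b2).trans a1
        exact mem_filter.2 ⟨(m1 i z w).2 ⟨b3, b1, hBig i u w b2.symm a3⟩,
          by rw [m2 i z w b3, m2 i z u a1, b2]⟩)
    exact ⟨fun u => u ∈ P, P, fun _ => Iff.rfl, h⟩)
  -- the facts in terms of the graph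
  have key : ∀ i z, (∀ u, lab i u = z → P i u → U i u ∧ Big i u) ∧
      (∀ u, lab i u = z → U i u → Big i u → (clq (cl i) (P i) u).card = n') ∧
      ∀ b v (T T' : Finset V), (∀ w ∈ T, lab i w = z ∧ P i w ∧ v ∈ E i b w) →
        (∀ w, lab i w = z → U i w → v ∈ E i b w → w ∈ T') →
        n0 * T.card ≤ 4 * n' * T'.card + n0 * lam := fun i z => by
    obtain ⟨y, hy0, hy⟩ := hQ i z
    obtain ⟨S, s1, s2, s3, s4⟩ : Q z (g i z) y := hy0
    have t1 : ∀ u, u ∈ S ↔ lab i u = z ∧ P i u := fun u => by
      constructor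
      · intro h
        have e := ((m1 i z u).1 (s2 h)).1
        exact ⟨e, by rw [hy u e]; exact (s1 u).2 h⟩
      · rintro ⟨e, h⟩
        rw [hy u e] at h
        exact (s1 u).1 h
    refine ⟨fun u e h => ((m1 i z u).1 (s2 ((t1 u).2 ⟨e, h⟩))).2, fun u e a b => ?_,
      fun b v T T' hT hT' => ?_⟩
    · rw [← s3 u ((m1 i z u).2 ⟨e, a, b⟩)]
      congr 1
      ext w
      rw [mem_clq, mem_filter, t1, m2 i z u e]
      constructor
      · rintro ⟨c1, c2⟩
        have c3 : lab i w = z := (hcl i w u c2).trans e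
        exact ⟨⟨c3, c1⟩, by rw [m2 i z w c3, c2]⟩
      · rintro ⟨⟨c1, c2⟩, c3⟩
        exact ⟨c2, by rw [← m2 i z w c1, c3]⟩
    · refine le_trans (Nat.mul_le_mul_left n0 (card_le_card fun w hw => ?_)) ((s4 b v).trans
        (Nat.add_le_add_right (Nat.mul_le_mul_left _ (card_le_card fun w hw => ?_)) _))
      · obtain ⟨c1, c2, c3⟩ := hT w hw
        exact mem_filter.2 ⟨(t1 w).2 ⟨c1, c2⟩, by rwa [m3 i z b w c1]⟩
      · obtain ⟨c1, c2⟩ := mem_filter.1 hw
        obtain ⟨c3, c4, -⟩ := (m1 i z w).1 c1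
        exact hT' w c3 c4 (by rwa [m3 i z b w c3] at c2)
  have k1 : ∀ i v, P i v → U i v ∧ Big i v := fun i v h => (key i _).1 v rfl h
  refine ⟨P, hP.mono (by omega), k1, fun i v a b => (key i _).2.1 v rfl a b,
    fun i v hv => ⟨?_, ?_⟩⟩
  · have h := fib (extS (gr i) (cl i) (P i) v) (extS (gr i) (cl i) (U i) v)
      ((nbr gr i v).image (lab i)) (lab i) n0 (4 * n') (n0 * lam) k
      (fun w hw => mem_image_of_mem _ (mem_nbr.2 (mem_extS.1 hw).1))
      (fun w hw => mem_image_of_mem _ (mem_nbr.2 (mem_extS.1 hw).1)) (hD.2.2 i v)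
      (fun z => (key i z).2.2 true v _ _ (fun w hw => by
        obtain ⟨c1, c2⟩ := mem_filter.1 hw
        obtain ⟨c3, c4, c5⟩ := mem_extS.1 c1
        refine ⟨c2, c4, ?_⟩
        simp only [E, if_true]
        exact mem_extS.2 ⟨c3.symm, hv, c5.symm⟩) (fun w c1 c2 c3 => by
        simp only [E, if_true] at c3
        obtain ⟨c4, -, c5⟩ := mem_extS.1 c3
        exact mem_filter.2 ⟨mem_extS.2 ⟨c4.symm, c2, c5.symm⟩, c1⟩))
    have h' := Nat.mul_le_mul_left (4 * n') (hx i v hv).1
    calc _ ≤ _ := h
      _ ≤ 4 * n' * x + k * (n0 * lam) := Nat.add_le_add_right h' _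
      _ = _ := by ring
  · have h := (key i (lab i v)).2.2 false v (antiS (gr i) (cl i) (P i) v)
      (antiS (gr i) (cl i) (U i) v) (fun w hw => by
        obtain ⟨c1, c2, c3, c4⟩ := mem_antiS.1 hw
        refine ⟨hcl i w v c2, c1, ?_⟩
        simp only [E, Bool.false_eq_true, if_false]
        exact mem_antiS.2 ⟨hv, c2.symm, c3.symm, fun e => c4 e.symm⟩) (fun w _ c2 c3 => by
        simp only [E, Bool.false_eq_true, if_false] at c3
        obtain ⟨-, c4, c5, c6⟩ := mem_antiS.1 c3
        exact mem_antiS.2 ⟨c2, c4.symm, c5.symm, fun e => c6 e.symm⟩)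
    have h' := Nat.mul_le_mul_left (4 * n') (hx i v hv).2
    have h'' : n0 * lam ≤ n0 * (k * lam) := Nat.mul_le_mul_left _ (Nat.le_mul_of_pos_left _ hk)
    omega

end Pool.Agent.P.MP_6f280c_lc.Dc
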