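import Pool.Agent.P.MP_6f280c_lc.Dc.St

set_option autoImplicit false

namespace Pool.Agent.P.MP_6f280c_lc.Dc

open Finset

variable {V I : Type} [Fintype V] [LinearOrder V]

namespace PhB

omit [Fintype V] [LinearOrder V] in
open Classical in
theorem loc_fun_adj {gr : I → SimpleGraph V} {r : ℕ} {α γ : Type} {f : I → V → α}
    (hf : Loc gr r f) (φ : V → V → α → α → γ) (d0 : γ) :
    Loc gr (r + 1) (fun i v u => if (gr i).Adj v u then φ v u (f i v) (f i u) else d0) := by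
  intro i i' v hA
  funext u
  show (if (gr i).Adj v u then φ v u (f i v) (f i u) else d0) =
    (if (gr i').Adj v u then φ v u (f i' v) (f i' u) else d0)
  by_cases hu : (gr i).Adj v u
  · rw [if_pos hu, if_pos ((hA.adj_iff (by omega) u).1 hu), hf.here hA (by omega),
      hf.adj hA hu le_rfl]
  · rw [if_neg hu, if_neg fun h => hu ((hA.adj_iff (by omega) u).2 h)]

/-- the data of a node -/
abbrev Dt := ℕ × Prop × ℕ × ℝ

/-- the first node gives way to the second -/
def ch (v u : V) (a a' : Dt) : Prop :=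
  a.2.1 ∧ a'.2.1 ∧ a.2.2.1 = a'.2.2.1 ∧ (a.1 < a'.1 ∨ (a.1 = a'.1 ∧ v < u))

open Classical in
/-- the charge -/
noncomputable def aa (t : ℕ) (v u : V) (a a' : Dt) : ℝ :=
  if ch v u a a' then a.2.2.2 / 2 ^ (a.1 - t) else 0

open Classical in
/-- a colour of the list with a given hash value -/
noncomputable def pk (h : ℕ → ℕ) (L : Finset ℕ) (z : ℕ) (P : Prop) : Option ℕ :=
  if hc : P ∧ ∃ c ∈ L, h c % 2 ^ blen L.card = z then some hc.2.choose else none

theorem pk_some {h : ℕ → ℕ} {L : Finset ℕ} {z c : ℕ} {P : Prop} (e : pk h L z P = some c) :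
    P ∧ c ∈ L ∧ h c % 2 ^ blen L.card = z := by
  unfold pk at e
  split_ifs at e with hc
  have := hc.2.choose_spec
  rw [Option.some.inj e] at this
  exact ⟨hc.1, this⟩

theorem pk_ne {h : ℕ → ℕ} {L : Finset ℕ} {z : ℕ} {P : Prop} (hP : P) (hz : z ∈ cov h L) :
    ∃ c, pk h L z P = some c := by
  have hc : P ∧ ∃ c ∈ L, h c % 2 ^ blen L.card = z := ⟨hP, mem_image.1 hz⟩
  exact ⟨_, dif_pos hc⟩

omit [LinearOrder V] in
theorem sym_sum {H : V → Finset V} (hs : ∀ v u, u ∈ H v → v ∈ H u) (a s : V → V → ℝ)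
    (h : ∀ v u, u ∈ H v → s v u = s u v) :
    ∑ v, ∑ u ∈ H v, (a v u + a u v) / 2 * s v u = ∑ v, ∑ u ∈ H v, a v u * s v u := by
  have h1 := h5_swap hs fun v u => a v u * s v u
  have h2 : ∑ v, ∑ u ∈ H v, (a v u + a u v) / 2 * s v u =
      (∑ v, ∑ u ∈ H v, a v u * s v u + ∑ v, ∑ u ∈ H v, a u v * s u v) / 2 := by
    rw [← sum_add_distrib, sum_div]
    refine sum_congr rfl fun v _ => ?_
    rw [← sum_add_distrib, sum_div]
    refine sum_congr rfl fun u hu => ?_
    rw [← h v u hu]; ring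
  rw [h2, ← h1]; ring

theorem dec_eq {x B t p y : ℕ} (ht : t ≤ B) (hp : p < 2 ^ t)
    (e : x % 2 ^ B = p + 2 ^ t * (y % 2 ^ (B - t))) :
    x % 2 ^ t = p ∧ ∀ B', t ≤ B' → B' ≤ B → x / 2 ^ t % 2 ^ (B' - t) = y % 2 ^ (B' - t) := by
  have h1 : x % 2 ^ B % 2 ^ t = x % 2 ^ t := Nat.mod_mod_of_dvd _ (pow_dvd_pow 2 ht)
  refine ⟨by rw [← h1, e, Nat.add_mul_mod_self_left, Nat.mod_eq_of_lt hp], fun B' h2 h3 => ?_⟩
  have h4 : x / 2 ^ t % 2 ^ (B - t) = y % 2 ^ (B - t) := by
    have e1 : 2 ^ B = 2 ^ t * 2 ^ (B - t) := by rw [← pow_add]; congr 1; omega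
    rw [← Nat.mod_mul_right_div_self, ← e1, e, Nat.add_mul_div_left _ _ (by positivity),
      Nat.div_eq_of_lt hp, zero_add]
  have hd : 2 ^ (B' - t) ∣ 2 ^ (B - t) := pow_dvd_pow 2 (by omega)
  rw [← Nat.mod_mod_of_dvd _ hd, h4, Nat.mod_mod_of_dvd _ hd]

theorem avg_le {b k : ℕ} (hk : k ≤ b) (P : ℕ → Prop) [DecidablePred P] {w : ℝ} (hw : 0 ≤ w)
    (h : 2 ^ k ≤ 4 * ((range (2 ^ k)).filter P).card) :
    (∑ x ∈ range (2 ^ b), if ¬ P (x % 2 ^ k) then w else 0) / 2 ^ b ≤ 3 / 4 * w := by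
  have h1 := card_mod b k hk ((range (2 ^ k)).filter fun y => ¬ P y) (filter_subset _ _)
  have h2 : ((range (2 ^ b)).filter fun y => y % 2 ^ k ∈ (range (2 ^ k)).filter fun y => ¬ P y) =
      (range (2 ^ b)).filter fun x => ¬ P (x % 2 ^ k) := by
    refine filter_congr fun x _ => ?_
    simp [Nat.mod_lt _ (show 0 < 2 ^ k by positivity)]
  have h3 := card_filter_add_card_filter_not (s := range (2 ^ k)) P
  rw [card_range] at h3
  rw [h2] at h1
  rw [← sum_filter, sum_const, nsmul_eq_mul, h1, div_le_iff₀ (by positivity)]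
  have h4 : 4 * ((range (2 ^ k)).filter fun y => ¬ P y).card ≤ 3 * 2 ^ k := by omega
  have h5 : (4 : ℝ) * ((range (2 ^ k)).filter fun y => ¬ P y).card ≤ 3 * 2 ^ k := by
    exact_mod_cast h4
  have e1 : (2 : ℝ) ^ b = 2 ^ k * 2 ^ (b - k) := by rw [← pow_add]; congr 1; omega
  push_cast
  rw [e1]
  have h6 : (0 : ℝ) ≤ 2 ^ (b - k) * w := by positivity
  nlinarith

end PhB

open PhB in
theorem p_phB (gr : I → SimpleGraph V) : PhBSt gr := by
  classical
  intro D t b w r h χ A p wt hX hχ hA hp hwt hw0 hact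
  let L : I → V → Finset ℕ := fun i v => lst (gr i) D (χ i) v
  have hL : Loc gr (r + 1) L := loc_lst hχ.1
  let d : I → V → Dt := fun i v => (bl (gr i) D (χ i) v, A i v, p i v, wt i v)
  have hd : Loc gr (r + 1) d := (hL.map fun _ l => blen l.card).prod
    ((hA.prod (hp.prod hwt)).mono (Nat.le_succ r))
  let H : I → V → Finset V := fun i v =>
    sel fun u => (gr i).Adj v u ∧ (A i v ∧ A i u ∧ p i v = p i u)
  have hH : Loc gr (r + 1 + 1) H := loc_sel_adj (hd.mono (Nat.le_succ _)) hd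
    fun _ _ a a' => a.2.1 ∧ a'.2.1 ∧ a.2.2.1 = a'.2.2.1
  have mH : ∀ i v u, u ∈ H i v ↔ (gr i).Adj v u ∧ (A i v ∧ A i u ∧ p i v = p i u) :=
    fun i v u => mem_sel
  have hs : IsSub gr H := fun i v u hu => by
    obtain ⟨h1, h2, h3, h4⟩ := (mH i v u).1 hu
    exact ⟨h1, (mH i u v).2 ⟨h1.symm, h3, h2, h4.symm⟩⟩
  let ω : I → V → V → ℝ := fun i v u => if (gr i).Adj v u then
    (aa t v u (d i v) (d i u) + aa t u v (d i u) (d i v)) / 2 else 0
  have hω : Loc gr (r + 1 + 1) ω :=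
    loc_fun_adj hd (fun v u a a' => (aa t v u a a' + aa t u v a' a) / 2) 0
  let m : I → V → V → ℕ := fun i v u => if (gr i).Adj v u then
    min (d i v).1 (d i u).1 - t else 0
  have hm : Loc gr (r + 1 + 1) m := loc_fun_adj hd (fun _ _ a a' => min a.1 a'.1 - t) 0
  let F : I → V → ℕ → ℝ := fun i v y => if A i v then
    (if ¬ (p i v + 2 ^ t * (y % 2 ^ ((d i v).1 - t)) ∈ cov h (L i v)) then wt i v else 0) else 0
  have hF : Loc gr (r + 1 + 1) F := ((hd.prod hL).map fun _ a y => if a.1.2.1 then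
    (if ¬ (a.1.2.2.1 + 2 ^ t * (y % 2 ^ (a.1.1 - t)) ∈ cov h a.2) then a.1.2.2.2 else 0)
      else 0).mono (Nat.le_succ _)
  have ha0 : ∀ i v u, 0 ≤ aa t v u (d i v) (d i u) := fun i v u => by
    unfold aa
    split_ifs
    · exact div_nonneg (hw0 i v) (by positivity)
    · exact le_rfl
  have hωe : ∀ i v u, u ∈ H i v →
      ω i v u = (aa t v u (d i v) (d i u) + aa t u v (d i u) (d i v)) / 2 := fun i v u hu =>
    if_pos (hs i v u hu).1
  have hme : ∀ i v u, u ∈ H i v → m i v u = min (d i v).1 (d i u).1 - t := fun i v u hu =>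
    if_pos (hs i v u hu).1
  have hms : ∀ i v u, u ∈ H i v → m i v u = m i u v := fun i v u hu => by
    rw [hme i v u hu, hme i u v (hs i v u hu).2, min_comm]
  obtain ⟨y, hy, -, hsum⟩ := hX (r + 1 + 1) H ω m F hs hH hω hm hF
    (fun i v u => by
      simp only [ω]
      split_ifs
      · have := ha0 i v u
        have := ha0 i u v
        positivity
      · exact le_rfl)
    (fun i v u hu => ⟨by rw [hωe i v u hu, hωe i u v (hs i v u hu).2, add_comm], hms i v u hu⟩)
    (fun i v u hu => by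
      rw [hme i v u hu]
      have h1 : (d i v).1 ≤ t + b := (hact i v ((mH i v u).1 hu).2.1).2.2.1
      omega)
  have hdy : Loc gr (r + 1 + 1 + w) fun i v => (d i v, y i v) := (hd.mono (by omega)).prod hy
  let B : I → V → Finset V := fun i v => sel fun u => (gr i).Adj v u ∧
    (ch v u (d i v) (d i u) ∧ y i v % 2 ^ ((d i v).1 - t) = y i u % 2 ^ ((d i v).1 - t))
  have hB : Loc gr (r + 1 + 1 + w + 1) B := loc_sel_adj (hdy.mono (Nat.le_succ _)) hdy
    fun v u a a' => ch v u a.1 a'.1 ∧ a.2 % 2 ^ (a.1.1 - t) = a'.2 % 2 ^ (a.1.1 - t)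
  let tr : I → V → Option ℕ := fun i v =>
    pk h (L i v) (p i v + 2 ^ t * (y i v % 2 ^ ((d i v).1 - t))) (A i v ∧ B i v = ∅)
  have htr : Loc gr (r + (w + 3)) tr :=
    ((((hdy.mono (Nat.le_succ _)).prod hB).prod (hL.mono (by omega))).map fun _ a =>
      pk h a.2 (a.1.1.1.2.2.1 + 2 ^ t * (a.1.1.2 % 2 ^ (a.1.1.1.1 - t)))
        (a.1.1.1.2.1 ∧ a.1.2 = ∅)).mono (by omega)
  have hprop : ∀ i v u c, (gr i).Adj v u → tr i v = some c → tr i u = some c →
      ((d i v).1 < (d i u).1 ∨ ((d i v).1 = (d i u).1 ∧ v < u)) → False := by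
    intro i v u c hadj e1 e2 hlt
    obtain ⟨⟨a1, a2⟩, -, a3⟩ := pk_some e1
    obtain ⟨⟨b1, -⟩, -, b3⟩ := pk_some e2
    obtain ⟨c1, c2⟩ := dec_eq (hact i v a1).2.1 (hact i v a1).2.2.2.1 a3
    obtain ⟨d1, d2⟩ := dec_eq (hact i u b1).2.1 (hact i u b1).2.2.2.1 b3
    have hle : (d i v).1 ≤ (d i u).1 := by omega
    have : u ∈ B i v := mem_sel.2 ⟨hadj, ⟨a1, b1, c1.symm.trans d1, hlt⟩,
      (c2 _ (hact i v a1).2.1 le_rfl).symm.trans (d2 _ (hact i v a1).2.1 hle)⟩
    rw [a2] at this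
    exact notMem_empty _ this
  obtain ⟨χ', h1, h2, h3, -⟩ := commit (hχ.mono (show r ≤ r + (w + 3) by omega)) htr
    (fun i v c e => ⟨(hact i v (pk_some e).1.1).1, (pk_some e).2.1⟩)
    (fun i v u c hadj e1 e2 => by
      rcases lt_trichotomy (d i v).1 (d i u).1 with hl | hl | hl
      · exact hprop i v u c hadj e1 e2 (Or.inl hl)
      · rcases lt_or_gt_of_ne hadj.ne with hv | hv
        · exact hprop i v u c hadj e1 e2 (Or.inr ⟨hl, hv⟩)
        · exact hprop i u v c hadj.symm e2 e1 (Or.inr ⟨hl.symm, hv⟩)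
      · exact hprop i u v c hadj.symm e2 e1 (Or.inl hl))
  refine ⟨χ', h1, h2, fun i => ?_⟩
  have hsi : ∀ v u, u ∈ H i v → v ∈ H i u := fun v u hu => (hs i v u hu).2
  let s : V → V → ℝ := fun v u =>
    if y i v % 2 ^ m i v u = y i u % 2 ^ m i v u then 2 ^ m i v u else 0
  have hs0 : ∀ v u, 0 ≤ s v u := fun v u => by
    simp only [s]; split_ifs <;> positivity
  have e1 : ∑ v, ∑ u ∈ H i v, (if y i v % 2 ^ m i v u = y i u % 2 ^ m i v u then
      ω i v u * 2 ^ m i v u else 0) = ∑ v, ∑ u ∈ H i v, aa t v u (d i v) (d i u) * s v u := by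
    rw [← sym_sum hsi (fun v u => aa t v u (d i v) (d i u)) s fun v u hu => by
      simp only [s, hms i v u hu, eq_comm]]
    refine sum_congr rfl fun v _ => sum_congr rfl fun u hu => ?_
    simp only [s, hωe i v u hu, mul_ite, mul_zero]
  have e2 : ∑ v, ∑ u ∈ H i v, ω i v u = ∑ v, ((sel (chg (gr i) D (χ i) (A i) (p i) v)).card : ℝ) *
      (wt i v / 2 ^ (bl (gr i) D (χ i) v - t)) := by
    have h4 := sym_sum hsi (fun v u => aa t v u (d i v) (d i u)) (fun _ _ => 1) fun _ _ _ => rfl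
    simp only [mul_one] at h4
    rw [sum_congr rfl fun v _ => sum_congr rfl fun u hu => hωe i v u hu, h4]
    refine sum_congr rfl fun v _ => ?_
    unfold aa
    rw [← sum_filter, sum_const, nsmul_eq_mul]
    congr 3
    ext u
    rw [mem_filter, mH, mem_sel]
    exact ⟨fun h => ⟨h.1.1, h.2⟩, fun h => ⟨⟨h.1, h.2.1, h.2.2.1, h.2.2.2.1⟩, h.2⟩⟩
  have e3 : ∑ v, (∑ x ∈ range (2 ^ b), F i v x) / 2 ^ b ≤ 3 / 4 * ∑ v ∈ sel (A i), wt i v := by
    rw [sum_sel, mul_sum]
    refine sum_le_sum fun v _ => ?_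
    by_cases hv : A i v
    · simp only [F, if_pos hv]
      have h4 := hact i v hv
      exact avg_le (by have : (d i v).1 ≤ t + b := h4.2.2.1
                       omega) (fun y => p i v + 2 ^ t * y ∈ cov h (L i v)) (hw0 i v) h4.2.2.2.2
    · simp [F, hv]
  have e4 : ∑ v ∈ sel (fun v => A i v ∧ χ' i v = none), wt i v ≤
      ∑ v, F i v (y i v) + ∑ v, ∑ u ∈ H i v, aa t v u (d i v) (d i u) * s v u := by
    rw [sum_sel, ← sum_add_distrib]
    refine sum_le_sum fun v _ => ?_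
    have h4 : 0 ≤ F i v (y i v) := by
      simp only [F]
      split_ifs
      exacts [le_rfl, hw0 i v, le_rfl]
    have h5 : 0 ≤ ∑ u ∈ H i v, aa t v u (d i v) (d i u) * s v u :=
      sum_nonneg fun u _ => mul_nonneg (ha0 i v u) (hs0 v u)
    split_ifs with hv
    · by_cases hz : p i v + 2 ^ t * (y i v % 2 ^ ((d i v).1 - t)) ∈ cov h (L i v)
      · by_cases hb : B i v = ∅
        · obtain ⟨c, hc⟩ := pk_ne (P := A i v ∧ B i v = ∅) ⟨hv.1, hb⟩ hz
          have := h3 i v c hc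
          rw [hv.2] at this
          exact absurd this (by simp)
        · obtain ⟨u, hu⟩ := nonempty_iff_ne_empty.2 hb
          obtain ⟨a1, a2, a3⟩ := mem_sel.1 hu
          have hu' : u ∈ H i v := (mH i v u).2 ⟨a1, a2.1, a2.2.1, a2.2.2.1⟩
          have a4 : m i v u = (d i v).1 - t := by
            rw [hme i v u hu', min_eq_left]
            rcases a2.2.2.2 with h | h
            exacts [h.le, h.1.le]
          have a5 : aa t v u (d i v) (d i u) * s v u = wt i v := by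
            simp only [s, aa, a4, if_pos a2, if_pos a3]
            exact div_mul_cancel₀ _ (by positivity)
          have := single_le_sum (f := fun u => aa t v u (d i v) (d i u) * s v u)
            (fun u _ => mul_nonneg (ha0 i v u) (hs0 v u)) hu'
          simp only [a5] at this
          linarith
      · have : F i v (y i v) = wt i v := by simp only [F, if_pos hv.1, if_pos hz]
        linarith
    · linarith
  have h6 := hsum i
  rw [e1, e2] at h6
  linarith

end Pool.Agent.P.MP_6f280c_lc.Dc
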