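import Pool.Agent.P.MP_6f280c_lc.Dc.St

set_option autoImplicit false

namespace Pool.Agent.P.MP_6f280c_lc.Dc

open Finset

variable {V I : Type} [Fintype V] [LinearOrder V]

namespace PhaseP

/-- the residues that carry many hash values -/
def opt (t B : ℕ) (C : Finset ℕ) : Finset ℕ :=
  (range (2 ^ t)).filter fun p =>
    2 ^ (B - t) ≤ 4 * ((range (2 ^ (B - t))).filter (fun y => p + 2 ^ t * y ∈ C)).card

theorem opt_card {t B : ℕ} {C : Finset ℕ} (ht : t ≤ B) (hC : C ⊆ range (2 ^ B))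
    (h : 2 ^ B ≤ 2 * C.card) : 2 ^ t ≤ 4 * (opt t B C).card := by
  have hp : 0 < 2 ^ t := by positivity
  have hM : 0 < 2 ^ (B - t) := by positivity
  have e : 2 ^ B = 2 ^ t * 2 ^ (B - t) := by rw [← pow_add]; congr 1; omega
  let n : ℕ → ℕ := fun p => ((range (2 ^ (B - t))).filter (fun y => p + 2 ^ t * y ∈ C)).card
  have h1 : C.card ≤ ∑ p ∈ range (2 ^ t), n p := by
    rw [card_eq_sum_card_fiberwise (f := fun c => c % 2 ^ t) (t := range (2 ^ t))
      (fun c _ => mem_coe.2 (mem_range.2 (Nat.mod_lt _ hp)))]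
    refine sum_le_sum fun p _ => ?_
    refine card_le_card_of_injOn (fun c => c / 2 ^ t) (fun c hc => ?_) (fun c hc c' hc' e' => ?_)
    · obtain ⟨a1, a2⟩ := mem_filter.1 (mem_coe.1 hc)
      refine mem_coe.2 (mem_filter.2 ⟨mem_range.2 ?_, ?_⟩)
      · rw [Nat.div_lt_iff_lt_mul hp, mul_comm, ← e]
        exact mem_range.1 (hC a1)
      · rw [← a2, Nat.mod_add_div]
        exact a1
    · have a2 := (mem_filter.1 (mem_coe.1 hc)).2
      have a3 := (mem_filter.1 (mem_coe.1 hc')).2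
      have e'' : c / 2 ^ t = c' / 2 ^ t := e'
      rw [← Nat.mod_add_div c (2 ^ t), ← Nat.mod_add_div c' (2 ^ t), a2, a3, e'']
  have h2 : ∀ p ∈ range (2 ^ t), 4 * n p ≤
      2 ^ (B - t) + (if 2 ^ (B - t) ≤ 4 * n p then 4 * 2 ^ (B - t) else 0) := by
    intro p _
    have a1 : n p ≤ 2 ^ (B - t) := (card_filter_le _ _).trans (card_range _).le
    split_ifs <;> omega
  have h3 := sum_le_sum h2
  rw [← mul_sum, sum_add_distrib, ← sum_filter, sum_const, sum_const, card_range, smul_eq_mul,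
    smul_eq_mul] at h3
  have h4 : (filter (fun p => 2 ^ (B - t) ≤ 4 * n p) (range (2 ^ t))).card = (opt t B C).card := rfl
  rw [h4] at h3
  have h5 : 2 ^ t * 2 ^ (B - t) ≤ 4 * (opt t B C).card * 2 ^ (B - t) := by
    rw [e] at h
    nlinarith
  exact Nat.le_of_mul_le_mul_right h5 hM

theorem blen_facts {K K0 t b A : ℕ} (hK : K0 ≤ K) (hb : K ≤ 2 ^ (t + b))
    (hA : 16 * A * 2 ^ t ≤ K0) (ht : t = 0 ∨ 16 * 2 ^ t ≤ K0) :
    t ≤ blen K ∧ blen K ≤ t + b ∧ 8 * K + A * 2 ^ t ≤ 129 * 2 ^ blen K := by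
  have a1 : K < 2 ^ (Nat.log 2 K + 1) := Nat.lt_pow_succ_log_self (by norm_num) K
  have a2 : 2 ^ (Nat.log 2 K + 1) ≤ 2 ^ (blen K + 4) :=
    Nat.pow_le_pow_right (by norm_num) (by unfold blen; omega)
  have a3 : Nat.log 2 K ≤ t + b := by
    have := Nat.log_mono_right (b := 2) hb
    rwa [Nat.log_pow (by norm_num)] at this
  refine ⟨?_, by unfold blen; omega, ?_⟩
  · rcases ht with ht | ht
    · omega
    · have : 2 ^ (t + 4) < 2 ^ (Nat.log 2 K + 1) := by rw [pow_add]; omega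
      have := (Nat.pow_lt_pow_iff_right (by norm_num)).1 this
      unfold blen
      omega
  · rw [pow_add 2 (blen K)] at a2
    rw [mul_assoc] at hA
    omega

end PhaseP

open PhaseP in
theorem p_phase (gr : I → SimpleGraph V) (hB : PhBSt gr) : PhaseSt gr := by
  classical
  intro D t b A r0 w1 w2 w3 hX hAnd hTop r K0 h χ wt hr hχ hwt hw0 hK0 hA ht hD hsl
  let L : I → V → Finset ℕ := fun i v => lst (gr i) D (χ i) v
  have hL : Loc gr (r + 1) L := loc_lst hχ.1
  have hbl : Loc gr (r + 1) fun i v => bl (gr i) D (χ i) v := hL.map fun _ l => blen l.card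
  let U : I → V → Prop := fun i v => good (gr i) D h (χ i) v
  have hU : Loc gr (r + 1) U := ((hχ.1.mono (Nat.le_succ r)).prod hL).map
    fun _ a => a.1 = none ∧ 2 ^ blen a.2.card ≤ 2 * (cov h a.2).card
  have hf : ∀ i v, U i v → t ≤ bl (gr i) D (χ i) v ∧ bl (gr i) D (χ i) v ≤ t + b ∧
      8 * (L i v).card + A * 2 ^ t ≤ 129 * 2 ^ bl (gr i) D (χ i) v := fun i v hv => by
    have a1 : (unc (gr i) (χ i) v).card + K0 ≤ (L i v).card := hsl i v hv.1
    have a2 : (L i v).card ≤ D + 1 :=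
      (card_le_card (lst_subset_range _ _)).trans (card_range _).le
    exact blen_facts (le_trans (Nat.le_add_left _ _) a1) (a2.trans hD) hA ht
  let O : I → V → Finset ℕ := fun i v => opt t (bl (gr i) D (χ i) v) (cov h (L i v))
  have hO : Loc gr (r + 1) O := hL.map fun _ l => opt t (blen l.card) (cov h l)
  obtain ⟨p, hp, hpO, hcnt⟩ := hTop (r + 1) U O (by omega) hU hO fun i v hv =>
    ⟨filter_subset _ _, opt_card (hf i v hv).1 (fun c hc => by
      obtain ⟨c', -, e⟩ := mem_image.1 hc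
      exact mem_range.2 (e ▸ Nat.mod_lt _ (by positivity))) hv.2⟩
  let ch : I → V → V → Prop := fun i v u => chg (gr i) D (χ i) (U i) (p i) v u
  have hch : Loc gr (r + 1 + w3 + 1) ch := by
    intro i i' v hAg
    funext u
    refine propext ?_
    simp only [ch, chg]
    rw [← hAg.adj_iff (by omega) u]
    refine and_congr_right fun hu => ?_
    have e1 : bl (gr i) D (χ i) v = bl (gr i') D (χ i') v := hbl.here hAg (by omega)
    have e2 : bl (gr i) D (χ i) u = bl (gr i') D (χ i') u := hbl.adj hAg hu (by omega)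
    rw [hU.here hAg (by omega), hU.adj hAg hu (by omega), hp.here hAg (by omega),
      hp.adj hAg hu le_rfl, e1, e2]
  let q : I → V → ℝ := fun i v => wt i v / 2 ^ (bl (gr i) D (χ i) v - t)
  have hq : Loc gr (r + 1) q := ((hwt.mono (Nat.le_succ r)).prod hbl).map
    fun _ a => a.1 / 2 ^ (a.2 - t)
  have hq0 : ∀ i v, 0 ≤ q i v := fun i v => div_nonneg (hw0 i v) (by positivity)
  have hcc : ∀ i v, ((sel (ch i v)).card : ℝ) * q i v ≤ 129 * (if U i v then wt i v else 0) := by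
    intro i v
    by_cases hv : U i v
    · rw [if_pos hv]
      obtain ⟨a1, -, a3⟩ := hf i v hv
      have a4 := hcnt i v (p i v)
      have a5 : (sel (ch i v)).card ≤
          (sel (fun u => (gr i).Adj v u ∧ U i u ∧ p i u = p i v)).card :=
        card_sel_le fun u hu => ⟨hu.1, hu.2.2.1, hu.2.2.2.1.symm⟩
      have a6 : (sel (fun u => (gr i).Adj v u ∧ U i u)).card ≤ (unc (gr i) (χ i) v).card :=
        card_sel_le fun u hu => ⟨hu.1, hu.2.1⟩
      have a7 : (unc (gr i) (χ i) v).card + K0 ≤ (L i v).card := hsl i v hv.1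
      have e : 2 ^ bl (gr i) D (χ i) v = 2 ^ (bl (gr i) D (χ i) v - t) * 2 ^ t := by
        rw [← pow_add]; congr 1; omega
      have a8 : (sel (ch i v)).card * 2 ^ t ≤ 129 * 2 ^ (bl (gr i) D (χ i) v - t) * 2 ^ t := by
        have := Nat.mul_le_mul_right (2 ^ t) a5
        rw [mul_assoc, ← e]
        omega
      have a9 : ((sel (ch i v)).card : ℝ) ≤ 129 * 2 ^ (bl (gr i) D (χ i) v - t) := by
        exact_mod_cast Nat.le_of_mul_le_mul_right a8 (by positivity)
      refine (mul_le_mul_of_nonneg_right a9 (hq0 i v)).trans (le_of_eq ?_)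
      simp only [q]
      field_simp
    · have : sel (ch i v) = ∅ := eq_empty_of_forall_notMem fun u hu => hv (mem_sel.1 hu).2.1
      simp [this, hv]
  let F : I → V → ℕ → ℝ := fun i v a => if U i v ∧ a = 0 then -wt i v else 0
  have hF : Loc gr (r + 1 + w3 + 1) F := ((hU.prod (hwt.mono (Nat.le_succ r))).map
    fun _ d a => if d.1 ∧ a = 0 then -d.2 else 0).mono (by omega)
  let W : I → V → V → ℕ → ℕ → ℝ := fun i v u a a' =>
    if ch i v u ∧ a = 0 ∧ a' = 0 then 8 * q i v else 0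
  have hW : Loc gr (r + 1 + w3 + 1) W := (hch.prod (hq.mono (by omega))).map
    fun _ d u a a' => if d.1 u ∧ a = 0 ∧ a' = 0 then 8 * d.2 else 0
  obtain ⟨x, hx, -, hsum⟩ := hAnd (r + 1 + w3 + 1) 1 F W hF hW
    (fun i v u a a' => by
      simp only [W]
      split_ifs
      · have := hq0 i v
        positivity
      · exact le_rfl)
    (fun i v u a a' e => by
      have hc : ch i v u ∧ a = 0 ∧ a' = 0 := by
        by_contra hc
        exact e (if_neg hc)
      exact ⟨Near.of_adj hc.1.1, hc.1.1.ne⟩)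
  let Act : I → V → Prop := fun i v => U i v ∧ x i v = 0
  have hAct : Loc gr (r + 1 + w3 + 1 + w2 * 1) Act := ((hU.mono (by omega)).prod hx).map
    fun _ d => d.1 ∧ d.2 = 0
  obtain ⟨χ', h1, h2, h3⟩ := hB D t b w1 (r + 1 + w3 + 1 + w2 * 1) h χ Act p wt hX
    (hχ.mono (by omega)) hAct (hp.mono (by omega)) (hwt.mono (by omega)) hw0 fun i v hv => by
      obtain ⟨a1, a2⟩ := mem_filter.1 (hpO i v hv.1)
      exact ⟨hv.1.1, (hf i v hv.1).1, (hf i v hv.1).2.1, mem_range.1 a1, a2⟩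
  refine ⟨χ', h1.mono (by omega), h2, fun i => ?_⟩
  have h4 := h3 i
  have h5 := hsum i
  have e1 : ∑ v, F i v (x i v) = -∑ v ∈ sel (Act i), wt i v := by
    rw [sum_sel, ← sum_neg_distrib]
    refine sum_congr rfl fun v _ => ?_
    by_cases hv : Act i v
    · rw [if_pos hv]; exact if_pos hv
    · rw [if_neg hv, neg_zero]; exact if_neg hv
  have e2 : ∑ v, ∑ u, W i v u (x i v) (x i u) =
      8 * ∑ v, ((sel (chg (gr i) D (χ i) (Act i) (p i) v)).card : ℝ) * q i v := by
    rw [mul_sum]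
    refine sum_congr rfl fun v _ => ?_
    rw [card_sel_eq_sum, sum_mul, mul_sum]
    refine sum_congr rfl fun u _ => ?_
    have hi : (ch i v u ∧ x i v = 0 ∧ x i u = 0) ↔ chg (gr i) D (χ i) (Act i) (p i) v u :=
      ⟨fun a => ⟨a.1.1, ⟨a.1.2.1, a.2.1⟩, ⟨a.1.2.2.1, a.2.2⟩, a.1.2.2.2⟩,
        fun a => ⟨⟨a.1, a.2.1.1, a.2.2.1.1, a.2.2.2⟩, a.2.1.2, a.2.2.1.2⟩⟩
    by_cases hc : chg (gr i) D (χ i) (Act i) (p i) v u
    · rw [if_pos hc, one_mul]; exact if_pos (hi.2 hc)
    · rw [if_neg hc, zero_mul, mul_zero]; exact if_neg fun a => hc (hi.1 a)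
  have h0 : (0 : ℕ) ∈ range (2 ^ 13) := mem_range.2 (by positivity)
  generalize range (2 ^ 13) = R13 at h0 h5
  have e3 : ∑ v, (∑ a ∈ R13, F i v a) / 2 ^ 13 =
      -(∑ v ∈ sel (U i), wt i v) / 2 ^ 13 := by
    rw [← sum_div, sum_sel, ← sum_neg_distrib]
    congr 1
    refine sum_congr rfl fun v _ => ?_
    rw [sum_eq_single_of_mem 0 h0 fun a _ ha => if_neg fun e => ha e.2]
    by_cases hv : U i v
    · rw [if_pos hv]; exact if_pos ⟨hv, rfl⟩
    · rw [if_neg hv, neg_zero]; exact if_neg fun e => hv e.1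
  have e4 : ∑ v, ∑ u, ∑ a ∈ R13, ∑ a' ∈ R13, W i v u a a' ≤
      8 * 129 * ∑ v ∈ sel (U i), wt i v := by
    rw [sum_sel, mul_sum]
    refine sum_le_sum fun v _ => ?_
    have : ∑ u, ∑ a ∈ R13, ∑ a' ∈ R13, W i v u a a' =
        8 * (((sel (ch i v)).card : ℝ) * q i v) := by
      rw [card_sel_eq_sum, sum_mul, mul_sum]
      refine sum_congr rfl fun u _ => ?_
      rw [sum_eq_single_of_mem 0 h0 fun a _ ha =>
          sum_eq_zero fun a' _ => if_neg fun e => ha e.2.1,
        sum_eq_single_of_mem 0 h0 fun a _ ha => if_neg fun e => ha e.2.2]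
      by_cases hc : ch i v u
      · rw [if_pos hc, one_mul]; exact if_pos ⟨hc, rfl, rfl⟩
      · rw [if_neg hc, zero_mul, mul_zero]; exact if_neg fun a => hc a.1
    rw [this, mul_assoc]
    exact mul_le_mul_of_nonneg_left (hcc i v) (by norm_num)
  have e5 : ∑ v ∈ sel (fun v => good (gr i) D h (χ i) v ∧ χ' i v = none), wt i v +
      ∑ v ∈ sel (Act i), wt i v ≤ ∑ v ∈ sel (fun v => Act i v ∧ χ' i v = none), wt i v +
        ∑ v ∈ sel (U i), wt i v := by
    rw [sum_sel, sum_sel, sum_sel, sum_sel, ← sum_add_distrib, ← sum_add_distrib]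
    refine sum_le_sum fun v _ => ?_
    have := hw0 i v
    by_cases a1 : U i v
    · have a1' : good (gr i) D h (χ i) v := a1
      by_cases a2 : Act i v <;> by_cases a3 : χ' i v = none <;> simp [a1, a1', a2, a3, this]
    · have a1' : ¬ good (gr i) D h (χ i) v := a1
      have a2 : ¬ Act i v := fun e => a1 e.1
      simp [a1, a1', a2]
  have hW0 : 0 ≤ ∑ v ∈ sel (U i), wt i v := sum_nonneg fun v _ => hw0 i v
  rw [e1, e2, e3] at h5
  have h6 : 2 * ((∑ v, ∑ u, ∑ a ∈ R13, ∑ a' ∈ R13, W i v u a a') / 4 ^ 13) ≤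
      2 * ((8 * 129 * ∑ v ∈ sel (U i), wt i v) / 4 ^ 13) := by gcongr
  have h7 := h5.trans (add_le_add le_rfl h6)
  show _ ≤ (1 - 1 / 2 ^ 16) * ∑ v ∈ sel (U i), wt i v
  simp only [q] at h7
  generalize ∑ v ∈ sel (U i), wt i v = W0 at *
  norm_num at h7 ⊢
  linarith

end Pool.Agent.P.MP_6f280c_lc.Dc
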