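import Pool.Agent.P.MP_6f280c_lc.Dc.St

/-! Item 28: all nodes that stay without colour have a large slack. -/

set_option autoImplicit false

namespace Pool.Agent.P.MP_6f280c_lc.Dc

open Finset

variable {V I : Type} [Fintype V] [LinearOrder V]

namespace Pre

theorem mp {u c a b : ℕ} (hc : c ≤ u) (h1 : 1 ≤ u) (h : a + 1 ≤ b) : c * u ^ a ≤ u ^ b :=
  calc c * u ^ a ≤ u * u ^ a := Nat.mul_le_mul_right _ hc
    _ = u ^ (a + 1) := by ring
    _ ≤ u ^ b := Nat.pow_le_pow_right h1 h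

theorem mw {u c a b W : ℕ} (hc : c ≤ u) (h1 : 1 ≤ u) (h : a + 1 ≤ b) :
    c * (W * u ^ a) ≤ W * u ^ b := by
  rw [Nat.mul_left_comm]
  exact Nat.mul_le_mul_left _ (mp hc h1 h)

/-- the conditions on the natural numbers for the generation of slack -/
theorem ar1 {u W D s a : ℕ} (hu : 2 ^ 60 ≤ u) (hW : 1 ≤ W) (h1 : 4 * (W * u ^ 419) ≤ D)
    (h2 : D < 4 * (W * u ^ 420)) (hs : 1 ≤ s) (hsu : 24 * s ≤ u) (ha : 4096 * a ≤ u) :
    2 * s * (2 * D / u ^ 92 + 1 + a) ≤ W * u ^ 330 ∧ D / u ^ 412 ≤ 4 * (W * u ^ 8) ∧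
    0 < (D + 1) / s ∧ D ≤ 2 * s * ((D + 1) / s) ∧ (D + 1) / s ≤ 4 * (W * u ^ 420) ∧
    8 * (2 * s * (2 * D / u ^ 92 + 1 + a) + 1) ≤ W * u ^ 399 ∧
    2 * (2 * D / u ^ 92 + 1 + a) ≤ (D + 1) / s ∧ 16 * u ^ 92 * a ≤ W * u ^ 399 ∧
    1024 * u ^ 92 * u ^ 276 * ((D + 1) / s) * a ≤ (W * u ^ 399) ^ 2 ∧
    512 * u ^ 92 * u ^ 276 * ((D + 1) / s) * (D / u ^ 412) ≤ (W * u ^ 399) ^ 2 := by
  have u1 : 1 ≤ u := by omega
  have le : ∀ x y : ℕ, x ≤ y → W * u ^ x ≤ W * u ^ y := fun x y h =>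
    Nat.mul_le_mul_left _ (Nat.pow_le_pow_right u1 h)
  have lw : ∀ x : ℕ, u ^ x ≤ W * u ^ x := fun x => Nat.le_mul_of_pos_left _ hW
  have uu : u ≤ W * u ^ 328 := le_trans (Nat.le_self_pow (by norm_num) u) (lw 328)
  have a1 : 2 * D / u ^ 92 ≤ 8 * (W * u ^ 328) := by
    refine Nat.div_le_of_le_mul ?_
    have : u ^ 92 * (8 * (W * u ^ 328)) = 8 * (W * u ^ 420) := by ring
    omega
  have a2 : 2 * D / u ^ 92 + 1 + a ≤ W * u ^ 329 := by
    have := mw (u := u) (c := 9) (a := 328) (b := 329) (W := W) (by omega) u1 le_rfl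
    omega
  have a3 : 24 * s * (W * u ^ 329) ≤ W * u ^ 330 := mw hsu u1 le_rfl
  have a4 : s * (2 * D / u ^ 92 + 1 + a) ≤ s * (W * u ^ 329) := Nat.mul_le_mul_left _ a2
  have a5 : D / u ^ 412 ≤ 4 * (W * u ^ 8) := by
    refine Nat.div_le_of_le_mul ?_
    have : u ^ 412 * (4 * (W * u ^ 8)) = 4 * (W * u ^ 420) := by ring
    omega
  have a6 : (D + 1) / s ≤ 4 * (W * u ^ 420) := (Nat.div_le_self _ _).trans h2
  have a7 : 1 ≤ s * (W * u ^ 329) := Nat.mul_pos hs (Nat.mul_pos hW (Nat.pow_pos u1))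
  have a8 := le 330 399 (by norm_num)
  have a9 := le 330 419 (by norm_num)
  have a10 := le 328 419 (by norm_num)
  have a11 : D + 1 < s * ((D + 1) / s + 1) := Nat.lt_mul_div_succ _ hs
  refine ⟨by nlinarith, a5, Nat.div_pos (by omega) hs, by nlinarith, a6, by nlinarith,
    (Nat.le_div_iff_mul_le hs).mpr (by nlinarith), ?_, ?_, ?_⟩
  · calc 16 * u ^ 92 * a = (16 * a) * u ^ 92 := by ring
      _ ≤ u ^ 399 := mp (by omega) u1 (by norm_num)
      _ ≤ _ := lw 399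
  · calc 1024 * u ^ 92 * u ^ 276 * ((D + 1) / s) * a
        ≤ 1024 * u ^ 92 * u ^ 276 * (4 * (W * u ^ 420)) * a := by gcongr
      _ = (4096 * a) * (W * u ^ 788) := by ring
      _ ≤ W * u ^ 798 := mw ha u1 (by norm_num)
      _ ≤ W * (W * u ^ 798) := Nat.le_mul_of_pos_left _ hW
      _ = _ := by ring
  · calc 512 * u ^ 92 * u ^ 276 * ((D + 1) / s) * (D / u ^ 412)
        ≤ 512 * u ^ 92 * u ^ 276 * (4 * (W * u ^ 420)) * (4 * (W * u ^ 8)) := by gcongr
      _ = 8192 * (W ^ 2 * u ^ 796) := by ring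
      _ ≤ W ^ 2 * u ^ 798 := mw (by omega) u1 (by norm_num)
      _ = _ := by ring

/-- the conditions on the real numbers for the generation of slack -/
theorem ar2 {u W D s a g Q e X Y : ℕ} (hu : 4 ≤ u) (he : 1 ≤ e) (hQ : 0 < Q) (hD : D ≤ 2 * s * Q)
    (hg : g * (8 * s + a) ≤ u) (h : 4 * u ^ (e + 1) * X ≤ Y * (W * u ^ 399) ^ 2) :
    2 * (g : ℝ) * ((u : ℝ) ^ e + 1 + 3) * (4 * D / Q + a) * X ≤ Y * ((W * u ^ 399 : ℕ) : ℝ) ^ 2 := by
  have q0 : (0 : ℝ) < Q := by exact_mod_cast hQ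
  have h1 : (4 * D / Q : ℝ) ≤ 8 * s := by
    rw [div_le_iff₀ q0]
    have : (D : ℝ) ≤ 2 * s * Q := by exact_mod_cast hD
    linarith
  have h2 : (u : ℝ) ^ e + 1 + 3 ≤ 2 * u ^ e := by
    have : 4 ≤ u ^ e := hu.trans (Nat.le_self_pow (by omega) u)
    have : (4 : ℝ) ≤ u ^ e := by exact_mod_cast this
    linarith
  have h3 : (g : ℝ) * (8 * s + a) ≤ u := by exact_mod_cast hg
  have h4 : (4 : ℝ) * u ^ (e + 1) * X ≤ Y * ((W * u ^ 399 : ℕ) : ℝ) ^ 2 := by exact_mod_cast h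
  calc 2 * (g : ℝ) * ((u : ℝ) ^ e + 1 + 3) * (4 * D / Q + a) * X
      ≤ 2 * (g : ℝ) * (2 * u ^ e) * (8 * s + a) * X := by gcongr
    _ = 4 * u ^ e * (g * (8 * s + a)) * X := by ring
    _ ≤ 4 * u ^ e * u * X := by gcongr
    _ = 4 * u ^ (e + 1) * X := by ring
    _ ≤ _ := h4

theorem pw (s c : ℕ) : 2 ^ (c * 30 * s) = (2 ^ (30 * s)) ^ c := by
  rw [← pow_mul]
  congr 1
  ring

theorem tm {s J : ℕ} (hs : 1 ≤ s) (hJ : J ≤ s) :
    4 + s * (4 * (6 * s + 2) + 4 + (2 ^ 11 * (1380 * s) + 3) * (2 * (6 * s + 2) + 3) +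
      (4 * (6 * s + 2) + 4 + (2 ^ 11 * (4140 * s) + 3) * (2 * (6 * s + 2) + 3)) + 12) + 4 +
      (J * (2 * (6 * s + 2) + 4 + s * (2 * (6 * s + 2) + 5 * (2 ^ 11 * (30 * s) + 3) + 12)) +
        (6 + s * (5 * (2 ^ 11 * (240 * s) + 3) + 10)) +
        s * (2 * (6 * s + 2) + 5 * (2 ^ 11 * (30 * s) + 3) + 12) + 5 * s) ≤ 2 ^ 32 * s ^ 3 := by
  have h0 := Nat.mul_le_mul_right
    (2 * (6 * s + 2) + 4 + s * (2 * (6 * s + 2) + 5 * (2 ^ 11 * (30 * s) + 3) + 12)) hJ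
  have h1 : s ≤ s ^ 2 := Nat.le_self_pow (by norm_num) s
  have h2 : s ^ 2 ≤ s ^ 3 := Nat.pow_le_pow_right hs (by norm_num)
  nlinarith

end Pre

open Pre in
theorem p_pre (gr : I → SimpleGraph V) (hA : AcdSt gr) (hS : SampSt gr) (hK : SlackSt gr)
    (hL : LcSt gr) (hP : PaSt gr) (hF : FaSt gr) (hD : DenseSt gr) : PreSt gr := by
  intro D L s r0 k lab0 hdeg hn hLs hs hDu hDn hcl hk hkl hAnd
  have and1 := hAnd (1380 * s) (by omega)
  have and2 := hAnd (4140 * s) (by omega)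
  have and3 := hAnd (30 * s) le_rfl
  have and4 := hAnd (240 * s) (by omega)
  have e1 : 2 ^ (2 * (1380 * s)) = (2 ^ (30 * s)) ^ 92 := by rw [← pw]; congr 1; ring
  have e2 : 2 ^ (2 * (4140 * s)) = (2 ^ (30 * s)) ^ 276 := by rw [← pw]; congr 1; ring
  have e3 : 2 ^ (2 * (30 * s)) = (2 ^ (30 * s)) ^ 2 := by rw [← pw]; congr 1; ring
  have e4 : 2 ^ (2 * (240 * s)) = (2 ^ (30 * s)) ^ 16 := by rw [← pw]; congr 1; ring
  have l1 : (2 : ℝ) ^ (1380 * s) = ((2 ^ (30 * s) : ℕ) : ℝ) ^ 46 := by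
    exact_mod_cast (pw s 46)
  have l2 : (2 : ℝ) ^ (4140 * s) = ((2 ^ (30 * s) : ℕ) : ℝ) ^ 138 := by
    exact_mod_cast (pw s 138)
  have l3 : (2 : ℝ) ^ (30 * s) = ((2 ^ (30 * s) : ℕ) : ℝ) := by push_cast; rfl
  have l4 : (2 : ℝ) ^ (240 * s) = ((2 ^ (30 * s) : ℕ) : ℝ) ^ 8 := by
    exact_mod_cast (pw s 8)
  have f0 : s ≤ 2 ^ s := Nat.lt_two_pow_self.le
  have fp : ∀ x c : ℕ, x * s + c ≤ 30 * s → 2 ^ c * (2 ^ s) ^ x ≤ 2 ^ (30 * s) := fun x c h => by
    rw [← pow_mul, ← pow_add]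
    exact Nat.pow_le_pow_right (by norm_num) (by rw [mul_comm s x]; omega)
  have f22 : 2 ^ (22 * s) = (2 ^ s) ^ 22 := by rw [← pow_mul, mul_comm]
  have f1 : 2 ^ 60 ≤ 2 ^ (30 * s) := Nat.pow_le_pow_right (by norm_num) (by omega)
  have f2 := fp 23 2 (by omega)
  have f3 := fp 22 12 (by omega)
  have f4 := fp 3 2 (by omega)
  have f5 := fp 1 5 (by omega)
  have f6 : 8 ^ s = (2 ^ s) ^ 3 := by
    rw [← pow_mul, mul_comm, pow_mul]
    norm_num
  have f7 : Fintype.card V < (2 ^ s) ^ s := by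
    rw [← pow_mul, ← sq]
    exact lt_of_le_of_lt hn (Nat.pow_lt_pow_right (by norm_num) (by omega))
  have f8 : ∀ J, (2 ^ (30 * s)) ^ J ≤ D → J ≤ s := fun J h => by
    have h1 : 2 ^ (30 * s * J) < 2 ^ (s * s) := by
      rw [pow_mul 2 (30 * s), pow_mul 2 s s]
      omega
    have h2 := (Nat.pow_lt_pow_iff_right (by norm_num)).mp h1
    by_contra h3
    nlinarith
  have f9 : 4 ≤ 2 ^ s := Nat.pow_le_pow_right (n := 2) (i := 2) (by norm_num) hs
  have lam : 2 ^ (3 * L + 3) = 8 * (2 ^ L) ^ 3 := by rw [pow_add, mul_comm 3 L, pow_mul]; ring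
  rw [l1] at and1
  rw [l2] at and2
  rw [l3] at and3
  rw [l4] at and4
  rw [f22] at hkl
  generalize 2 ^ (30 * s) = u at *
  generalize 2 ^ s = g at *
  set a := k * (3 * L + 3) with ha
  have u1 : 1 ≤ u := by omega
  have g22 : 8 * g ≤ g ^ 22 := by
    have h1 : g ^ 3 ≤ g ^ 22 := Nat.pow_le_pow_right (by omega) (by norm_num)
    have h2 : 8 ≤ g * g := by nlinarith
    calc 8 * g ≤ g * g * g := Nat.mul_le_mul_right _ h2
      _ = g ^ 3 := by ring
      _ ≤ _ := h1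
  have g23 : g ^ 23 = g * g ^ 22 := by ring
  -- the scale
  obtain ⟨j, hj1, hj2⟩ : ∃ j, 4 * (u ^ j * u ^ 419) ≤ D ∧ D < 4 * (u ^ j * u ^ 420) := by
    have ex : ∃ j, D < 4 * (u ^ j * u ^ 420) := ⟨D, by
      have h1 : D < u ^ D := Nat.lt_pow_self (by omega)
      have h2 : u ^ D ≤ u ^ D * u ^ 420 := Nat.le_mul_of_pos_right _ (Nat.pow_pos u1)
      omega⟩
    refine ⟨Nat.find ex, ?_, Nat.find_spec ex⟩
    rcases h : Nat.find ex with _ | j
    · have := mp (u := u) (c := 4) (a := 419) (b := 420) (by omega) u1 le_rfl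
      rw [pow_zero, one_mul]
      omega
    · have h1 := Nat.find_min ex (m := j) (by omega)
      have h2 : u ^ (j + 1) * u ^ 419 = u ^ j * u ^ 420 := by ring
      omega
  have eJ : u ^ (398 + j) = u ^ j * u ^ 398 := by ring
  have W1 : 1 ≤ u ^ j := Nat.pow_pos u1
  have hJ : 398 + j ≤ s := f8 _ (by
    have := Nat.mul_le_mul_left (u ^ j) (Nat.pow_le_pow_right u1 (show 398 ≤ 419 by norm_num))
    omega)
  generalize u ^ j = W at *
  have le : ∀ x y : ℕ, x ≤ y → W * u ^ x ≤ W * u ^ y := fun x y h =>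
    Nat.mul_le_mul_left _ (Nat.pow_le_pow_right u1 h)
  obtain ⟨b1, b2, b3, b4, b5, b6, b7, b8, b9, b10⟩ :=
    ar1 (a := a) f1 W1 hj1 hj2 (show 1 ≤ s by omega) (by omega) (by omega)
  -- almost-cliques and clusters
  obtain ⟨dn, cl, hdn, hld, hd1, hd2⟩ := hA D (W * u ^ 399) hdeg (by
    have h1 := mw (u := u) (c := 6) (a := 399) (b := 419) (W := W) (by omega) u1 (by norm_num)
    have h2 : 0 < W * u ^ 419 := Nat.mul_pos W1 (Nat.pow_pos u1)
    omega)
  have hld' : Lead gr (r0 + 4) cl := ⟨hld.1.mono (by omega), hld.2⟩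
  have hdec : Dec gr (r0 + 4) (6 * s + 2) k fun i v => lab0 i (cl i v) := by
    refine ⟨fun i i' v hv => ?_, fun i v => ?_, fun i v => ?_⟩
    · show lab0 i (cl i v) = lab0 i' (cl i' v)
      rw [← hld'.1 i i' v hv]
      exact hcl.1.far hv (hld.2 i v) (by omega)
    · exact ((hld.2 i v).trans (hcl.2.1 i _)).mono (by omega)
    · refine le_trans (card_le_card fun z hz => ?_) (hcl.2.2 i v)
      obtain ⟨x, hx, rfl⟩ := mem_image.mp hz
      exact mem_image.mpr ⟨cl i x, mem_sel.mpr ((Near.of_adj (mem_nbr.mp hx)).trans (hld.2 i x)),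
        rfl⟩
  have hsame : ∀ i u v, cl i u = cl i v → lab0 i (cl i u) = lab0 i (cl i v) := fun i u v h => by
    rw [h]
  have N1 : 1 ≤ 2 ^ L := Nat.pow_pos (by norm_num)
  have hlam : ∀ x, x ≤ 420 → 4 * Fintype.card V ^ 2 * (D + 1 + u ^ x) ≤ 2 ^ (3 * L + 3) :=
    fun x hx => by
      have h1 : u ^ x ≤ u ^ 420 := Nat.pow_le_pow_right u1 hx
      calc 4 * Fintype.card V ^ 2 * (D + 1 + u ^ x) ≤ 4 * (2 ^ L) ^ 2 * (2 * 2 ^ L) := by
            gcongr
            omega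
        _ = _ := by rw [lam]; ring
  have s1 := hS D (r0 + 4) _ k (3 * L + 3) _ _ _ _ hdeg hdec and1 (by positivity)
    (by rw [e1]; exact hlam 92 (by norm_num))
  have s2 := hS D (r0 + 4) _ k (3 * L + 3) _ _ _ _ hdeg hdec and2 (by positivity)
    (by rw [e2]; exact hlam 276 (by norm_num))
  have gs : g * (8 * s + a) ≤ u := by
    have : g * (8 * s + a) ≤ g * (2 * g ^ 22) := Nat.mul_le_mul_left _ (by omega)
    nlinarith
  have c1 : 2 * D < u ^ 92 * (2 * D / u ^ 92 + 1) := Nat.lt_mul_div_succ _ (Nat.pow_pos u1)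
  -- slack for the sparse nodes
  obtain ⟨χ1, p1, p2, p3⟩ := hK D (r0 + 4) _ _ a _ _ (r0 + 4) (W * u ^ 399) ((D + 1) / s)
    (2 * D / u ^ 92 + 1 + a) g s (D / u ^ 412) _ _
    (fun i v => ¬ dn i v ∧ 2 * D < 2 * (nbr gr i v).card + W * u ^ 399) hdeg s1 s2 le_rfl
    (((hdn.mono (by omega)).prod ((loc_nbr (gr := gr)).mono (by omega))).map
      fun _ (x : Prop × Finset V) => ¬ x.1 ∧ 2 * D < 2 * x.2.card + W * u ^ 399) b3
    (Nat.mul_div_le _ _) (fun i v h => (hd2 i v h.1).resolve_left (by have := h.2; omega))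
    (by rw [e1, Nat.mul_add]; omega)
    (by
      have := Nat.mul_le_mul_right (2 * D / u ^ 92 + 1)
        (Nat.pow_le_pow_right u1 (show 92 ≤ 276 by norm_num))
      rw [e2, Nat.mul_add]
      omega)
    b6 b7 (by rw [e1]; exact b8) (by rw [e1, e2]; exact b9) (by rw [e1, e2]; exact b10)
    (by positivity) (by positivity)
    (by
      have h := ar2 (W := W) (e := 46) (X := 384 * D ^ 2) (Y := u ^ 92) (by omega) (by norm_num) b3
        b4 gs (by
          calc 4 * u ^ (46 + 1) * (384 * D ^ 2)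
              ≤ 4 * u ^ (46 + 1) * (384 * (4 * (W * u ^ 420)) ^ 2) := by gcongr
            _ = 24576 * (W ^ 2 * u ^ 887) := by ring
            _ ≤ W ^ 2 * u ^ 890 := mw (by omega) u1 (by norm_num)
            _ = _ := by ring)
      have e : (2 : ℝ) ^ (2 * (1380 * s)) = ((u ^ 92 : ℕ) : ℝ) := by exact_mod_cast e1
      rw [e]
      exact_mod_cast h)
    (by
      have h := ar2 (W := W) (e := 138) (X := 1024 * D * u ^ 92 * ((D + 1) / s)) (Y := u ^ 276)
        (by omega) (by norm_num) b3 b4 gs (by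
          calc 4 * u ^ (138 + 1) * (1024 * D * u ^ 92 * ((D + 1) / s))
              ≤ 4 * u ^ (138 + 1) * (1024 * (4 * (W * u ^ 420)) * u ^ 92 * (4 * (W * u ^ 420))) := by
                gcongr
            _ = 65536 * (W ^ 2 * u ^ 1071) := by ring
            _ ≤ W ^ 2 * u ^ 1074 := mw (by omega) u1 (by norm_num)
            _ = _ := by ring)
      have e : (2 : ℝ) ^ (2 * (1380 * s)) = ((u ^ 92 : ℕ) : ℝ) := by exact_mod_cast e1
      have e' : (2 : ℝ) ^ (2 * (4140 * s)) = ((u ^ 276 : ℕ) : ℝ) := by exact_mod_cast e2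
      rw [e, e']
      exact_mod_cast h)
    f7
  -- the dense nodes
  have hlc := hL D (r0 + 4) _ k (3 * L + 3) _ _ g s _ _ cl hdeg hdec hld' hsame and3
    (by positivity)
    (by
      have h : g * (u + 1) * (1 + a) ≤ u ^ 2 := by
        calc g * (u + 1) * (1 + a) ≤ g * (2 * u) * (2 * g ^ 22) := by gcongr <;> omega
          _ = (2 ^ 2 * g ^ 23) * u := by ring
          _ ≤ u * u := Nat.mul_le_mul_right _ f2
          _ = _ := by ring
      rw [← e3, ha] at h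
      exact_mod_cast h)
    f7 (by
      calc 4 * Fintype.card V * (D + 1) ≤ 4 * 2 ^ L * 2 ^ L := by gcongr; omega
        _ = 4 * (2 ^ L) ^ 2 * 1 := by ring
        _ ≤ 8 * (2 ^ L) ^ 2 * 2 ^ L := by gcongr; norm_num
        _ = _ := by rw [lam]; ring)
  have hpa := hP (r0 + 4) _ k (3 * L + 3) _ cl hdec hld' hsame hk (by
    rw [lam]
    exact Nat.mul_le_mul_left _ (hn.trans (Nat.le_self_pow (by norm_num) _)))
  have hfa := hF (r0 + 4) _ _ g s (u ^ 7) _ cl hld' and4 (by positivity)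
    (by
      have h : g * (u ^ 8 + 1) * u ^ 7 ≤ u ^ 16 := by
        have h8 : 1 ≤ u ^ 8 := Nat.pow_pos u1
        calc g * (u ^ 8 + 1) * u ^ 7 ≤ g * (2 * u ^ 8) * u ^ 7 := by gcongr; omega
          _ = (2 * g) * u ^ 15 := by ring
          _ ≤ _ := mp (by rw [pow_one] at f5; omega) u1 le_rfl
      rw [← e4] at h
      exact_mod_cast h)
    f7
  rw [e3] at hlc
  rw [e4] at hfa
  have u2 : 1 ≤ u ^ 2 := Nat.pow_pos u1
  have d1 : (4 * u ^ 2 + 2) * u ^ 2 ≤ u ^ 5 :=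
    calc (4 * u ^ 2 + 2) * u ^ 2 ≤ (6 * u ^ 2) * u ^ 2 := Nat.mul_le_mul_right _ (by omega)
      _ = 6 * u ^ 4 := by ring
      _ ≤ _ := mp (by omega) u1 le_rfl
  have lU := ((hdn.mono (Nat.le_add_right_of_le (Nat.le_add_left 4 r0))).prod p1.1).map
    fun _ (x : Prop × Option ℕ) => x.1 ∧ x.2 = none
  have lC := loc_sel_near (k := 4) (hld'.1.mono (Nat.le_add_right_of_le (Nat.le_add_right _ _)))
    (lU.prod (hld'.1.mono (Nat.le_add_right _ _))) (fun _ _ x y => y.1 ∧ y.2 = x)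
    (fun i v x h => (hld.2 i v).trans (by
      have h1 : cl i x = cl i v := h.2
      rw [← h1]
      exact (hld.2 i x).symm))
  obtain ⟨χ2, q1, q2, q3⟩ := hD D (r0 + 4) _ _ s _ a _ _ _ u (u ^ 21) (u ^ 2) (u ^ 5) cl hdeg hld'
    hlc hpa hfa (by omega) (by rw [← pow_add]) (by rw [← pow_add])
    ((Nat.mul_le_mul_right u d1).trans (by
      rw [← pow_succ]
      exact Nat.pow_le_pow_right u1 (by norm_num))) d1
    (398 + j) (3 * u) _ χ1 (fun i v => dn i v ∧ χ1 i v = none)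
    (fun i v => u ^ (398 + j) * u ^ 21 ≤ (clq (cl i) (fun x => dn i x ∧ χ1 i x = none) v).card)
    (by omega) (by omega)
    (by
      have h1 : 8 ^ (398 + j) ≤ 8 ^ s := Nat.pow_le_pow_right (by norm_num) hJ
      calc 8 ^ (398 + j) * (3 * u) = (3 * 8 ^ (398 + j)) * u ^ 1 := by ring
        _ ≤ _ := mp (by omega) u1 le_rfl)
    (Nat.le_add_right_of_le (Nat.le_add_right _ _)) (p1.mono (Nat.le_add_right _ 4))
    (lU.mono (Nat.le_add_right _ 4))
    (lC.map fun _ (x : Finset V) => u ^ (398 + j) * u ^ 21 ≤ x.card)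
    (fun i x v h hb => by
      unfold clq at hb ⊢
      rwa [← h])
    (fun i v h => by
      obtain ⟨h1, h2, -⟩ := hd1 i v h.1
      have h3 : u ^ (398 + j) * (3 * u) = 3 * (W * u ^ 399) := by rw [eJ]; ring
      have h4 := card_le_card (s := extS (gr i) (cl i) (fun x => dn i x ∧ χ1 i x = none) v)
        (t := extS (gr i) (cl i) (dn i) v) fun x hx =>
          mem_extS.mpr ⟨(mem_extS.mp hx).1, (mem_extS.mp hx).2.1.1, (mem_extS.mp hx).2.2⟩
      have h5 := card_le_card (s := antiS (gr i) (cl i) (fun x => dn i x ∧ χ1 i x = none) v)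
        (t := antiS (gr i) (cl i) (dn i) v) fun x hx =>
          mem_antiS.mpr ⟨(mem_antiS.mp hx).1.1, (mem_antiS.mp hx).2⟩
      exact ⟨h.2, by omega, by omega⟩)
    (fun i v _ hb => hb)
    (fun i v h hb => by
      obtain ⟨h1, -, h2⟩ := hd1 i v h.1
      have h3 := unc_add_cold (gr := gr) χ1 i v
      have h4 := p2 i v
      have h5 : (unc (gr i) (χ1 i) v).card ≤ (sel fun x => (gr i).Adj v x ∧ χ1 i x = none ∧
          ¬ (dn i x ∧ χ1 i x = none)).card + (sel fun x => (gr i).Adj v x ∧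
            (dn i x ∧ χ1 i x = none)).card :=
        card_sel_le_add fun x hx => by tauto
      have h6 : (sel fun x => (gr i).Adj v x ∧ (dn i x ∧ χ1 i x = none)).card ≤
          (clq (cl i) (fun x => dn i x ∧ χ1 i x = none) v).card +
            (extS (gr i) (cl i) (dn i) v).card :=
        card_sel_le_add fun x hx => by tauto
      have h7 : u ^ (398 + j) * u ^ 21 = W * u ^ 419 := by rw [eJ]; ring
      have h8 : (4 * u ^ 2 + 1) * (u ^ (398 + j) * u ^ 2) ≤ 5 * (W * u ^ 402) :=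
        calc (4 * u ^ 2 + 1) * (u ^ (398 + j) * u ^ 2) ≤ (5 * u ^ 2) * (u ^ (398 + j) * u ^ 2) :=
              Nat.mul_le_mul_right _ (by omega)
          _ = _ := by rw [eJ]; ring
      have h9 := mw (u := u) (c := 8) (a := 402) (b := 419) (W := W) (by omega) u1 (by norm_num)
      have h10 := le 399 402 (by norm_num)
      have h11 := le 330 402 (by norm_num)
      rw [h7] at hb
      omega)
  refine ⟨χ2, q1.mono ?_, fun i v hv => ?_⟩
  · have := tm (show 1 ≤ s by omega) hJ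
    omega
  · have h1 : ¬ dn i v := fun h => q3 i v ⟨h, q2.none hv⟩ hv
    by_cases h2 : 2 * D < 2 * (nbr gr i v).card + W * u ^ 399
    · exact Sl.ext q2 (p3 i v ⟨h1, h2⟩)
    · have h3 := lst_card (gr := gr) (D := D) χ2 i v
      have h4 := mw (u := u) (c := 8) (a := 8) (b := 399) (W := W) (by omega) u1 (by norm_num)
      unfold Sl
      omega

end Pool.Agent.P.MP_6f280c_lc.Dc
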