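import Pool.Agent.P.MP_6f280c_lc.Dc.St

/-! The centres choose one slot each; this gives the sample. -/

set_option autoImplicit false

namespace Pool.Agent.P.MP_6f280c_lc.Dc

open Finset

variable {V I : Type} [Fintype V] [LinearOrder V]

namespace Samp

open Classical in
/-- indicator of a proposition -/
noncomputable def ind (p : Prop) : ℝ := if p then 1 else 0

theorem ind_pos {p : Prop} (h : p) : ind p = 1 := if_pos h
theorem ind_neg {p : Prop} (h : ¬ p) : ind p = 0 := if_neg h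

theorem ind_nonneg (p : Prop) : 0 ≤ ind p := by
  by_cases h : p
  · rw [ind_pos h]; exact zero_le_one
  · rw [ind_neg h]

theorem ind_ne {p : Prop} (h : ind p ≠ 0) : p := by
  by_contra h'
  exact h (ind_neg h')

theorem ind_and (p q : Prop) : ind (p ∧ q) = ind p * ind q := by
  by_cases h : p
  · rw [ind_pos h, one_mul, and_iff_right h]
  · rw [ind_neg h, zero_mul, ind_neg fun e => h e.1]

omit [LinearOrder V] in
theorem card_ind (P : V → Prop) : ((sel P).card : ℝ) = ∑ v, ind (P v) := card_sel_eq_sum P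

omit [LinearOrder V] in
theorem sum_ind (l : V) (f : V → ℝ) : ∑ z, ind (l = z) * f z = f l := by
  rw [sum_eq_single l (fun z _ h => by rw [ind_neg (Ne.symm h), zero_mul])
    (fun h => absurd (mem_univ l) h), ind_pos rfl, one_mul]

theorem sum_ind_le (S : Finset ℕ) (s : ℕ) (f : ℕ → ℝ) (hf : 0 ≤ f s) :
    ∑ a ∈ S, ind (s = a) * f a ≤ f s := by
  by_cases h : s ∈ S
  · rw [sum_eq_single s (fun z _ h => by rw [ind_neg (Ne.symm h), zero_mul])
      (fun h' => absurd h h'), ind_pos rfl, one_mul]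
  · rw [sum_eq_zero fun a ha => by rw [ind_neg fun e : s = a => h (e ▸ ha), zero_mul]]
    exact hf

omit [LinearOrder V] in
theorem coll (S : Finset ℕ) (l : V) (s : ℕ) (f : V → ℕ → ℝ) (hf : 0 ≤ f l s) :
    ∑ z, ∑ a ∈ S, ind (l = z ∧ s = a) * f z a ≤ f l s := by
  simp_rw [ind_and, mul_assoc, ← mul_sum]
  rw [sum_ind l fun z => ∑ a ∈ S, ind (s = a) * f z a]
  exact sum_ind_le S s (f l) hf

omit [LinearOrder V] in
theorem coll' (yy : V → ℕ) (l : V) (s : ℕ) (f : V → ℝ) :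
    ∑ z, ind (l = z ∧ s = yy z) * f z = ind (s = yy l) * f l := by
  simp_rw [ind_and, mul_assoc]
  rw [sum_ind l fun z => ind (s = yy z) * f z]

variable (gr : I → SimpleGraph V) (lab : I → V → V) (Cn : I → V → Prop) (c sl : I → V → ℕ)
  (κ : I → V → V → ℝ)

/-- two candidates with the same colour, the second one is adjacent to `z` -/
def pr (i : I) (x z y : V) : Prop :=
  (gr i).Adj z y ∧ y ≠ x ∧ Cn i x ∧ Cn i y ∧ c i y = c i x

/-- the cost that a node pays for a centre and a slot -/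
noncomputable def G (i : I) (x z₂ : V) (a' : ℕ) : ℝ :=
  ∑ z, κ i x z * ((sel fun y => pr gr Cn c i x z y ∧ lab i y = z₂ ∧ sl i y = a').card : ℝ)

/-- the cost of two centres -/
noncomputable def W0 (i : I) (z₁ z₂ : V) (a a' : ℕ) : ℝ :=
  ∑ x, ind (lab i x = z₁ ∧ sl i x = a) * G gr lab Cn c sl κ i x z₂ a'

variable {gr lab Cn c sl κ}

omit [LinearOrder V] in
theorem G_nonneg (h0 : ∀ i x z, 0 ≤ κ i x z) (i : I) (x z₂ : V) (a' : ℕ) :
    0 ≤ G gr lab Cn c sl κ i x z₂ a' :=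
  sum_nonneg fun z _ => mul_nonneg (h0 i x z) (Nat.cast_nonneg _)

omit [LinearOrder V] in
theorem W0_nonneg (h0 : ∀ i x z, 0 ≤ κ i x z) (i : I) (z₁ z₂ : V) (a a' : ℕ) :
    0 ≤ W0 gr lab Cn c sl κ i z₁ z₂ a a' :=
  sum_nonneg fun x _ => mul_nonneg (ind_nonneg _) (G_nonneg h0 i x z₂ a')

omit [LinearOrder V] in
theorem loc_G {r : ℕ} (h1 : Loc gr r lab) (h2 : Loc gr r Cn) (h3 : Loc gr r c) (h4 : Loc gr r sl)
    (h5 : Loc gr r κ) (hn : ∀ i x z, κ i x z ≠ 0 → Near (gr i) 2 x z) :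
    Loc gr (r + 3) (G gr lab Cn c sl κ) := by
  intro i i' x hA
  funext z₂ a'
  refine sum_congr rfl fun z _ => ?_
  rw [← h5.here hA (by omega)]
  by_cases hz : κ i x z = 0
  · rw [hz, zero_mul, zero_mul]
  have hN := hn i x z hz
  have hA' : Agree (r + 1) (gr i) (gr i') z := Agree.near (k := 2) hA hN
  congr 3
  refine sel_congr fun y => ?_
  unfold pr
  rw [← hA'.adj_iff (by omega) y, ← h2.here hA (by omega), ← h3.here hA (by omega)]
  by_cases hy : (gr i).Adj z y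
  · rw [h1.adj hA' hy le_rfl, h2.adj hA' hy le_rfl, h3.adj hA' hy le_rfl, h4.adj hA' hy le_rfl]
  · exact ⟨fun h => absurd h.1.1 hy, fun h => absurd h.1.1 hy⟩

omit [LinearOrder V] in
theorem loc_W0 {r R : ℕ} (h1 : Loc gr r lab) (h4 : Loc gr r sl)
    (hG : Loc gr r (G gr lab Cn c sl κ)) (hn : ∀ i u, Near (gr i) R u (lab i u)) :
    Loc gr (r + R) (W0 gr lab Cn c sl κ) :=
  ((h1.prod (h4.prod hG)).gather
    (fun z _ t => fun (z₂ : V) (a a' : ℕ) => ind (t.1 = z ∧ t.2.1 = a) * t.2.2 z₂ a')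
    (fun _ _ _ => 0) (fun i z u e => by
      by_cases e' : lab i u = z
      · exact (e' ▸ hn i u).symm
      · refine absurd ?_ e
        funext z₂ a a'
        rw [ind_neg fun h => e' h.1, zero_mul])).map
    fun _ g => fun (z₂ : V) (a a' : ℕ) => ∑ x, g x z₂ a a'

omit [LinearOrder V] in
theorem near_W0 {R : ℕ} (hn : ∀ i u, Near (gr i) R u (lab i u))
    (hk : ∀ i x z, κ i x z ≠ 0 → Near (gr i) 2 x z) {i : I} {z₁ z₂ : V} {a a' : ℕ}
    (h : W0 gr lab Cn c sl κ i z₁ z₂ a a' ≠ 0) : Near (gr i) (2 * R + 3) z₁ z₂ := by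
  obtain ⟨x, -, hx⟩ := exists_ne_zero_of_sum_ne_zero h
  have e1 := (ind_ne (left_ne_zero_of_mul hx)).1
  obtain ⟨z, -, hz⟩ := exists_ne_zero_of_sum_ne_zero (right_ne_zero_of_mul hx)
  obtain ⟨y, hy⟩ := card_ne_zero.1 (Nat.cast_ne_zero.1 (right_ne_zero_of_mul hz))
  obtain ⟨h1, e2, -⟩ := mem_sel.1 hy
  have n1 : Near (gr i) R z₁ x := (e1 ▸ hn i x).symm
  have n2 : Near (gr i) R y z₂ := e2 ▸ hn i y
  exact (((n1.trans (hk i x z (left_ne_zero_of_mul hz))).trans (Near.of_adj h1.1)).trans n2).mono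
    (by omega)

omit [LinearOrder V] in
theorem sum_chosen (i : I) (yy : V → ℕ) :
    ∑ z₁, ∑ z₂, W0 gr lab Cn c sl κ i z₁ z₂ (yy z₁) (yy z₂) =
      ∑ x, ∑ z, κ i x z * ((sel fun y => sl i x = yy (lab i x) ∧ pr gr Cn c i x z y ∧
        sl i y = yy (lab i y)).card : ℝ) := by
  unfold W0
  rw [sum_congr rfl fun z₁ _ => sum_comm, sum_comm]
  refine sum_congr rfl fun x _ => ?_
  simp_rw [← mul_sum]
  rw [coll' yy (lab i x) (sl i x) fun _ => ∑ z₂, G gr lab Cn c sl κ i x z₂ (yy z₂)]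
  unfold G
  rw [sum_comm, mul_sum]
  refine sum_congr rfl fun z _ => ?_
  rw [← mul_sum, mul_left_comm]
  congr 1
  simp_rw [card_ind]
  rw [sum_comm, mul_sum]
  refine sum_congr rfl fun y _ => ?_
  rw [ind_and, ind_and]
  congr 1
  rw [mul_comm, ← coll' yy (lab i y) (sl i y) fun _ => ind (pr gr Cn c i x z y)]
  exact sum_congr rfl fun z₂ _ => by rw [ind_and, mul_comm]

omit [LinearOrder V] in
theorem sum_diag (h0 : ∀ i x z, 0 ≤ κ i x z) (i : I) (S : Finset ℕ) :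
    ∑ z₁, ∑ a ∈ S, W0 gr lab Cn c sl κ i z₁ z₁ a a ≤
      ∑ x, G gr lab Cn c sl κ i x (lab i x) (sl i x) := by
  unfold W0
  rw [sum_congr rfl fun z₁ _ => sum_comm, sum_comm]
  exact sum_le_sum fun x _ => coll S _ _ (G gr lab Cn c sl κ i x) (G_nonneg h0 i x _ _)

omit [LinearOrder V] in
theorem sum_G (h0 : ∀ i x z, 0 ≤ κ i x z) (i : I) (S : Finset ℕ) (x : V) :
    ∑ z₂, ∑ a' ∈ S, G gr lab Cn c sl κ i x z₂ a' ≤
      ∑ z, κ i x z * ((sel (pr gr Cn c i x z)).card : ℝ) := by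
  unfold G
  rw [sum_congr rfl fun z₁ _ => sum_comm, sum_comm]
  refine sum_le_sum fun z _ => ?_
  simp_rw [← mul_sum]
  refine mul_le_mul_of_nonneg_left ?_ (h0 i x z)
  simp_rw [card_ind]
  rw [sum_congr rfl fun z₁ _ => sum_comm, sum_comm]
  refine sum_le_sum fun y _ => le_trans (le_of_eq ?_)
    (coll S (lab i y) (sl i y) (fun _ _ => ind (pr gr Cn c i x z y)) (ind_nonneg _))
  exact sum_congr rfl fun z₂ _ => sum_congr rfl fun a _ => by rw [ind_and, mul_comm]

omit [LinearOrder V] in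
theorem sum_all (h0 : ∀ i x z, 0 ≤ κ i x z) (i : I) (S : Finset ℕ) :
    ∑ z₁, ∑ z₂, ∑ a ∈ S, ∑ a' ∈ S, W0 gr lab Cn c sl κ i z₁ z₂ a a' ≤
      ∑ x, ∑ z, κ i x z * ((sel (pr gr Cn c i x z)).card : ℝ) := by
  have e : ∀ z₁, ∑ z₂, ∑ a ∈ S, ∑ a' ∈ S, W0 gr lab Cn c sl κ i z₁ z₂ a a' =
      ∑ x, ∑ a ∈ S, ind (lab i x = z₁ ∧ sl i x = a) *
        ∑ z₂, ∑ a' ∈ S, G gr lab Cn c sl κ i x z₂ a' := by
    intro z₁
    rw [sum_comm, sum_comm (s := univ) (t := S)]
    refine sum_congr rfl fun a _ => ?_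
    unfold W0
    rw [sum_congr rfl fun z₂ _ => sum_comm, sum_comm]
    refine sum_congr rfl fun x _ => ?_
    simp_rw [← mul_sum]
  simp_rw [e]
  rw [sum_comm]
  refine sum_le_sum fun x _ => le_trans (coll S _ _
    (fun _ _ => ∑ z₂, ∑ a' ∈ S, G gr lab Cn c sl κ i x z₂ a') ?_) (sum_G h0 i S x)
  exact sum_nonneg fun _ _ => sum_nonneg fun _ _ => G_nonneg h0 i x _ _

end Samp

open Samp in
theorem p_samp (gr : I → SimpleGraph V) (hA : SampASt gr) : SampSt gr := by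
  classical
  intro D r0 R k lam b w Λ lab hD hdec hAnd hΛ hlam r Q Cn P hit κ hr hQ lC lP lh lκ hP hh h0 hn
  have llab : Loc gr r lab := hdec.1.mono hr
  obtain ⟨c, sl, lc, ls, a1, a2, a3, a4, a5⟩ := hA D r R k lam b Q lab Cn P hit κ hD
    ⟨llab, hdec.2⟩ hlam hQ lC lP lh lκ hP hh h0
  have lG := loc_G (llab.mono (R := r + (2 * R + 1)) (by omega)) (lC.mono (by omega)) lc ls
    (lκ.mono (by omega)) hn
  have lW := loc_W0 (llab.mono (by omega)) (ls.mono (by omega)) lG hdec.2.1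
  obtain ⟨yy, ly, y1, y2⟩ := hAnd _ (2 * R + 3) (fun i z a => W0 gr lab Cn c sl κ i z z a a)
    (fun i z z' a a' => ind (z ≠ z') * W0 gr lab Cn c sl κ i z z' a a')
    (lW.map fun z g => fun a => g z a a)
    (lW.map fun z g => fun z' a a' => ind (z ≠ z') * g z' a a')
    (fun i z z' a a' => mul_nonneg (ind_nonneg _) (W0_nonneg h0 i z z' a a'))
    (fun i z z' a a' h => ⟨near_W0 hdec.2.1 hn (right_ne_zero_of_mul h),
      ind_ne (left_ne_zero_of_mul h)⟩)
  let act : I → V → Option ℕ := fun i x =>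
    if Cn i x ∧ sl i x = yy i (lab i x) then some (c i x) else none
  have hact : ∀ i x c', act i x = some c' ↔ (Cn i x ∧ sl i x = yy i (lab i x)) ∧ c i x = c' := by
    intro i x c'
    by_cases h : Cn i x ∧ sl i x = yy i (lab i x)
    · simp only [act, if_pos h, Option.some.injEq]
      exact (and_iff_right h).symm
    · simp only [act, if_neg h]
      exact ⟨fun e => absurd e (by simp), fun e => absurd e.1 h⟩
  have hnone : ∀ i x, act i x ≠ none ↔ Cn i x ∧ sl i x = yy i (lab i x) := by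
    intro i x
    rw [Option.ne_none_iff_exists']
    exact ⟨fun ⟨c', e⟩ => ((hact i x c').1 e).1, fun h => ⟨_, (hact i x _).2 ⟨h, rfl⟩⟩⟩
  refine ⟨act, ?_, ?_, ?_, ?_, ?_⟩
  · intro i i' x hx
    simp only [act]
    rw [← lC.here hx (by omega), ← ls.here hx (by omega), ← lc.here hx (by omega),
      ← llab.here hx (by omega), ly.far hx (hdec.2.1 i x) (by omega)]
  · intro i x c' e
    obtain ⟨⟨e1, -⟩, rfl⟩ := (hact i x c').1 e
    exact ⟨e1, (a1 i x e1).1⟩
  · intro i v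
    rw [sel_congr fun x => and_congr_right fun _ => hnone i x]
    exact a2 i v (yy i)
  · intro i v u
    refine (a3 i v u (yy i) (y1 i)).trans (le_of_eq ?_)
    congr 3
    refine sel_congr fun x => ?_
    constructor
    · exact fun h => ⟨_, (hact i x _).2 ⟨⟨h.1, h.2.1⟩, rfl⟩, h.2.2⟩
    · rintro ⟨c', e, h⟩
      obtain ⟨⟨e1, e2⟩, rfl⟩ := (hact i x c').1 e
      exact ⟨e1, e2, h⟩
  · intro i
    have hS : 0 ≤ ∑ x, ∑ z, κ i x z := sum_nonneg fun x _ => sum_nonneg fun z _ => h0 i x z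
    have e1 : ∑ x, ∑ z, κ i x z * ((sel fun y => (gr i).Adj z y ∧ y ≠ x ∧ act i x ≠ none ∧
        act i y = act i x).card : ℝ) = ∑ z, W0 gr lab Cn c sl κ i z z (yy i z) (yy i z) +
          ∑ z, ∑ z', ind (z ≠ z') * W0 gr lab Cn c sl κ i z z' (yy i z) (yy i z') := by
      rw [← sum_add_distrib]
      have e : ∀ z, W0 gr lab Cn c sl κ i z z (yy i z) (yy i z) +
          ∑ z', ind (z ≠ z') * W0 gr lab Cn c sl κ i z z' (yy i z) (yy i z') =
          ∑ z', W0 gr lab Cn c sl κ i z z' (yy i z) (yy i z') := by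
        intro z
        rw [← sum_ind z fun z' => W0 gr lab Cn c sl κ i z z' (yy i z) (yy i z'), ← sum_add_distrib]
        refine sum_congr rfl fun z' _ => ?_
        by_cases h : z = z'
        · rw [ind_pos h, ind_neg (not_not.2 h)]; ring
        · rw [ind_neg h, ind_pos h]; ring
      simp_rw [e]
      rw [sum_chosen]
      refine sum_congr rfl fun x _ => sum_congr rfl fun z _ => ?_
      congr 3
      refine sel_congr fun y => ?_
      constructor
      · rintro ⟨b1, b2, b3, b4⟩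
        have b5 := (hnone i x).1 b3
        obtain ⟨b6, b7⟩ := (hact i y _).1 (b4.trans ((hact i x _).2 ⟨b5, rfl⟩))
        exact ⟨b5.2, ⟨b1, b2, b5.1, b6.1, b7⟩, b6.2⟩
      · rintro ⟨b1, ⟨b2, b3, b4, b5, b6⟩, b7⟩
        exact ⟨b2, b3, (hnone i x).2 ⟨b4, b1⟩,
          ((hact i y _).2 ⟨⟨b5, b7⟩, b6⟩).trans ((hact i x _).2 ⟨⟨b4, b1⟩, rfl⟩).symm⟩
    rw [e1]
    refine (y2 i).trans ?_
    have hF : ∑ z, ∑ a ∈ range (2 ^ b), W0 gr lab Cn c sl κ i z z a a ≤
        6 * D / (Q * 2 ^ b) * ∑ x, ∑ z, κ i x z := by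
      refine (sum_diag h0 i _).trans (le_trans (le_of_eq ?_) (a5 i))
      refine sum_congr rfl fun x _ => sum_congr rfl fun z _ => ?_
      congr 3
      refine sel_congr fun y => ?_
      unfold pr
      tauto
    have hW : ∑ z, ∑ z', ∑ a ∈ range (2 ^ b), ∑ a' ∈ range (2 ^ b),
        ind (z ≠ z') * W0 gr lab Cn c sl κ i z z' a a' ≤
        (4 * D / Q + (k * lam : ℕ)) * ∑ x, ∑ z, κ i x z := by
      refine le_trans (sum_le_sum fun z _ => sum_le_sum fun z' _ => sum_le_sum fun a _ =>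
        sum_le_sum fun a' _ => ?_) ((sum_all (gr := gr) (lab := lab) (Cn := Cn) (c := c) (sl := sl)
          h0 i (range (2 ^ b))).trans ?_)
      · by_cases h : z = z'
        · rw [ind_neg (not_not.2 h), zero_mul]; exact W0_nonneg h0 i z z' a a'
        · rw [ind_pos h, one_mul]
      · rw [mul_sum]
        refine sum_le_sum fun x _ => ?_
        rw [mul_sum]
        refine sum_le_sum fun z _ => ?_
        rw [mul_comm _ (κ i x z)]
        refine mul_le_mul_of_nonneg_left (le_trans ?_ (a4 i z (c i x))) (h0 i x z)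
        exact Nat.cast_le.2 (card_sel_le fun y h => ⟨h.1, h.2.2.2.1, h.2.2.2.2⟩)
    rw [← sum_div]
    have h2 : (0 : ℝ) < 2 ^ b := by positivity
    have h4 : (4 : ℝ) ^ b = 2 ^ b * 2 ^ b := by rw [← mul_pow]; norm_num
    have hQ' : (0 : ℝ) < Q := by exact_mod_cast hQ
    have hF' := div_le_div_of_nonneg_right hF h2.le
    have hW' := mul_le_mul_of_nonneg_left
      (div_le_div_of_nonneg_right hW (by positivity : (0 : ℝ) ≤ 4 ^ b)) hΛ
    refine (add_le_add hF' hW').trans ?_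
    generalize (∑ x, ∑ z, κ i x z) = Sg at hS
    have e2 : (Λ + 3) * (4 * D / Q + (k * lam : ℕ)) / 4 ^ b * Sg -
        (6 * D / (Q * 2 ^ b) * Sg / 2 ^ b + Λ * ((4 * D / Q + (k * lam : ℕ)) * Sg / 4 ^ b)) =
        (6 * D / Q + 3 * (k * lam : ℕ)) * Sg / 4 ^ b := by
      rw [h4]; field_simp; ring
    rw [← sub_nonneg, e2]
    positivity

end Pool.Agent.P.MP_6f280c_lc.Dc
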