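import Pool.Agent.P.MP_6f280c_lc.Dc.St

/-! The centres choose colours and slots. -/

set_option autoImplicit false

namespace Pool.Agent.P.MP_6f280c_lc.Dc

open Finset

namespace SampA

noncomputable section

variable {V : Type} [Fintype V] [DecidableEq V]

/-- the data of a node -/
structure Dat (V : Type) where
  cn : Prop
  pal : Finset ℕ
  hit : V → V → ℕ → Prop
  κ : V → ℝ
  N : Finset V

/-- sums over the nodes of a centre -/
def S1 (J : Finset V) (e : V → Dat V × (ℕ × ℕ)) (F : Dat V × (ℕ × ℕ) → ℝ) : ℝ :=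
  ∑ x ∈ J, F (e x)

/-- sums over pairs of nodes of a centre -/
def S2 (J : Finset V) (e : V → Dat V × (ℕ × ℕ))
    (F : V → V → Dat V × (ℕ × ℕ) → Dat V × (ℕ × ℕ) → ℝ) : ℝ :=
  ∑ x ∈ J, ∑ y ∈ J, F x y (e x) (e y)

open Classical in
/-- what a centre achieves -/
def Out (D lam b Q : ℕ) (J : Finset V) (e : V → Dat V × (ℕ × ℕ)) : Prop :=
  (∀ x ∈ J, (e x).2.1 ∈ (e x).1.pal ∧ (e x).2.2 < 2 ^ b) ∧
  (∀ v j, j < 2 ^ b → S1 J e (fun a => if v ∈ a.1.N then (if a.2.2 = j then 1 else 0) else 0) ≤
    S1 J e (fun a => if v ∈ a.1.N then 2 / 2 ^ b else 0) + lam) ∧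
  (∀ v u j, j < 2 ^ b → S1 J e (fun a => if v ∈ a.1.N then
      ((a.1.pal.filter (fun c => a.1.hit v u c)).card : ℝ) / a.1.pal.card / (2 * 2 ^ b) else 0) ≤
    S1 J e (fun a => if v ∈ a.1.N then (if a.2.2 = j ∧ a.1.hit v u a.2.1 then 1 else 0) else 0) +
      lam) ∧
  (∀ v col, col < D + 1 →
    S1 J e (fun a => if v ∈ a.1.N then (if a.2.1 = col then 1 else 0) else 0) ≤
      S1 J e (fun a => if v ∈ a.1.N then 4 / Q else 0) + lam) ∧
  S2 J e (fun x y a a' => if y ≠ x ∧ a'.2 = a.2 then ∑ z ∈ a'.1.N, a.1.κ z else 0) ≤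
    6 * D / (Q * 2 ^ b) * S1 J e (fun a => ∑ z, a.1.κ z)

theorem Out.congr {D lam b Q : ℕ} {J : Finset V} {e e' : V → Dat V × (ℕ × ℕ)}
    (h : Out D lam b Q J e) (he : ∀ x ∈ J, e x = e' x) : Out D lam b Q J e' := by
  have h1 : ∀ F, S1 J e F = S1 J e' F := fun F => sum_congr rfl fun x hx => by rw [he x hx]
  have h2 : ∀ F, S2 J e F = S2 J e' F := fun F =>
    sum_congr rfl fun x hx => sum_congr rfl fun y hy => by rw [he x hx, he y hy]
  unfold Out at h ⊢
  simp only [h1, h2] at h
  exact ⟨fun x hx => he x hx ▸ h.1 x hx, h.2⟩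

theorem one_hit {Ω : Type} [DecidableEq Ω] (O : Finset Ω) (a : Ω) :
    ∑ ω ∈ O, (if a = ω then (1 : ℝ) else 0) ≤ 1 := by
  rw [sum_ite_eq]
  split_ifs <;> norm_num

open Classical in
theorem centre (hS : SeqSt) {D lam b Q : ℕ} (J : Finset V) (d : V → Dat V)
    (hcard : 4 * Fintype.card V ^ 2 * (D + 1 + 2 ^ b) ≤ 2 ^ lam) (hQ : 0 < Q)
    (hP : ∀ x ∈ J, Q ≤ 2 * (d x).pal.card) (hκ : ∀ x z, 0 ≤ (d x).κ z)
    (hdeg : ∀ z, (J.filter fun y => z ∈ (d y).N).card ≤ D) :
    ∃ f : V → ℕ × ℕ, Out D lam b Q J (fun x => (d x, f x)) := by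
  have hQ' : (0 : ℝ) < Q := by exact_mod_cast hQ
  have hb : (0 : ℝ) < 2 ^ b := by positivity
  set p : ℝ := 2 / (Q * 2 ^ b) with hp
  have hp0 : 0 ≤ p := by positivity
  let K : V → V → ℝ := fun x y => if y ≠ x then ∑ z ∈ (d y).N, (d x).κ z else 0
  have hK : ∀ x y, 0 ≤ K x y := fun x y => by
    simp only [K]
    split_ifs
    · exact sum_nonneg fun z _ => hκ x z
    · exact le_rfl
  obtain ⟨f, h1, h2, h3, h4⟩ := hS V (ℕ × ℕ) (V × V × Fin (D + 1 + 2 ^ b)) J
    (fun S f => ∀ x ∈ S, f x ∈ (d x).pal ×ˢ range (2 ^ b)) (fun _ => (0, 0))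
    (fun t x w => t.1 ∈ (d x).N ∧
      (if t.2.2.1 < D + 1 then w.1 = t.2.2.1 else w.2 = t.2.2.1 - (D + 1)))
    (fun t x w => t.1 ∈ (d x).N ∧ w.2 = t.2.2.1 ∧ (d x).hit t.1 t.2.1 w.1)
    (fun t x => if t.1 ∈ (d x).N then (if t.2.2.1 < D + 1 then 2 / Q else 1 / 2 ^ b) else 0)
    (fun t x => if t.1 ∈ (d x).N ∧ t.2.2.1 < 2 ^ b then
      (((d x).pal.filter (fun c => (d x).hit t.1 t.2.1 c)).card : ℝ) / (d x).pal.card / 2 ^ b else 0)
    (fun S f => ∑ x ∈ J, ∑ y ∈ J, K x y *
      (if x ∈ S ∧ y ∈ S then (if f y = f x then 1 else 0) else p)) lam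
    (fun x hx => absurd hx (notMem_empty x))
    (fun t x => by split_ifs <;> positivity)
    (fun S f => sum_nonneg fun x _ => sum_nonneg fun y _ => mul_nonneg (hK x y) (by
      split_ifs <;> first | exact hp0 | norm_num))
    (by
      refine le_trans (le_of_eq ?_) hcard
      simp only [Fintype.card_prod, Fintype.card_fin]
      ring)
    (by
      intro S f j _ hj hjS hG
      have hPj : (Q : ℝ) ≤ 2 * (d j).pal.card := by exact_mod_cast hP j hj
      have hPpos : (0 : ℝ) < (d j).pal.card := by linarith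
      have hO : ((((d j).pal ×ˢ range (2 ^ b)).card : ℕ) : ℝ) = (d j).pal.card * 2 ^ b := by
        rw [card_product, card_range]; push_cast; rfl
      have hOp : 1 ≤ ((((d j).pal ×ˢ range (2 ^ b)).card : ℕ) : ℝ) * p := by
        rw [hO, hp, ← mul_div_assoc, le_div_iff₀ (by positivity)]
        nlinarith
      refine ⟨(d j).pal ×ˢ range (2 ^ b), ?_, fun ω hω x hx => ?_, fun t => ?_, fun t => ?_, ?_⟩
      · rw [← card_pos]
        have : (0 : ℝ) < ((((d j).pal ×ˢ range (2 ^ b)).card : ℕ) : ℝ) := by rw [hO]; positivity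
        exact_mod_cast this
      · rcases mem_insert.1 hx with rfl | hx'
        · rwa [Function.update_self]
        · rw [Function.update_of_ne (fun e : x = j => hjS (e ▸ hx'))]
          exact hG x hx'
      · rw [hO]
        by_cases a1 : t.1 ∈ (d j).N
        · rw [if_pos a1]
          by_cases a2 : t.2.2.1 < D + 1
          · rw [if_pos a2]
            have : (((d j).pal ×ˢ range (2 ^ b)).filter fun w => t.1 ∈ (d j).N ∧
                (if t.2.2.1 < D + 1 then w.1 = t.2.2.1 else w.2 = t.2.2.1 - (D + 1))) ⊆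
                {t.2.2.1} ×ˢ range (2 ^ b) := fun w hw => by
              obtain ⟨b1, -, b2⟩ := mem_filter.1 hw
              rw [if_pos a2] at b2
              exact mem_product.2 ⟨mem_singleton.2 b2, (mem_product.1 b1).2⟩
            have h5 := card_le_card this
            rw [card_product, card_singleton, card_range, one_mul] at h5
            refine le_trans (Nat.cast_le.2 h5) ?_
            push_cast
            rw [div_mul_eq_mul_div, le_div_iff₀ hQ']
            nlinarith
          · rw [if_neg a2]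
            have : (((d j).pal ×ˢ range (2 ^ b)).filter fun w => t.1 ∈ (d j).N ∧
                (if t.2.2.1 < D + 1 then w.1 = t.2.2.1 else w.2 = t.2.2.1 - (D + 1))) ⊆
                (d j).pal ×ˢ {t.2.2.1 - (D + 1)} := fun w hw => by
              obtain ⟨b1, -, b2⟩ := mem_filter.1 hw
              rw [if_neg a2] at b2
              exact mem_product.2 ⟨(mem_product.1 b1).1, mem_singleton.2 b2⟩
            have h5 := card_le_card this
            rw [card_product, card_singleton, mul_one] at h5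
            refine le_trans (Nat.cast_le.2 h5) (le_of_eq ?_)
            rw [mul_comm, mul_assoc, mul_one_div_cancel hb.ne', mul_one]
        · rw [if_neg a1, filter_false_of_mem fun w _ h => a1 h.1, card_empty, zero_mul,
            Nat.cast_zero]
      · rw [hO]
        by_cases a1 : t.1 ∈ (d j).N ∧ t.2.2.1 < 2 ^ b
        · rw [if_pos a1]
          have : ((d j).pal.filter (fun c => (d j).hit t.1 t.2.1 c)) ×ˢ {t.2.2.1} ⊆
              ((d j).pal ×ˢ range (2 ^ b)).filter fun w =>
                t.1 ∈ (d j).N ∧ w.2 = t.2.2.1 ∧ (d j).hit t.1 t.2.1 w.1 := fun w hw => by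
            obtain ⟨b1, b2⟩ := mem_product.1 hw
            rw [mem_singleton] at b2
            obtain ⟨b3, b4⟩ := mem_filter.1 b1
            exact mem_filter.2 ⟨mem_product.2 ⟨b3, mem_range.2 (b2 ▸ a1.2)⟩, a1.1, b2, b4⟩
          have h5 := card_le_card this
          rw [card_product, card_singleton, mul_one] at h5
          refine le_trans (le_of_eq ?_) (Nat.cast_le.2 h5)
          field_simp
        · rw [if_neg a1, zero_mul]
          positivity
      · rw [sum_comm, mul_sum]
        refine sum_le_sum fun x _ => ?_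
        rw [sum_comm, mul_sum]
        refine sum_le_sum fun y _ => ?_
        rw [← mul_sum, mul_left_comm]
        by_cases hxy : y = x
        · simp [K, hxy]
        refine mul_le_mul_of_nonneg_left ?_ (hK x y)
        by_cases a1 : x ∈ insert j S ∧ y ∈ insert j S
        · simp only [if_pos a1]
          rcases mem_insert.1 a1.1 with rfl | hx
          · rw [if_neg fun h => hjS h.1]
            simp only [Function.update_self, Function.update_of_ne hxy]
            exact (one_hit _ _).trans hOp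
          · have hxj : x ≠ j := fun e => hjS (e ▸ hx)
            rcases mem_insert.1 a1.2 with rfl | hy
            · rw [if_neg fun h => hjS h.2]
              simp only [Function.update_self, Function.update_of_ne hxj, eq_comm (b := f x)]
              exact (one_hit _ _).trans hOp
            · have hyj : y ≠ j := fun e => hjS (e ▸ hy)
              rw [if_pos ⟨hx, hy⟩]
              simp only [Function.update_of_ne hxj, Function.update_of_ne hyj, sum_const,
                nsmul_eq_mul, le_refl]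
        · have a2 : ¬ (x ∈ S ∧ y ∈ S) := fun h =>
            a1 ⟨mem_insert_of_mem h.1, mem_insert_of_mem h.2⟩
          simp only [if_neg a1, if_neg a2, sum_const, nsmul_eq_mul, le_refl])
  refine ⟨f, fun x hx => ?_, fun v j hj => ?_, fun v u j hj => ?_, fun v col hc => ?_, ?_⟩
  · have := mem_product.1 (h1 x hx)
    exact ⟨this.1, mem_range.1 this.2⟩
  · have := h2 (v, v, ⟨D + 1 + j, by omega⟩)
    have e1 : ¬ (D + 1 + j < D + 1) := by omega
    simp only [if_neg e1, Nat.add_sub_cancel_left] at this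
    rw [card_filter, mul_sum] at this
    push_cast at this
    refine le_trans (le_of_eq ?_) (this.trans (le_of_eq ?_))
    · refine sum_congr rfl fun x _ => ?_
      by_cases a : v ∈ (d x).N <;> simp [a]
    · congr 1
      refine sum_congr rfl fun x _ => ?_
      by_cases a : v ∈ (d x).N <;> simp [a, div_eq_mul_inv]
  · have := h3 (v, u, ⟨j, by omega⟩)
    rw [card_filter, sum_div] at this
    push_cast at this
    refine le_trans (le_of_eq ?_) (this.trans (le_of_eq ?_))
    · refine sum_congr rfl fun x _ => ?_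
      by_cases a : v ∈ (d x).N
      · simp only [a, hj, and_self, if_true]
        ring
      · simp [a]
    · congr 1
      refine sum_congr rfl fun x _ => ?_
      by_cases a : v ∈ (d x).N <;> simp [a]
  · have := h2 (v, v, ⟨col, lt_of_lt_of_le hc (Nat.le_add_right _ _)⟩)
    simp only [if_pos hc] at this
    rw [card_filter, mul_sum] at this
    push_cast at this
    refine le_trans (le_of_eq ?_) (this.trans (le_of_eq ?_))
    · refine sum_congr rfl fun x _ => ?_
      by_cases a : v ∈ (d x).N <;> simp [a]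
    · congr 1
      refine sum_congr rfl fun x _ => ?_
      by_cases a : v ∈ (d x).N
      · simp only [a, if_true]
        ring
      · simp [a]
  · refine le_trans (le_of_eq ?_) (h4.trans ?_)
    · refine sum_congr rfl fun x hx => sum_congr rfl fun y hy => ?_
      by_cases a : y = x
      · simp [K, a]
      · by_cases a' : f y = f x <;> simp [K, a, a', hx, hy]
    · simp only [notMem_empty, and_self, if_false, S1]
      rw [mul_sum, mul_sum]
      refine sum_le_sum fun x _ => ?_
      rw [← sum_mul]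
      have h5 : ∑ y ∈ J, K x y ≤ D * ∑ z, (d x).κ z := by
        calc _ ≤ ∑ y ∈ J, ∑ z, (if z ∈ (d y).N then (d x).κ z else 0) := by
              refine sum_le_sum fun y _ => ?_
              rw [← sum_filter, filter_mem_eq_inter, univ_inter]
              simp only [K]
              split_ifs
              · exact le_rfl
              · exact sum_nonneg fun z _ => hκ x z
          _ ≤ _ := by
              rw [sum_comm, mul_sum]
              refine sum_le_sum fun z _ => ?_
              rw [← sum_filter, sum_const, nsmul_eq_mul]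
              exact mul_le_mul_of_nonneg_right (by exact_mod_cast hdeg z) (hκ x z)
      calc 3 * ((∑ y ∈ J, K x y) * p) ≤ 3 * (D * (∑ z, (d x).κ z) * p) := by gcongr
        _ = _ := by rw [hp]; ring

theorem glue {I : Type} {gr : I → SimpleGraph V} {i : I} {k : ℕ} {l : ℝ} (hl : 0 ≤ l)
    (lab : V → V) (Cn : V → Prop) (v : V) (hk : ((nbr gr i v).image lab).card ≤ k) (F G : V → ℝ)
    (h : ∀ z, ∑ x ∈ (sel Cn).filter (fun x => lab x = z), (if v ∈ nbr gr i x then F x else 0) ≤
      ∑ x ∈ (sel Cn).filter (fun x => lab x = z), (if v ∈ nbr gr i x then G x else 0) + l) :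
    ∑ x ∈ sel (fun x => (gr i).Adj v x ∧ Cn x), F x ≤
      ∑ x ∈ sel (fun x => (gr i).Adj v x ∧ Cn x), G x + k * l := by
  refine dec_sum _ lab (le_trans (card_le_card (image_subset_image fun x hx =>
    mem_nbr.2 (mem_sel.1 hx).1)) hk) F G hl fun z => ?_
  have e : (sel (fun x => (gr i).Adj v x ∧ Cn x)).filter (fun x => lab x = z) =
      ((sel Cn).filter (fun x => lab x = z)).filter (fun x => v ∈ nbr gr i x) := by
    ext x
    simp only [mem_filter, mem_sel, mem_nbr, (gr i).adj_comm v x]
    tauto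
  rw [e, sum_filter (fun x => v ∈ nbr gr i x), sum_filter (fun x => v ∈ nbr gr i x)]
  exact h z

omit [DecidableEq V] in
theorem card_ind (A B : V → Prop) (p : V → Prop) [DecidablePred p] (h : ∀ x, B x ↔ A x ∧ p x) :
    ((sel B).card : ℝ) = ∑ x ∈ sel A, if p x then (1 : ℝ) else 0 := by
  have e : sel B = (sel A).filter p := by ext x; simp only [mem_filter, mem_sel, h]
  rw [e, card_filter]
  push_cast
  rfl

omit [DecidableEq V] in
theorem sum_deg {I : Type} {gr : I → SimpleGraph V} {D : ℕ} (hD : Deg gr D) (i : I) (v : V)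
    (Cn : V → Prop) {c : ℝ} (hc : 0 ≤ c) :
    ∑ _x ∈ sel (fun x => (gr i).Adj v x ∧ Cn x), c ≤ D * c := by
  rw [sum_const, nsmul_eq_mul]
  refine mul_le_mul_of_nonneg_right ?_ hc
  have : sel (fun x => (gr i).Adj v x ∧ Cn x) ⊆ nbr gr i v := fun x hx =>
    mem_nbr.2 (mem_sel.1 hx).1
  exact_mod_cast le_trans (card_le_card this) (hD i v)

end

end SampA

variable {V I : Type} [Fintype V] [LinearOrder V]

open SampA in
theorem p_sampA (hS : SeqSt) (gr : I → SimpleGraph V) : SampASt gr := by
  intro D r R k lam b Q lab Cn P hit κ hD hDec hcard hQ lC lP lh lκ hP hhit hκ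
  obtain ⟨ll, hn, hk⟩ := hDec
  let d : I → V → Dat V := fun i x => ⟨Cn i x, P i x, hit i x, κ i x, nbr gr i x⟩
  have ld : Loc gr (r + 1) d :=
    ((((lC.prod lP).prod (lh.prod lκ)).mono (Nat.le_succ r)).prod
      (loc_nbr.mono (Nat.le_add_left 1 r))).map
      (fun _ a => (⟨a.1.1.1, a.1.1.2, a.1.2.1, a.1.2.2, a.2⟩ : Dat V))
  let J : I → V → Finset V := fun i z => (sel (Cn i)).filter (fun x => lab i x = z)
  have hJ : ∀ i z x, x ∈ J i z ↔ Cn i x ∧ lab i x = z := fun i z x => by simp [J]
  obtain ⟨f, lf, hf⟩ := dec_choice (ll.mono (Nat.le_succ r)) hn ld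
    (fun _ g y => ∃ (J' : Finset V) (d' : V → Dat V), (∀ u, u ∈ J' ↔ ∃ a, g u = some a ∧ a.cn) ∧
      (∀ u ∈ J', g u = some (d' u)) ∧ Out D lam b Q J' (fun u => (d' u, y u)))
    (fun i z => by
      obtain ⟨y, hy⟩ := centre hS (D := D) (lam := lam) (b := b) (Q := Q) (J i z) (d i) hcard hQ
        (fun x hx => (hP i x ((hJ i z x).1 hx).1).2) (hκ i) (fun z' =>
          le_trans (card_le_card fun x hx =>
            mem_nbr.2 (mem_nbr.1 (mem_filter.1 hx).2).symm) (hD i z'))
      refine ⟨y, J i z, d i, fun u => ?_, fun u hu => if_pos ((hJ i z u).1 hu).2, hy⟩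
      rw [hJ]
      beta_reduce
      by_cases e : lab i u = z
      · rw [if_pos e]
        exact ⟨fun h => ⟨_, rfl, h.1⟩, fun ⟨a, h1, h2⟩ => ⟨by
          rw [← Option.some.inj h1] at h2; exact h2, e⟩⟩
      · rw [if_neg e]
        exact ⟨fun h => absurd h.2 e, fun ⟨a, h1, _⟩ => absurd h1 (by simp)⟩)
  have hO : ∀ i z, Out D lam b Q (J i z) (fun u => (d i u, f i u)) := fun i z => by
    obtain ⟨y, ⟨J', d', a1, a2, a3⟩, a4⟩ := hf i z
    have e : J' = J i z := by
      ext u
      rw [a1, hJ]
      beta_reduce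
      by_cases e : lab i u = z
      · rw [if_pos e]
        exact ⟨fun ⟨a, h1, h2⟩ => ⟨by rw [← Option.some.inj h1] at h2; exact h2, e⟩,
          fun h => ⟨_, rfl, h.1⟩⟩
      · rw [if_neg e]
        exact ⟨fun ⟨a, h1, _⟩ => absurd h1 (by simp), fun h => absurd h.2 e⟩
    subst e
    refine a3.congr fun u hu => ?_
    have e := ((hJ i z u).1 hu).2
    have e' := a2 u hu
    beta_reduce at e'
    rw [if_pos e] at e'
    rw [a4 u e, Option.some.inj e']
  have hQ' : (0 : ℝ) < Q := by exact_mod_cast hQ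
  have hb : (0 : ℝ) < 2 ^ b := by positivity
  have hl : (0 : ℝ) ≤ lam := Nat.cast_nonneg _
  have hin : ∀ i x, Cn i x → (f i x).1 ∈ P i x ∧ (f i x).2 < 2 ^ b := fun i x hx =>
    (hO i (lab i x)).1 x ((hJ _ _ _).2 ⟨hx, rfl⟩)
  have e0 : r + 1 + 2 * R = r + (2 * R + 1) := by ring
  rw [e0] at lf
  refine ⟨fun i x => (f i x).1, fun i x => (f i x).2, lf.map (fun _ a => a.1),
    lf.map (fun _ a => a.2), hin, fun i v y => ?_, fun i v u y hy => ?_, fun i z col => ?_,
    fun i => ?_⟩
  · have h1 := glue hl (lab i) (Cn i) v (hk i v)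
      (fun x => if (f i x).2 = y (lab i x) then 1 else 0) (fun _ => 2 / 2 ^ b) (fun z => by
        by_cases hz : y z < 2 ^ b
        · refine le_trans (le_of_eq ?_) ((hO i z).2.1 v (y z) hz)
          refine sum_congr rfl fun x hx => ?_
          rw [((hJ i z x).1 hx).2]
        · refine le_trans (le_of_eq (sum_eq_zero fun x hx => ?_))
            (add_nonneg (sum_nonneg fun x _ => by split_ifs <;> positivity) hl)
          obtain ⟨a1, a2⟩ := (hJ i z x).1 hx
          have := (hin i x a1).2
          rw [a2, if_neg (show ¬ (f i x).2 = y z by omega), ite_self])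
    rw [← card_ind _ (fun x => (gr i).Adj v x ∧ Cn i x ∧ (f i x).2 = y (lab i x)) _
      (fun x => and_assoc.symm)] at h1
    have h2 := sum_deg hD i v (Cn i) (c := 2 / 2 ^ b) (by positivity)
    have h3 : (2 : ℝ) ^ b * (D * (2 / 2 ^ b)) = 2 * D := by field_simp
    have h4 := mul_le_mul_of_nonneg_left (h1.trans (add_le_add_left h2 _)) hb.le
    rw [mul_add, h3] at h4
    exact_mod_cast h4
  · classical
    have h1 := glue hl (lab i) (Cn i) v (hk i v)
      (fun x => (((P i x).filter (fun c => hit i x v u c)).card : ℝ) / (P i x).card / (2 * 2 ^ b))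
      (fun x => if (f i x).2 = y (lab i x) ∧ hit i x v u (f i x).1 then 1 else 0) (fun z => by
        refine ((hO i z).2.2.1 v u (y z) (hy z)).trans (le_of_eq ?_)
        congr 1
        refine sum_congr rfl fun x hx => ?_
        rw [((hJ i z x).1 hx).2])
    rw [← card_ind _ (fun x => Cn i x ∧ (f i x).2 = y (lab i x) ∧ hit i x v u (f i x).1) _
      (fun x => ⟨fun h => ⟨⟨hhit i x v u _ h.2.2, h.1⟩, h.2⟩, fun h => ⟨h.1.2, h.2⟩⟩)] at h1
    push_cast
    refine le_trans (le_of_eq ?_) h1
    rw [sum_div]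
    refine (sum_subset (sel_mono fun x h => h.2) fun x h1 h2 => ?_).symm
    rw [filter_false_of_mem fun c _ hc => h2 (mem_sel.2 ⟨hhit i x v u c hc, mem_sel.1 h1⟩)]
    simp
  · by_cases hc : col < D + 1
    · have h1 := glue hl (lab i) (Cn i) z (hk i z)
        (fun x => if (f i x).1 = col then 1 else 0) (fun _ => 4 / Q)
        (fun z' => (hO i z').2.2.2.1 z col hc)
      rw [← card_ind _ (fun x => (gr i).Adj z x ∧ Cn i x ∧ (f i x).1 = col) _
        (fun x => and_assoc.symm)] at h1
      have h2 := sum_deg hD i z (Cn i) (c := 4 / Q) (by positivity)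
      push_cast
      have h3 : (D : ℝ) * (4 / Q) = 4 * D / Q := by ring
      linarith
    · have e : sel (fun y => (gr i).Adj z y ∧ Cn i y ∧ (f i y).1 = col) = ∅ := by
        refine eq_empty_of_forall_notMem fun x hx => hc ?_
        obtain ⟨-, a1, a2⟩ := mem_sel.1 hx
        exact a2 ▸ mem_range.1 ((hP i x a1).1 (hin i x a1).1)
      rw [e, card_empty, Nat.cast_zero]
      positivity
  · have hc : (0 : ℝ) ≤ 6 * D / (Q * 2 ^ b) := by positivity
    have h1 : ∀ z0, ∑ x ∈ J i z0, ∑ z, κ i x z * ((sel (fun y => (gr i).Adj z y ∧ y ≠ x ∧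
        Cn i x ∧ Cn i y ∧ lab i y = lab i x ∧ (f i y).1 = (f i x).1 ∧
        (f i y).2 = (f i x).2)).card : ℝ) ≤
        6 * D / (Q * 2 ^ b) * ∑ x ∈ J i z0, ∑ z, κ i x z := fun z0 => by
      refine le_trans (le_of_eq ?_) (hO i z0).2.2.2.2
      refine sum_congr rfl fun x hx => ?_
      obtain ⟨a1, a2⟩ := (hJ i z0 x).1 hx
      have e1 : ∀ z, sel (fun y => (gr i).Adj z y ∧ y ≠ x ∧ Cn i x ∧ Cn i y ∧ lab i y = lab i x ∧
          (f i y).1 = (f i x).1 ∧ (f i y).2 = (f i x).2) =
          (J i z0).filter (fun y => (y ≠ x ∧ f i y = f i x) ∧ z ∈ nbr gr i y) := fun z => by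
        ext y
        simp only [mem_sel, mem_filter, hJ, mem_nbr, (gr i).adj_comm z y, a1, a2, Prod.ext_iff]
        tauto
      simp only [e1, card_filter]
      push_cast
      simp only [mul_sum]
      rw [sum_comm]
      refine sum_congr rfl fun y _ => ?_
      by_cases a3 : y ≠ x ∧ f i y = f i x
      · rw [if_pos a3]
        simp only [a3, ne_eq, not_false_eq_true, and_self, true_and, mul_ite, mul_one, mul_zero]
        rw [← sum_filter, filter_mem_eq_inter, univ_inter]
      · rw [if_neg a3]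
        simp only [a3, false_and, if_false, mul_zero, sum_const_zero]
    have h2 := sum_le_sum fun z0 (_ : z0 ∈ univ) => h1 z0
    rw [← mul_sum, sum_fiberwise, sum_fiberwise] at h2
    refine le_trans (le_of_eq ?_) (h2.trans (mul_le_mul_of_nonneg_left ?_ hc))
    · refine (sum_subset (subset_univ _) fun x _ hx => sum_eq_zero fun z _ => ?_).symm
      refine mul_eq_zero_of_right _ (Nat.cast_eq_zero.2 (card_eq_zero.2 ?_))
      exact eq_empty_of_forall_notMem fun y hy => hx (mem_sel.2 (mem_sel.1 hy).2.2.1)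
    · exact sum_le_sum_of_subset_of_nonneg (subset_univ _) fun x _ _ =>
        sum_nonneg fun z _ => hκ i x z

end Pool.Agent.P.MP_6f280c_lc.Dc
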