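import Pool.Agent.P.MP_6f280c_lc.Dc.St

set_option autoImplicit false

namespace Pool.Agent.P.MP_6f280c_lc.Dc

open Finset

namespace Seq

/-- a potential that does not grow on average can be kept from growing -/
lemma gen {ι Ω : Type} [DecidableEq ι] (J : Finset ι) (Good : Finset ι → (ι → Ω) → Prop)
    (x0 : ι → Ω) (Φ : Finset ι → (ι → Ω) → ℝ) (h0 : Good ∅ x0)
    (hs : ∀ S x j, S ⊆ J → j ∈ J → j ∉ S → Good S x → ∃ O : Finset Ω, O.Nonempty ∧
      (∀ ω ∈ O, Good (insert j S) (Function.update x j ω)) ∧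
      ∑ ω ∈ O, Φ (insert j S) (Function.update x j ω) ≤ O.card * Φ S x) :
    ∀ S, S ⊆ J → ∃ x, Good S x ∧ Φ S x ≤ Φ ∅ x0 := by
  intro S
  induction S using Finset.induction_on with
  | empty => exact fun _ => ⟨x0, h0, le_rfl⟩
  | insert j S hj ih =>
    intro hsub
    have hS : S ⊆ J := (subset_insert j S).trans hsub
    obtain ⟨x, hx, hΦ⟩ := ih hS
    obtain ⟨O, hO, hG, hsum⟩ := hs S x j hS (hsub (mem_insert_self j S)) hj hx
    have h1 : ∑ ω ∈ O, Φ (insert j S) (Function.update x j ω) ≤ ∑ _ω ∈ O, Φ S x := by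
      rw [sum_const, nsmul_eq_mul]
      exact hsum
    obtain ⟨ω, hω, hle⟩ := exists_le_of_sum_le hO h1
    exact ⟨_, hG ω hω, hle.trans hΦ⟩

lemma cnt {ι Ω : Type} [DecidableEq ι] (p : ι → Ω → Prop) [∀ j ω, Decidable (p j ω)]
    (S : Finset ι) (x : ι → Ω) (j : ι) (hj : j ∉ S) (ω : Ω) :
    ((((insert j S).filter (fun i => p i (Function.update x j ω i))).card : ℕ) : ℝ) =
      (S.filter (fun i => p i (x i))).card + if p j ω then 1 else 0 := by
  have h1 : S.filter (fun i => p i (Function.update x j ω i)) = S.filter (fun i => p i (x i)) := by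
    apply filter_congr
    intro i hi
    have : i ≠ j := fun h => hj (h ▸ hi)
    rw [Function.update_of_ne this]
  rw [filter_insert, h1, Function.update_self]
  split_ifs with h
  · rw [card_insert_of_notMem (fun hh => hj (mem_filter.1 hh).1)]
    push_cast
    rfl
  · simp

lemma sum_ite_lin {Ω : Type} (O : Finset Ω) (p : Ω → Prop) [DecidablePred p] (a b : ℝ) :
    ∑ ω ∈ O, (if p ω then a else b) = O.card * b + (O.filter p).card * (a - b) := by
  have : ∀ ω ∈ O, (if p ω then a else b) = b + (if p ω then a - b else 0) := by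
    intro ω _
    split_ifs <;> ring
  rw [sum_congr rfl this, sum_add_distrib, sum_const, nsmul_eq_mul, ← sum_filter, sum_const,
    nsmul_eq_mul]

lemma stepU {Ω : Type} (O : Finset Ω) (p : Ω → Prop) [DecidablePred p] (c b β : ℝ)
    (h : ((O.filter p).card : ℝ) ≤ β * O.card) :
    ∑ ω ∈ O, Real.exp ((c + if p ω then 1 else 0) * Real.log 2 - (β + b)) ≤
      O.card * Real.exp (c * Real.log 2 - b) := by
  have e1 : ∀ ω ∈ O, Real.exp ((c + if p ω then 1 else 0) * Real.log 2 - (β + b)) =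
      (Real.exp (c * Real.log 2 - b) * Real.exp (-β)) * (if p ω then 2 else 1) := by
    intro ω _
    rw [← Real.exp_add]
    split_ifs
    · conv_rhs => rw [← Real.exp_log (show (0 : ℝ) < 2 by norm_num), ← Real.exp_add]
      rw [Real.log_exp]
      congr 1
      ring
    · rw [mul_one]
      congr 1
      ring
  rw [sum_congr rfl e1, ← mul_sum, sum_ite_lin]
  have h2 : (1 + β) * Real.exp (-β) ≤ 1 := by
    have h3 := Real.add_one_le_exp β
    have h4 : Real.exp β * Real.exp (-β) = 1 := by rw [← Real.exp_add]; simp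
    have h5 := Real.exp_pos (-β)
    nlinarith
  have h6 := Real.exp_pos (c * Real.log 2 - b)
  have h7 := Real.exp_pos (-β)
  have h8 : (0 : ℝ) ≤ O.card := Nat.cast_nonneg _
  have h9 : Real.exp (-β) * (O.card * 1 + (O.filter p).card * (2 - 1)) ≤ O.card := by
    have : Real.exp (-β) * (O.card * 1 + (O.filter p).card * (2 - 1)) ≤
        Real.exp (-β) * ((1 + β) * O.card) := by
      apply mul_le_mul_of_nonneg_left _ h7.le
      linarith
    nlinarith
  calc _ = Real.exp (c * Real.log 2 - b) *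
        (Real.exp (-β) * (O.card * 1 + (O.filter p).card * (2 - 1))) := by ring
    _ ≤ Real.exp (c * Real.log 2 - b) * O.card := mul_le_mul_of_nonneg_left h9 h6.le
    _ = _ := by ring

lemma stepL {Ω : Type} (O : Finset Ω) (p : Ω → Prop) [DecidablePred p] (c g γ : ℝ)
    (h : γ * O.card ≤ ((O.filter p).card : ℝ)) :
    ∑ ω ∈ O, Real.exp ((γ + g) / 2 - (c + if p ω then 1 else 0) * Real.log 2) ≤
      O.card * Real.exp (g / 2 - c * Real.log 2) := by
  have e1 : ∀ ω ∈ O, Real.exp ((γ + g) / 2 - (c + if p ω then 1 else 0) * Real.log 2) =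
      (Real.exp (g / 2 - c * Real.log 2) * Real.exp (γ / 2)) * (if p ω then 1 / 2 else 1) := by
    intro ω _
    rw [← Real.exp_add]
    split_ifs
    · have h2 : (1 / 2 : ℝ) = Real.exp (-Real.log 2) := by
        rw [Real.exp_neg, Real.exp_log (show (0 : ℝ) < 2 by norm_num)]
        norm_num
      rw [h2, ← Real.exp_add]
      congr 1
      ring
    · rw [mul_one]
      congr 1
      ring
  rw [sum_congr rfl e1, ← mul_sum, sum_ite_lin]
  have h2 : (1 - γ / 2) * Real.exp (γ / 2) ≤ 1 := by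
    have h3 := Real.add_one_le_exp (-(γ / 2))
    have h4 : Real.exp (-(γ / 2)) * Real.exp (γ / 2) = 1 := by rw [← Real.exp_add]; simp
    have h5 := Real.exp_pos (γ / 2)
    nlinarith
  have h6 := Real.exp_pos (g / 2 - c * Real.log 2)
  have h7 := Real.exp_pos (γ / 2)
  have h8 : (0 : ℝ) ≤ O.card := Nat.cast_nonneg _
  have h9 : Real.exp (γ / 2) * (O.card * 1 + (O.filter p).card * (1 / 2 - 1)) ≤ O.card := by
    have : Real.exp (γ / 2) * (O.card * 1 + (O.filter p).card * (1 / 2 - 1)) ≤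
        Real.exp (γ / 2) * ((1 - γ / 2) * O.card) := by
      apply mul_le_mul_of_nonneg_left _ h7.le
      linarith
    nlinarith
  calc _ = Real.exp (g / 2 - c * Real.log 2) *
        (Real.exp (γ / 2) * (O.card * 1 + (O.filter p).card * (1 / 2 - 1))) := by ring
    _ ≤ Real.exp (g / 2 - c * Real.log 2) * O.card := mul_le_mul_of_nonneg_left h9 h6.le
    _ = _ := by ring

lemma exp_le_pow {y : ℝ} {n : ℕ} (h : Real.exp y ≤ 2 ^ n) : y ≤ n * Real.log 2 := by
  have h1 := Real.log_le_log (Real.exp_pos y) h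
  rwa [Real.log_exp, Real.log_pow] at h1

end Seq

theorem p_seq : SeqSt := by
  intro ι Ω τ _ _ J Good x0 up lo _ _ β γ Ψ lam h0 hβ hΨ hlam hs
  set A : Finset ι → (ι → Ω) → ℝ := fun S x => ∑ t,
    (Real.exp (((S.filter (fun j => up t j (x j))).card : ℝ) * Real.log 2 - ∑ j ∈ S, β t j) +
      Real.exp ((∑ j ∈ S, γ t j) / 2 -
        ((S.filter (fun j => lo t j (x j))).card : ℝ) * Real.log 2)) with hAdef
  have hA0 : A ∅ x0 = 2 * Fintype.card τ := by
    simp only [hAdef, filter_empty, card_empty, sum_empty, Nat.cast_zero, zero_mul, sub_zero,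
      zero_div, Real.exp_zero, sum_const, card_univ, nsmul_eq_mul]
    ring
  have hAnn : ∀ S x, 0 ≤ A S x := fun S x =>
    sum_nonneg fun t _ => add_nonneg (Real.exp_pos _).le (Real.exp_pos _).le
  have hA : ∀ (S : Finset ι) (x : ι → Ω) (j : ι) (O : Finset Ω), j ∉ S →
      (∀ t, ((O.filter (fun ω => up t j ω)).card : ℝ) ≤ β t j * O.card) →
      (∀ t, γ t j * O.card ≤ ((O.filter (fun ω => lo t j ω)).card : ℝ)) →
      ∑ ω ∈ O, A (insert j S) (Function.update x j ω) ≤ O.card * A S x := by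
    intro S x j O hj h1 h2
    simp only [hAdef]
    rw [sum_comm, mul_sum]
    refine sum_le_sum fun t _ => ?_
    rw [sum_add_distrib, mul_add]
    simp only [Seq.cnt (up t) S x j hj, Seq.cnt (lo t) S x j hj, sum_insert hj]
    exact add_le_add (Seq.stepU O _ _ _ _ (h1 t)) (Seq.stepL O _ _ _ _ (h2 t))
  have hl : (4 : ℝ) * Fintype.card τ ≤ 2 ^ lam := by exact_mod_cast hlam
  have hp : (0 : ℝ) < 2 ^ lam := by positivity
  have hc : (0 : ℝ) ≤ Fintype.card τ := Nat.cast_nonneg _
  have key : ∃ x, Good J x ∧ A J x ≤ 2 ^ lam ∧ Ψ J x ≤ 3 * Ψ ∅ x0 := by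
    rcases (hΨ ∅ x0).eq_or_lt with h | h
    · obtain ⟨x, hx, hle⟩ := Seq.gen J (fun S x => Good S x ∧ Ψ S x = 0) x0 A ⟨h0, h.symm⟩ (by
        intro S x j hS hj hjS hG
        obtain ⟨O, hO, g1, g2, g3, g4⟩ := hs S x j hS hj hjS hG.1
        refine ⟨O, hO, fun ω hω => ⟨g1 ω hω, ?_⟩, hA S x j O hjS g2 g3⟩
        rw [hG.2, mul_zero] at g4
        have g5 := single_le_sum (f := fun ω => Ψ (insert j S) (Function.update x j ω))
          (fun ω _ => hΨ _ _) hω
        exact le_antisymm (g5.trans g4) (hΨ _ _)) J Subset.rfl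
      refine ⟨x, hx.1, ?_, ?_⟩
      · rw [hA0] at hle
        linarith
      · rw [hx.2, ← h]
        norm_num
    · obtain ⟨x, hx, hle⟩ := Seq.gen J Good x0
        (fun S x => 2 * Ψ ∅ x0 * A S x + 2 ^ lam * Ψ S x) h0 (by
        intro S x j hS hj hjS hG
        obtain ⟨O, hO, g1, g2, g3, g4⟩ := hs S x j hS hj hjS hG
        refine ⟨O, hO, g1, ?_⟩
        rw [sum_add_distrib, ← mul_sum, ← mul_sum]
        have g5 := mul_le_mul_of_nonneg_left (hA S x j O hjS g2 g3)
          (show 0 ≤ 2 * Ψ ∅ x0 by linarith)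
        have g6 := mul_le_mul_of_nonneg_left g4 hp.le
        linarith) J Subset.rfl
      simp only [hA0] at hle
      have g1 := mul_le_mul_of_nonneg_left hl h.le
      have g2 := mul_nonneg hp.le (hΨ J x)
      have g3 := mul_nonneg h.le (hAnn J x)
      refine ⟨x, hx, ?_, ?_⟩
      · by_contra hc'
        have g4 := mul_lt_mul_of_pos_left (not_le.1 hc') h
        linarith
      · by_contra hc'
        have g4 := mul_lt_mul_of_pos_left (not_le.1 hc') hp
        have g5 := mul_pos hp h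
        linarith
  obtain ⟨x, hx, hAx, hP⟩ := key
  have hl1 : (1 : ℝ) / 2 < Real.log 2 := by
    have := Real.log_two_gt_d9
    linarith
  have hl2 : Real.log 2 < 1 := by
    have := Real.log_two_lt_d9
    linarith
  have hone : ∀ t, Real.exp (((J.filter (fun j => up t j (x j))).card : ℝ) * Real.log 2 -
      ∑ j ∈ J, β t j) + Real.exp ((∑ j ∈ J, γ t j) / 2 -
        ((J.filter (fun j => lo t j (x j))).card : ℝ) * Real.log 2) ≤ 2 ^ lam := by
    intro t
    refine le_trans ?_ hAx
    exact single_le_sum (f := fun t =>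
      Real.exp (((J.filter (fun j => up t j (x j))).card : ℝ) * Real.log 2 - ∑ j ∈ J, β t j) +
        Real.exp ((∑ j ∈ J, γ t j) / 2 -
          ((J.filter (fun j => lo t j (x j))).card : ℝ) * Real.log 2))
      (fun t _ => add_nonneg (Real.exp_pos _).le (Real.exp_pos _).le) (mem_univ t)
  refine ⟨x, hx, fun t => ?_, fun t => ?_, hP⟩
  · have g1 := Seq.exp_le_pow ((le_add_of_nonneg_right (Real.exp_pos _).le).trans (hone t))
    have g2 : 0 ≤ ∑ j ∈ J, β t j := sum_nonneg fun j _ => hβ t j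
    by_contra hc'
    have g3 := mul_lt_mul_of_pos_right (not_le.1 hc') (show 0 < Real.log 2 by linarith)
    nlinarith
  · have g1 := Seq.exp_le_pow ((le_add_of_nonneg_left (Real.exp_pos _).le).trans (hone t))
    have g2 : (0 : ℝ) ≤ (J.filter (fun j => lo t j (x j))).card := Nat.cast_nonneg _
    have g3 : (0 : ℝ) ≤ lam := Nat.cast_nonneg _
    nlinarith

end Pool.Agent.P.MP_6f280c_lc.Dc
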