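import Pool.Agent.P.MP_6f280c_lc.Dc.St

set_option autoImplicit false

namespace Pool.Agent.P.MP_6f280c_lc.Dc

open Finset

variable {V I : Type} [Fintype V] [LinearOrder V]

namespace SlackCol

/-- the state after some phases -/
def Stt (gr : I → SimpleGraph V) (D K0 r : ℕ) (χ : I → V → Option ℕ) (g : I → V → ℕ) : Prop :=
  PC gr D r χ ∧ Loc gr r g ∧ (∀ i v, χ i v = none → Sl (gr i) D (χ i) v K0) ∧
    ∀ i, ∑ v ∈ sel (fun v => χ i v = none), (1 + 1 / 2 ^ 16 : ℝ) ^ g i v ≤ Fintype.card V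

omit [LinearOrder V] in
theorem loc_good {gr : I → SimpleGraph V} {D r : ℕ} {χ : I → V → Option ℕ} (h : ℕ → ℕ)
    (hχ : Loc gr r χ) : Loc gr (r + 1) (fun i v => good (gr i) D h (χ i) v) := by
  intro i i' v hA
  have e1 : χ i v = χ i' v := hχ.here hA (by omega)
  have e2 : lst (gr i) D (χ i) v = lst (gr i') D (χ i') v := loc_lst hχ i i' v hA
  simp only [good, bl, e1, e2]

omit [LinearOrder V] in
theorem bl_mono {gr : I → SimpleGraph V} {D : ℕ} {χ χ' : I → V → Option ℕ} (h : Ext χ χ')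
    (i : I) (v : V) : bl (gr i) D (χ' i) v ≤ bl (gr i) D (χ i) v := by
  have h1 := card_le_card (lst_subset (gr := gr) (D := D) h i v)
  have h2 := Nat.log_mono_right (b := 2) h1
  unfold bl blen
  omega

omit [LinearOrder V] in
open Classical in
theorem phase {gr : I → SimpleGraph V} {D t b A r0 w K0 r : ℕ}
    (hP : PhaseProp gr D t b A r0 w) (h1 : 1 ≤ K0) (h2 : 16 * A * 2 ^ t ≤ K0)
    (h3 : t = 0 ∨ 16 * 2 ^ t ≤ K0) (h4 : D + 1 ≤ 2 ^ (t + b)) (hr : r0 ≤ r)
    {χ : I → V → Option ℕ} {g : I → V → ℕ} (hS : Stt gr D K0 r χ g) (h : ℕ → ℕ) :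
    ∃ χ' g', Stt gr D K0 (r + (w + 1)) χ' g' ∧ Ext χ χ' ∧
      ∀ i v, g' i v = g i v + if good (gr i) D h (χ i) v then 1 else 0 := by
  obtain ⟨a1, a2, a3, a4⟩ := hS
  obtain ⟨χ', b1, b2, b3⟩ := hP r K0 h χ (fun i v => (1 + 1 / 2 ^ 16 : ℝ) ^ g i v) hr a1
    (a2.map (fun _ x => (1 + 1 / 2 ^ 16 : ℝ) ^ x)) (fun i v => by positivity) h1 h2 h3 h4 a3
  refine ⟨χ', fun i v => g i v + if good (gr i) D h (χ i) v then 1 else 0,
    ⟨b1.mono (by omega), ?_, fun i v e => (a3 i v (b2.none e)).ext b2, fun i => ?_⟩, b2,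
    fun _ _ => rfl⟩
  · exact (((a2.mono (Nat.le_succ r)).prod (loc_good h a1.1)).map
      (fun _ x => x.1 + if x.2 then 1 else 0)).mono (by omega)
  · refine le_trans ?_ (a4 i)
    have c := b3 i
    rw [sum_sel, sum_sel] at c
    rw [sum_sel, sum_sel]
    have k : ∀ v, (if χ' i v = none then (1 + 1 / 2 ^ 16 : ℝ) ^
        (g i v + if good (gr i) D h (χ i) v then 1 else 0) else 0) ≤
        (1 + 1 / 2 ^ 16) * (if good (gr i) D h (χ i) v ∧ χ' i v = none then
          (1 + 1 / 2 ^ 16 : ℝ) ^ g i v else 0) +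
        ((if χ i v = none then (1 + 1 / 2 ^ 16 : ℝ) ^ g i v else 0) -
          (if good (gr i) D h (χ i) v then (1 + 1 / 2 ^ 16 : ℝ) ^ g i v else 0)) := by
      intro v
      have p : (0 : ℝ) ≤ (1 + 1 / 2 ^ 16 : ℝ) ^ g i v := by positivity
      by_cases e : good (gr i) D h (χ i) v
      · have e0 : χ i v = none := e.1
        by_cases e' : χ' i v = none
        · simp only [e, e', e0, if_true, and_self, pow_succ]
          linarith
        · simp only [e, e', e0, if_true, if_false, and_false]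
          linarith
      · by_cases e' : χ' i v = none
        · simp only [e, e', b2.none e', if_true, if_false, false_and, add_zero]
          linarith
        · simp only [e, e', if_false, false_and]
          split_ifs <;> linarith
    refine le_trans (sum_le_sum fun v _ => ?_) (le_trans (sum_le_sum fun v _ => k v) ?_)
    · exact le_of_eq (by congr)
    rw [sum_add_distrib, sum_sub_distrib, ← mul_sum]
    have p : (0 : ℝ) ≤ ∑ v, (if good (gr i) D h (χ i) v then
        (1 + 1 / 2 ^ 16 : ℝ) ^ g i v else 0) :=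
      sum_nonneg fun v _ => by split_ifs <;> positivity
    have c' : (∑ v, (if good (gr i) D h (χ i) v ∧ χ' i v = none then
          (1 + 1 / 2 ^ 16 : ℝ) ^ g i v else 0)) ≤ (1 - 1 / 2 ^ 16) *
        ∑ v, (if good (gr i) D h (χ i) v then (1 + 1 / 2 ^ 16 : ℝ) ^ g i v else 0) := by
      refine le_trans (le_of_eq ?_) c
      exact sum_congr rfl fun v _ => by
        by_cases e : good (gr i) D h (χ i) v ∧ χ' i v = none
        · rw [if_pos e, if_pos e]
        · rw [if_neg e, if_neg e]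
    have e : (∑ v, (if χ i v = none then (1 + 1 / 2 ^ 16 : ℝ) ^ g i v else 0)) =
        ∑ v, (@ite ℝ (χ i v = none) (Classical.propDecidable _)
          ((1 + 1 / 2 ^ 16 : ℝ) ^ g i v) 0) :=
      sum_congr rfl fun v _ => by
        by_cases e : χ i v = none
        · rw [if_pos e, if_pos e]
        · rw [if_neg e, if_neg e]
    rw [← e]
    nlinarith

/-- the hash function number `j` spreads the set `S` -/
def spread (h : ℕ → ℕ → ℕ) (β : ℕ) (S : Finset ℕ) (j : ℕ) : Prop :=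
  β = 0 ∨ 2 ^ β ≤ 2 * (S.image (fun c => h j c % 2 ^ β)).card

omit [LinearOrder V] in
open Classical in
theorem inner {gr : I → SimpleGraph V} {D t b A r0 w K0 r : ℕ}
    (hP : PhaseProp gr D t b A r0 w) (h1 : 1 ≤ K0) (h2 : 16 * A * 2 ^ t ≤ K0)
    (h3 : t = 0 ∨ 16 * 2 ^ t ≤ K0) (h4 : D + 1 ≤ 2 ^ (t + b)) (hr : r0 ≤ r)
    {χ0 : I → V → Option ℕ} {g0 : I → V → ℕ} (hS : Stt gr D K0 r χ0 g0) (h : ℕ → ℕ → ℕ)
    (j : ℕ) : ∃ χ g, Stt gr D K0 (r + j * (w + 1)) χ g ∧ Ext χ0 χ ∧ (∀ i v, g0 i v ≤ g i v) ∧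
      ∀ i v, χ i v = none → bl (gr i) D (χ i) v = bl (gr i) D (χ0 i) v →
        ∀ S, S ⊆ lst (gr i) D (χ i) v →
          g0 i v + ((range j).filter (spread h (bl (gr i) D (χ0 i) v) S)).card ≤ g i v := by
  induction j with
  | zero => exact ⟨χ0, g0, by simpa using hS, Ext.refl _, fun _ _ => le_rfl, by simp⟩
  | succ j ih =>
    obtain ⟨χ, g, a1, a2, a3, a4⟩ := ih
    obtain ⟨χ', g', b1, b2, b3⟩ := phase hP h1 h2 h3 h4 (by omega) a1 (h j)
    refine ⟨χ', g', by rw [Nat.succ_mul, ← add_assoc]; exact b1, a2.trans b2,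
      fun i v => by rw [b3]; exact le_trans (a3 i v) (Nat.le_add_right _ _),
      fun i v e1 e2 S hs => ?_⟩
    have m1 := bl_mono (gr := gr) (D := D) b2 i v
    have m2 := bl_mono (gr := gr) (D := D) a2 i v
    have e3 : bl (gr i) D (χ i) v = bl (gr i) D (χ0 i) v := by omega
    have hs' : S ⊆ lst (gr i) D (χ i) v := hs.trans (lst_subset b2 i v)
    have c := a4 i v (b2.none e1) e3 S hs'
    rw [range_add_one, filter_insert, b3]
    by_cases e : spread h (bl (gr i) D (χ0 i) v) S j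
    · have hg : good (gr i) D (h j) (χ i) v := by
        refine ⟨b2.none e1, ?_⟩
        rw [← e3] at e
        rcases e with e | e
        · have s1 := a1.2.2.1 i v (b2.none e1)
          unfold Sl at s1
          have s2 : (lst (gr i) D (χ i) v).Nonempty := card_pos.1 (by omega)
          have s3 : 0 < (cov (h j) (lst (gr i) D (χ i) v)).card := card_pos.2 (s2.image _)
          rw [e]
          omega
        · refine e.trans (Nat.mul_le_mul_left _ (card_le_card ?_))
          exact image_subset_image hs'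
      rw [if_pos e, if_pos hg, card_insert_of_notMem (by simp)]
      omega
    · rw [if_neg e]
      omega

omit [LinearOrder V] in
theorem cycle {gr : I → SimpleGraph V} {D t b A r0 w K0 r σ : ℕ} (hH : HashSt)
    (hP : PhaseProp gr D t b A r0 w) (h1 : 1 ≤ K0) (h2 : 16 * A * 2 ^ t ≤ K0)
    (h3 : t = 0 ∨ 16 * 2 ^ t ≤ K0) (h4 : D + 1 ≤ 2 ^ (t + b)) (h5 : D + 1 ≤ 2 ^ σ * K0)
    (hr : r0 ≤ r) {χ0 : I → V → Option ℕ} {g0 : I → V → ℕ} (hS : Stt gr D K0 r χ0 g0) :
    ∃ χ g, Stt gr D K0 (r + (2 * (2 * σ + 8)) * (w + 1)) χ g ∧ Ext χ0 χ ∧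
      ∀ i v, χ i v = none → g0 i v + (2 * σ + 8) * (bl (gr i) D (χ i) v + 1) ≤
        g i v + (2 * σ + 8) * bl (gr i) D (χ0 i) v := by
  classical
  obtain ⟨h, hh⟩ := hH (D + 1) (σ + 1)
  obtain ⟨χ, g, a1, a2, a3, a4⟩ := inner hP h1 h2 h3 h4 hr hS h (2 * (2 * σ + 8))
  refine ⟨χ, g, a1, a2, fun i v e => ?_⟩
  have m := bl_mono (gr := gr) (D := D) a2 i v
  rcases m.lt_or_eq with m | m
  · have := Nat.mul_le_mul_left (2 * σ + 8)
      (show bl (gr i) D (χ i) v + 1 ≤ bl (gr i) D (χ0 i) v from m)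
    have := a3 i v
    omega
  · have key : g0 i v + (2 * σ + 8) ≤ g i v := by
      rcases Nat.eq_zero_or_pos (bl (gr i) D (χ0 i) v) with z | z
      · have c := a4 i v e m ∅ (empty_subset _)
        rw [filter_true_of_mem (p := spread h (bl (gr i) D (χ0 i) v) ∅)
          (fun j _ => Or.inl z), card_range] at c
        omega
      · have s1 := a1.2.2.1 i v e
        unfold Sl at s1
        have hb : Nat.log 2 (lst (gr i) D (χ i) v).card = bl (gr i) D (χ0 i) v + 3 := by
          have : bl (gr i) D (χ i) v = Nat.log 2 (lst (gr i) D (χ i) v).card - 3 := rfl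
          omega
        have l1 : 2 ^ (bl (gr i) D (χ0 i) v + 3) ≤ (lst (gr i) D (χ i) v).card := by
          rw [← hb]
          exact Nat.pow_log_le_self 2 (by omega)
        have l2 : (lst (gr i) D (χ i) v).card < 2 ^ (bl (gr i) D (χ0 i) v + 3 + 1) := by
          rw [← hb]
          exact Nat.lt_pow_succ_log_self (by norm_num) _
        obtain ⟨S, hs, hc⟩ := exists_subset_card_eq l1
        have l3 : D + 1 ≤ 2 ^ (σ + 1 + bl (gr i) D (χ0 i) v + 3) := by
          have : σ + 1 + bl (gr i) D (χ0 i) v + 3 = σ + (bl (gr i) D (χ0 i) v + 3 + 1) := by omega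
          rw [this, pow_add]
          exact h5.trans (Nat.mul_le_mul_left _ (by omega))
        have c1 := hh S _ (hs.trans (lst_subset_range _ _)) z hc l3
        have c2 := a4 i v e m S hs
        have c3 := card_filter_add_card_filter_not (s := range (2 * (2 * σ + 8)))
          (spread h (bl (gr i) D (χ0 i) v) S)
        have c4 : ((range (2 * (2 * σ + 8))).filter
            (fun j => ¬ spread h (bl (gr i) D (χ0 i) v) S j)).card ≤
            ((range (2 * (2 * (σ + 1) + 6))).filter (fun j => 2 * (S.image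
              (fun c => h j c % 2 ^ bl (gr i) D (χ0 i) v)).card <
                2 ^ bl (gr i) D (χ0 i) v)).card := by
          refine card_le_card fun j hj => ?_
          obtain ⟨j1, j2⟩ := mem_filter.1 hj
          refine mem_filter.2 ⟨mem_range.2 (by have := mem_range.1 j1; omega), ?_⟩
          by_contra hn
          exact j2 (Or.inr (by omega))
        rw [card_range] at c3
        omega
    rw [m, Nat.mul_add]
    omega

omit [LinearOrder V] in
theorem outer {gr : I → SimpleGraph V} {D t b A r0 w K0 r σ : ℕ} (hH : HashSt)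
    (hP : PhaseProp gr D t b A r0 w) (h1 : 1 ≤ K0) (h2 : 16 * A * 2 ^ t ≤ K0)
    (h3 : t = 0 ∨ 16 * 2 ^ t ≤ K0) (h4 : D + 1 ≤ 2 ^ (t + b)) (h5 : D + 1 ≤ 2 ^ σ * K0)
    (hr : r0 ≤ r) {χ0 : I → V → Option ℕ} (hS : Stt gr D K0 r χ0 (fun _ _ => 0)) (C : ℕ) :
    ∃ χ g, Stt gr D K0 (r + C * ((2 * (2 * σ + 8)) * (w + 1))) χ g ∧
      ∀ i v, χ i v = none → (2 * σ + 8) * (C + bl (gr i) D (χ i) v) ≤
        g i v + (2 * σ + 8) * (σ + blen K0) := by
  induction C with
  | zero =>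
    refine ⟨χ0, fun _ _ => 0, by simpa using hS, fun i v _ => ?_⟩
    have l1 : (lst (gr i) D (χ0 i) v).card ≤ D + 1 := by
      simpa using card_le_card (lst_subset_range (G := gr i) (D := D) (χ0 i) v)
    have l2 : K0 < 2 ^ (Nat.log 2 K0 + 1) := Nat.lt_pow_succ_log_self (by norm_num) _
    have l3 : (lst (gr i) D (χ0 i) v).card < 2 ^ (σ + (Nat.log 2 K0 + 1)) := by
      rw [pow_add]
      exact lt_of_le_of_lt (l1.trans h5) (Nat.mul_lt_mul_of_pos_left l2 (by positivity))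
    have l4 : Nat.log 2 (lst (gr i) D (χ0 i) v).card < σ + (Nat.log 2 K0 + 1) :=
      Nat.log_lt_of_lt_pow' (by omega) l3
    have l5 : bl (gr i) D (χ0 i) v ≤ σ + blen K0 := by
      unfold bl blen
      omega
    simpa using Nat.mul_le_mul_left (2 * σ + 8) l5
  | succ C ih =>
    obtain ⟨χ, g, a1, a2⟩ := ih
    obtain ⟨χ', g', b1, b2, b3⟩ := cycle hH hP h1 h2 h3 h4 h5 (by omega) a1
    refine ⟨χ', g', by rw [Nat.succ_mul, ← add_assoc]; exact b1, fun i v e => ?_⟩
    have c1 := a2 i v (b2.none e)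
    have c2 := b3 i v e
    simp only [Nat.mul_add, Nat.mul_one] at c1 c2 ⊢
    omega

end SlackCol

theorem p_slackCol (hH : HashSt) (gr : I → SimpleGraph V) : SlackColSt gr := by
  intro D t b A r0 w L σ K0 r χ0 hP hn h1 h5 h2 h3 h4 hr hC hs
  have hS : SlackCol.Stt gr D K0 r χ0 (fun _ _ => 0) := by
    refine ⟨hC, Loc.const (fun _ => 0), hs, fun i => ?_⟩
    simp only [pow_zero, sum_const, nsmul_eq_mul, mul_one]
    exact_mod_cast card_le_univ _
  obtain ⟨χ, g, ⟨a1, -, a3, a4⟩, a5⟩ := SlackCol.outer hH hP h1 h2 h3 h4 h5 hr hS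
    (2 ^ 16 * (L + 1) / (2 * σ + 8) + 1 + σ)
  have q1 := Nat.div_add_mod (2 ^ 16 * (L + 1)) (2 * σ + 8)
  have q2 := Nat.mod_lt (2 ^ 16 * (L + 1)) (show 0 < 2 * σ + 8 by omega)
  generalize 2 ^ 16 * (L + 1) / (2 * σ + 8) = q at *
  have all : ∀ i v, χ i v ≠ none := by
    intro i v e
    have c1 := a5 i v e
    have s1 := a3 i v e
    unfold Sl at s1
    have c2 : blen K0 ≤ bl (gr i) D (χ i) v := by
      have := Nat.log_mono_right (b := 2) (show K0 ≤ (lst (gr i) D (χ i) v).card by omega)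
      unfold bl blen
      omega
    have c3 := Nat.mul_le_mul_left (2 * σ + 8) c2
    have c4 : 2 ^ 16 * (L + 1) ≤ g i v := by
      simp only [Nat.mul_add, Nat.mul_one] at c1 q1 q2 ⊢
      omega
    have c5 : (1 + 1 / 2 ^ 16 : ℝ) ^ g i v ≤
        ∑ v ∈ sel (fun v => χ i v = none), (1 + 1 / 2 ^ 16 : ℝ) ^ g i v :=
      single_le_sum (f := fun v => (1 + 1 / 2 ^ 16 : ℝ) ^ g i v) (fun _ _ => by positivity)
        (mem_sel.2 e)
    have c6 : (2 : ℝ) ≤ (1 + 1 / 2 ^ 16 : ℝ) ^ (2 ^ 16) := by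
      refine le_trans ?_ (one_add_mul_le_pow (a := (1 / 2 ^ 16 : ℝ)) (by norm_num) (2 ^ 16))
      norm_num
    have c7 : (2 : ℝ) ^ (L + 1) ≤ (1 + 1 / 2 ^ 16 : ℝ) ^ g i v := by
      refine le_trans (pow_le_pow_left₀ (by norm_num) c6 (L + 1)) ?_
      rw [← pow_mul]
      exact pow_le_pow_right₀ (by norm_num) c4
    have c8 : (Fintype.card V : ℝ) ≤ 2 ^ L := by exact_mod_cast hn
    have c9 : (0 : ℝ) < 2 ^ L := by positivity
    have := a4 i
    rw [pow_succ] at c7
    linarith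
  have ex : ∀ i v, ∃ c, χ i v = some c := fun i v => Option.ne_none_iff_exists'.1 (all i v)
  refine ⟨fun i v => (χ i v).getD 0, (a1.1.map (fun _ x => x.getD 0)).mono ?_,
    fun i v => ?_, fun i v u ha => ?_⟩
  · rw [← mul_assoc]
    refine Nat.add_le_add_left (Nat.mul_le_mul_right _ ?_) _
    have q3 : (2 * σ + 8) * q ≤ 2 ^ 16 * (L + 1) := by omega
    have q4 : (q + 1 + σ) * (2 * (2 * σ + 8)) =
      2 * ((2 * σ + 8) * q) + (4 * σ + 16) * (σ + 1) := by ring
    have q5 : (4 * σ + 16) * (σ + 1) ≤ (4 * σ + 16) * (σ + 3) :=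
      Nat.mul_le_mul_left _ (by omega)
    omega
  · obtain ⟨c, e⟩ := ex i v
    simp only [e, Option.getD_some]
    exact a1.2.1 i v c e
  · obtain ⟨c, e⟩ := ex i v
    obtain ⟨c', e'⟩ := ex i u
    simp only [e, e', Option.getD_some]
    intro z
    exact a1.2.2 i v u c ha e (z ▸ e')

end Pool.Agent.P.MP_6f280c_lc.Dc
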