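import Pool.Agent.P.MP_6f280c_lc.Dc.St

set_option autoImplicit false

namespace Pool.Agent.P.MP_6f280c_lc.Dc

open Finset

theorem p_time : TimeSt := by
  intro N D hN hD
  obtain ⟨l1, l2⟩ := clog_le (n := N) (by omega)
  have l3 : N ≤ 2 ^ Nat.clog 2 N := Nat.le_pow_clog (by norm_num) _
  generalize Nat.clog 2 N = L at l1 l2 l3
  have l4 : 2 ≤ L := by
    by_contra hc
    have : L = 1 := by omega
    subst this
    omega
  obtain ⟨m1, m2⟩ := clog_le l4
  have m3 : L ≤ 2 ^ Nat.clog 2 L := Nat.le_pow_clog (by norm_num) _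
  generalize Nat.clog 2 L = m at m1 m2 m3
  obtain ⟨d1, d2⟩ := clog_le (n := D + 1) (by omega)
  have d3 : D + 1 ≤ 2 ^ Nat.clog 2 (D + 1) := Nat.le_pow_clog (by norm_num) _
  have d4 : 2 ^ (Nat.clog 2 (D + 1)).pred < D + 1 :=
    Nat.pow_pred_clog_lt_self (by norm_num) (by omega)
  generalize Nat.clog 2 (D + 1) = σ at d1 d2 d3 d4
  have d5 : 2 ^ σ ≤ 2 * D := by
    obtain ⟨k, rfl⟩ : ∃ k, σ = k + 1 := ⟨σ - 1, by omega⟩
    simp only [Nat.pred_succ] at d4
    rw [pow_succ]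
    omega
  have s0 : 1 ≤ Nat.sqrt L := Nat.le_sqrt.2 (by omega)
  have s1 : L < (Nat.sqrt L + 1) ^ 2 := Nat.lt_succ_sqrt' L
  have s2 : Nat.sqrt L ^ 2 ≤ L := Nat.sqrt_le' L
  generalize Nat.sqrt L = t at s0 s1 s2
  have s3 : (t + 1) ^ 2 ≤ 4 * L := by nlinarith
  refine ⟨L, t + 1, m, σ, l3, l1, s1, s3, by omega, d3, d5, m3, m1, ?_⟩
  generalize t + 1 = s at s3
  have n1 : Real.log 16 ≤ Real.log N := Real.log_le_log (by norm_num) (by exact_mod_cast hN)
  have n2 : Real.log 16 = 4 * Real.log 2 := by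
    rw [show (16 : ℝ) = 2 ^ 4 by norm_num, Real.log_pow]
    norm_num
  have n3 := Real.log_two_gt_d9
  have n4 := Real.exp_one_lt_d9
  have n5 : 0 < Real.log N := by linarith
  have n6 : 1 ≤ Real.log (Real.log N) := by
    rw [Real.le_log_iff_exp_le n5]
    linarith
  have n7 : Real.log L ≤ 3 * Real.log (Real.log N) := by
    have h1 : Real.log L ≤ Real.log (3 * Real.log N) :=
      Real.log_le_log (by exact_mod_cast l1) l2
    rw [Real.log_mul (by norm_num) n5.ne'] at h1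
    have h2 : Real.log 3 ≤ 3 - 1 := Real.log_le_sub_one_of_pos (by norm_num)
    linarith
  have n8 : (m : ℝ) ≤ 9 * Real.log (Real.log N) := by linarith
  have n9 : (m : ℝ) ^ 8 ≤ (9 * Real.log (Real.log N)) ^ 8 :=
    pow_le_pow_left₀ (Nat.cast_nonneg _) n8 8
  have hD' : (2 : ℝ) ≤ D := by exact_mod_cast hD
  have e1 : Real.log ((D + 1 : ℕ) : ℝ) ≤ 2 * Real.log D := by
    have h1 : ((D + 1 : ℕ) : ℝ) ≤ (D : ℝ) ^ 2 := by
      push_cast
      nlinarith
    have h2 := Real.log_le_log (by positivity) h1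
    rw [Real.log_pow] at h2
    exact_mod_cast h2
  have e2 : (σ : ℝ) ≤ 6 * Real.log D := by linarith
  have e3 : (s : ℝ) ≤ 6 * Real.sqrt (Real.log N) := by
    have h1 : (s : ℝ) ^ 2 ≤ 4 * L := by exact_mod_cast s3
    have h2 := Real.sq_sqrt n5.le
    have h3 := Real.sqrt_nonneg (Real.log N)
    refine (pow_le_pow_iff_left₀ (Nat.cast_nonneg _) (by positivity) (two_ne_zero)).1 ?_
    nlinarith
  have e4 : ((min σ s : ℕ) : ℝ) ≤ 6 * min (Real.log D) (Real.sqrt (Real.log N)) := by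
    rcases le_total (Real.log D) (Real.sqrt (Real.log N)) with h | h
    · rw [min_eq_left h]
      exact le_trans (by exact_mod_cast min_le_left σ s) e2
    · rw [min_eq_right h]
      exact le_trans (by exact_mod_cast min_le_right σ s) e3
  have e5 : 0 ≤ min (Real.log D) (Real.sqrt (Real.log N)) :=
    le_min (Real.log_nonneg (by linarith)) (Real.sqrt_nonneg _)
  rw [Nat.cast_mul, Nat.cast_mul, Nat.cast_pow]
  have t1 := mul_le_mul l2 e4 (Nat.cast_nonneg _) (by positivity)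
  have t2 := mul_le_mul t1 n9 (by positivity) (by positivity)
  refine t2.trans ?_
  generalize min (Real.log D) (Real.sqrt (Real.log N)) = μ at e5
  have t3 : 0 ≤ Real.log N * μ * Real.log (Real.log N) ^ 8 := by positivity
  rw [mul_pow]
  nlinarith

end Pool.Agent.P.MP_6f280c_lc.Dc
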