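import Pool.Agent.P.MP_6f280c_lc.Dc.St

set_option autoImplicit false

namespace Pool.Agent.P.MP_6f280c_lc.Dc

open Finset

variable {V I : Type} [Fintype V] [LinearOrder V]

namespace Top

theorem pure (hS : SeqSt) (A : Finset V) (O : V → Finset ℕ) (N : V → Finset V) (t lam : ℕ)
    (hO : ∀ u ∈ A, 2 ^ t ≤ 4 * (O u).card)
    (hl : 4 * Fintype.card V * 2 ^ t ≤ 2 ^ lam) :
    ∃ y : V → ℕ, (∀ u ∈ A, y u ∈ O u) ∧
      ∀ v q, q < 2 ^ t → ∑ u ∈ A.filter (fun u => v ∈ N u), (if y u = q then (1 : ℝ) else 0) ≤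
        ∑ _u ∈ A.filter (fun u => v ∈ N u), (8 / 2 ^ t : ℝ) + lam := by
  have ht : (0 : ℝ) < 2 ^ t := by positivity
  obtain ⟨f, g1, g3, -, -⟩ := hS V ℕ (V × Fin (2 ^ t)) A
    (fun S f => ∀ p ∈ S, f p ∈ O p)
    (fun _ => 0) (fun s p w => w = s.2.val ∧ s.1 ∈ N p) (fun _ _ _ => False)
    (fun s p => if s.1 ∈ N p then 4 / 2 ^ t else 0) (fun _ _ => 0) (fun _ _ => 0) lam
    (by simp) (fun s p => by split_ifs <;> positivity) (fun _ _ => le_rfl)
    (by simpa [mul_assoc] using hl) (by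
      intro S f u hSJ hu hjS k1
      have b2 := hO u hu
      have b3 : (2 : ℝ) ^ t ≤ 4 * (O u).card := by exact_mod_cast b2
      have b4 : 0 < 2 ^ t := by positivity
      refine ⟨O u, card_pos.1 (by omega), fun w hw p hp => ?_, fun s => ?_, fun s => by simp,
        by simp⟩
      · rcases mem_insert.1 hp with rfl | hp
        · rw [Function.update_self]
          exact hw
        · rw [Function.update_of_ne (fun e => hjS (by rwa [e] at hp))]
          exact k1 p hp
      · by_cases h : s.1 ∈ N u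
        · simp only [h, and_true, if_true]
          have h1 : ((O u).filter (fun w => w = s.2.val)).card ≤ 1 :=
            card_le_one.2 fun a ha b hb => (mem_filter.1 ha).2.trans (mem_filter.1 hb).2.symm
          have h2 : (((O u).filter (fun w => w = s.2.val)).card : ℝ) ≤ 1 := by
            exact_mod_cast h1
          refine h2.trans ?_
          rw [div_mul_eq_mul_div, le_div_iff₀ ht, one_mul]
          exact b3
        · simp [h])
  refine ⟨f, g1, fun v q hq => ?_⟩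
  have h := g3 (v, ⟨q, hq⟩)
  refine le_trans (le_of_eq ?_) (h.trans (le_of_eq ?_))
  · rw [card_filter, sum_filter]
    push_cast
    refine sum_congr rfl fun u _ => ?_
    by_cases h1 : v ∈ N u
    · simp [h1]
    · simp [h1]
  · congr 1
    rw [sum_filter, mul_sum]
    refine sum_congr rfl fun u _ => ?_
    by_cases h1 : v ∈ N u
    · simp only [h1, if_true]
      ring
    · simp [h1]

end Top

theorem p_top (hS : SeqSt) (gr : I → SimpleGraph V) : TopSt gr := by
  classical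
  refine ⟨fun r0 R k lam t lab hdec hl r U O hr hU hO hyp => ?_, fun r U O _ _ _ hyp => ?_⟩
  swap
  · refine ⟨fun _ _ => 0, fun _ _ _ _ => rfl, fun i v hv => ?_, fun i v q => ?_⟩
    · obtain ⟨h1, h2⟩ := hyp i v hv
      obtain ⟨a, ha⟩ := card_pos.1 (show 0 < (O i v).card by omega)
      have h3 := mem_range.1 (h1 ha)
      have h4 : a = 0 := by omega
      exact h4 ▸ ha
    · have h1 := card_sel_le (P := fun u => (gr i).Adj v u ∧ U i u ∧ 0 = q)
        (Q := fun u => (gr i).Adj v u ∧ U i u) (fun u hu => ⟨hu.1, hu.2.1⟩)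
      beta_reduce
      omega
  let d : I → V → Prop × Finset ℕ × Finset V := fun i u => (U i u, O i u, nbr gr i u)
  have hd : Loc gr (r + 1) d := (hU.mono (by omega)).prod ((hO.mono (by omega)).prod
    (loc_nbr.mono (by omega)))
  let Q : V → (V → Option (Prop × Finset ℕ × Finset V)) → (V → ℕ) → Prop :=
    fun _ g y => (∀ u a, g u = some a → a.1 → y u ∈ a.2.1) ∧
      ∀ v q, q < 2 ^ t → ∑ u ∈ sel (fun u => ∃ a, g u = some a ∧ a.1 ∧ v ∈ a.2.2),
        (if y u = q then (1 : ℝ) else 0) ≤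
        ∑ _u ∈ sel (fun u => ∃ a, g u = some a ∧ a.1 ∧ v ∈ a.2.2), (8 / 2 ^ t : ℝ) + lam
  have hg : ∀ i z u a, (@ite _ (lab i u = z) (Classical.propDecidable _) (some (d i u)) none) =
      some a ↔ lab i u = z ∧ d i u = a := fun i z u a => by
    by_cases e : lab i u = z <;> simp [e]
  obtain ⟨p, c1, c2⟩ := dec_choice (hdec.1.mono (show r0 ≤ r + 1 by omega)) hdec.2.1 hd Q
    (fun i z => by
    obtain ⟨y, y1, y3⟩ := Top.pure hS (sel (fun u => lab i u = z ∧ U i u)) (O i) (nbr gr i) t lam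
      (fun u hu => (hyp i u (mem_sel.1 hu).2).2) hl
    refine ⟨y, fun u a e h1 => ?_, fun v q hq => ?_⟩
    · obtain ⟨e1, rfl⟩ := (hg i z u a).1 e
      exact y1 u (mem_sel.2 ⟨e1, h1⟩)
    · have e : sel (fun u => ∃ a, (@ite _ (lab i u = z) (Classical.propDecidable _) (some (d i u))
          none) = some a ∧ a.1 ∧ v ∈ a.2.2) = (sel (fun u => lab i u = z ∧ U i u)).filter
            (fun u => v ∈ nbr gr i u) := by
        ext u
        simp only [mem_sel, mem_filter, hg]
        exact ⟨fun ⟨a, ⟨e1, e2⟩, e3, e4⟩ => by subst e2; exact ⟨⟨e1, e3⟩, e4⟩,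
          fun ⟨⟨e1, e3⟩, e4⟩ => ⟨_, ⟨e1, rfl⟩, e3, e4⟩⟩
      beta_reduce
      rw [e]
      exact y3 v q hq)
  have m1 : ∀ i v, U i v → p i v ∈ O i v := fun i v hv => by
    obtain ⟨y, ⟨y1, -⟩, y4⟩ := c2 i (lab i v)
    rw [y4 v rfl]
    exact y1 v (d i v) ((hg i _ v _).2 ⟨rfl, rfl⟩) hv
  refine ⟨p, c1.mono (by omega), m1, fun i v q => ?_⟩
  by_cases hq : q < 2 ^ t
  swap
  · have e : sel (fun u => (gr i).Adj v u ∧ U i u ∧ p i u = q) = ∅ := by
      refine eq_empty_of_forall_notMem fun u hu => ?_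
      obtain ⟨-, h2, h3⟩ := mem_sel.1 hu
      exact hq (h3 ▸ mem_range.1 ((hyp i u h2).1 (m1 i u h2)))
    rw [e]
    simp
  have s1 : sel (fun u => (gr i).Adj v u ∧ U i u) ⊆ nbr gr i v := fun u hu =>
    mem_nbr.2 (mem_sel.1 hu).1
  have s2 := dec_sum (k := k) (sel (fun u => (gr i).Adj v u ∧ U i u)) (lab i)
    ((card_le_card (image_subset_image s1)).trans (hdec.2.2 i v))
    (fun u => if p i u = q then (1 : ℝ) else 0)
    (fun _ => (8 / 2 ^ t : ℝ)) (l := lam) (Nat.cast_nonneg _) (fun z => by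
      obtain ⟨y, ⟨-, y3⟩, y4⟩ := c2 i z
      have e : sel (fun u => ∃ a, (@ite _ (lab i u = z) (Classical.propDecidable _) (some (d i u))
          none) = some a ∧ a.1 ∧ v ∈ a.2.2) =
          (sel (fun u => (gr i).Adj v u ∧ U i u)).filter (fun u => lab i u = z) := by
        ext u
        simp only [mem_sel, mem_filter, hg]
        refine ⟨fun ⟨a, ⟨e1, e2⟩, e3, e4⟩ => ?_, fun ⟨e1, e2⟩ => ⟨_, ⟨e2, rfl⟩, e1.2, ?_⟩⟩
        · subst e2
          exact ⟨⟨(mem_nbr.1 e4).symm, e3⟩, e1⟩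
        · exact mem_nbr.2 e1.1.symm
      have h := y3 v q hq
      beta_reduce at h
      rw [e] at h
      refine le_trans (le_of_eq (sum_congr rfl fun u hu => ?_)) h
      rw [y4 u (mem_filter.1 hu).2])
  have e1 : ∑ u ∈ sel (fun u => (gr i).Adj v u ∧ U i u), (if p i u = q then (1 : ℝ) else 0) =
      ((sel (fun u => (gr i).Adj v u ∧ U i u ∧ p i u = q)).card : ℝ) := by
    rw [sum_sel, card_sel_eq_sum]
    refine sum_congr rfl fun u _ => ?_
    by_cases h1 : (gr i).Adj v u ∧ U i u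
    · by_cases h2 : p i u = q
      · simp [h1.1, h1.2, h2]
      · simp [h2]
    · rw [if_neg h1, if_neg (fun h => h1 ⟨h.1, h.2.1⟩)]
  rw [e1, sum_const, nsmul_eq_mul] at s2
  have ht : (0 : ℝ) < 2 ^ t := by positivity
  have s5 : (((sel (fun u => (gr i).Adj v u ∧ U i u ∧ p i u = q)).card * 2 ^ t : ℕ) : ℝ) ≤
      ((8 * (sel (fun u => (gr i).Adj v u ∧ U i u)).card + k * lam * 2 ^ t : ℕ) : ℝ) := by
    push_cast
    have h1 := mul_le_mul_of_nonneg_right s2 ht.le
    have h2 : (((sel (fun u => (gr i).Adj v u ∧ U i u)).card : ℝ) * (8 / 2 ^ t) + k * lam) *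
        2 ^ t = 8 * ((sel (fun u => (gr i).Adj v u ∧ U i u)).card : ℝ) + k * lam * 2 ^ t := by
      field_simp
    linarith
  exact_mod_cast s5

end Pool.Agent.P.MP_6f280c_lc.Dc
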