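import Pool.Agent.P.MP_6f280c_lc.Dc.St

/-! One step of weighted defective colouring. -/

set_option autoImplicit false

namespace Pool.Agent.P.MP_6f280c_lc.Dc

open Finset

variable {V I : Type} [Fintype V] [LinearOrder V]

omit [LinearOrder V] in
theorem p_wdef (gr : I → SimpleGraph V) : WDefSt gr := by
  intro r R p k w c hp hw hc h0 hn hlt
  obtain ⟨f, f1, f2⟩ := code_st p k hp
  let A : I → V → ℕ → ℝ := fun i z x =>
    ∑ z', if c i z' ≠ c i z ∧ f (c i z) x = f (c i z') x then w i z z' else 0
  let B : I → V → ℝ := fun i z => (k : ℝ) * ∑ z', w i z z'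
  have a1 : ∀ i z, ∃ x, x < p ∧ (p : ℝ) * A i z x ≤ B i z := by
    intro i z
    have h1 : ∑ x ∈ range p, A i z x ≤ B i z := by
      simp only [A, B]
      rw [sum_comm, mul_sum]
      refine sum_le_sum fun z' _ => ?_
      by_cases hz : c i z' = c i z
      · have e : ∑ x ∈ range p,
            (if c i z' ≠ c i z ∧ f (c i z) x = f (c i z') x then w i z z' else 0) = 0 :=
          sum_eq_zero fun x _ => if_neg fun h => h.1 hz
        rw [e]
        exact mul_nonneg (Nat.cast_nonneg _) (h0 i z z')
      · have e : ∑ x ∈ range p,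
            (if c i z' ≠ c i z ∧ f (c i z) x = f (c i z') x then w i z z' else 0) =
            (((range p).filter (fun x => f (c i z) x = f (c i z') x)).card : ℝ) * w i z z' := by
          rw [← nsmul_eq_mul, ← sum_const, sum_filter]
          refine sum_congr rfl fun x _ => ?_
          by_cases hx : f (c i z) x = f (c i z') x
          · rw [if_pos hx, if_pos ⟨hz, hx⟩]
          · rw [if_neg hx, if_neg fun h => hx h.2]
        rw [e]
        refine mul_le_mul_of_nonneg_right ?_ (h0 i z z')
        exact_mod_cast f2 _ _ (hlt i z) (hlt i z') (fun h => hz h.symm)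
    by_contra hc'
    push Not at hc'
    have h2 : ∑ _x ∈ range p, B i z < ∑ x ∈ range p, (p : ℝ) * A i z x :=
      sum_lt_sum_of_nonempty (nonempty_range_iff.2 hp.pos.ne') fun x hx => hc' x (mem_range.1 hx)
    rw [sum_const, card_range, nsmul_eq_mul, ← mul_sum] at h2
    have hp0 : (0 : ℝ) < p := by exact_mod_cast hp.pos
    exact absurd (lt_of_mul_lt_mul_left h2 hp0.le) (not_lt.2 h1)
  let X : (ℕ → ℝ) → ℝ → ℕ := fun a n => Classical.epsilon (fun x => x < p ∧ (p : ℝ) * a x ≤ n)
  have a2 : ∀ i z, X (A i z) (B i z) < p ∧ (p : ℝ) * A i z (X (A i z) (B i z)) ≤ B i z :=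
    fun i z => Classical.epsilon_spec (a1 i z)
  have lA : Loc gr (r + R) A := by
    intro i i' z hA
    funext x
    simp only [A]
    rw [← hw.here hA (by omega), ← hc.here hA (by omega)]
    refine sum_congr rfl fun z' _ => ?_
    by_cases hz : w i z z' = 0
    · rw [hz, ite_self, ite_self]
    · rw [hc.far hA (hn i z z' hz) le_rfl]
  have lB : Loc gr (r + R) B := by
    intro i i' z hA
    simp only [B]
    rw [← hw.here hA (by omega)]
  refine ⟨fun i z => X (A i z) (B i z) * p + f (c i z) (X (A i z) (B i z)), ?_, fun i z => ?_,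
    fun i => ?_⟩
  · intro i i' z hA
    show _ * p + _ = _ * p + _
    rw [← hc.here hA (by omega), ← lA.here hA le_rfl, ← lB.here hA le_rfl]
  · have h1 := (a2 i z).1
    have h2 := f1 (c i z) (X (A i z) (B i z))
    nlinarith
  · rw [mul_sum, mul_sum, mul_sum, ← sum_add_distrib]
    refine sum_le_sum fun z _ => ?_
    have h1 : ∑ z', (if X (A i z) (B i z) * p + f (c i z) (X (A i z) (B i z)) =
          X (A i z') (B i z') * p + f (c i z') (X (A i z') (B i z')) then w i z z' else 0) ≤
        ∑ z', (if c i z = c i z' then w i z z' else 0) + A i z (X (A i z) (B i z)) := by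
      show _ ≤ _ + ∑ z', (if c i z' ≠ c i z ∧ f (c i z) (X (A i z) (B i z)) =
        f (c i z') (X (A i z) (B i z)) then w i z z' else 0)
      rw [← sum_add_distrib]
      refine sum_le_sum fun z' _ => ?_
      have w0 := h0 i z z'
      by_cases h2 : X (A i z) (B i z) * p + f (c i z) (X (A i z) (B i z)) =
          X (A i z') (B i z') * p + f (c i z') (X (A i z') (B i z'))
      · rw [if_pos h2]
        have b1 := f1 (c i z) (X (A i z) (B i z))
        have b2 := f1 (c i z') (X (A i z') (B i z'))
        have e1 := congrArg (· % p) h2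
        simp only [Nat.mul_add_mod_of_lt b1, Nat.mul_add_mod_of_lt b2] at e1
        rw [e1] at h2
        have e2 := Nat.eq_of_mul_eq_mul_right hp.pos (Nat.add_right_cancel h2)
        by_cases hz : c i z = c i z'
        · rw [if_pos hz, if_neg fun h => h.1 hz.symm]
          simp
        · rw [if_neg hz, if_pos ⟨fun h => hz h.symm, by rw [e1, e2]⟩]
          simp
      · rw [if_neg h2]
        refine add_nonneg ?_ ?_ <;> split_ifs <;> first | exact w0 | exact le_rfl
    have hp0 : (0 : ℝ) ≤ p := Nat.cast_nonneg _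
    have h2 := mul_le_mul_of_nonneg_left h1 hp0
    have h3 := (a2 i z).2
    have h4 : B i z = (k : ℝ) * ∑ z', w i z z' := rfl
    rw [mul_add] at h2
    linarith

end Pool.Agent.P.MP_6f280c_lc.Dc
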