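import Pool.Agent.P.MP_6f280c_lc.Dc.St

/-! One more bit is fixed by every node at its own starting time. -/

set_option autoImplicit false

namespace Pool.Agent.P.MP_6f280c_lc.Dc

open Finset

variable {V I : Type} [Fintype V] [LinearOrder V]

namespace XB0

noncomputable section

theorem sum_two (f : ℕ → ℝ) (N : ℕ) :
    ∑ x ∈ range (2 * N), f x = ∑ x ∈ range N, f (2 * x) + ∑ x ∈ range N, f (2 * x + 1) := by
  induction N with
  | zero => simp
  | succ N ih =>
    rw [show 2 * (N + 1) = 2 * N + 1 + 1 by ring, sum_range_succ, sum_range_succ, ih,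
      sum_range_succ, sum_range_succ]
    ring

theorem xe_step (F : ℕ → ℝ) {b j : ℕ} (h : j + 1 ≤ b) (a : ℕ) :
    xe F b (j + 1) a + xe F b (j + 1) (a + 2 ^ j) = 2 * xe F b j a := by
  unfold xe
  have e : b - j = (b - (j + 1)) + 1 := by omega
  have e1 : (2 : ℕ) ^ (b - j) = 2 * 2 ^ (b - (j + 1)) := by rw [e, pow_succ]; ring
  have e2 : (2 : ℝ) ^ (b - j) = 2 * 2 ^ (b - (j + 1)) := by rw [e, pow_succ]; ring
  rw [e1, e2, sum_two]
  have s1 : ∑ x ∈ range (2 ^ (b - (j + 1))), F (a + 2 ^ j * (2 * x)) =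
      ∑ x ∈ range (2 ^ (b - (j + 1))), F (a + 2 ^ (j + 1) * x) :=
    sum_congr rfl fun x _ => by rw [show a + 2 ^ j * (2 * x) = a + 2 ^ (j + 1) * x by ring]
  have s2 : ∑ x ∈ range (2 ^ (b - (j + 1))), F (a + 2 ^ j * (2 * x + 1)) =
      ∑ x ∈ range (2 ^ (b - (j + 1))), F (a + 2 ^ j + 2 ^ (j + 1) * x) :=
    sum_congr rfl fun x _ => by
      rw [show a + 2 ^ j * (2 * x + 1) = a + 2 ^ j + 2 ^ (j + 1) * x by ring]
  rw [s1, s2]
  have hp : (0 : ℝ) < 2 ^ (b - (j + 1)) := by positivity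
  field_simp

theorem xz_nonneg (j m a a' : ℕ) : 0 ≤ xz j m a a' := by
  unfold xz
  split_ifs
  · positivity
  · exact le_rfl

theorem xz_symm (j m a a' : ℕ) : xz j m a a' = xz j m a' a := by
  unfold xz
  by_cases h : a % 2 ^ min j m = a' % 2 ^ min j m
  · rw [if_pos h, if_pos h.symm]
  · rw [if_neg h, if_neg fun e => h e.symm]

theorem mod_add {j m : ℕ} (h : m ≤ j) (a : ℕ) : (a + 2 ^ j) % 2 ^ m = a % 2 ^ m := by
  obtain ⟨k, rfl⟩ := Nat.exists_eq_add_of_le h
  rw [pow_add, Nat.add_mul_mod_self_left]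

theorem xz_low {j m a a2 x y : ℕ} (h : m ≤ j) (hx : x = a ∨ x = a + 2 ^ j)
    (hy : y = a2 ∨ y = a2 + 2 ^ j) : xz (j + 1) m x y = xz j m a a2 := by
  unfold xz
  rw [min_eq_right h, min_eq_right (h.trans (Nat.le_succ j))]
  have e1 : x % 2 ^ m = a % 2 ^ m := by
    rcases hx with rfl | rfl
    · rfl
    · exact mod_add h a
  have e2 : y % 2 ^ m = a2 % 2 ^ m := by
    rcases hy with rfl | rfl
    · rfl
    · exact mod_add h a2
  rw [e1, e2]

theorem xz_high {j m x y : ℕ} (h : j ≤ m) (hx : x < 2 ^ j) (hy : y < 2 ^ j) :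
    xz j m x y = if x = y then 2 ^ j else 0 := by
  unfold xz
  rw [min_eq_left h, Nat.mod_eq_of_lt hx, Nat.mod_eq_of_lt hy]

theorem xz_avg {j m a a2 y : ℕ} (ha : a < 2 ^ j) (ha2 : a2 < 2 ^ j)
    (hy : y = a2 ∨ y = a2 + 2 ^ j) :
    xz (j + 1) m a y + xz (j + 1) m (a + 2 ^ j) y = 2 * xz j m a a2 := by
  rcases le_or_gt m j with h | h
  · rw [xz_low h (Or.inl rfl) hy, xz_low h (Or.inr rfl) hy]
    ring
  · have hp : 2 ^ (j + 1) = 2 * 2 ^ j := by ring
    have hy' : y < 2 ^ (j + 1) := by omega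
    rw [xz_high (j := j + 1) h (by omega) hy', xz_high (j := j + 1) h (by omega) hy',
      xz_high h.le ha ha2]
    by_cases e : a = a2
    · rcases hy with e' | e'
      · rw [if_pos (by omega), if_neg (by omega), if_pos e]
        ring
      · rw [if_neg (by omega), if_pos (by omega), if_pos e]
        ring
    · rw [if_neg (by omega), if_neg (by omega), if_neg e]
      ring

theorem xz_le {j m a a2 x y : ℕ} (ha : a < 2 ^ j) (ha2 : a2 < 2 ^ j)
    (hx : x = a ∨ x = a + 2 ^ j) (hy : y = a2 ∨ y = a2 + 2 ^ j) :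
    xz (j + 1) m x y ≤ 2 * xz j m a a2 := by
  have h := xz_avg (m := m) ha ha2 hy
  have h1 := xz_nonneg (j + 1) m a y
  have h2 := xz_nonneg (j + 1) m (a + 2 ^ j) y
  rcases hx with rfl | rfl <;> linarith

variable {T : Type}

/-- the cost of a pair whose other end has already decided -/
def term (j : ℕ) (μ : T → T → ℝ) (w : ℝ) (m : ℕ) (t : T) (x : ℕ) : Option (ℕ × T) → ℝ
  | none => 0
  | some p => w * μ t p.2 * xz (j + 1) m x p.1

/-- the cost of the value `x` -/
def cost (b j : ℕ) (μ : T → T → ℝ) (Hv : Finset V) (w : V → ℝ) (m : V → ℕ) (F : ℕ → ℝ) (t : T)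
    (g : V → Option (ℕ × T)) (x : ℕ) : ℝ :=
  xe F b (j + 1) x + 2 * ∑ u ∈ Hv, term j μ (w u) (m u) t x (g u)

/-- the cheaper of the two values -/
def pick (b j : ℕ) (μ : T → T → ℝ) (Hv : Finset V) (w : V → ℝ) (m : V → ℕ) (F : ℕ → ℝ) (t : T)
    (g : V → Option (ℕ × T)) (a : ℕ) : ℕ :=
  if cost b j μ Hv w m F t g a ≤ cost b j μ Hv w m F t g (a + 2 ^ j) then a else a + 2 ^ j

omit [Fintype V] [LinearOrder V] in
theorem cost_congr (b j : ℕ) (μ : T → T → ℝ) (Hv : Finset V) (w : V → ℝ) (m : V → ℕ)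
    (F : ℕ → ℝ) (t : T) {g g' : V → Option (ℕ × T)} (h : ∀ u ∈ Hv, g u = g' u) :
    cost b j μ Hv w m F t g = cost b j μ Hv w m F t g' := by
  funext x
  unfold cost
  rw [sum_congr rfl fun u hu => by rw [h u hu]]

omit [Fintype V] [LinearOrder V] in
theorem pick_congr (b j : ℕ) (μ : T → T → ℝ) (Hv : Finset V) (w : V → ℝ) (m : V → ℕ)
    (F : ℕ → ℝ) (t : T) {g g' : V → Option (ℕ × T)} (h : ∀ u ∈ Hv, g u = g' u) (a : ℕ) :
    pick b j μ Hv w m F t g a = pick b j μ Hv w m F t g' a := by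
  unfold pick
  rw [cost_congr b j μ Hv w m F t h]

omit [Fintype V] [LinearOrder V] in
theorem pick_or (b j : ℕ) (μ : T → T → ℝ) (Hv : Finset V) (w : V → ℝ) (m : V → ℕ)
    (F : ℕ → ℝ) (t : T) (g : V → Option (ℕ × T)) (a : ℕ) :
    pick b j μ Hv w m F t g a = a ∨ pick b j μ Hv w m F t g a = a + 2 ^ j := by
  unfold pick
  split_ifs
  · exact Or.inl rfl
  · exact Or.inr rfl

omit [Fintype V] [LinearOrder V] in
theorem pick_le (b j : ℕ) (μ : T → T → ℝ) (Hv : Finset V) (w : V → ℝ) (m : V → ℕ)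
    (F : ℕ → ℝ) (t : T) (g : V → Option (ℕ × T)) (a : ℕ) :
    2 * cost b j μ Hv w m F t g (pick b j μ Hv w m F t g a) ≤
      cost b j μ Hv w m F t g a + cost b j μ Hv w m F t g (a + 2 ^ j) := by
  unfold pick
  split_ifs with h
  · linarith
  · linarith [not_le.1 h]

/-- the decisions that are known at a given time -/
def st (b j : ℕ) (μ : T → T → ℝ) (H : V → Finset V) (ω : V → V → ℝ) (m : V → V → ℕ)
    (F : V → ℕ → ℝ) (s a : V → ℕ) (tag : V → T) : ℕ → V → Option (ℕ × T)
  | 0 => fun _ => none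
  | τ + 1 => fun v => if s v = τ then
      some (pick b j μ (H v) (ω v) (m v) (F v) (tag v) (st b j μ H ω m F s a tag τ) (a v), tag v)
    else st b j μ H ω m F s a tag τ v

/-- the new value -/
def nw (b j : ℕ) (μ : T → T → ℝ) (H : V → Finset V) (ω : V → V → ℝ) (m : V → V → ℕ)
    (F : V → ℕ → ℝ) (s a : V → ℕ) (tag : V → T) (v : V) : ℕ :=
  pick b j μ (H v) (ω v) (m v) (F v) (tag v) (st b j μ H ω m F s a tag (s v)) (a v)

omit [Fintype V] [LinearOrder V] in
theorem st_eq (b j : ℕ) (μ : T → T → ℝ) (H : V → Finset V) (ω : V → V → ℝ) (m : V → V → ℕ)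
    (F : V → ℕ → ℝ) (s a : V → ℕ) (tag : V → T) (τ : ℕ) (v : V) :
    st b j μ H ω m F s a tag τ v =
      if s v < τ then some (nw b j μ H ω m F s a tag v, tag v) else none := by
  induction τ with
  | zero => simp [st]
  | succ τ ih =>
    by_cases e : s v = τ
    · rw [if_pos (by omega)]
      simp only [st, nw, e, if_true]
    · simp only [st, if_neg e, ih]
      by_cases h : s v < τ
      · rw [if_pos h, if_pos (by omega)]
      · rw [if_neg h, if_neg (by omega)]

omit [LinearOrder V] in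
theorem split {H : V → Finset V} (hs : ∀ v u, u ∈ H v → v ∈ H u) (K : V → V → ℝ)
    (hK : ∀ v u, u ∈ H v → K v u = K u v) (s : V → ℕ) (t : ℝ) :
    ∑ v, ∑ u ∈ H v, (if s v = s u then t else 1) * K v u =
      2 * ∑ v, ∑ u ∈ H v, (if s u < s v then K v u else 0) +
        t * ∑ v, ∑ u ∈ H v, (if s v = s u then K v u else 0) := by
  have e1 : ∑ v, ∑ u ∈ H v, (if s u < s v then K v u else 0) =
      ∑ v, ∑ u ∈ H v, (if s v < s u then K v u else 0) := by
    rw [h5_swap hs (fun v u => if s u < s v then K v u else 0)]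
    exact sum_congr rfl fun v _ => sum_congr rfl fun u hu => by rw [hK v u hu]
  rw [two_mul]
  nth_rewrite 2 [e1]
  rw [mul_sum, ← sum_add_distrib, ← sum_add_distrib]
  refine sum_congr rfl fun v _ => ?_
  rw [mul_sum, ← sum_add_distrib, ← sum_add_distrib]
  refine sum_congr rfl fun u _ => ?_
  rcases lt_trichotomy (s v) (s u) with h | h | h
  · rw [if_neg h.ne, if_neg (by omega), if_pos h, if_neg h.ne]
    ring
  · rw [if_pos h, if_neg (by omega), if_neg (by omega), if_pos h]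
    ring
  · rw [if_neg h.ne', if_pos h, if_neg (by omega), if_neg h.ne']
    ring

omit [LinearOrder V] in
theorem pure_bound {b j : ℕ} {μ : T → T → ℝ} {H : V → Finset V} {ω : V → V → ℝ}
    {m : V → V → ℕ} (F : V → ℕ → ℝ) (s : V → ℕ) {a : V → ℕ} (tag : V → T)
    (hs : ∀ v u, u ∈ H v → v ∈ H u) (hω : ∀ v u, 0 ≤ ω v u)
    (hsym : ∀ v u, u ∈ H v → ω v u = ω u v ∧ m v u = m u v) (hμ : ∀ t t', 0 ≤ μ t t')
    (hμs : ∀ t t', μ t t' = μ t' t) (hb : j + 1 ≤ b) (ha : ∀ v, a v < 2 ^ j) :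
    ∑ v, xe (F v) b (j + 1) (nw b j μ H ω m F s a tag v) + ∑ v, ∑ u ∈ H v,
        ω v u * μ (tag v) (tag u) * xz (j + 1) (m v u) (nw b j μ H ω m F s a tag v)
          (nw b j μ H ω m F s a tag u) ≤
      ∑ v, xe (F v) b j (a v) + ∑ v, ∑ u ∈ H v,
        ω v u * μ (tag v) (tag u) * (if s v = s u then 2 else 1) *
          xz j (m v u) (a v) (a u) := by
  have hor : ∀ v, nw b j μ H ω m F s a tag v = a v ∨ nw b j μ H ω m F s a tag v = a v + 2 ^ j :=
    fun v => pick_or _ _ _ _ _ _ _ _ _ _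
  have hc : ∀ v x, cost b j μ (H v) (ω v) (m v) (F v) (tag v) (st b j μ H ω m F s a tag (s v)) x =
      xe (F v) b (j + 1) x + 2 * ∑ u ∈ H v, (if s u < s v then ω v u * μ (tag v) (tag u) *
        xz (j + 1) (m v u) x (nw b j μ H ω m F s a tag u) else 0) := by
    intro v x
    unfold cost
    congr 2
    refine sum_congr rfl fun u _ => ?_
    rw [st_eq]
    by_cases h : s u < s v
    · rw [if_pos h, if_pos h]
      rfl
    · rw [if_neg h, if_neg h]
      rfl
  have hle : ∀ v, 2 * cost b j μ (H v) (ω v) (m v) (F v) (tag v)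
      (st b j μ H ω m F s a tag (s v)) (nw b j μ H ω m F s a tag v) ≤ _ :=
    fun v => pick_le _ _ _ _ _ _ _ _ _ _
  generalize nw b j μ H ω m F s a tag = a' at hor hc hle ⊢
  set K' : V → V → ℝ := fun v u =>
    ω v u * μ (tag v) (tag u) * xz (j + 1) (m v u) (a' v) (a' u) with hK'
  set K : V → V → ℝ := fun v u =>
    ω v u * μ (tag v) (tag u) * xz j (m v u) (a v) (a u) with hK
  have sK' : ∀ v u, u ∈ H v → K' v u = K' u v := fun v u hu => by
    simp only [hK']
    rw [(hsym v u hu).1, (hsym v u hu).2, hμs (tag v), xz_symm]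
  have sK : ∀ v u, u ∈ H v → K v u = K u v := fun v u hu => by
    simp only [hK]
    rw [(hsym v u hu).1, (hsym v u hu).2, hμs (tag v), xz_symm]
  have h1 : ∀ v, xe (F v) b (j + 1) (a' v) + 2 * ∑ u ∈ H v, (if s u < s v then K' v u else 0) ≤
      xe (F v) b j (a v) + 2 * ∑ u ∈ H v, (if s u < s v then K v u else 0) := by
    intro v
    have h := hle v
    rw [hc, hc, hc] at h
    have e1 := xe_step (F v) hb (a v)
    have e2 : ∑ u ∈ H v, (if s u < s v then ω v u * μ (tag v) (tag u) *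
          xz (j + 1) (m v u) (a v) (a' u) else 0) +
        ∑ u ∈ H v, (if s u < s v then ω v u * μ (tag v) (tag u) *
          xz (j + 1) (m v u) (a v + 2 ^ j) (a' u) else 0) =
        2 * ∑ u ∈ H v, (if s u < s v then K v u else 0) := by
      rw [← sum_add_distrib, mul_sum]
      refine sum_congr rfl fun u _ => ?_
      by_cases hu : s u < s v
      · rw [if_pos hu, if_pos hu, if_pos hu, ← mul_add, xz_avg (ha v) (ha u) (hor u)]
        simp only [hK]
        ring
      · rw [if_neg hu, if_neg hu, if_neg hu]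
        ring
    simp only [hK']
    linarith
  have h2 := sum_le_sum fun v (_ : v ∈ (univ : Finset V)) => h1 v
  rw [sum_add_distrib, sum_add_distrib, ← mul_sum, ← mul_sum] at h2
  have h3 : ∑ v, ∑ u ∈ H v, (if s v = s u then K' v u else 0) ≤
      2 * ∑ v, ∑ u ∈ H v, (if s v = s u then K v u else 0) := by
    rw [mul_sum]
    refine sum_le_sum fun v _ => ?_
    rw [mul_sum]
    refine sum_le_sum fun u _ => ?_
    by_cases hu : s v = s u
    · rw [if_pos hu, if_pos hu]
      simp only [hK, hK']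
      have := mul_le_mul_of_nonneg_left (xz_le (m := m v u) (ha v) (ha u) (hor v) (hor u))
        (mul_nonneg (hω v u) (hμ (tag v) (tag u)))
      linarith
    · rw [if_neg hu, if_neg hu]
      simp
  have h4 := split hs K' sK' s 1
  have h5 := split hs K sK s 2
  have h6 : ∑ v, ∑ u ∈ H v, (if s v = s u then (1 : ℝ) else 1) * K' v u =
      ∑ v, ∑ u ∈ H v, K' v u :=
    sum_congr rfl fun v _ => sum_congr rfl fun u _ => by rw [ite_self, one_mul]
  have h7 : ∑ v, ∑ u ∈ H v, ω v u * μ (tag v) (tag u) * (if s v = s u then 2 else 1) *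
      xz j (m v u) (a v) (a u) = ∑ v, ∑ u ∈ H v, (if s v = s u then (2 : ℝ) else 1) * K v u :=
    sum_congr rfl fun v _ => sum_congr rfl fun u _ => by
      simp only [hK]
      ring
  rw [h7, h5]
  rw [h6] at h4
  show _ + ∑ v, ∑ u ∈ H v, K' v u ≤ _
  rw [h4]
  linarith

end

end XB0

omit [LinearOrder V] in
theorem XB0.main (gr : I → SimpleGraph V) (c : ℕ) (hc : 1 ≤ c) : XB gr c 0 1 1 2 := by
  intro T r b j H ω m F s a tag μ hH lH lω lm lF hω hsym hμ hμs hb hV _ ha
  have step : ∀ τ i i' v, Loc gr (r + c * τ) (fun i v =>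
        XB0.st b j μ (H i) (ω i) (m i) (F i) (s i) (a i) (tag i) τ v) →
      Agree (r + c * (τ + 1)) (gr i) (gr i') v → a i v = a i' v → tag i v = tag i' v →
      XB0.pick b j μ (H i v) (ω i v) (m i v) (F i v) (tag i v)
        (XB0.st b j μ (H i) (ω i) (m i) (F i) (s i) (a i) (tag i) τ) (a i v) =
      XB0.pick b j μ (H i' v) (ω i' v) (m i' v) (F i' v) (tag i' v)
        (XB0.st b j μ (H i') (ω i') (m i') (F i') (s i') (a i') (tag i') τ) (a i' v) := by
    intro τ i i' v hl hA e1 e2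
    have hr : r ≤ r + c * (τ + 1) := Nat.le_add_right _ _
    rw [← lH.here hA hr, ← lω.here hA hr, ← lm.here hA hr, ← lF.here hA hr, ← e1, ← e2]
    refine XB0.pick_congr _ _ _ _ _ _ _ _ (fun u hu => ?_) _
    exact hl.adj hA (hH i v u hu).1 (by rw [mul_add, mul_one]; omega)
  have hl : ∀ τ, Loc gr (r + c * τ) (fun i v =>
      XB0.st b j μ (H i) (ω i) (m i) (F i) (s i) (a i) (tag i) τ v) := by
    intro τ
    induction τ with
    | zero => exact fun _ _ _ _ => rfl
    | succ τ ih =>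
      intro i i' v hA
      have hr : r + c * τ ≤ r + c * (τ + 1) := by rw [mul_add, mul_one]; omega
      have e := (VL.slice hV τ).here hA hr
      have e' := ih.here hA hr
      simp only [XB0.st]
      by_cases h : s i v = τ
      · by_cases h' : s i' v = τ
        · simp only [if_pos h, if_pos h', Option.some.injEq, Prod.mk.injEq] at e ⊢
          exact ⟨step τ i i' v ih hA e.1 e.2, e.2⟩
        · simp [h, h'] at e
      · by_cases h' : s i' v = τ
        · simp [h, h'] at e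
        · rw [if_neg h, if_neg h']
          exact e'
  refine ⟨fun i v => XB0.nw b j μ (H i) (ω i) (m i) (F i) (s i) (a i) (tag i) v,
    fun i i' v hA => ?_, fun i v => ?_, fun i => ?_⟩
  · have e := hV i i' v (hA.mono (by
      show r + c * s i v ≤ r + c * (s i v + 1)
      rw [mul_add, mul_one]; omega))
    simp only [Prod.mk.injEq] at e
    simp only [XB0.nw]
    rw [← e.1]
    exact step (s i v) i i' v (hl _) hA e.2.1 e.2.2
  · have h1 := ha i v
    have hp : 2 ^ (j + 1) = 2 * 2 ^ j := by ring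
    have h2 : XB0.nw b j μ (H i) (ω i) (m i) (F i) (s i) (a i) (tag i) v = a i v ∨
        XB0.nw b j μ (H i) (ω i) (m i) (F i) (s i) (a i) (tag i) v = a i v + 2 ^ j :=
      XB0.pick_or _ _ _ _ _ _ _ _ _ _
    show XB0.nw b j μ (H i) (ω i) (m i) (F i) (s i) (a i) (tag i) v < 2 ^ (j + 1)
    omega
  · exact XB0.pure_bound (F i) (s i) (tag i) (fun v u hu => (hH i v u hu).2) (hω i) (hsym i) hμ
      hμs hb (ha i)

omit [LinearOrder V] in
theorem p_xb0 (gr : I → SimpleGraph V) : XB0St gr := fun c hc => XB0.main gr c hc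

end Pool.Agent.P.MP_6f280c_lc.Dc
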