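import Pool.Agent.P.MP_6f280c_lc.Dc.St

set_option autoImplicit false

namespace Pool.Agent.P.MP_6f280c_lc.Dc

open Finset

variable {V I : Type} [Fintype V] [LinearOrder V]

theorem p_xdbl (gr : I → SimpleGraph V) : XDblSt gr := by
  intro c π len dur mu hmu hX T r b j H ω m F s a tag μ hH lH lω lm lF ω0 hsym μ0 μs hj hv hs ha
  obtain ⟨a1, v1, b1, e1⟩ := hX (T × ℕ) r b j H ω m F s a (fun i v => (tag i v, s i v))
    (fun p q => μ p.1 q.1 * if p.2 = q.2 then mu else 1) hH lH lω lm lF ω0 hsym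
    (fun p q => mul_nonneg (μ0 _ _) (by split_ifs; exacts [hmu, zero_le_one]))
    (fun p q => by rw [μs p.1 q.1]; simp only [eq_comm]) (by omega)
    (hv.map fun _ x => (x.1, x.2.1, (x.2.2, x.1))) hs ha
  have hv' : VL gr (fun i v => r + c * (s i v + dur)) (fun i v => (s i v, a i v, tag i v)) :=
    hv.mono fun i v => Nat.add_le_add_left (Nat.mul_le_mul_left c (Nat.le_add_right _ _)) r
  obtain ⟨a2, v2, b2, e2⟩ := hX T r b (j + len) H ω m F (fun i v => s i v + dur) a1 tag μ
    hH lH lω lm lF ω0 hsym μ0 μs (by omega)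
    ((hv'.prod v1).map fun _ x => (x.1.1 + dur, x.2, x.1.2.2))
    (fun i v u hu => by rw [Nat.add_mod, hs i v u hu, ← Nat.add_mod]) b1
  have el : j + 2 * len = j + len + len := by omega
  refine ⟨a2, v2.mono fun i v => le_of_eq (by ring), fun i v => el ▸ b2 i v, fun i => ?_⟩
  rw [el]
  refine (e2 i).trans (le_trans (le_of_eq ?_) ((e1 i).trans (le_of_eq ?_)))
  · congr 1
    refine sum_congr rfl fun v _ => sum_congr rfl fun u _ => ?_
    simp only [Nat.add_right_cancel_iff, mul_assoc]
  · congr 1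
    refine sum_congr rfl fun v _ => sum_congr rfl fun u _ => ?_
    by_cases e : s i v = s i u
    · simp only [e, if_true]; ring
    · simp only [e, if_false]; ring

end Pool.Agent.P.MP_6f280c_lc.Dc
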