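import Pool.Agent.P.MP_6f280c_lc.Dc.St

set_option autoImplicit false

namespace Pool.Agent.P.MP_6f280c_lc.Dc

open Finset

variable {V I : Type} [Fintype V] [LinearOrder V]

namespace XUn

theorem ite_eq {α : Type} {p q : Prop} [Decidable p] [Decidable q] {x y : α}
    (h : (if p then some x else none) = if q then some y else none) : (p ↔ q) ∧ (p → x = y) := by
  by_cases hp : p <;> by_cases hq : q <;> simp_all

theorem time_iff {s s' d d' π : ℕ} (hs : s % 2 ^ (π + 1) = s' % 2 ^ (π + 1)) (h : d < 2)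
    (h' : d' < 2) : s + 1 + d * 2 ^ π = s' + 1 + d' * 2 ^ π ↔ s = s' ∧ d = d' := by
  have hp : 0 < 2 ^ π := by positivity
  have key : ∀ x y : ℕ, x % 2 ^ (π + 1) = y % 2 ^ (π + 1) → x ≠ y + 2 ^ π := fun x y e e' => by
    have e1 : 2 ^ (π + 1) ∣ x - y := (Nat.modEq_iff_dvd' (by omega)).1 e.symm
    have e2 := Nat.le_of_dvd (by omega) e1
    rw [pow_succ] at e2
    omega
  refine ⟨fun e => ?_, fun e => by rw [e.1, e.2]⟩
  have k1 := key s s' hs
  have k2 := key s' s hs.symm
  interval_cases d <;> interval_cases d' <;> omega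

theorem xz_nonneg (j m a a' : ℕ) : 0 ≤ xz j m a a' := by
  unfold xz
  split_ifs
  · positivity
  · exact le_rfl

omit [LinearOrder V] in
theorem sum_time [DecidableEq V] (H : V → Finset V) (s : V → ℕ) (k : V → V → ℝ)
    (P : ℕ → V → V → Prop) [∀ τ v u, Decidable (P τ v u)] :
    ∑ τ ∈ range (univ.sup s + 1), ∑ v, ∑ u, (if P τ v u then
      (if u ∈ H v ∧ s v = τ ∧ s u = τ then k v u else 0) else 0) =
    ∑ v, ∑ u ∈ H v, if s v = s u ∧ P (s v) v u then k v u else 0 := by
  rw [sum_comm]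
  refine sum_congr rfl fun v _ => ?_
  rw [sum_eq_single (s v) (fun τ _ h => sum_eq_zero fun u _ => by simp [h.symm]) fun h =>
    absurd (mem_range.2 (Nat.lt_succ_of_le (le_sup (f := s) (mem_univ v)))) h]
  rw [← sum_subset (subset_univ (H v)) fun u _ h => by simp [h]]
  refine sum_congr rfl fun u hu => ?_
  by_cases e : s v = s u
  · simp [hu, e.symm]
  · simp [e, Ne.symm e]

end XUn

theorem p_xun (gr : I → SimpleGraph V) : XUnSt gr := by
  intro c π len dur wc mu mu' Λ hA hc hmu hΛ hX T r b j H ω m F s a tag μ hH lH lω lm lF ω0 hsym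
    μ0 μs hj hv hs ha
  let k : I → V → V → ℝ := fun i v u =>
    ω i v u * μ (tag i v) (tag i u) * xz j (m i v u) (a i v) (a i u)
  have k0 : ∀ i v u, 0 ≤ k i v u := fun i v u =>
    mul_nonneg (mul_nonneg (ω0 _ _ _) (μ0 _ _)) (XUn.xz_nonneg _ _ _ _)
  let K : ℕ → I → V → V → ℝ := fun τ i v u =>
    if u ∈ H i v ∧ s i v = τ ∧ s i u = τ then k i v u else 0
  have lK : ∀ τ, Loc gr (r + c * τ + 1) (K τ) := fun τ i i' v hg => by
    have l0 := hv.slice τ
    have e1 := lH.here hg (by omega)
    have e2 := lω.here hg (by omega)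
    have e3 := lm.here hg (by omega)
    have e4 := XUn.ite_eq (l0.here hg (by omega))
    funext u
    by_cases hu : u ∈ H i v
    · have e5 := XUn.ite_eq (l0.adj hg (hH i v u hu).1 le_rfl)
      simp only [K, k, ← e1, ← e2, ← e3, ← e4.1, ← e5.1]
      split_ifs with e6
      · have e7 := Prod.ext_iff.1 (e4.2 e6.2.1)
        have e8 := Prod.ext_iff.1 (e5.2 e6.2.2)
        simp only at e7 e8
        rw [e7.1, e7.2, e8.1, e8.2]
      · rfl
    · simp only [K, ← e1, hu, false_and, if_false]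
  have hd : ∀ τ, ∃ x : I → V → ℕ, Loc gr (r + c * τ + c) x ∧ (∀ i z, x i z < 2) ∧ ∀ i,
      ∑ v, ∑ u, (if x i v = x i u then K τ i v u else 0) ≤ Λ / 2 * ∑ v, ∑ u, K τ i v u := by
    intro τ
    obtain ⟨x, l1, b1, e1⟩ := hA (r + c * τ + 1) 1 (fun _ _ _ => 0)
      (fun i v u e e' => if e = e' then K τ i v u else 0) (Loc.const fun _ _ => (0 : ℝ))
      ((lK τ).map fun _ f u (e e' : ℕ) => if e = e' then f u else 0)
      (fun i v u e e' => by
        simp only [K]
        split_ifs
        exacts [k0 _ _ _, le_rfl, le_rfl])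
      (fun i v u e e' h => by
        have hu : u ∈ H i v := by
          by_contra hu
          simp [K, hu] at h
        exact ⟨Near.of_adj (hH i v u hu).1, (hH i v u hu).1.ne⟩)
    refine ⟨x, l1.mono (by omega), b1, fun i => ?_⟩
    have e2 := e1 i
    simp only [pow_one, sum_range_succ, sum_range_zero, sum_const_zero, zero_add, zero_div,
      if_true, zero_ne_one, one_ne_zero, if_false, add_zero, sum_add_distrib] at e2
    linarith
  choose dd ld bd ed using hd
  have hs0 : VL gr (fun i v => r + c * s i v) s := hv.map fun _ x => x.1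
  have lD := VL.unslice hs0 ld
  have hv' : VL gr (fun i v => r + c * (s i v + 1 + dd (s i v) i v * 2 ^ π))
      (fun i v => (s i v + 1 + dd (s i v) i v * 2 ^ π, a i v, tag i v)) := by
    refine (((hv.mono fun i v => ?_).prod (lD.mono fun i v => ?_)).map
      fun _ x => (x.1.1 + 1 + x.2 * 2 ^ π, x.1.2))
    · exact Nat.add_le_add_left (Nat.mul_le_mul_left c (by omega)) r
    · rw [add_assoc, ← Nat.mul_succ]
      exact Nat.add_le_add_left (Nat.mul_le_mul_left c (by omega)) r
  obtain ⟨a', v1, b1, e1⟩ := hX T r b j H ω m F (fun i v => s i v + 1 + dd (s i v) i v * 2 ^ π) a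
    tag μ hH lH lω lm lF ω0 hsym μ0 μs hj hv' (fun i v u hu => by
      have e := (Nat.ModEq.of_dvd (pow_dvd_pow 2 (Nat.le_succ π)) (hs i v u hu)).add_right 1
      simp only [Nat.add_mul_mod_self_right]
      exact e) ha
  refine ⟨a', v1.mono fun i v => Nat.add_le_add_left (Nat.mul_le_mul_left c ?_) r, b1,
    fun i => (e1 i).trans (add_le_add le_rfl ?_)⟩
  · have := Nat.mul_le_mul_right (2 ^ π) (Nat.le_of_lt_succ (bd (s i v) i v))
    omega
  have e2 := sum_le_sum fun τ (_ : τ ∈ range (univ.sup (s i) + 1)) => ed τ i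
  have e3 := XUn.sum_time (H i) (s i) (k i) fun _ _ _ => True
  simp only [if_true, and_true] at e3
  rw [← mul_sum, XUn.sum_time (H i) (s i) (k i) fun τ v u => dd τ i v = dd τ i u, e3] at e2
  have e4 : 0 ≤ ∑ v, ∑ u ∈ H i v, if s i v = s i u then k i v u else 0 :=
    sum_nonneg fun v _ => sum_nonneg fun u _ => by split_ifs; exacts [k0 _ _ _, le_rfl]
  have e5 := mul_le_mul_of_nonneg_left e2 (sub_nonneg.2 hmu)
  have e6 := mul_le_mul_of_nonneg_right hΛ e4
  have e7 : ∑ v, ∑ u ∈ H i v, ω i v u * μ (tag i v) (tag i u) *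
      (if s i v + 1 + dd (s i v) i v * 2 ^ π = s i u + 1 + dd (s i u) i u * 2 ^ π then mu else 1) *
        xz j (m i v u) (a i v) (a i u) = ∑ v, ∑ u ∈ H i v, k i v u + (mu - 1) * ∑ v, ∑ u ∈ H i v,
          if s i v = s i u ∧ dd (s i v) i v = dd (s i v) i u then k i v u else 0 := by
    simp only [mul_sum, ← sum_add_distrib]
    refine sum_congr rfl fun v _ => sum_congr rfl fun u hu => ?_
    simp only [XUn.time_iff (hs i v u hu) (bd _ i v) (bd _ i u), k]
    by_cases e : s i v = s i u
    · simp only [e, true_and]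
      split_ifs <;> ring
    · simp only [e, false_and, if_false]
      ring
  have e8 : ∑ v, ∑ u ∈ H i v, ω i v u * μ (tag i v) (tag i u) *
      (if s i v = s i u then mu' else 1) * xz j (m i v u) (a i v) (a i u) =
      ∑ v, ∑ u ∈ H i v, k i v u + (mu' - 1) * ∑ v, ∑ u ∈ H i v,
        if s i v = s i u then k i v u else 0 := by
    simp only [mul_sum, ← sum_add_distrib]
    refine sum_congr rfl fun v _ => sum_congr rfl fun u _ => ?_
    simp only [k]
    split_ifs <;> ring
  rw [e7, e8]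
  linarith

end Pool.Agent.P.MP_6f280c_lc.Dc
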