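import Pool.Agent.P.MP_6f280c_lc.Dc.MainOf
import Pool.Agent.P.MP_6f280c_lc.Dc.PSeq
import Pool.Agent.P.MP_6f280c_lc.Dc.PHash
import Pool.Agent.P.MP_6f280c_lc.Dc.PWDef
import Pool.Agent.P.MP_6f280c_lc.Dc.PAndCore
import Pool.Agent.P.MP_6f280c_lc.Dc.PAnd
import Pool.Agent.P.MP_6f280c_lc.Dc.PAndSv
import Pool.Agent.P.MP_6f280c_lc.Dc.PXB0
import Pool.Agent.P.MP_6f280c_lc.Dc.PXDbl
import Pool.Agent.P.MP_6f280c_lc.Dc.PXUn
import Pool.Agent.P.MP_6f280c_lc.Dc.PXor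
import Pool.Agent.P.MP_6f280c_lc.Dc.PClus
import Pool.Agent.P.MP_6f280c_lc.Dc.PAcd
import Pool.Agent.P.MP_6f280c_lc.Dc.PTop
import Pool.Agent.P.MP_6f280c_lc.Dc.PPhB
import Pool.Agent.P.MP_6f280c_lc.Dc.PPhase
import Pool.Agent.P.MP_6f280c_lc.Dc.PSlackCol
import Pool.Agent.P.MP_6f280c_lc.Dc.PSampA
import Pool.Agent.P.MP_6f280c_lc.Dc.PSamp
import Pool.Agent.P.MP_6f280c_lc.Dc.PA1
import Pool.Agent.P.MP_6f280c_lc.Dc.PA2
import Pool.Agent.P.MP_6f280c_lc.Dc.PSlack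
import Pool.Agent.P.MP_6f280c_lc.Dc.PLcA
import Pool.Agent.P.MP_6f280c_lc.Dc.PLc
import Pool.Agent.P.MP_6f280c_lc.Dc.PPa
import Pool.Agent.P.MP_6f280c_lc.Dc.PFa
import Pool.Agent.P.MP_6f280c_lc.Dc.PLg
import Pool.Agent.P.MP_6f280c_lc.Dc.PDense
import Pool.Agent.P.MP_6f280c_lc.Dc.PPre
import Pool.Agent.P.MP_6f280c_lc.Dc.PBig
import Pool.Agent.P.MP_6f280c_lc.Dc.PLoc
import Pool.Agent.P.MP_6f280c_lc.Dc.PTime

set_option autoImplicit false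

namespace Pool.Agent.P.MP_6f280c_lc.Dc

theorem loc_all (I : Type) (N : ℕ) (gr : I → SimpleGraph (Fin N)) : LocSt gr := by
  have hA : AndSt gr := p_and gr (p_wdef gr) (p_andCore gr)
  have hT : TopSt gr := p_top p_seq gr
  have hPh : PhaseSt gr := p_phase gr (p_phB gr)
  have hS : SlackColSt gr := p_slackCol p_hash gr
  have hP : PreSt gr := p_pre gr (p_acd gr) (p_samp gr (p_sampA p_seq gr))
    (p_slack gr (p_a1 gr) (p_a2 gr)) (p_lc gr (p_lcA p_seq gr)) (p_pa p_seq gr) (p_fa gr)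
    (p_dense gr (p_lg gr))
  exact p_loc gr (p_big gr (p_clus gr) hP hT hPh hS) (p_bigAnd gr hA) (p_smallAnd gr hA)
    (p_xor gr (p_xb0 gr) (p_xdbl gr) (p_xun gr)) hT hPh hS

end Pool.Agent.P.MP_6f280c_lc.Dc
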