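import Pool.Agent.P.MP_6f280c_lc.Dc.St
import Pool.Agent.P.MP_6f280c_lc.H5Deg

set_option autoImplicit false

namespace Pool.Agent.P.MP_6f280c_lc.Dc

open Finset

theorem main_of (hT : TimeSt)
    (hL : ∀ (I : Type) (N : ℕ) (gr : I → SimpleGraph (Fin N)), LocSt gr) :
    ∃ C : ℝ, ∀ N Δ : ℕ, 16 ≤ N → 2 ≤ Δ →
    ∃ (T : ℕ) (A : SimpleGraph (Fin N) → Fin N → ℕ),
      (T : ℝ) ≤ C * Real.log N * min (Real.log Δ) (Real.sqrt (Real.log N)) *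
        Real.log (Real.log N) ^ 8 ∧
      (∀ G G' : SimpleGraph (Fin N), (∀ v, (G.neighborSet v).ncard ≤ Δ) →
        (∀ v, (G'.neighborSet v).ncard ≤ Δ) → ∀ v, SameView T G G' v → A G v = A G' v) ∧
      ∀ G : SimpleGraph (Fin N), (∀ v, (G.neighborSet v).ncard ≤ Δ) →
        (∀ v, A G v ≤ Δ) ∧ ∀ v u, G.Adj v u → A G v ≠ A G u := by
  classical
  refine ⟨2 ^ 112 * 10 ^ 10, fun N Δ hN hΔ => ?_⟩
  obtain ⟨L, s, kk, σ, a1, a2, a3, a4, a5, a6, a7, a8, a9, a10⟩ := hT N Δ hN hΔ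
  have hb : ((2 ^ 112 * (L * min σ s * kk ^ 8) : ℕ) : ℝ) ≤ 2 ^ 112 * 10 ^ 10 * Real.log N *
      min (Real.log Δ) (Real.sqrt (Real.log N)) * Real.log (Real.log N) ^ 8 := by
    have := mul_le_mul_of_nonneg_left a10 (show (0 : ℝ) ≤ 2 ^ 112 by positivity)
    rw [Nat.cast_mul, Nat.cast_pow, Nat.cast_ofNat]
    linarith
  by_cases hD : Δ < N
  · obtain ⟨A, b1, b2, b3⟩ := hL {G : SimpleGraph (Fin N) // ∀ v, (G.neighborSet v).ncard ≤ Δ}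
      N Subtype.val Δ L s kk σ (fun i v => by
        rw [h5_ncard]
        exact i.2 v) a1 a2 a3 a4 a5 (by omega) hD a6 a7 a8 a9
    refine ⟨_, fun G v => if h : ∀ v, (G.neighborSet v).ncard ≤ Δ then A ⟨G, h⟩ v else 0, hb,
      fun G G' hG hG' v hv => ?_, fun G hG => ?_⟩
    · simp only [dif_pos hG, dif_pos hG']
      exact b1 ⟨G, hG⟩ ⟨G', hG'⟩ v (agree_of_sameView hv)
    · simp only [dif_pos hG]
      exact ⟨b2 ⟨G, hG⟩, b3 ⟨G, hG⟩⟩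
  · exact ⟨_, fun _ v => v.val, hb, fun _ _ _ _ _ _ => rfl, fun G _ =>
      ⟨fun v => v.isLt.le.trans (not_lt.1 hD), fun v u h e => h.ne (Fin.ext e)⟩⟩

end Pool.Agent.P.MP_6f280c_lc.Dc
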