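import Pool.Agent.P.MP_6f280c_lc.Dc.St

/-! Repeated attempts give slack to all sparse nodes. -/

set_option autoImplicit false

namespace Pool.Agent.P.MP_6f280c_lc.Dc

open Finset

variable {V I : Type} [Fintype V] [LinearOrder V]

namespace Slack

omit [LinearOrder V] in
theorem loc_sl {gr : I → SimpleGraph V} {D r : ℕ} {χ : I → V → Option ℕ} (h : Loc gr r χ)
    (s : ℕ) : Loc gr (r + 1) (fun i v => Sl (gr i) D (χ i) v s) :=
  ((loc_unc h).prod (loc_lst (D := D) h)).map (fun _ a => a.1.card + s ≤ a.2.card)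

omit [LinearOrder V] in
theorem loc_gap {gr : I → SimpleGraph V} {r : ℕ} {χ : I → V → Option ℕ} (h : Loc gr r χ)
    (E lo Q : ℕ) : Loc gr (r + 2) (fun i v => gap (gr i) E (χ i) lo Q v) := by
  intro i i' v hA
  have e1 : spr (gr i) E v = spr (gr i') E v := (loc_spr E).here hA (by omega)
  have e2 : rs (gr i) (χ i) lo Q v = rs (gr i') (χ i') lo Q v :=
    (loc_rs h lo Q).here hA (by omega)
  have e3 : sel (fun u => u ∈ spr (gr i) E v ∧ χ i u = none) =
      sel (fun u => u ∈ spr (gr i') E v ∧ χ i' u = none) := by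
    refine sel_congr fun u => ?_
    rw [← e1]
    exact and_congr_right fun hu => by rw [h.adj hA (mem_spr.1 hu).1 (by omega)]
  show gap _ _ _ _ _ _ = gap _ _ _ _ _ _
  unfold gap
  rw [← e3, ← e2]
  refine sum_congr rfl fun u hu => ?_
  have e4 : rs (gr i) (χ i) lo Q u = rs (gr i') (χ i') lo Q u :=
    (loc_rs h lo Q).adj hA (mem_spr.1 (mem_sel.1 hu).1).1 (by omega)
  rw [e4]

end Slack

open Slack

theorem p_slack (gr : I → SimpleGraph V) (h1 : A1St gr) (h2 : A2St gr) : SlackSt gr := by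
  intro D r0 b1 b2 a w1 w2 r E Q ρ g J s0 Λ1 Λ2 Y hD hS1 hS2 hr hY hQ hJQ hspr ha1 ha2 hE hρQ
    hb1 hb2 hs0 hΛ1 hΛ2 hg1 hg2 hn
  have key : ∀ j ≤ J, ∃ χ, PC gr D (r + j * (w1 + w2 + 12)) χ ∧
      (∀ i v c, χ i v = some c → c < j * Q) ∧
      (∀ i v, (cold (gr i) (χ i) v).card ≤ 2 * j * ρ) ∧
      ∀ i, g ^ j * (sel (fun v => Y i v ∧ ¬ Sl (gr i) D (χ i) v s0)).card ≤ Fintype.card V := by
    intro j
    induction j with
    | zero =>
      intro _
      refine ⟨fun _ _ => none, pc_none _ _ _, fun _ _ _ h => absurd h (by simp), fun i v => ?_,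
        fun i => ?_⟩
      · have : cold (gr i) (fun _ => none) v = ∅ := by
          ext u; simp [mem_cold]
        simp [this]
      · rw [pow_zero, one_mul]; exact card_le_univ _
    | succ j ih =>
      intro hj
      obtain ⟨χ, p1, p2, p3, p4⟩ := ih (by omega)
      set R := r + j * (w1 + w2 + 12) with hR
      have hrR : r ≤ R := by omega
      have hjQ : j * Q + Q ≤ D + 1 := by
        have := Nat.mul_le_mul_right Q hj
        rw [Nat.succ_mul] at this
        omega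
      have hjρ : 2 * j * ρ + ρ + ρ ≤ 2 * J * ρ := by
        have := Nat.mul_le_mul_right ρ hj
        rw [Nat.succ_mul] at this
        rw [Nat.mul_assoc, Nat.mul_assoc]
        omega
      let Yj : I → V → Prop := fun i v => Y i v ∧ ¬ Sl (gr i) D (χ i) v s0
      have hYj : Loc gr (R + 1) Yj :=
        ((hY.mono (by omega)).prod (loc_sl (D := D) p1.1 s0)).map (fun _ a => a.1 ∧ ¬ a.2)
      obtain ⟨χ1, q1, q2, q3, q4, q5, q6⟩ := h1 D r0 b1 a w1 (R + 1) E (j * Q) Q (2 * j * ρ) ρ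
        (2 * g) Λ1 χ Yj hD hS1 (by omega) (p1.mono (by omega)) hYj hQ hjQ p2 p3
        (fun i v h => hspr i v h.1) ha1 (by omega) hb1 hΛ1 (by push_cast; exact hg1)
      let Y' : I → V → Prop := fun i v => Yj i v ∧
        E ^ 2 ≤ 128 * 2 ^ b1 * gap (gr i) E (χ1 i) (j * Q) Q v
      have hY' : Loc gr (R + 1 + (w1 + 4) + 2) Y' :=
        ((hYj.mono (by omega)).prod (loc_gap q1.1 E (j * Q) Q)).map
          (fun _ a => a.1 ∧ E ^ 2 ≤ 128 * 2 ^ b1 * a.2)
      obtain ⟨χ2, u1, u2, u3, u4, u5⟩ := h2 D r0 b2 a w2 (R + 1 + (w1 + 4) + 2) E (j * Q) Q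
        (2 * j * ρ + ρ) ρ ρ (2 * g) (2 ^ b1) s0 Λ2 χ1 Y' hD hS2 (by omega) (q1.mono (by omega))
        hY' hQ hjQ q3 q4 q5 hρQ (fun i v h => h.2) ha2 (by omega) (by positivity) hb2 hs0 hΛ2
        (by push_cast; exact hg2)
      refine ⟨χ2, u1.mono (by rw [Nat.succ_mul]; omega), fun i v c h => ?_, fun i v => ?_,
        fun i => ?_⟩
      · rw [Nat.succ_mul]; exact u3 i v c h
      · have := u4 i v
        have e : 2 * (j + 1) * ρ = 2 * j * ρ + ρ + ρ := by ring
        omega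
      · have a1 := q6 i
        have a2 := u5 i
        have a3 : (sel (Y' i)).card ≤ (sel (Yj i)).card := card_sel_le fun v h => h.1
        have a4 : (sel (fun v => Y i v ∧ ¬ Sl (gr i) D (χ2 i) v s0)).card ≤
            (sel (fun v => Yj i v ∧
              128 * 2 ^ b1 * gap (gr i) E (χ1 i) (j * Q) Q v < E ^ 2)).card +
            (sel (fun v => Y' i v ∧ ¬ Sl (gr i) D (χ2 i) v s0)).card := by
          refine card_sel_le_add fun v h => ?_
          have hv : Yj i v := ⟨h.1, fun h' => h.2 (Sl.ext (q2.trans u2) h')⟩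
          by_cases hc : 128 * 2 ^ b1 * gap (gr i) E (χ1 i) (j * Q) Q v < E ^ 2
          · exact Or.inl ⟨hv, hc⟩
          · exact Or.inr ⟨⟨hv, not_lt.1 hc⟩, h.2⟩
        have a5 : g * (sel (fun v => Y i v ∧ ¬ Sl (gr i) D (χ2 i) v s0)).card ≤
            (sel (Yj i)).card := by
          have := Nat.mul_le_mul_left (2 * g) a4
          rw [Nat.mul_add, Nat.mul_assoc] at this
          omega
        rw [pow_succ, Nat.mul_assoc]
        exact (Nat.mul_le_mul_left _ a5).trans (p4 i)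
  obtain ⟨χ, p1, -, p3, p4⟩ := key J le_rfl
  refine ⟨χ, p1, p3, fun i v hv => ?_⟩
  by_contra hc
  have h0 : 0 < (sel (fun v => Y i v ∧ ¬ Sl (gr i) D (χ i) v s0)).card :=
    card_pos.2 ⟨v, mem_sel.2 ⟨hv, hc⟩⟩
  have := (Nat.le_mul_of_pos_right _ h0).trans (p4 i)
  omega

end Pool.Agent.P.MP_6f280c_lc.Dc
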