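import Pool.Agent.P.MP_6f280c_lc.Dc.St

/-! Package 10: all nodes fix their bits; doubling and unsynchronising alternate. -/

set_option autoImplicit false

namespace Pool.Agent.P.MP_6f280c_lc.Dc

open Finset

variable {V I : Type} [Fintype V] [LinearOrder V]

set_option linter.unusedSectionVars false

namespace XorP

theorem xz_nonneg (j m a a' : ℕ) : 0 ≤ xz j m a a' := by
  unfold xz
  split_ifs <;> positivity

omit [LinearOrder V] in
theorem mono {gr : I → SimpleGraph V} {c π len dur dur' : ℕ} {mu mu' : ℝ}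
    (h : XB gr c π len dur mu) (hd : dur ≤ dur') (hm : mu ≤ mu') : XB gr c π len dur' mu' := by
  intro T r b j H ω m F s a tag μ h1 h2 h3 h4 h5 h6 h7 h8 h9 h10 h11 h12 h13
  obtain ⟨a', k1, k2, k3⟩ := h T r b j H ω m F s a tag μ h1 h2 h3 h4 h5 h6 h7 h8 h9 h10 h11 h12 h13
  refine ⟨a', k1.mono fun i v => Nat.add_le_add_left (Nat.mul_le_mul_left _ (by omega)) _, k2,
    fun i => (k3 i).trans ?_⟩
  refine add_le_add le_rfl (sum_le_sum fun v _ => sum_le_sum fun u _ => ?_)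
  refine mul_le_mul_of_nonneg_right (mul_le_mul_of_nonneg_left ?_
    (mul_nonneg (h6 i v u) (h8 _ _))) (xz_nonneg _ _ _ _)
  split_ifs
  · exact hm
  · exact le_rfl

theorem first {gr : I → SimpleGraph V} (h0 : XB0St gr) (hU : XUnSt gr) {wc : ℕ} {Λ : ℝ}
    (hA : AndProp gr 1 Λ wc) (hΛ : Λ ≤ 3 / 2) (i : ℕ) :
    XB gr (wc + 1) i 1 (i + 2 ^ i) (1 + (3 / 4 : ℝ) ^ i) := by
  induction i with
  | zero => exact mono (h0 (wc + 1) (by omega)) (by simp) (by norm_num)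
  | succ i ih =>
    have hp : (0 : ℝ) < (3 / 4 : ℝ) ^ i := by positivity
    refine mono (hU (wc + 1) i 1 (i + 2 ^ i) wc _ (1 + (3 / 4 : ℝ) ^ (i + 1)) Λ hA le_rfl
      (by linarith) ?_ ih) (by rw [pow_succ]; omega) le_rfl
    rw [pow_succ]
    nlinarith

theorem arith {t E : ℝ} (ht : 2 < t) (hE : t ≤ E) :
    (1 + 1 / E) / 2 * ((1 + 1 / t) ^ 2 - 1) ≤ 1 + 1 / (t - 2) - 1 := by
  have ht0 : 0 < t := by linarith
  have h1 : 1 / E ≤ 1 / t := one_div_le_one_div_of_le ht0 hE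
  have h2 : 0 ≤ (1 + 1 / t) ^ 2 - 1 := by
    have : 0 < 1 / t := by positivity
    nlinarith
  have h3 : (1 + 1 / E) / 2 * ((1 + 1 / t) ^ 2 - 1) ≤ (1 + 1 / t) / 2 * ((1 + 1 / t) ^ 2 - 1) :=
    mul_le_mul_of_nonneg_right (by linarith) h2
  have h4 : (1 + 1 / t) / 2 * ((1 + 1 / t) ^ 2 - 1) = (t + 1) * (2 * t + 1) / (2 * t ^ 3) := by
    field_simp
    ring
  have h5 : (t + 1) * (2 * t + 1) / (2 * t ^ 3) ≤ 1 / (t - 2) := by
    rw [div_le_div_iff₀ (by positivity) (by linarith)]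
    nlinarith
  linarith

theorem second {gr : I → SimpleGraph V} (h0 : XB0St gr) (hD : XDblSt gr) (hU : XUnSt gr)
    {I0 l wc : ℕ} (hA : AndProp gr 1 (1 + 1 / ((4 * I0 + 4 : ℕ) : ℝ)) wc)
    (hl : (4 * I0 + 4) * 3 ^ l ≤ 4 ^ l) (i : ℕ) (hi : i ≤ I0) :
    XB gr (wc + 1) (l + i) (2 ^ i) (2 ^ (l + i) * (i + 2))
      (1 + 1 / (((4 * I0 + 4 : ℕ) : ℝ) - 2 * i)) := by
  have hE : (4 : ℝ) ≤ ((4 * I0 + 4 : ℕ) : ℝ) := by exact_mod_cast Nat.le_add_left 4 (4 * I0)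
  induction i with
  | zero =>
    have h1 : 1 / ((4 * I0 + 4 : ℕ) : ℝ) ≤ 1 / 4 := one_div_le_one_div_of_le (by norm_num) hE
    refine mono (first h0 hU hA (by linarith) l) ?_ ?_
    · have := Nat.lt_two_pow_self (n := l)
      simp only [add_zero]
      omega
    · have h2 : ((4 * I0 + 4 : ℕ) : ℝ) * 3 ^ l ≤ 4 ^ l := by exact_mod_cast hl
      have h3 : (3 / 4 : ℝ) ^ l ≤ 1 / ((4 * I0 + 4 : ℕ) : ℝ) := by
        rw [div_pow, div_le_div_iff₀ (by positivity) (by linarith)]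
        linarith
      simp only [Nat.cast_zero, mul_zero, sub_zero]
      linarith
  | succ i ih =>
    have hi' : (i : ℝ) + 1 ≤ I0 := by exact_mod_cast hi
    have hi0 : (0 : ℝ) ≤ i := Nat.cast_nonneg i
    have ht : (2 : ℝ) < ((4 * I0 + 4 : ℕ) : ℝ) - 2 * i := by
      push_cast
      linarith
    have hξ : 0 < 1 / (((4 * I0 + 4 : ℕ) : ℝ) - 2 * i) := one_div_pos.mpr (by linarith)
    have h1 := hD _ _ _ _ _ (by linarith) (ih (by omega))
    have h2 := hU _ _ _ _ wc _ (1 + 1 / (((4 * I0 + 4 : ℕ) : ℝ) - 2 * i - 2)) _ hA le_rfl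
      (by nlinarith) (arith ht (by linarith)) h1
    rw [← pow_succ'] at h2
    refine mono h2 ?_ (le_of_eq ?_)
    · have h3 : 1 ≤ 2 ^ (l + i) := Nat.one_le_two_pow
      rw [← add_assoc l i 1, pow_succ]
      nlinarith
    · push_cast
      ring

end XorP

theorem p_xor (gr : I → SimpleGraph V) (h0 : XB0St gr) (hD : XDblSt gr) (hU : XUnSt gr) :
    XorSt gr := by
  intro I0 l wc hA hl r H ω m F h1 h2 h3 h4 h5 h6 h7 h8
  have hX := XorP.second h0 hD hU hA hl I0 le_rfl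
  have hmu : 1 + 1 / (((4 * I0 + 4 : ℕ) : ℝ) - 2 * I0) ≤ 2 := by
    have hI : (0 : ℝ) ≤ I0 := Nat.cast_nonneg I0
    have : 1 / (((4 * I0 + 4 : ℕ) : ℝ) - 2 * I0) ≤ 1 := by
      rw [div_le_one (by push_cast; linarith)]
      push_cast
      linarith
    linarith
  obtain ⟨y, k1, k2, k3⟩ := XorP.mono hX le_rfl hmu Unit r (2 ^ I0) 0 H ω m F (fun _ _ => 0)
    (fun _ _ => 0) (fun _ _ => ()) (fun _ _ => 1) h1 h2 h3 h4 h5 h6 h7 (fun _ _ => zero_le_one)
    (fun _ _ => rfl) (by omega) (fun _ _ _ _ => rfl) (fun _ _ _ _ => rfl) (fun _ _ => by simp)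
  refine ⟨y, k1.loc fun i v => Nat.add_le_add_left ?_ _, fun i v => by simpa using k2 i v,
    fun i => ?_⟩
  · rw [zero_add, add_comm l I0, mul_assoc]
    exact Nat.mul_le_mul_left _ (Nat.mul_le_mul_left _ (by omega))
  · have k4 := k3 i
    have e1 : ∀ v, xe (F i v) (2 ^ I0) (0 + 2 ^ I0) (y i v) = F i v (y i v) := fun v => by
      simp [xe]
    have e2 : ∀ v, xe (F i v) (2 ^ I0) 0 0 =
        (∑ x ∈ range (2 ^ 2 ^ I0), F i v x) / 2 ^ 2 ^ I0 := fun v => by simp [xe]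
    have e3 : ∀ v, ∑ u ∈ H i v, ω i v u * 1 * xz (0 + 2 ^ I0) (m i v u) (y i v) (y i u) =
        ∑ u ∈ H i v, (if y i v % 2 ^ m i v u = y i u % 2 ^ m i v u then
          ω i v u * 2 ^ m i v u else 0) := fun v => sum_congr rfl fun u hu => by
      unfold xz
      rw [zero_add, min_eq_right (h8 i v u hu), mul_one]
      split_ifs
      · rfl
      · rw [mul_zero]
    have e4 : ∀ v, ∑ u ∈ H i v, ω i v u * 1 * 2 * xz 0 (m i v u) 0 0 =
        2 * ∑ u ∈ H i v, ω i v u := fun v => by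
      rw [mul_sum]
      refine sum_congr rfl fun u _ => ?_
      simp [xz, mul_comm]
    simp only [e1, e2, e3, if_true, e4] at k4
    rw [mul_sum]
    exact k4

end Pool.Agent.P.MP_6f280c_lc.Dc
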