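import Pool.Agent.P.MP_6f280c_lc.Dc.Basic

/-! Statements of the packages. Proofs on paper: /team-store/h48_6f280c_w11.md. -/

set_option autoImplicit false

namespace Pool.Agent.P.MP_6f280c_lc.Dc

open Finset

noncomputable section

variable {V I : Type} [Fintype V] [LinearOrder V]

/-! ### pure combinatorics -/

/-- sequential choices by conditional expectations -/
def SeqSt : Prop :=
  ∀ (ι Ω τ : Type) [DecidableEq ι] [Fintype τ] (J : Finset ι)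
    (Good : Finset ι → (ι → Ω) → Prop) (x0 : ι → Ω) (up lo : τ → ι → Ω → Prop)
    [∀ t j ω, Decidable (up t j ω)] [∀ t j ω, Decidable (lo t j ω)] (β γ : τ → ι → ℝ)
    (Ψ : Finset ι → (ι → Ω) → ℝ) (lam : ℕ),
    Good ∅ x0 → (∀ t j, 0 ≤ β t j) → (∀ S x, 0 ≤ Ψ S x) → 4 * Fintype.card τ ≤ 2 ^ lam →
    (∀ S x j, S ⊆ J → j ∈ J → j ∉ S → Good S x → ∃ O : Finset Ω, O.Nonempty ∧
      (∀ ω ∈ O, Good (insert j S) (Function.update x j ω)) ∧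
      (∀ t, ((O.filter (fun ω => up t j ω)).card : ℝ) ≤ β t j * O.card) ∧
      (∀ t, γ t j * O.card ≤ ((O.filter (fun ω => lo t j ω)).card : ℝ)) ∧
      ∑ ω ∈ O, Ψ (insert j S) (Function.update x j ω) ≤ O.card * Ψ S x) →
    ∃ x, Good J x ∧
      (∀ t, ((J.filter (fun j => up t j (x j))).card : ℝ) ≤ 2 * ∑ j ∈ J, β t j + lam) ∧
      (∀ t, (∑ j ∈ J, γ t j) / 2 ≤ ((J.filter (fun j => lo t j (x j))).card : ℝ) + lam) ∧
      Ψ J x ≤ 3 * Ψ ∅ x0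

/-- a short list of hash functions, most of which spread any large set -/
def HashSt : Prop :=
  ∀ Q σ : ℕ, ∃ h : ℕ → ℕ → ℕ, ∀ (S : Finset ℕ) (b : ℕ), S ⊆ range Q → 1 ≤ b →
    S.card = 2 ^ (b + 3) → Q ≤ 2 ^ (σ + b + 3) →
    ((range (2 * (2 * σ + 6))).filter
      (fun j => 2 * (S.image (fun c => h j c % 2 ^ b)).card < 2 ^ b)).card < 2 * σ + 6

/-! ### simultaneous choices with nonnegative pair costs -/

/-- one step of weighted defective colouring -/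
def WDefSt (gr : I → SimpleGraph V) : Prop :=
  ∀ (r R p k : ℕ) (w : I → V → V → ℝ) (c : I → V → ℕ), p.Prime → Loc gr r w → Loc gr r c →
    (∀ i z z', 0 ≤ w i z z') → (∀ i z z', w i z z' ≠ 0 → Near (gr i) R z z') →
    (∀ i z, c i z < p ^ (k + 1)) →
    ∃ c' : I → V → ℕ, Loc gr (r + R) c' ∧ (∀ i z, c' i z < p ^ 2) ∧
      ∀ i, (p : ℝ) * ∑ z, ∑ z', (if c' i z = c' i z' then w i z z' else 0) ≤
        (p : ℝ) * ∑ z, ∑ z', (if c i z = c i z' then w i z z' else 0) +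
          (k : ℝ) * ∑ z, ∑ z', w i z z'

/-- list halving at times given by a code -/
def AndCoreSt (gr : I → SimpleGraph V) : Prop :=
  ∀ (r R T b κ m : ℕ) (F : I → V → ℕ → ℝ) (W : I → V → V → ℕ → ℕ → ℝ) (c : I → V → ℕ)
    (Mc : ℕ → Finset ℕ), Loc gr r F → Loc gr r W → Loc gr r c →
    (∀ i z z' a a', 0 ≤ W i z z' a a') →
    (∀ i z z' a a', W i z z' a a' ≠ 0 → Near (gr i) R z z' ∧ z ≠ z') → (∀ i z, c i z < m) →
    (∀ a, Mc a ⊆ range T) → (∀ a, (Mc a).card = b) →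
    (∀ a a', a < m → a' < m → a ≠ a' → (Mc a ∩ Mc a').card ≤ κ) →
    ∃ x : I → V → ℕ, Loc gr (r + (T + 1) * R) x ∧ (∀ i z, x i z < 2 ^ b) ∧
      ∀ i, ∑ z, F i z (x i z) + ∑ z, ∑ z', W i z z' (x i z) (x i z') ≤
        ∑ z, (∑ a ∈ range (2 ^ b), F i z a) / 2 ^ b +
          ∑ z, ∑ z', (if c i z = c i z' then (2 : ℝ) ^ b else 2 ^ κ) *
            ((∑ a ∈ range (2 ^ b), ∑ a' ∈ range (2 ^ b), W i z z' a a') / 4 ^ b)

/-- in `w` virtual rounds all agents choose `b` bits; pair costs lose a factor `Λ` -/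
def AndProp (gr : I → SimpleGraph V) (b : ℕ) (Λ : ℝ) (w : ℕ) : Prop :=
  ∀ (r R : ℕ) (F : I → V → ℕ → ℝ) (W : I → V → V → ℕ → ℕ → ℝ), Loc gr r F → Loc gr r W →
    (∀ i z z' a a', 0 ≤ W i z z' a a') →
    (∀ i z z' a a', W i z z' a a' ≠ 0 → Near (gr i) R z z' ∧ z ≠ z') →
    ∃ x : I → V → ℕ, Loc gr (r + w * R) x ∧ (∀ i z, x i z < 2 ^ b) ∧
      ∀ i, ∑ z, F i z (x i z) + ∑ z, ∑ z', W i z z' (x i z) (x i z') ≤
        ∑ z, (∑ a ∈ range (2 ^ b), F i z a) / 2 ^ b +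
          Λ * ((∑ z, ∑ z', ∑ a ∈ range (2 ^ b), ∑ a' ∈ range (2 ^ b), W i z z' a a') / 4 ^ b)

def AndSt (gr : I → SimpleGraph V) : Prop :=
  ∀ (idn : V → ℕ) (p1 k1 p2 k2 q κ b : ℕ) (Λ : ℝ), Function.Injective idn → p1.Prime →
    p2.Prime → (∀ v, idn v < p1 ^ (k1 + 1)) → p1 ^ 2 ≤ p2 ^ (k2 + 1) → 0 < q →
    p2 ^ 2 * 2 ^ b < q ^ (κ + 1) →
    (2 : ℝ) ^ κ + 2 ^ b * ((k1 : ℝ) / p1 + (k2 : ℝ) / p2) ≤ Λ → AndProp gr b Λ (b * q + 3)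

/-- many bits in linear time, with a large loss -/
def BigAndSt (gr : I → SimpleGraph V) : Prop :=
  ∀ (idn : V → ℕ) (L κ : ℕ), Function.Injective idn → (∀ v, idn v < 2 ^ L) → 1 ≤ L →
    L ≤ 2 ^ κ → AndProp gr (2 * κ) (2 ^ κ + 1) (2 ^ 11 * κ + 3)

/-- few bits, with a small loss -/
def SmallAndSt (gr : I → SimpleGraph V) : Prop :=
  ∀ (idn : V → ℕ) (L b e kk : ℕ), Function.Injective idn → (∀ v, idn v < 2 ^ L) → 1 ≤ L →
    1 ≤ e → (4 * 2 ^ b * e * L) ^ 2 ≤ 2 ^ kk →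
    AndProp gr b (1 + 1 / (e : ℝ)) (b * (2 ^ b * (4 * 2 ^ b * e * kk) ^ 2 + 1) + 3)

/-! ### asynchronous bit fixing -/

/-- conditional expectation of `2 ^ m` times the indicator of equal residues modulo `2 ^ m` -/
def xz (j m a a' : ℕ) : ℝ :=
  if a % 2 ^ min j m = a' % 2 ^ min j m then 2 ^ min j m else 0

/-- conditional expectation of `F` given the lowest `j` of `b` bits -/
def xe (F : ℕ → ℝ) (b j a : ℕ) : ℝ :=
  (∑ x ∈ range (2 ^ (b - j)), F (a + 2 ^ j * x)) / 2 ^ (b - j)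

/-- a block: node `v` starts at time `s v` and fixes `len` more bits -/
def XB (gr : I → SimpleGraph V) (c π len dur : ℕ) (mu : ℝ) : Prop :=
  ∀ (T : Type) (r b j : ℕ) (H : I → V → Finset V) (ω : I → V → V → ℝ) (m : I → V → V → ℕ)
    (F : I → V → ℕ → ℝ) (s a : I → V → ℕ) (tag : I → V → T) (μ : T → T → ℝ),
    IsSub gr H → Loc gr r H → Loc gr r ω → Loc gr r m → Loc gr r F →
    (∀ i v u, 0 ≤ ω i v u) → (∀ i v u, u ∈ H i v → ω i v u = ω i u v ∧ m i v u = m i u v) →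
    (∀ t t', 0 ≤ μ t t') → (∀ t t', μ t t' = μ t' t) → j + len ≤ b →
    VL gr (fun i v => r + c * s i v) (fun i v => (s i v, a i v, tag i v)) →
    (∀ i v u, u ∈ H i v → s i v % 2 ^ π = s i u % 2 ^ π) → (∀ i v, a i v < 2 ^ j) →
    ∃ a' : I → V → ℕ, VL gr (fun i v => r + c * (s i v + dur)) a' ∧
      (∀ i v, a' i v < 2 ^ (j + len)) ∧
      ∀ i, ∑ v, xe (F i v) b (j + len) (a' i v) + ∑ v, ∑ u ∈ H i v,
          ω i v u * μ (tag i v) (tag i u) * xz (j + len) (m i v u) (a' i v) (a' i u) ≤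
        ∑ v, xe (F i v) b j (a i v) + ∑ v, ∑ u ∈ H i v,
          ω i v u * μ (tag i v) (tag i u) * (if s i v = s i u then mu else 1) *
            xz j (m i v u) (a i v) (a i u)

def XB0St (gr : I → SimpleGraph V) : Prop := ∀ c : ℕ, 1 ≤ c → XB gr c 0 1 1 2

def XDblSt (gr : I → SimpleGraph V) : Prop :=
  ∀ (c π len dur : ℕ) (mu : ℝ), 0 ≤ mu → XB gr c π len dur mu →
    XB gr c π (2 * len) (2 * dur) (mu ^ 2)

def XUnSt (gr : I → SimpleGraph V) : Prop :=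
  ∀ (c π len dur wc : ℕ) (mu mu' Λ : ℝ), AndProp gr 1 Λ wc → wc + 1 ≤ c → 1 ≤ mu →
    Λ / 2 * (mu - 1) ≤ mu' - 1 → XB gr c π len dur mu →
    XB gr c (π + 1) len (dur + 1 + 2 ^ π) mu'

/-- all nodes choose `b` bits in `w` rounds; collisions cost twice their expectation -/
def XorProp (gr : I → SimpleGraph V) (b w : ℕ) : Prop :=
  ∀ (r : ℕ) (H : I → V → Finset V) (ω : I → V → V → ℝ) (m : I → V → V → ℕ)
    (F : I → V → ℕ → ℝ), IsSub gr H → Loc gr r H → Loc gr r ω → Loc gr r m → Loc gr r F →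
    (∀ i v u, 0 ≤ ω i v u) → (∀ i v u, u ∈ H i v → ω i v u = ω i u v ∧ m i v u = m i u v) →
    (∀ i v u, u ∈ H i v → m i v u ≤ b) →
    ∃ y : I → V → ℕ, Loc gr (r + w) y ∧ (∀ i v, y i v < 2 ^ b) ∧
      ∀ i, ∑ v, F i v (y i v) + ∑ v, ∑ u ∈ H i v,
          (if y i v % 2 ^ m i v u = y i u % 2 ^ m i v u then ω i v u * 2 ^ m i v u else 0) ≤
        ∑ v, (∑ x ∈ range (2 ^ b), F i v x) / 2 ^ b + 2 * ∑ v, ∑ u ∈ H i v, ω i v u

def XorSt (gr : I → SimpleGraph V) : Prop :=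
  ∀ I0 l wc : ℕ, AndProp gr 1 (1 + 1 / ((4 * I0 + 4 : ℕ) : ℝ)) wc →
    (4 * I0 + 4) * 3 ^ l ≤ 4 ^ l → XorProp gr (2 ^ I0) ((wc + 1) * 2 ^ (I0 + l) * (I0 + 3))

/-! ### clusters and almost-cliques -/

/-- every node points to a centre; a node sees at most `k` centres at its neighbours -/
def Dec (gr : I → SimpleGraph V) (r R k : ℕ) (lab : I → V → V) : Prop :=
  Loc gr r lab ∧ (∀ i u, Near (gr i) R u (lab i u)) ∧
    ∀ i v, ((nbr gr i v).image (lab i)).card ≤ k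

/-- the same for balls of radius `s` -/
def Clus (gr : I → SimpleGraph V) (r R s k : ℕ) (lab : I → V → V) : Prop :=
  Loc gr r lab ∧ (∀ i u, Near (gr i) R u (lab i u)) ∧
    ∀ i v, ((sel (fun u => Near (gr i) s v u)).image (lab i)).card ≤ k

def ClusSt (gr : I → SimpleGraph V) : Prop :=
  ∀ τ Λ α s : ℕ, HitProp gr τ → 0 < Λ → 0 < α → 0 < s →
    (Fintype.card V : ℝ) + (Fintype.card V : ℝ) ^ 2 < 4 ^ (α * Λ) →
    ∃ lab, Clus gr (2 * s + 2 * (α * Λ) * ((τ + 1) * (2 * s * (α + 1)) + 2 * s)) (2 * s * α) s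
      ((2 * (α * Λ) + 1) * (α * Λ * (2 ^ 14) ^ Λ)) lab

/-- every node points to a leader at distance at most two -/
def Lead (gr : I → SimpleGraph V) (r : ℕ) (cl : I → V → V) : Prop :=
  Loc gr r cl ∧ ∀ i v, Near (gr i) 2 v (cl i v)

def AcdSt (gr : I → SimpleGraph V) : Prop :=
  ∀ D E : ℕ, Deg gr D → 6 * E < D → ∃ (dn : I → V → Prop) (cl : I → V → V),
    Loc gr 4 dn ∧ Lead gr 4 cl ∧
    (∀ i v, dn i v → (extS (gr i) (cl i) (dn i) v).card ≤ E ∧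
      (antiS (gr i) (cl i) (dn i) v).card ≤ 3 * E ∧ D ≤ (nbr gr i v).card + E) ∧
    ∀ i v, ¬ dn i v → 2 * (nbr gr i v).card + E ≤ 2 * D ∨ E ≤ 2 * (spr (gr i) E v).card

/-! ### colouring of nodes with slack -/

/-- all nodes get colours `0, ..., D` in `T` rounds -/
def ColProp (gr : I → SimpleGraph V) (D T : ℕ) : Prop :=
  ∃ χ : I → V → ℕ, Loc gr T χ ∧ (∀ i v, χ i v ≤ D) ∧
    ∀ i v u, (gr i).Adj v u → χ i v ≠ χ i u

/-- balanced choice of `t` bits -/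
def TopProp (gr : I → SimpleGraph V) (t r0 w A : ℕ) : Prop :=
  ∀ (r : ℕ) (U : I → V → Prop) (O : I → V → Finset ℕ), r0 ≤ r → Loc gr r U → Loc gr r O →
    (∀ i v, U i v → O i v ⊆ range (2 ^ t) ∧ 2 ^ t ≤ 4 * (O i v).card) →
    ∃ p : I → V → ℕ, Loc gr (r + w) p ∧ (∀ i v, U i v → p i v ∈ O i v) ∧
      ∀ i v q, (sel (fun u => (gr i).Adj v u ∧ U i u ∧ p i u = q)).card * 2 ^ t ≤
        8 * (sel (fun u => (gr i).Adj v u ∧ U i u)).card + A * 2 ^ t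

def TopSt (gr : I → SimpleGraph V) : Prop :=
  (∀ (r0 R k lam t : ℕ) (lab : I → V → V), Dec gr r0 R k lab →
    4 * Fintype.card V * 2 ^ t ≤ 2 ^ lam → TopProp gr t r0 (2 * R + 1) (k * lam)) ∧
  TopProp gr 0 0 0 0

/-- the number of hash bits for a list of size `K` -/
def blen (K : ℕ) : ℕ := Nat.log 2 K - 3

/-- the hash values that are taken on a list -/
def cov (h : ℕ → ℕ) (L : Finset ℕ) : Finset ℕ := L.image (fun c => h c % 2 ^ blen L.card)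

/-- the number of hash bits of a node -/
def bl (G : SimpleGraph V) (D : ℕ) (χ : V → Option ℕ) (v : V) : ℕ := blen (lst G D χ v).card

/-- a node without colour whose list is spread by the hash function -/
def good (G : SimpleGraph V) (D : ℕ) (h : ℕ → ℕ) (χ : V → Option ℕ) (v : V) : Prop :=
  χ v = none ∧ 2 ^ bl G D χ v ≤ 2 * (cov h (lst G D χ v)).card

/-- `v` gives way to `u` -/
def chg (G : SimpleGraph V) (D : ℕ) (χ : V → Option ℕ) (A : V → Prop) (p : V → ℕ) (v u : V) :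
    Prop :=
  G.Adj v u ∧ A v ∧ A u ∧ p v = p u ∧
    (bl G D χ v < bl G D χ u ∨ (bl G D χ v = bl G D χ u ∧ v < u))

/-- the active nodes fix the remaining bits and try a colour -/
def PhBSt (gr : I → SimpleGraph V) : Prop :=
  ∀ (D t b w r : ℕ) (h : ℕ → ℕ) (χ : I → V → Option ℕ) (A : I → V → Prop) (p : I → V → ℕ)
    (wt : I → V → ℝ), XorProp gr b w → PC gr D r χ → Loc gr r A → Loc gr r p → Loc gr r wt →
    (∀ i v, 0 ≤ wt i v) →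
    (∀ i v, A i v → χ i v = none ∧ t ≤ bl (gr i) D (χ i) v ∧ bl (gr i) D (χ i) v ≤ t + b ∧
      p i v < 2 ^ t ∧ 2 ^ (bl (gr i) D (χ i) v - t) ≤
        4 * ((range (2 ^ (bl (gr i) D (χ i) v - t))).filter
          (fun y => p i v + 2 ^ t * y ∈ cov h (lst (gr i) D (χ i) v))).card) →
    ∃ χ', PC gr D (r + (w + 3)) χ' ∧ Ext χ χ' ∧
      ∀ i, ∑ v ∈ sel (fun v => A i v ∧ χ' i v = none), wt i v ≤
        3 / 4 * ∑ v ∈ sel (A i), wt i v +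
          2 * ∑ v, ((sel (chg (gr i) D (χ i) (A i) (p i) v)).card : ℝ) *
            (wt i v / 2 ^ (bl (gr i) D (χ i) v - t))

/-- one phase colours a constant fraction of the weight of the good nodes -/
def PhaseProp (gr : I → SimpleGraph V) (D t b A r0 w : ℕ) : Prop :=
  ∀ (r K0 : ℕ) (h : ℕ → ℕ) (χ : I → V → Option ℕ) (wt : I → V → ℝ), r0 ≤ r → PC gr D r χ →
    Loc gr r wt → (∀ i v, 0 ≤ wt i v) → 1 ≤ K0 → 16 * A * 2 ^ t ≤ K0 →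
    (t = 0 ∨ 16 * 2 ^ t ≤ K0) → D + 1 ≤ 2 ^ (t + b) →
    (∀ i v, χ i v = none → Sl (gr i) D (χ i) v K0) →
    ∃ χ', PC gr D (r + w) χ' ∧ Ext χ χ' ∧
      ∀ i, ∑ v ∈ sel (fun v => good (gr i) D h (χ i) v ∧ χ' i v = none), wt i v ≤
        (1 - 1 / 2 ^ 16) * ∑ v ∈ sel (good (gr i) D h (χ i)), wt i v

def PhaseSt (gr : I → SimpleGraph V) : Prop :=
  ∀ D t b A r0 w1 w2 w3 : ℕ, XorProp gr b w1 → AndProp gr 13 2 w2 → TopProp gr t r0 w3 A →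
    PhaseProp gr D t b A r0 (w1 + w2 + w3 + 6)

def SlackColSt (gr : I → SimpleGraph V) : Prop :=
  ∀ (D t b A r0 w L σ K0 r : ℕ) (χ : I → V → Option ℕ), PhaseProp gr D t b A r0 w →
    Fintype.card V ≤ 2 ^ L → 1 ≤ K0 → D + 1 ≤ 2 ^ σ * K0 → 16 * A * 2 ^ t ≤ K0 →
    (t = 0 ∨ 16 * 2 ^ t ≤ K0) → D + 1 ≤ 2 ^ (t + b) → r0 ≤ r → PC gr D r χ →
    (∀ i v, χ i v = none → Sl (gr i) D (χ i) v K0) →
    ColProp gr D (r + (2 ^ 17 * (L + 1) + (4 * σ + 16) * (σ + 3)) * (w + 1))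

/-! ### generation of slack -/

open Classical in
/-- a sample: about a fraction `1 / 2 ^ b` of the candidates try a colour of their palette -/
def SampProp (gr : I → SimpleGraph V) (D r0 b a : ℕ) (Λ : ℝ) (w : ℕ) : Prop :=
  ∀ (r Q : ℕ) (Cn : I → V → Prop) (P : I → V → Finset ℕ) (hit : I → V → V → V → ℕ → Prop)
    (κ : I → V → V → ℝ), r0 ≤ r → 0 < Q → Loc gr r Cn → Loc gr r P → Loc gr r hit →
    Loc gr r κ → (∀ i x, Cn i x → P i x ⊆ range (D + 1) ∧ Q ≤ 2 * (P i x).card) →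
    (∀ i x v u c, hit i x v u c → (gr i).Adj v x) → (∀ i x z, 0 ≤ κ i x z) →
    (∀ i x z, κ i x z ≠ 0 → Near (gr i) 2 x z) →
    ∃ act : I → V → Option ℕ, Loc gr (r + w) act ∧
      (∀ i x c, act i x = some c → Cn i x ∧ c ∈ P i x) ∧
      (∀ i v, 2 ^ b * (sel (fun x => (gr i).Adj v x ∧ act i x ≠ none)).card ≤ 2 * D + 2 ^ b * a) ∧
      (∀ i v u, (∑ x ∈ sel (Cn i), (((P i x).filter (fun c => hit i x v u c)).card : ℝ) /
          (P i x).card) / (2 * 2 ^ b) ≤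
        ((sel (fun x => ∃ c, act i x = some c ∧ hit i x v u c)).card : ℝ) + a) ∧
      ∀ i, ∑ x, ∑ z, κ i x z * ((sel (fun y => (gr i).Adj z y ∧ y ≠ x ∧ act i x ≠ none ∧
          act i y = act i x)).card : ℝ) ≤
        Λ * (4 * D / Q + a) / 4 ^ b * ∑ x, ∑ z, κ i x z

open Classical in
/-- the centres choose a colour `c` and a slot `sl` for each candidate -/
def SampASt (gr : I → SimpleGraph V) : Prop :=
  ∀ (D r R k lam b Q : ℕ) (lab : I → V → V) (Cn : I → V → Prop) (P : I → V → Finset ℕ)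
    (hit : I → V → V → V → ℕ → Prop) (κ : I → V → V → ℝ), Deg gr D → Dec gr r R k lab →
    4 * Fintype.card V ^ 2 * (D + 1 + 2 ^ b) ≤ 2 ^ lam → 0 < Q → Loc gr r Cn → Loc gr r P →
    Loc gr r hit → Loc gr r κ →
    (∀ i x, Cn i x → P i x ⊆ range (D + 1) ∧ Q ≤ 2 * (P i x).card) →
    (∀ i x v u c, hit i x v u c → (gr i).Adj v x) → (∀ i x z, 0 ≤ κ i x z) →
    ∃ c sl : I → V → ℕ, Loc gr (r + (2 * R + 1)) c ∧ Loc gr (r + (2 * R + 1)) sl ∧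
      (∀ i x, Cn i x → c i x ∈ P i x ∧ sl i x < 2 ^ b) ∧
      (∀ i v (y : V → ℕ), 2 ^ b * (sel (fun x => (gr i).Adj v x ∧ Cn i x ∧
        sl i x = y (lab i x))).card ≤ 2 * D + 2 ^ b * (k * lam)) ∧
      (∀ i v u (y : V → ℕ), (∀ z, y z < 2 ^ b) →
        (∑ x ∈ sel (Cn i), (((P i x).filter (fun c => hit i x v u c)).card : ℝ) /
          (P i x).card) / (2 * 2 ^ b) ≤
        ((sel (fun x => Cn i x ∧ sl i x = y (lab i x) ∧ hit i x v u (c i x))).card : ℝ) +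
          (k * lam : ℕ)) ∧
      (∀ i z col, ((sel (fun y => (gr i).Adj z y ∧ Cn i y ∧ c i y = col)).card : ℝ) ≤
        4 * D / Q + (k * lam : ℕ)) ∧
      ∀ i, ∑ x, ∑ z, κ i x z * ((sel (fun y => (gr i).Adj z y ∧ y ≠ x ∧ Cn i x ∧ Cn i y ∧
          lab i y = lab i x ∧ c i y = c i x ∧ sl i y = sl i x)).card : ℝ) ≤
        6 * D / (Q * 2 ^ b) * ∑ x, ∑ z, κ i x z

def SampSt (gr : I → SimpleGraph V) : Prop :=
  ∀ (D r0 R k lam b w : ℕ) (Λ : ℝ) (lab : I → V → V), Deg gr D → Dec gr r0 R k lab →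
    AndProp gr b Λ w → 0 ≤ Λ → 4 * Fintype.card V ^ 2 * (D + 1 + 2 ^ b) ≤ 2 ^ lam →
    SampProp gr D r0 b (k * lam) (Λ + 3) (4 * R + 4 + w * (2 * R + 3))

/-- first half of an attempt: colours of a fresh segment appear -/
def A1St (gr : I → SimpleGraph V) : Prop :=
  ∀ (D r0 b a w r E lo Q c0 ρ g : ℕ) (Λ : ℝ) (χ : I → V → Option ℕ) (Y : I → V → Prop),
    Deg gr D → SampProp gr D r0 b a Λ w → r0 ≤ r → PC gr D r χ → Loc gr r Y → 0 < Q →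
    lo + Q ≤ D + 1 → (∀ i v c, χ i v = some c → c < lo) →
    (∀ i v, (cold (gr i) (χ i) v).card ≤ c0) →
    (∀ i v, Y i v → E ≤ 2 * (spr (gr i) E v).card) → 2 * D + 2 ^ b * a ≤ 2 ^ b * ρ →
    8 * (c0 + ρ + 1) ≤ E → 16 * 2 ^ b * a ≤ E → 0 ≤ Λ →
    (g : ℝ) * Λ * (4 * D / Q + a) * (384 * D ^ 2) ≤ 2 ^ b * E ^ 2 →
    ∃ χ', PC gr D (r + (w + 4)) χ' ∧ Ext χ χ' ∧ (∀ i v c, χ' i v = some c → c < lo + Q) ∧
      (∀ i v, (cold (gr i) (χ' i) v).card ≤ c0 + ρ) ∧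
      (∀ i v, (rs (gr i) (χ' i) lo Q v).card ≤ ρ) ∧
      ∀ i, g * (sel (fun v => Y i v ∧
        128 * 2 ^ b * gap (gr i) E (χ' i) lo Q v < E ^ 2)).card ≤ (sel (Y i)).card

/-- second half of an attempt: colours are repeated -/
def A2St (gr : I → SimpleGraph V) : Prop :=
  ∀ (D r0 b a w r E lo Q c0 ρ ρ0 g M1 s0 : ℕ) (Λ : ℝ) (χ : I → V → Option ℕ)
    (Y : I → V → Prop), Deg gr D → SampProp gr D r0 b a Λ w → r0 ≤ r → PC gr D r χ →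
    Loc gr r Y → 0 < Q → lo + Q ≤ D + 1 → (∀ i v c, χ i v = some c → c < lo + Q) →
    (∀ i v, (cold (gr i) (χ i) v).card ≤ c0) → (∀ i v, (rs (gr i) (χ i) lo Q v).card ≤ ρ0) →
    2 * ρ0 ≤ Q → (∀ i v, Y i v → E ^ 2 ≤ 128 * M1 * gap (gr i) E (χ i) lo Q v) →
    2 * D + 2 ^ b * a ≤ 2 ^ b * ρ → 0 < E → 0 < M1 → 1024 * M1 * 2 ^ b * Q * a ≤ E ^ 2 →
    512 * M1 * 2 ^ b * Q * s0 ≤ E ^ 2 → 0 ≤ Λ →
    (g : ℝ) * Λ * (4 * D / Q + a) * (1024 * D * M1 * Q) ≤ 2 ^ b * E ^ 2 →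
    ∃ χ', PC gr D (r + (w + 4)) χ' ∧ Ext χ χ' ∧ (∀ i v c, χ' i v = some c → c < lo + Q) ∧
      (∀ i v, (cold (gr i) (χ' i) v).card ≤ c0 + ρ) ∧
      ∀ i, g * (sel (fun v => Y i v ∧ ¬ Sl (gr i) D (χ' i) v s0)).card ≤ (sel (Y i)).card

def SlackSt (gr : I → SimpleGraph V) : Prop :=
  ∀ (D r0 b1 b2 a w1 w2 r E Q ρ g J s0 : ℕ) (Λ1 Λ2 : ℝ) (Y : I → V → Prop), Deg gr D →
    SampProp gr D r0 b1 a Λ1 w1 → SampProp gr D r0 b2 a Λ2 w2 → r0 ≤ r → Loc gr r Y → 0 < Q →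
    J * Q ≤ D + 1 → (∀ i v, Y i v → E ≤ 2 * (spr (gr i) E v).card) →
    2 * D + 2 ^ b1 * a ≤ 2 ^ b1 * ρ → 2 * D + 2 ^ b2 * a ≤ 2 ^ b2 * ρ →
    8 * (2 * J * ρ + 1) ≤ E → 2 * ρ ≤ Q → 16 * 2 ^ b1 * a ≤ E →
    1024 * 2 ^ b1 * 2 ^ b2 * Q * a ≤ E ^ 2 → 512 * 2 ^ b1 * 2 ^ b2 * Q * s0 ≤ E ^ 2 →
    0 ≤ Λ1 → 0 ≤ Λ2 →
    2 * (g : ℝ) * Λ1 * (4 * D / Q + a) * (384 * D ^ 2) ≤ 2 ^ b1 * E ^ 2 →
    2 * (g : ℝ) * Λ2 * (4 * D / Q + a) * (1024 * D * 2 ^ b1 * Q) ≤ 2 ^ b2 * E ^ 2 →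
    Fintype.card V < g ^ J →
    ∃ χ, PC gr D (r + J * (w1 + w2 + 12)) χ ∧
      (∀ i v, (cold (gr i) (χ i) v).card ≤ 2 * J * ρ) ∧ ∀ i v, Y i v → Sl (gr i) D (χ i) v s0

/-! ### dense nodes -/

/-- the nodes of `F` get colours if enough neighbours stay without colour -/
def LcProp (gr : I → SimpleGraph V) (D r0 : ℕ) (cl : I → V → V) (M w : ℕ) : Prop :=
  ∀ (r x : ℕ) (χ : I → V → Option ℕ) (F : I → V → Prop), r0 ≤ r → PC gr D r χ → Loc gr r F →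
    (∀ i v, F i v → χ i v = none ∧ (extS (gr i) (cl i) (F i) v).card ≤ x ∧
      (antiS (gr i) (cl i) (F i) v).card ≤ x ∧
      (4 * M + 1) * x ≤ (sel (fun u => (gr i).Adj v u ∧ χ i u = none ∧ ¬ F i u)).card) →
    ∃ χ', PC gr D (r + w) χ' ∧ Ext χ χ' ∧ (∀ i v, F i v → χ' i v ≠ none) ∧
      ∀ i v, ¬ F i v → χ' i v = χ i v

/-- the centres choose `M` candidate colourings of every clique -/
def LcASt (gr : I → SimpleGraph V) : Prop :=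
  ∀ (D r R k lam M x : ℕ) (lab cl : I → V → V) (χ : I → V → Option ℕ) (F : I → V → Prop),
    Deg gr D → Dec gr r R k lab → Loc gr r cl →
    (∀ i u v, cl i u = cl i v → lab i u = lab i v) →
    4 * Fintype.card V * (D + 1) ≤ 2 ^ lam → Loc gr r χ → Loc gr r F →
    (∀ i v, F i v → χ i v = none ∧ (extS (gr i) (cl i) (F i) v).card ≤ x ∧
      (antiS (gr i) (cl i) (F i) v).card ≤ x ∧
      (4 * M + 1) * x ≤ (sel (fun u => (gr i).Adj v u ∧ χ i u = none ∧ ¬ F i u)).card) →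
    ∃ c : I → V → ℕ → ℕ, Loc gr (r + (2 * R + 1)) c ∧
      (∀ i v y, F i v → y < M → c i v y ∈ lst (gr i) D (χ i) v) ∧
      (∀ i v u y, F i v → F i u → cl i v = cl i u → v ≠ u → y < M → c i v y ≠ c i u y) ∧
      ∀ i v col, F i v → ∑ u ∈ extS (gr i) (cl i) (F i) v,
        ((range M).filter (fun y => c i u y = col)).card ≤ 1 + k * lam

def LcSt (gr : I → SimpleGraph V) : Prop :=
  ∀ (D r0 R k lam b w g J : ℕ) (Λ : ℝ) (lab cl : I → V → V), Deg gr D → Dec gr r0 R k lab →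
    Lead gr r0 cl → (∀ i u v, cl i u = cl i v → lab i u = lab i v) → AndProp gr b Λ w →
    0 ≤ Λ → (g : ℝ) * Λ * (1 + k * lam) ≤ 2 ^ b → Fintype.card V < g ^ J →
    4 * Fintype.card V * (D + 1) ≤ 2 ^ lam →
    LcProp gr D r0 cl (2 ^ b) (J * (2 * R + 5 * w + 12))

/-- a well spread subset of given size in every big clique -/
def PaProp (gr : I → SimpleGraph V) (r0 : ℕ) (cl : I → V → V) (a w : ℕ) : Prop :=
  ∀ (r n0 n' x : ℕ) (U Big : I → V → Prop), r0 ≤ r → Loc gr r U → Loc gr r Big →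
    (∀ i u v, cl i u = cl i v → Big i u → Big i v) → 2 * n' ≤ n0 →
    (∀ i v, U i v → (extS (gr i) (cl i) (U i) v).card ≤ x ∧
      (antiS (gr i) (cl i) (U i) v).card ≤ x) →
    (∀ i v, U i v → Big i v → n0 ≤ (clq (cl i) (U i) v).card) →
    ∃ P : I → V → Prop, Loc gr (r + w) P ∧ (∀ i v, P i v → U i v ∧ Big i v) ∧
      (∀ i v, U i v → Big i v → (clq (cl i) (P i) v).card = n') ∧
      ∀ i v, U i v → n0 * (extS (gr i) (cl i) (P i) v).card ≤ 4 * n' * x + n0 * a ∧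
        n0 * (antiS (gr i) (cl i) (P i) v).card ≤ 4 * n' * x + n0 * a

def PaSt (gr : I → SimpleGraph V) : Prop :=
  ∀ (r0 R k lam : ℕ) (lab cl : I → V → V), Dec gr r0 R k lab → Lead gr r0 cl →
    (∀ i u v, cl i u = cl i v → lab i u = lab i v) → 1 ≤ k →
    8 * Fintype.card V ≤ 2 ^ lam → PaProp gr r0 cl (k * lam) (2 * R + 4)

/-- the last reserve: `J` groups without edges between different cliques -/
def FaProp (gr : I → SimpleGraph V) (r0 : ℕ) (cl : I → V → V) (M J q w : ℕ) : Prop :=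
  ∀ (r p x : ℕ) (U Big : I → V → Prop), r0 ≤ r → Loc gr r U → Loc gr r Big →
    (∀ i u v, cl i u = cl i v → Big i u → Big i v) → p * x ≤ q →
    (∀ i v, U i v → (extS (gr i) (cl i) (U i) v).card ≤ x) →
    (∀ i v, U i v → Big i v → p * M ≤ (clq (cl i) (U i) v).card) →
    ∃ idx : I → V → Option ℕ, Loc gr (r + w) idx ∧
      (∀ i v j, idx i v = some j → U i v ∧ Big i v ∧ j < J) ∧
      (∀ i v, U i v → Big i v → (clq (cl i) (fun u => idx i u ≠ none) v).card = p) ∧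
      ∀ i v u j, (gr i).Adj v u → idx i v = some j → idx i u = some j → cl i v = cl i u

def FaSt (gr : I → SimpleGraph V) : Prop :=
  ∀ (r0 b w g J q : ℕ) (Λ : ℝ) (cl : I → V → V), Lead gr r0 cl → AndProp gr b Λ w → 0 ≤ Λ →
    (g : ℝ) * Λ * q ≤ 2 ^ b → Fintype.card V < g ^ J →
    FaProp gr r0 cl (2 ^ b) J q (6 + J * (5 * w + 10))

/-- the leaders colour greedily -/
def LgSt (gr : I → SimpleGraph V) : Prop :=
  ∀ (D r : ℕ) (cl : I → V → V) (χ : I → V → Option ℕ) (F : I → V → Prop), Deg gr D →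
    Lead gr r cl → PC gr D r χ → Loc gr r F → (∀ i v, F i v → χ i v = none) →
    (∀ i v u, (gr i).Adj v u → F i v → F i u → cl i v = cl i u) →
    ∃ χ', PC gr D (r + 5) χ' ∧ Ext χ χ' ∧ (∀ i v, F i v → χ' i v ≠ none) ∧
      ∀ i v, ¬ F i v → χ' i v = χ i v

def DenseSt (gr : I → SimpleGraph V) : Prop :=
  ∀ (D r0 M M3 J q a wl wp wf Θ ns xf p : ℕ) (cl : I → V → V), Deg gr D → Lead gr r0 cl →
    LcProp gr D r0 cl M wl → PaProp gr r0 cl a wp → FaProp gr r0 cl M3 J q wf → 2 ≤ Θ →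
    p * M3 ≤ ns → p * xf ≤ q → (4 * M + 2) * xf * Θ ≤ ns → (4 * M + 2) * xf ≤ p →
    ∀ (m xs r : ℕ) (χ : I → V → Option ℕ) (U Big : I → V → Prop), 1 ≤ xs → a ≤ xs →
      8 ^ m * xs ≤ xf → r0 ≤ r → PC gr D r χ → Loc gr r U → Loc gr r Big →
      (∀ i u v, cl i u = cl i v → Big i u → Big i v) →
      (∀ i v, U i v → χ i v = none ∧ (extS (gr i) (cl i) (U i) v).card ≤ Θ ^ m * xs ∧
        (antiS (gr i) (cl i) (U i) v).card ≤ Θ ^ m * xs) →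
      (∀ i v, U i v → Big i v → Θ ^ m * ns ≤ (clq (cl i) (U i) v).card) →
      (∀ i v, U i v → ¬ Big i v → (4 * M + 1) * (Θ ^ m * xf) ≤
        (sel (fun u => (gr i).Adj v u ∧ χ i u = none ∧ ¬ U i u)).card) →
      ∃ χ', PC gr D (r + (m * (wp + wl) + wf + wl + 5 * J)) χ' ∧ Ext χ χ' ∧
        ∀ i v, U i v → χ' i v ≠ none

/-! ### large degrees -/

/-- all nodes that stay without colour have a large slack -/
def PreSt (gr : I → SimpleGraph V) : Prop :=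
  ∀ (D L s r0 k : ℕ) (lab0 : I → V → V), Deg gr D → Fintype.card V ≤ 2 ^ L → L + 1 ≤ s ^ 2 →
    2 ≤ s → (2 ^ (30 * s)) ^ 420 ≤ D → D < Fintype.card V →
    Clus gr r0 (6 * s) 3 k lab0 → 1 ≤ k → k * (3 * L + 3) ≤ 2 ^ (22 * s) →
    (∀ κ, 30 * s ≤ κ → AndProp gr (2 * κ) (2 ^ κ + 1) (2 ^ 11 * κ + 3)) →
    ∃ χ, PC gr D (r0 + 2 ^ 32 * s ^ 3) χ ∧
      ∀ i v, χ i v = none → Sl (gr i) D (χ i) v (D / (2 ^ (30 * s)) ^ 412)

def BigSt (gr : I → SimpleGraph V) : Prop :=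
  ∀ D L s τ b w1 w2 ω : ℕ, Deg gr D → Fintype.card V ≤ 2 ^ L → L + 1 ≤ s ^ 2 → 2 ≤ s →
    (2 ^ (30 * s)) ^ 420 ≤ D → D < Fintype.card V → HitProp gr τ →
    (∀ κ, 30 * s ≤ κ → AndProp gr (2 * κ) (2 ^ κ + 1) (2 ^ 11 * κ + 3)) →
    AndProp gr 13 2 w2 → XorProp gr b w1 → 12600 * s ≤ b → 1 ≤ ω → τ ≤ ω → w2 ≤ ω →
    w1 ≤ s * ω → ColProp gr D (2 ^ 40 * s ^ 3 * ω)

/-! ### the end -/

def LocSt {N : ℕ} (gr : I → SimpleGraph (Fin N)) : Prop :=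
  ∀ D L s kk σ : ℕ, Deg gr D → N ≤ 2 ^ L → 1 ≤ L → L + 1 ≤ s ^ 2 → s ^ 2 ≤ 4 * L → 2 ≤ s →
    1 ≤ D → D < N → D + 1 ≤ 2 ^ σ → 2 ^ σ ≤ 2 * D → L ≤ 2 ^ kk → 1 ≤ kk →
    ColProp gr D (2 ^ 112 * (L * min σ s * kk ^ 8))

def TimeSt : Prop :=
  ∀ N D : ℕ, 16 ≤ N → 2 ≤ D → ∃ L s kk σ : ℕ, N ≤ 2 ^ L ∧ 1 ≤ L ∧ L + 1 ≤ s ^ 2 ∧
    s ^ 2 ≤ 4 * L ∧ 2 ≤ s ∧ D + 1 ≤ 2 ^ σ ∧ 2 ^ σ ≤ 2 * D ∧ L ≤ 2 ^ kk ∧ 1 ≤ kk ∧
    ((L * min σ s * kk ^ 8 : ℕ) : ℝ) ≤ 10 ^ 10 * Real.log N *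
      min (Real.log D) (Real.sqrt (Real.log N)) * Real.log (Real.log N) ^ 8

end

end Pool.Agent.P.MP_6f280c_lc.Dc
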